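import Mathlib
import Pool.Agent.H319R3.GC.Main

/-!
# Graph directed Collatz systems

Finitely many states `i`; in the state `i` the integer `y ≡ a` modulo `n i`, `0 ≤ a < n i`, is mapped to
`(b i * y - c i a) / n i` in the state `nx i a`. The multipliers `b i` are coprime to all the `n j`.
-/

set_option autoImplicit false

namespace Pool.Agent.Zk39.GD

open Finset Pool.Agent.H319R3.GC

/-- a graph directed Collatz system -/
structure GS (ι : Type) where
  /-- denominators -/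
  n : ι → ℕ
  /-- multipliers -/
  b : ι → ℤ
  /-- offsets -/
  c : ι → ℕ → ℤ
  /-- next state -/
  nx : ι → ℕ → ι
  n_pos : ∀ i, 0 < n i
  b_ne : ∀ i, b i ≠ 0
  cop : ∀ i j, IsCoprime (b i) (n j : ℤ)
  adm : ∀ i a, a < n i → (n i : ℤ) ∣ b i * a - c i a

namespace GS

variable {ι : Type} (G : GS ι)

/-- the last state of a path -/
def en : ι → List ℕ → ι
  | i, [] => i
  | i, a :: w => en (G.nx i a) w

/-- valid digits -/
def Vd : ι → List ℕ → Prop
  | _, [] => True
  | i, a :: w => a < G.n i ∧ Vd (G.nx i a) w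

/-- the paths of length `k` -/
def Pth : ℕ → ι → Finset (List ℕ)
  | 0, _ => {[]}
  | k + 1, i => (range (G.n i)).biUnion fun a => (Pth k (G.nx i a)).image (List.cons a)

/-- one step -/
def step (z : ι × ℤ) : ι × ℤ :=
  (G.nx z.1 (z.2 % G.n z.1).toNat, (G.b z.1 * z.2 - G.c z.1 (z.2 % G.n z.1).toNat) / G.n z.1)

/-- the digits -/
def wd : ℕ → ι × ℤ → List ℕ
  | 0, _ => []
  | k + 1, z => (z.2 % G.n z.1).toNat :: wd k (G.step z)

section

variable [DecidableEq ι]

/-- the numbers of the visits to the states -/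
def ct : ι → List ℕ → (ι → ℕ)
  | _, [] => 0
  | i, a :: w => Pi.single i 1 + ct (G.nx i a) w

end

section

variable [Fintype ι]

/-- multiplier -/
def Mv (v : ι → ℕ) : ℤ := ∏ j, G.b j ^ v j

/-- denominator -/
def Nv (v : ι → ℕ) : ℕ := ∏ j, G.n j ^ v j

theorem Mv_add (v w : ι → ℕ) : G.Mv (v + w) = G.Mv v * G.Mv w := by
  unfold Mv
  rw [← prod_mul_distrib]
  exact prod_congr rfl fun j _ => pow_add _ _ _

theorem Nv_add (v w : ι → ℕ) : G.Nv (v + w) = G.Nv v * G.Nv w := by
  unfold Nv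
  rw [← prod_mul_distrib]
  exact prod_congr rfl fun j _ => pow_add _ _ _

theorem Mv_zero : G.Mv 0 = 1 := by simp [Mv]

theorem Nv_zero : G.Nv 0 = 1 := by simp [Nv]

theorem Nv_pos (v : ι → ℕ) : 0 < G.Nv v := prod_pos fun j _ => pow_pos (G.n_pos j) _

theorem Nv_posR (v : ι → ℕ) : (0 : ℝ) < G.Nv v := by exact_mod_cast G.Nv_pos v

theorem Mv_ne (v : ι → ℕ) : G.Mv v ≠ 0 := prod_ne_zero_iff.2 fun j _ => pow_ne_zero _ (G.b_ne j)

theorem Mv_cop (v : ι → ℕ) (j : ι) : IsCoprime (G.Mv v) (G.n j : ℤ) :=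
  IsCoprime.prod_left fun i _ => (G.cop i j).pow_left

theorem Mv_cop_Nv (v w : ι → ℕ) : IsCoprime (G.Mv v) (G.Nv w : ℤ) := by
  unfold Nv
  push_cast
  exact IsCoprime.prod_right fun j _ => (G.Mv_cop v j).pow_right

variable [DecidableEq ι]

theorem Mv_single (i : ι) : G.Mv (Pi.single i 1) = G.b i := by
  unfold Mv
  rw [prod_eq_single i]
  · rw [Pi.single_eq_same, pow_one]
  · intro j _ hj
    rw [Pi.single_eq_of_ne hj, pow_zero]
  · intro h; exact absurd (mem_univ i) h

theorem Nv_single (i : ι) : G.Nv (Pi.single i 1) = G.n i := by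
  unfold Nv
  rw [prod_eq_single i]
  · rw [Pi.single_eq_same, pow_one]
  · intro j _ hj
    rw [Pi.single_eq_of_ne hj, pow_zero]
  · intro h; exact absurd (mem_univ i) h

/-- offset of a path -/
def Ww : ι → List ℕ → ℤ
  | _, [] => 0
  | i, a :: w => G.c i a * G.Mv (G.ct (G.nx i a) w) + G.n i * Ww (G.nx i a) w

/-- paths with given end and given numbers of visits -/
def gr (k : ℕ) (i j : ι) (v : ι → ℕ) : Finset (List ℕ) := (G.Pth k i).filter fun w => G.en i w = j ∧ G.ct i w = v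

/-- possible numbers of visits -/
def Vs (ι : Type) [Fintype ι] [DecidableEq ι] (k : ℕ) : Finset (ι → ℕ) := Fintype.piFinset fun _ => range (k + 1)

/-- expectation over the paths of length `k` -/
noncomputable def Ex (k : ℕ) (i : ι) (f : List ℕ → ℝ) : ℝ := ∑ w ∈ G.Pth k i, f w / G.Nv (G.ct i w)

/-- nonuniformity of the digit `D → D R` of the offset -/
noncomputable def gg (k : ℕ) (i j : ι) (D R : ℕ) : ℝ :=
  ∑ v ∈ Vs ι k, Gam (G.gr k i j v) (G.Ww i) D R / G.Nv v

/-- entropy functional -/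
noncomputable def ED (k : ℕ) (i j : ι) (D : ℕ) : ℝ :=
  ∑ v ∈ Vs ι k, EE (G.gr k i j v) (G.Ww i) D / G.Nv v

end

/-! ### Paths -/

theorem mem_Pth {k : ℕ} {i : ι} {w : List ℕ} : w ∈ G.Pth k i ↔ w.length = k ∧ G.Vd i w := by
  induction k generalizing i w with
  | zero =>
    simp only [Pth, mem_singleton]
    constructor
    · rintro rfl; simp [Vd]
    · rintro ⟨h, -⟩; exact List.length_eq_zero_iff.1 h
  | succ k ih =>
    simp only [Pth, mem_biUnion, mem_range, mem_image]
    constructor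
    · rintro ⟨a, ha, u, hu, rfl⟩
      obtain ⟨h1, h2⟩ := ih.1 hu
      exact ⟨by simp [h1], ha, h2⟩
    · rintro ⟨h1, h2⟩
      cases w with
      | nil => simp at h1
      | cons a u =>
        exact ⟨a, h2.1, u, ih.2 ⟨by simpa using h1, h2.2⟩, rfl⟩

theorem sum_Pth_succ {M : Type*} [AddCommMonoid M] (k : ℕ) (i : ι) (f : List ℕ → M) :
    ∑ w ∈ G.Pth (k + 1) i, f w = ∑ a ∈ range (G.n i), ∑ w ∈ G.Pth k (G.nx i a), f (a :: w) := by
  show ∑ w ∈ (range (G.n i)).biUnion (fun a => (G.Pth k (G.nx i a)).image (List.cons a)), f w = _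
  rw [sum_biUnion]
  · refine sum_congr rfl fun a _ => ?_
    rw [sum_image]
    intro u _ v _ huv
    exact (List.cons_inj_right a).1 huv
  · intro a _ a' _ haa
    change Disjoint _ _
    rw [Finset.disjoint_left]
    intro w hw hw'
    rw [mem_image] at hw hw'
    obtain ⟨u, _, rfl⟩ := hw
    obtain ⟨u', _, h⟩ := hw'
    exact haa (List.cons_eq_cons.1 h).1.symm

theorem Pth_zero (i : ι) : G.Pth 0 i = {[]} := rfl

theorem en_append (i : ι) (u v : List ℕ) : G.en i (u ++ v) = G.en (G.en i u) v := by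
  induction u generalizing i with
  | nil => rfl
  | cons a u ih => simp only [List.cons_append, en]; exact ih _

theorem sum_Pth_add {M : Type*} [AddCommMonoid M] (k l : ℕ) (i : ι) (f : List ℕ → M) :
    ∑ w ∈ G.Pth (k + l) i, f w = ∑ u ∈ G.Pth k i, ∑ v ∈ G.Pth l (G.en i u), f (u ++ v) := by
  induction k generalizing i f with
  | zero =>
    rw [zero_add, Pth_zero, sum_singleton]
    rfl
  | succ k ih =>
    rw [show k + 1 + l = (k + l) + 1 by omega, sum_Pth_succ, sum_Pth_succ]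
    refine sum_congr rfl fun a _ => ?_
    rw [ih]
    rfl

theorem Vd_append {i : ι} {u v : List ℕ} : G.Vd i (u ++ v) ↔ G.Vd i u ∧ G.Vd (G.en i u) v := by
  induction u generalizing i with
  | nil => simp [Vd, en]
  | cons a u ih => simp only [List.cons_append, Vd, en, ih, and_assoc]

section

variable [DecidableEq ι]

theorem ct_append (i : ι) (u v : List ℕ) : G.ct i (u ++ v) = G.ct i u + G.ct (G.en i u) v := by
  induction u generalizing i with
  | nil => simp [ct, en]
  | cons a u ih => simp only [List.cons_append, ct, en, ih, add_assoc]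

theorem sum_ct [Fintype ι] (i : ι) (w : List ℕ) : ∑ j, G.ct i w j = w.length := by
  induction w generalizing i with
  | nil => simp [ct]
  | cons a w ih =>
    simp only [ct, Pi.add_apply, sum_add_distrib, ih, List.length_cons]
    rw [Finset.sum_pi_single']
    simp [add_comm]

theorem ct_le [Fintype ι] (i : ι) (w : List ℕ) (j : ι) : G.ct i w j ≤ w.length := by
  rw [← G.sum_ct i w]
  exact single_le_sum (f := fun j => G.ct i w j) (fun _ _ => Nat.zero_le _) (mem_univ j)

end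

section

variable [Fintype ι] [DecidableEq ι]

theorem ct_mem {k : ℕ} {i : ι} {w : List ℕ} (hw : w ∈ G.Pth k i) : G.ct i w ∈ Vs ι k := by
  unfold Vs
  rw [Fintype.mem_piFinset]
  intro j
  rw [mem_range]
  have h1 := G.ct_le i w j
  have h2 := (G.mem_Pth.1 hw).1
  omega

theorem card_Vs (k : ℕ) : (Vs ι k).card = (k + 1) ^ Fintype.card ι := by
  unfold Vs
  rw [Fintype.card_piFinset]
  simp

theorem Ww_append (i : ι) (u v : List ℕ) :
    G.Ww i (u ++ v) = G.Mv (G.ct (G.en i u) v) * G.Ww i u + G.Nv (G.ct i u) * G.Ww (G.en i u) v := by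
  induction u generalizing i with
  | nil => simp [Ww, en, ct, Nv_zero]
  | cons a u ih =>
    simp only [List.cons_append, Ww, en, ct, ih, ct_append, Mv_add, Nv_add, Nv_single]
    push_cast
    ring

theorem mem_gr {k : ℕ} {i j : ι} {v : ι → ℕ} {w : List ℕ} :
    w ∈ G.gr k i j v ↔ (w.length = k ∧ G.Vd i w) ∧ G.en i w = j ∧ G.ct i w = v := by
  unfold gr
  rw [mem_filter, mem_Pth]

/-- sum over all groups -/
theorem sum_gr {M : Type*} [AddCommMonoid M] (k : ℕ) (i : ι) (f : List ℕ → M) :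
    ∑ j, ∑ v ∈ Vs ι k, ∑ w ∈ G.gr k i j v, f w = ∑ w ∈ G.Pth k i, f w := by
  classical
  have h1 : ∀ j, ∑ v ∈ Vs ι k, ∑ w ∈ G.gr k i j v, f w = ∑ w ∈ (G.Pth k i).filter (fun w => G.en i w = j), f w := by
    intro j
    rw [← Finset.sum_fiberwise_of_maps_to (s := (G.Pth k i).filter (fun w => G.en i w = j)) (t := Vs ι k)
      (g := fun w => G.ct i w) (fun w hw => G.ct_mem (mem_filter.1 hw).1)]
    refine sum_congr rfl fun v _ => ?_
    rw [filter_filter]
    rfl
  simp only [h1]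
  exact Finset.sum_fiberwise_of_maps_to (fun w _ => mem_univ _) _

theorem sum_gr' {M : Type*} [AddCommMonoid M] (k : ℕ) (i j : ι) (f : List ℕ → M) :
    ∑ v ∈ Vs ι k, ∑ w ∈ G.gr k i j v, f w = ∑ w ∈ (G.Pth k i).filter (fun w => G.en i w = j), f w := by
  classical
  rw [← Finset.sum_fiberwise_of_maps_to (s := (G.Pth k i).filter (fun w => G.en i w = j)) (t := Vs ι k)
      (g := fun w => G.ct i w) (fun w hw => G.ct_mem (mem_filter.1 hw).1)]
  refine sum_congr rfl fun v _ => ?_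
  rw [filter_filter]
  rfl

/-! ### Expectations -/

theorem Ex_zero (i : ι) (f : List ℕ → ℝ) : G.Ex 0 i f = f [] := by
  unfold Ex
  rw [Pth_zero, sum_singleton, ct, Nv_zero, Nat.cast_one, div_one]

theorem Ex_succ (k : ℕ) (i : ι) (f : List ℕ → ℝ) :
    G.Ex (k + 1) i f = (∑ a ∈ range (G.n i), G.Ex k (G.nx i a) fun w => f (a :: w)) / G.n i := by
  unfold Ex
  rw [sum_Pth_succ, sum_div]
  refine sum_congr rfl fun a _ => ?_
  rw [sum_div]
  refine sum_congr rfl fun w _ => ?_
  rw [ct, Nv_add, Nv_single]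
  push_cast
  rw [div_div, mul_comm]

theorem Ex_add (k l : ℕ) (i : ι) (f : List ℕ → ℝ) :
    G.Ex (k + l) i f = G.Ex k i fun u => G.Ex l (G.en i u) fun v => f (u ++ v) := by
  unfold Ex
  rw [sum_Pth_add]
  refine sum_congr rfl fun u _ => ?_
  rw [sum_div]
  refine sum_congr rfl fun v _ => ?_
  rw [ct_append, Nv_add]
  push_cast
  rw [div_div, mul_comm]

theorem Ex_const (k : ℕ) (i : ι) (c : ℝ) : G.Ex k i (fun _ => c) = c := by
  induction k generalizing i with
  | zero => exact G.Ex_zero i _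
  | succ k ih =>
    rw [Ex_succ]
    simp only [ih, sum_const, card_range, nsmul_eq_mul]
    have : (G.n i : ℝ) ≠ 0 := by exact_mod_cast (G.n_pos i).ne'
    field_simp

theorem Ex_mono {k : ℕ} {i : ι} {f g : List ℕ → ℝ} (h : ∀ w ∈ G.Pth k i, f w ≤ g w) : G.Ex k i f ≤ G.Ex k i g :=
  sum_le_sum fun w hw => div_le_div_of_nonneg_right (h w hw) (G.Nv_posR _).le

theorem Ex_congr {k : ℕ} {i : ι} {f g : List ℕ → ℝ} (h : ∀ w ∈ G.Pth k i, f w = g w) : G.Ex k i f = G.Ex k i g :=
  sum_congr rfl fun w hw => by rw [h w hw]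

theorem Ex_add' (k : ℕ) (i : ι) (f g : List ℕ → ℝ) : G.Ex k i (fun w => f w + g w) = G.Ex k i f + G.Ex k i g := by
  unfold Ex
  rw [← sum_add_distrib]
  exact sum_congr rfl fun w _ => add_div _ _ _

theorem Ex_sub' (k : ℕ) (i : ι) (f g : List ℕ → ℝ) : G.Ex k i (fun w => f w - g w) = G.Ex k i f - G.Ex k i g := by
  unfold Ex
  rw [← sum_sub_distrib]
  exact sum_congr rfl fun w _ => sub_div _ _ _

theorem Ex_mul (k : ℕ) (i : ι) (c : ℝ) (f : List ℕ → ℝ) : G.Ex k i (fun w => c * f w) = c * G.Ex k i f := by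
  unfold Ex
  rw [mul_sum]
  exact sum_congr rfl fun w _ => mul_div_assoc _ _ _

theorem Ex_sum {κ : Type*} (s : Finset κ) (k : ℕ) (i : ι) (f : κ → List ℕ → ℝ) :
    G.Ex k i (fun w => ∑ x ∈ s, f x w) = ∑ x ∈ s, G.Ex k i (f x) := by
  unfold Ex
  rw [sum_comm]
  exact sum_congr rfl fun w _ => sum_div _ _ _

theorem Ex_nonneg {k : ℕ} {i : ι} {f : List ℕ → ℝ} (h : ∀ w ∈ G.Pth k i, 0 ≤ f w) : 0 ≤ G.Ex k i f :=
  sum_nonneg fun w hw => div_nonneg (h w hw) (G.Nv_posR _).le

/-- the mass of a group is at most one -/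
theorem card_gr_le (k : ℕ) (i j : ι) (v : ι → ℕ) : ((G.gr k i j v).card : ℝ) ≤ G.Nv v := by
  have h1 : ((G.gr k i j v).card : ℝ) / G.Nv v ≤ G.Ex k i (fun _ => 1) := by
    unfold Ex
    calc ((G.gr k i j v).card : ℝ) / G.Nv v = ∑ w ∈ G.gr k i j v, (1 : ℝ) / G.Nv (G.ct i w) := by
          rw [sum_congr rfl fun w hw => by rw [(G.mem_gr.1 hw).2.2]]
          rw [sum_const, nsmul_eq_mul]
          ring
      _ ≤ _ := sum_le_sum_of_subset_of_nonneg (filter_subset _ _) fun w _ _ =>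
          div_nonneg zero_le_one (G.Nv_posR _).le
  rw [G.Ex_const, div_le_one (G.Nv_posR v)] at h1
  exact h1

/-! ### The classes of the paths are different -/

theorem Ww_inj {k : ℕ} : ∀ {i : ι} {u v : List ℕ}, u ∈ G.Pth k i → v ∈ G.Pth k i → G.ct i u = G.ct i v →
    (G.Nv (G.ct i u) : ℤ) ∣ G.Ww i u - G.Ww i v → u = v := by
  induction k with
  | zero =>
    intro i u v hu hv _ _
    rw [Pth_zero, mem_singleton] at hu hv
    rw [hu, hv]
  | succ k ih =>
    intro i u v hu hv hct hdvd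
    simp only [Pth, mem_biUnion, mem_range, mem_image] at hu hv
    obtain ⟨a, ha, u', hu', rfl⟩ := hu
    obtain ⟨a', ha', v', hv', rfl⟩ := hv
    simp only [ct, add_right_inj] at hct
    simp only [ct, Ww, Nv_add, Nv_single] at hdvd
    have hn : (0 : ℤ) < G.n i := by exact_mod_cast G.n_pos i
    have h1 : (G.n i : ℤ) ∣ (G.c i a - G.c i a') * G.Mv (G.ct (G.nx i a) u') := by
      have h2 : (G.n i : ℤ) ∣ G.c i a * G.Mv (G.ct (G.nx i a) u') + G.n i * G.Ww (G.nx i a) u' -
          (G.c i a' * G.Mv (G.ct (G.nx i a') v') + G.n i * G.Ww (G.nx i a') v') := by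
        refine dvd_trans ?_ hdvd
        push_cast
        exact dvd_mul_right _ _
      rw [← hct] at h2
      have h3 := (dvd_sub_right (dvd_mul_right (G.n i : ℤ) (G.Ww (G.nx i a) u' - G.Ww (G.nx i a') v'))).1
        (show (G.n i : ℤ) ∣ G.n i * (G.Ww (G.nx i a) u' - G.Ww (G.nx i a') v') -
          (-((G.c i a - G.c i a') * G.Mv (G.ct (G.nx i a) u'))) by
          convert h2 using 1; ring)
      rwa [dvd_neg] at h3
    have h4 : (G.n i : ℤ) ∣ G.c i a - G.c i a' := (G.Mv_cop _ i).symm.dvd_of_dvd_mul_right h1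
    have h5 : (G.n i : ℤ) ∣ G.b i * (a - a') := by
      have h6 := G.adm i a ha
      have h7 := G.adm i a' ha'
      have h8 := dvd_add (dvd_sub h6 h7) h4
      have e : G.b i * ((a : ℤ) - a') = G.b i * a - G.c i a - (G.b i * a' - G.c i a') + (G.c i a - G.c i a') := by
        ring
      rw [e]
      exact h8
    have h6 : (G.n i : ℤ) ∣ (a : ℤ) - a' := (G.cop i i).symm.dvd_of_dvd_mul_left h5
    have h7 : a = a' := by
      have h8 : (a : ℤ) ≡ a' [ZMOD (G.n i : ℤ)] := (Int.modEq_iff_dvd.2 (by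
        have := (dvd_neg.2 h6)
        rwa [neg_sub] at this))
      have h9 : a ≡ a' [MOD G.n i] := Int.natCast_modEq_iff.1 h8
      exact Nat.ModEq.eq_of_lt_of_lt h9 ha ha'
    subst h7
    have h8 : (G.Nv (G.ct (G.nx i a) u') : ℤ) ∣ G.Ww (G.nx i a) u' - G.Ww (G.nx i a) v' := by
      rw [← hct] at hdvd
      push_cast at hdvd
      have h9 : (G.n i : ℤ) * (G.Nv (G.ct (G.nx i a) u') : ℤ) ∣ G.n i * (G.Ww (G.nx i a) u' - G.Ww (G.nx i a) v') := by
        convert hdvd using 1; ring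
      exact (mul_dvd_mul_iff_left hn.ne').1 h9
    rw [ih hu' hv' hct h8]

end

/-! ### Itineraries -/

theorem toNat_mod (i : ι) (x : ℤ) : ((x % G.n i).toNat : ℤ) = x % G.n i ∧ (x % G.n i).toNat < G.n i := by
  have hn : (0 : ℤ) < G.n i := by exact_mod_cast G.n_pos i
  have h0 : 0 ≤ x % G.n i := Int.emod_nonneg _ hn.ne'
  have h1 : x % G.n i < G.n i := Int.emod_lt_of_pos _ hn
  exact ⟨Int.toNat_of_nonneg h0, by omega⟩

theorem step_eq (i : ι) (x : ℤ) :
    (G.n i : ℤ) * (G.step (i, x)).2 = G.b i * x - G.c i (x % G.n i).toNat := by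
  obtain ⟨h1, h2⟩ := G.toNat_mod i x
  have h3 := G.adm i _ h2
  rw [h1] at h3
  show (G.n i : ℤ) * ((G.b i * x - G.c i (x % G.n i).toNat) / G.n i) = _
  apply Int.mul_ediv_cancel'
  have h4 : G.b i * x - G.c i (x % G.n i).toNat =
      (G.b i * (x % G.n i) - G.c i (x % G.n i).toNat) + G.b i * (x - x % G.n i) := by ring
  rw [h4]
  exact dvd_add h3 (Dvd.dvd.mul_left (Int.dvd_self_sub_emod) _)

theorem wd_length (k : ℕ) (z : ι × ℤ) : (G.wd k z).length = k := by
  induction k generalizing z with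
  | zero => rfl
  | succ k ih => simp [wd, ih]

theorem wd_mem (k : ℕ) (i : ι) (x : ℤ) : G.wd k (i, x) ∈ G.Pth k i := by
  rw [mem_Pth]
  refine ⟨G.wd_length k _, ?_⟩
  induction k generalizing i x with
  | zero => trivial
  | succ k ih => exact ⟨(G.toNat_mod i x).2, ih _ _⟩

theorem en_wd (k : ℕ) (i : ι) (x : ℤ) : (G.step^[k] (i, x)).1 = G.en i (G.wd k (i, x)) := by
  induction k generalizing i x with
  | zero => rfl
  | succ k ih =>
    rw [Function.iterate_succ_apply]
    simp only [wd, en]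
    exact ih _ _

section

variable [Fintype ι] [DecidableEq ι]

theorem iter_eq (k : ℕ) (i : ι) (x : ℤ) :
    (G.Nv (G.ct i (G.wd k (i, x))) : ℤ) * (G.step^[k] (i, x)).2 =
      G.Mv (G.ct i (G.wd k (i, x))) * x - G.Ww i (G.wd k (i, x)) := by
  induction k generalizing i x with
  | zero => simp [wd, ct, Nv_zero, Mv_zero, Ww]
  | succ k ih =>
    rw [Function.iterate_succ_apply]
    simp only [wd, ct, Ww, Nv_add, Mv_add, Nv_single, Mv_single]
    have h1 := ih (G.step (i, x)).1 (G.step (i, x)).2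
    have h2 := G.step_eq i x
    have h3 : (G.step (i, x)).1 = G.nx i (x % G.n i).toNat := rfl
    rw [← h3]
    push_cast
    have h4 : ((G.step (i, x)).1, (G.step (i, x)).2) = G.step (i, x) := rfl
    rw [h4] at h1
    linear_combination (G.n i : ℤ) * h1 + G.Mv (G.ct (G.step (i, x)).1 (G.wd k (G.step (i, x)))) * h2

/-- two integers with the same digits are congruent -/
theorem wd_cong {k : ℕ} {i : ι} {x y : ℤ} (hw : G.wd k (i, x) = G.wd k (i, y)) :
    (G.Nv (G.ct i (G.wd k (i, x))) : ℤ) ∣ x - y := by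
  have h1 := G.iter_eq k i x
  have h2 := G.iter_eq k i y
  rw [← hw] at h2
  have h3 : (G.Nv (G.ct i (G.wd k (i, x))) : ℤ) ∣ G.Mv (G.ct i (G.wd k (i, x))) * (x - y) :=
    ⟨(G.step^[k] (i, x)).2 - (G.step^[k] (i, y)).2, by rw [mul_sub, mul_sub, h1, h2]; ring⟩
  exact (G.Mv_cop_Nv _ _).symm.dvd_of_dvd_mul_left h3

end

end GS

end Pool.Agent.Zk39.GD
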