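import Mathlib
import Pool.Agent.Zk39.GD.Defs

/-!
# Splitting paths
-/

set_option autoImplicit false

namespace Pool.Agent.Zk39.GD

open Finset Pool.Agent.H319R3.GC

namespace GS

variable {ι : Type} [Fintype ι] [DecidableEq ι] (G : GS ι)

/-- the paths which are composed of two given parts -/
def F (k l : ℕ) (i j : ι) (q : ι × ((ι → ℕ) × (ι → ℕ))) : Finset (List ℕ) :=
  ((G.gr l q.1 j q.2.2) ×ˢ (G.gr k i q.1 q.2.1)).image fun p => p.2 ++ p.1

theorem mem_F {k l : ℕ} {i j : ι} {q : ι × ((ι → ℕ) × (ι → ℕ))} {w : List ℕ} :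
    w ∈ G.F k l i j q ↔ ∃ u v, u ∈ G.gr k i q.1 q.2.1 ∧ v ∈ G.gr l q.1 j q.2.2 ∧ u ++ v = w := by
  unfold F
  simp only [mem_image, mem_product, Prod.exists]
  constructor
  · rintro ⟨v, u, ⟨h1, h2⟩, h3⟩
    exact ⟨u, v, h2, h1, h3⟩
  · rintro ⟨u, v, h1, h2, h3⟩
    exact ⟨v, u, ⟨h2, h1⟩, h3⟩

theorem gr_eq (k l : ℕ) (i j : ι) (v : ι → ℕ) : G.gr (k + l) i j v =
    ((univ ×ˢ (Vs ι k ×ˢ Vs ι l)).filter fun q : ι × ((ι → ℕ) × (ι → ℕ)) => q.2.1 + q.2.2 = v).biUnion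
      (G.F k l i j) := by
  ext w
  rw [mem_gr, mem_biUnion]
  constructor
  · rintro ⟨⟨h1, h2⟩, h3, h4⟩
    have hw : w.take k ++ w.drop k = w := List.take_append_drop k w
    have hlt : (w.take k).length = k := by rw [List.length_take]; omega
    have hld : (w.drop k).length = l := by rw [List.length_drop]; omega
    rw [← hw, Vd_append] at h2
    rw [← hw, en_append] at h3
    rw [← hw, ct_append] at h4
    have hu : w.take k ∈ G.Pth k i := G.mem_Pth.2 ⟨hlt, h2.1⟩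
    have hv : w.drop k ∈ G.Pth l (G.en i (w.take k)) := G.mem_Pth.2 ⟨hld, h2.2⟩
    refine ⟨(G.en i (w.take k), (G.ct i (w.take k), G.ct (G.en i (w.take k)) (w.drop k))), ?_, ?_⟩
    · rw [mem_filter, mem_product, mem_product]
      exact ⟨⟨mem_univ _, G.ct_mem hu, G.ct_mem hv⟩, h4⟩
    · rw [mem_F]
      exact ⟨w.take k, w.drop k, G.mem_gr.2 ⟨⟨hlt, h2.1⟩, rfl, rfl⟩, G.mem_gr.2 ⟨⟨hld, h2.2⟩, h3, rfl⟩, hw⟩
  · rintro ⟨q, hq, hw⟩
    rw [mem_filter] at hq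
    obtain ⟨u, v', hu, hv, rfl⟩ := G.mem_F.1 hw
    obtain ⟨⟨hu1, hu2⟩, hu3, hu4⟩ := G.mem_gr.1 hu
    obtain ⟨⟨hv1, hv2⟩, hv3, hv4⟩ := G.mem_gr.1 hv
    refine ⟨⟨by rw [List.length_append, hu1, hv1], ?_⟩, ?_, ?_⟩
    · rw [Vd_append, hu3]
      exact ⟨hu2, hv2⟩
    · rw [en_append, hu3, hv3]
    · rw [ct_append, hu3, hu4, hv4]
      exact hq.2

theorem F_disjoint {k l : ℕ} {i j : ι} {q q' : ι × ((ι → ℕ) × (ι → ℕ))} (h : q ≠ q') :
    Disjoint (G.F k l i j q) (G.F k l i j q') := by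
  rw [Finset.disjoint_left]
  intro w hw hw'
  obtain ⟨u, v, hu, hv, rfl⟩ := G.mem_F.1 hw
  obtain ⟨u', v', hu', hv', he⟩ := G.mem_F.1 hw'
  obtain ⟨⟨hu1, -⟩, hu3, hu4⟩ := G.mem_gr.1 hu
  obtain ⟨-, hv3, hv4⟩ := G.mem_gr.1 hv
  obtain ⟨⟨hu1', -⟩, hu3', hu4'⟩ := G.mem_gr.1 hu'
  obtain ⟨-, hv3', hv4'⟩ := G.mem_gr.1 hv'
  obtain ⟨rfl, rfl⟩ := List.append_inj he (by rw [hu1, hu1'])
  apply h
  have e1 : q.1 = q'.1 := hu3.symm.trans hu3'
  refine Prod.ext e1 (Prod.ext (hu4.symm.trans hu4') ?_)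
  rw [← hv4, ← hv4', e1]

theorem F_inj (k l : ℕ) (i j : ι) (q : ι × ((ι → ℕ) × (ι → ℕ))) :
    Set.InjOn (fun p : List ℕ × List ℕ => p.2 ++ p.1)
      (((G.gr l q.1 j q.2.2) ×ˢ (G.gr k i q.1 q.2.1) : Finset (List ℕ × List ℕ)) : Set (List ℕ × List ℕ)) := by
  rintro ⟨v, u⟩ h ⟨v', u'⟩ h' he
  rw [mem_coe, mem_product] at h h'
  have h1 := (G.mem_gr.1 h.2).1.1
  have h2 := (G.mem_gr.1 h'.2).1.1
  dsimp only at h1 h2 he
  obtain ⟨rfl, rfl⟩ := List.append_inj he (by rw [h1, h2])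
  rfl

theorem card_F (k l : ℕ) (i j : ι) (q : ι × ((ι → ℕ) × (ι → ℕ))) :
    (G.F k l i j q).card = (G.gr l q.1 j q.2.2).card * (G.gr k i q.1 q.2.1).card := by
  unfold F
  rw [card_image_of_injOn (G.F_inj k l i j q), card_product]

/-- nonuniformity of a product -/
theorem Gam_F_le (k l : ℕ) (i j : ι) (q : ι × ((ι → ℕ) × (ι → ℕ))) {D R : ℕ} (hD : 0 < D) (hR : 1 ≤ R)
    (hDn : ∀ v, IsCoprime (G.Nv v : ℤ) ((D * R : ℕ) : ℤ)) (hdvd : (G.Mv q.2.2).natAbs ∣ D) :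
    Gam (G.F k l i j q) (G.Ww i) D R ≤
      Gam (G.gr l q.1 j q.2.2) (G.Ww q.1) D R * Gam (G.gr k i q.1 q.2.1) (G.Ww i) (D / (G.Mv q.2.2).natAbs) R := by
  have hne := G.Mv_ne q.2.2
  have hpos : 0 < (G.Mv q.2.2).natAbs := Int.natAbs_pos.2 hne
  have hq : 0 < D / (G.Mv q.2.2).natAbs := Nat.div_pos (Nat.le_of_dvd hD hdvd) hpos
  unfold F
  rw [SP.Gam_image' _ _ (G.F_inj k l i j q)]
  have e : Gam ((G.gr l q.1 j q.2.2) ×ˢ (G.gr k i q.1 q.2.1)) (fun p => G.Ww i (p.2 ++ p.1)) D R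
      = Gam ((G.gr l q.1 j q.2.2) ×ˢ (G.gr k i q.1 q.2.1))
          (fun p => (G.Nv q.2.1 : ℤ) * G.Ww q.1 p.1 + G.Mv q.2.2 * G.Ww i p.2) D R := by
    refine SP.Gam_congr _ ?_ D R
    rintro ⟨v, u⟩ hp
    rw [mem_product] at hp
    obtain ⟨-, -, hv4⟩ := G.mem_gr.1 hp.1
    obtain ⟨-, hu3, hu4⟩ := G.mem_gr.1 hp.2
    dsimp only at hv4 hu3 hu4 ⊢
    rw [Ww_append, hu3, hu4, hv4]
    ring
  rw [e]
  have key := Gam_conv (G.gr l q.1 j q.2.2) (G.gr k i q.1 q.2.1) (G.Ww q.1) (G.Ww i)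
    (u := (G.Nv q.2.1 : ℤ)) hne hq hR (by
      rw [Nat.mul_div_cancel' hdvd]
      exact hDn _)
  rw [Nat.mul_div_cancel' hdvd] at key
  exact key

theorem Gam_F_le' (k l : ℕ) (i j : ι) (q : ι × ((ι → ℕ) × (ι → ℕ))) {D R : ℕ} (hD : 0 < D) (hR : 1 ≤ R) :
    Gam (G.F k l i j q) (G.Ww i) D R ≤
      (R - 1) * ((G.gr l q.1 j q.2.2).card * (G.gr k i q.1 q.2.1).card) := by
  refine (Gam_le _ _ hD hR).trans (le_of_eq ?_)
  rw [card_F]
  push_cast
  ring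

theorem gg_nonneg (k : ℕ) (i j : ι) (D R : ℕ) : 0 ≤ G.gg k i j D R :=
  sum_nonneg fun _ _ => div_nonneg (Gam_nonneg _ _ _ _) (G.Nv_posR _).le

/-- sum over the two parts -/
theorem gg_le_sum (k l : ℕ) (i j : ι) (D R : ℕ) : G.gg (k + l) i j D R ≤
    ∑ i1, ∑ v2 ∈ Vs ι l, ∑ v1 ∈ Vs ι k,
      Gam (G.F k l i j (i1, (v1, v2))) (G.Ww i) D R / (G.Nv v1 * G.Nv v2) := by
  classical
  have h1 : ∀ v ∈ Vs ι (k + l), Gam (G.gr (k + l) i j v) (G.Ww i) D R / G.Nv v ≤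
      ∑ q ∈ (univ ×ˢ (Vs ι k ×ˢ Vs ι l)).filter fun q : ι × ((ι → ℕ) × (ι → ℕ)) => q.2.1 + q.2.2 = v,
        Gam (G.F k l i j q) (G.Ww i) D R / (G.Nv q.2.1 * G.Nv q.2.2) := by
    intro v _
    rw [gr_eq]
    refine (div_le_div_of_nonneg_right (SP.Gam_biUnion' _ _ (fun j _ j' _ hj => G.F_disjoint hj) _ _ _)
      (G.Nv_posR v).le).trans (le_of_eq ?_)
    rw [sum_div]
    refine sum_congr rfl fun q hq => ?_
    rw [mem_filter] at hq
    rw [← hq.2, Nv_add]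
    push_cast
    rfl
  refine (sum_le_sum h1).trans (le_of_eq ?_)
  rw [Finset.sum_fiberwise_of_maps_to]
  · rw [sum_product]
    refine sum_congr rfl fun i1 _ => ?_
    rw [sum_product, sum_comm]
  · intro q hq
    rw [mem_product, mem_product] at hq
    have h2 := Fintype.mem_piFinset.1 hq.2.1
    have h3 := Fintype.mem_piFinset.1 hq.2.2
    refine Fintype.mem_piFinset.2 fun a => ?_
    have h4 := mem_range.1 (h2 a)
    have h5 := mem_range.1 (h3 a)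
    rw [mem_range, Pi.add_apply]
    omega

/-- the masses of the groups -/
theorem sum_card_gr (k : ℕ) (i j : ι) : ∑ v ∈ Vs ι k, ((G.gr k i j v).card : ℝ) / G.Nv v =
    G.Ex k i (fun w => if G.en i w = j then 1 else 0) := by
  classical
  unfold Ex
  rw [← Finset.sum_fiberwise_of_maps_to (s := G.Pth k i) (t := Vs ι k) (g := fun w => G.ct i w)
    (fun w hw => G.ct_mem hw)]
  refine sum_congr rfl fun v _ => ?_
  have h1 : ∀ w ∈ (G.Pth k i).filter (fun w => G.ct i w = v),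
      (if G.en i w = j then (1 : ℝ) else 0) / G.Nv (G.ct i w) = if G.en i w = j then 1 / (G.Nv v : ℝ) else 0 := by
    intro w hw
    rw [(mem_filter.1 hw).2]
    split_ifs
    · rfl
    · rw [zero_div]
  rw [sum_congr rfl h1, ← sum_filter, filter_filter, sum_const, nsmul_eq_mul]
  unfold gr
  rw [div_eq_mul_one_div]
  congr 3
  ext w
  simp only [mem_filter]
  tauto

theorem sum_card_gr_le (k : ℕ) (i j : ι) : ∑ v ∈ Vs ι k, ((G.gr k i j v).card : ℝ) / G.Nv v ≤ 1 := by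
  rw [sum_card_gr]
  refine (G.Ex_mono (g := fun _ => (1 : ℝ)) fun w _ => ?_).trans_eq (G.Ex_const k i 1)
  split_ifs <;> norm_num

/-- general form: sum of a function of `v` over the groups -/
theorem sum_card_gr_mul (k : ℕ) (i j : ι) (f : (ι → ℕ) → ℝ) :
    ∑ v ∈ Vs ι k, ((G.gr k i j v).card : ℝ) / G.Nv v * f v =
    G.Ex k i (fun w => if G.en i w = j then f (G.ct i w) else 0) := by
  classical
  unfold Ex
  rw [← Finset.sum_fiberwise_of_maps_to (s := G.Pth k i) (t := Vs ι k) (g := fun w => G.ct i w)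
    (fun w hw => G.ct_mem hw)]
  refine sum_congr rfl fun v _ => ?_
  have h1 : ∀ w ∈ (G.Pth k i).filter (fun w => G.ct i w = v),
      (if G.en i w = j then f (G.ct i w) else 0) / G.Nv (G.ct i w) =
        if G.en i w = j then f v / (G.Nv v : ℝ) else 0 := by
    intro w hw
    rw [(mem_filter.1 hw).2]
    split_ifs
    · rfl
    · rw [zero_div]
  rw [sum_congr rfl h1, ← sum_filter, filter_filter, sum_const, nsmul_eq_mul]
  unfold gr
  have e : ((G.Pth k i).filter fun w => G.en i w = j ∧ G.ct i w = v).card =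
      ((G.Pth k i).filter fun w => G.ct i w = v ∧ G.en i w = j).card := by
    congr 1
    ext w
    simp only [mem_filter]
    tauto
  rw [e]
  ring

/-- **Lemma A**: a prefix with small nonuniformity -/
theorem split_prefix {k l : ℕ} {i j : ι} {D R : ℕ} (𝒯 : Set (ι → ℕ)) [DecidablePred (· ∈ 𝒯)] {ε : ℝ} (hε : 0 ≤ ε)
    (hD : 0 < D) (hR : 1 ≤ R) (hDn : ∀ v, IsCoprime (G.Nv v : ℤ) ((D * R : ℕ) : ℤ))
    (h1 : ∀ v ∈ 𝒯, (G.Mv v).natAbs ∣ D) (h2 : ∀ v ∈ 𝒯, ∀ i1, G.gg k i i1 (D / (G.Mv v).natAbs) R ≤ ε) :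
    G.gg (k + l) i j D R ≤ ε * ∑ i1, G.gg l i1 j D R +
      (R - 1) * ∑ i1, G.Ex l i1 (fun w => if G.ct i1 w ∈ 𝒯 then 0 else 1) := by
  classical
  have hR1 : (0 : ℝ) ≤ R - 1 := by
    have : (1 : ℝ) ≤ R := by exact_mod_cast hR
    linarith
  refine (G.gg_le_sum k l i j D R).trans ?_
  rw [mul_sum, mul_sum, ← sum_add_distrib]
  refine sum_le_sum fun i1 _ => ?_
  have hpt : ∀ v2 ∈ Vs ι l, ∑ v1 ∈ Vs ι k, Gam (G.F k l i j (i1, (v1, v2))) (G.Ww i) D R / (G.Nv v1 * G.Nv v2) ≤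
      ε * (Gam (G.gr l i1 j v2) (G.Ww i1) D R / G.Nv v2) +
        (R - 1) * (((G.gr l i1 j v2).card : ℝ) / G.Nv v2 * (if v2 ∈ 𝒯 then 0 else 1)) := by
    intro v2 _
    have hN2 := G.Nv_posR v2
    by_cases hv : v2 ∈ 𝒯
    · rw [if_pos hv, mul_zero, mul_zero, add_zero]
      calc ∑ v1 ∈ Vs ι k, Gam (G.F k l i j (i1, (v1, v2))) (G.Ww i) D R / (G.Nv v1 * G.Nv v2)
          ≤ ∑ v1 ∈ Vs ι k, (Gam (G.gr l i1 j v2) (G.Ww i1) D R / G.Nv v2) *
              (Gam (G.gr k i i1 v1) (G.Ww i) (D / (G.Mv v2).natAbs) R / G.Nv v1) := by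
            refine sum_le_sum fun v1 _ => ?_
            have hN1 := G.Nv_posR v1
            rw [div_mul_div_comm, mul_comm (G.Nv v2 : ℝ)]
            exact div_le_div_of_nonneg_right (G.Gam_F_le k l i j (i1, (v1, v2)) hD hR hDn (h1 v2 hv)) (by positivity)
        _ = (Gam (G.gr l i1 j v2) (G.Ww i1) D R / G.Nv v2) * G.gg k i i1 (D / (G.Mv v2).natAbs) R := by
            rw [← mul_sum]; rfl
        _ ≤ (Gam (G.gr l i1 j v2) (G.Ww i1) D R / G.Nv v2) * ε :=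
            mul_le_mul_of_nonneg_left (h2 v2 hv i1) (div_nonneg (Gam_nonneg _ _ _ _) hN2.le)
        _ = _ := mul_comm _ _
    · rw [if_neg hv, mul_one]
      calc ∑ v1 ∈ Vs ι k, Gam (G.F k l i j (i1, (v1, v2))) (G.Ww i) D R / (G.Nv v1 * G.Nv v2)
          ≤ ∑ v1 ∈ Vs ι k, (R - 1) * (((G.gr l i1 j v2).card : ℝ) / G.Nv v2) *
              (((G.gr k i i1 v1).card : ℝ) / G.Nv v1) := by
            refine sum_le_sum fun v1 _ => ?_
            have hN1 := G.Nv_posR v1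
            refine (div_le_div_of_nonneg_right (G.Gam_F_le' k l i j (i1, (v1, v2)) hD hR) (by positivity)).trans
              (le_of_eq ?_)
            dsimp only
            field_simp
        _ = (R - 1) * (((G.gr l i1 j v2).card : ℝ) / G.Nv v2) * ∑ v1 ∈ Vs ι k, ((G.gr k i i1 v1).card : ℝ) / G.Nv v1 := by
            rw [← mul_sum]
        _ ≤ (R - 1) * (((G.gr l i1 j v2).card : ℝ) / G.Nv v2) * 1 :=
            mul_le_mul_of_nonneg_left (G.sum_card_gr_le k i i1) (by positivity)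
        _ ≤ _ := by
            rw [mul_one]
            exact le_add_of_nonneg_left (mul_nonneg hε (div_nonneg (Gam_nonneg _ _ _ _) hN2.le))
  refine (sum_le_sum hpt).trans ?_
  rw [sum_add_distrib, ← mul_sum, ← mul_sum, G.sum_card_gr_mul l i1 j (fun v => if v ∈ 𝒯 then 0 else 1)]
  refine add_le_add le_rfl (mul_le_mul_of_nonneg_left (G.Ex_mono fun w _ => ?_) hR1)
  split_ifs <;> norm_num

/-- **Lemma B**: averaging over a suffix -/
theorem split_suffix {k l : ℕ} {i j : ι} {D R : ℕ} (hD : 0 < D) (hR : 1 ≤ R)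
    (hDn : ∀ v, IsCoprime (G.Nv v : ℤ) ((D * R : ℕ) : ℤ))
    (h1 : ∀ i1, ∀ w ∈ G.Pth l i1, (G.Mv (G.ct i1 w)).natAbs ∣ D) :
    G.gg (k + l) i j D R ≤ (R - 1) * ∑ i1, G.Ex l i1 (fun w => G.gg k i i1 (D / (G.Mv (G.ct i1 w)).natAbs) R) := by
  classical
  have hR1 : (0 : ℝ) ≤ R - 1 := by
    have : (1 : ℝ) ≤ R := by exact_mod_cast hR
    linarith
  refine (G.gg_le_sum k l i j D R).trans ?_
  rw [mul_sum]
  refine sum_le_sum fun i1 _ => ?_
  have hpt : ∀ v2 ∈ Vs ι l, ∑ v1 ∈ Vs ι k, Gam (G.F k l i j (i1, (v1, v2))) (G.Ww i) D R / (G.Nv v1 * G.Nv v2) ≤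
      (R - 1) * (((G.gr l i1 j v2).card : ℝ) / G.Nv v2 * G.gg k i i1 (D / (G.Mv v2).natAbs) R) := by
    intro v2 _
    have hN2 := G.Nv_posR v2
    rcases (G.gr l i1 j v2).eq_empty_or_nonempty with hemp | ⟨w, hw⟩
    · have h3 : ∀ v1, G.F k l i j (i1, (v1, v2)) = ∅ := by
        intro v1
        unfold F
        rw [hemp, empty_product, image_empty]
      simp only [h3, hemp, card_empty, Nat.cast_zero, zero_div, zero_mul, mul_zero]
      refine le_of_eq (sum_eq_zero fun v1 _ => ?_)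
      have h4 : Gam (∅ : Finset (List ℕ)) (G.Ww i) D R = 0 := by
        have h5 := Gam_le (∅ : Finset (List ℕ)) (G.Ww i) hD hR
        rw [card_empty, Nat.cast_zero, mul_zero] at h5
        exact le_antisymm h5 (Gam_nonneg _ _ _ _)
      rw [h4, zero_div]
    · obtain ⟨⟨hw1, hw2⟩, -, hw4⟩ := G.mem_gr.1 hw
      have hdv : (G.Mv v2).natAbs ∣ D := by
        rw [← hw4]
        exact h1 i1 w (G.mem_Pth.2 ⟨hw1, hw2⟩)
      calc ∑ v1 ∈ Vs ι k, Gam (G.F k l i j (i1, (v1, v2))) (G.Ww i) D R / (G.Nv v1 * G.Nv v2)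
          ≤ ∑ v1 ∈ Vs ι k, ((R - 1) * (((G.gr l i1 j v2).card : ℝ) / G.Nv v2)) *
              (Gam (G.gr k i i1 v1) (G.Ww i) (D / (G.Mv v2).natAbs) R / G.Nv v1) := by
            refine sum_le_sum fun v1 _ => ?_
            have hN1 := G.Nv_posR v1
            refine (div_le_div_of_nonneg_right (G.Gam_F_le k l i j (i1, (v1, v2)) hD hR hDn hdv) (by positivity)).trans ?_
            rw [mul_comm (G.Nv v1 : ℝ), ← div_mul_div_comm]
            refine mul_le_mul_of_nonneg_right ?_ (div_nonneg (Gam_nonneg _ _ _ _) hN1.le)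
            rw [← mul_div_assoc]
            exact div_le_div_of_nonneg_right (Gam_le _ _ hD hR) hN2.le
        _ = _ := by rw [← mul_sum, mul_assoc]; rfl
  refine (sum_le_sum hpt).trans ?_
  rw [← mul_sum, G.sum_card_gr_mul l i1 j (fun v => G.gg k i i1 (D / (G.Mv v).natAbs) R)]
  refine mul_le_mul_of_nonneg_left (G.Ex_mono fun w _ => ?_) hR1
  split_ifs
  · exact le_rfl
  · exact G.gg_nonneg _ _ _ _ _

theorem gg_le {k : ℕ} {i j : ι} {D R : ℕ} (hD : 0 < D) (hR : 1 ≤ R) : G.gg k i j D R ≤ R - 1 := by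
  have hR1 : (0 : ℝ) ≤ R - 1 := by
    have : (1 : ℝ) ≤ R := by exact_mod_cast hR
    linarith
  unfold gg
  calc ∑ v ∈ Vs ι k, Gam (G.gr k i j v) (G.Ww i) D R / G.Nv v
      ≤ ∑ v ∈ Vs ι k, (R - 1) * (((G.gr k i j v).card : ℝ) / G.Nv v) := by
        refine sum_le_sum fun v _ => ?_
        rw [← mul_div_assoc]
        exact div_le_div_of_nonneg_right (Gam_le _ _ hD hR) (G.Nv_posR v).le
    _ = (R - 1) * ∑ v ∈ Vs ι k, ((G.gr k i j v).card : ℝ) / G.Nv v := by rw [← mul_sum]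
    _ ≤ (R - 1) * 1 := mul_le_mul_of_nonneg_left (G.sum_card_gr_le k i j) hR1
    _ = R - 1 := mul_one _

/-- nonuniformity of a single group -/
theorem Gam_gr_le (k : ℕ) (i j : ι) (v : ι → ℕ) (D R : ℕ) :
    Gam (G.gr k i j v) (G.Ww i) D R ≤ G.Nv v * G.gg k i j D R := by
  classical
  by_cases hv : v ∈ Vs ι k
  · have h1 : Gam (G.gr k i j v) (G.Ww i) D R / G.Nv v ≤ G.gg k i j D R :=
      single_le_sum (f := fun v => Gam (G.gr k i j v) (G.Ww i) D R / G.Nv v)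
        (fun w _ => div_nonneg (Gam_nonneg _ _ _ _) (G.Nv_posR _).le) hv
    rw [div_le_iff₀ (G.Nv_posR v)] at h1
    linarith
  · have h1 : G.gr k i j v = ∅ := by
      rw [Finset.eq_empty_iff_forall_notMem]
      intro w hw
      obtain ⟨⟨hw1, hw2⟩, -, hw4⟩ := G.mem_gr.1 hw
      apply hv
      rw [← hw4]
      exact G.ct_mem (G.mem_Pth.2 ⟨hw1, hw2⟩)
    rw [h1]
    have h2 : Gam (∅ : Finset (List ℕ)) (G.Ww i) D R = 0 := by
      unfold Gam Fib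
      refine sum_eq_zero fun c _ => FR_mass_zero ?_
      refine sum_eq_zero fun a _ => ?_
      unfold cnt
      simp
    rw [h2]
    exact mul_nonneg (G.Nv_posR v).le (G.gg_nonneg _ _ _ _ _)

end GS

end Pool.Agent.Zk39.GD
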