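import Mathlib
import Pool.Agent.Zk39.GD.Split
import Pool.Agent.H319R2.Poisson

/-!
# Exponential moments for the Markov chain of the states
-/

set_option autoImplicit false
set_option linter.unusedSectionVars false

namespace Pool.Agent.Zk39.GD

open Finset Pool.Agent.H319R3.GC

namespace GS

variable {ι : Type} [Fintype ι] [DecidableEq ι] (G : GS ι)

/-- transition probabilities -/
noncomputable def pr (i j : ι) : ℝ := (((range (G.n i)).filter fun a => G.nx i a = j).card : ℝ) / G.n i

theorem n_posR (i : ι) : (0 : ℝ) < G.n i := by exact_mod_cast G.n_pos i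

theorem pr_nonneg (i j : ι) : 0 ≤ G.pr i j := div_nonneg (Nat.cast_nonneg _) (G.n_posR i).le

theorem sum_pr_mul (i : ι) (g : ι → ℝ) : ∑ j, G.pr i j * g j = (∑ a ∈ range (G.n i), g (G.nx i a)) / G.n i := by
  rw [← Finset.sum_fiberwise_of_maps_to (s := range (G.n i)) (t := univ) (g := fun a => G.nx i a)
    (fun _ _ => mem_univ _), sum_div]
  refine sum_congr rfl fun j _ => ?_
  rw [sum_congr rfl fun a ha => by rw [(mem_filter.1 ha).2], sum_const, nsmul_eq_mul]
  unfold pr
  ring

theorem sum_pr (i : ι) : ∑ j, G.pr i j = 1 := by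
  have h := G.sum_pr_mul i fun _ => 1
  simp only [mul_one, sum_const, card_range, nsmul_eq_mul] at h
  rw [h, div_self (G.n_posR i).ne']

/-- irreducible with stationary distribution `ρ` -/
structure Irr (ρ : ι → ℝ) : Prop where
  irr : ∀ x y, Relation.ReflTransGen (fun a b => 0 < G.pr a b) x y
  pos : ∀ x, 0 < ρ x
  sum_one : ∑ x, ρ x = 1
  stat : ∀ y, ∑ x, ρ x * G.pr x y = ρ y

variable {G} {ρ : ι → ℝ}

/-- linear functional of the numbers of visits -/
def SS (f : ι → ℝ) (v : ι → ℕ) : ℝ := ∑ j, (v j : ℝ) * f j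

theorem SS_add (f : ι → ℝ) (v w : ι → ℕ) : SS f (v + w) = SS f v + SS f w := by
  unfold SS
  rw [← sum_add_distrib]
  refine sum_congr rfl fun j _ => ?_
  rw [Pi.add_apply]
  push_cast
  ring

theorem SS_single (f : ι → ℝ) (i : ι) : SS f (Pi.single i 1) = f i := by
  unfold SS
  rw [sum_eq_single i]
  · rw [Pi.single_eq_same]; push_cast; ring
  · intro j _ hj
    rw [Pi.single_eq_of_ne hj]; push_cast; ring
  · intro h; exact absurd (mem_univ i) h

theorem SS_zero (f : ι → ℝ) : SS f 0 = 0 := by simp [SS]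

variable (G)

/-- the Poisson equation -/
theorem exists_poisson (h : G.Irr ρ) (f : ι → ℝ) : ∃ u : ι → ℝ, ∀ i,
    (∑ a ∈ range (G.n i), (f i - (∑ x, ρ x * f x) + u (G.nx i a) - u i)) = 0 := by
  obtain ⟨u, hu⟩ := Pool.Agent.H319R2.Poisson.poisson G.pr G.pr_nonneg G.sum_pr h.irr ρ h.sum_one h.stat f
  refine ⟨u, fun i => ?_⟩
  have h1 := hu i
  rw [G.sum_pr_mul] at h1
  have hn := G.n_posR i
  have h2 : (∑ a ∈ range (G.n i), u (G.nx i a)) = G.n i * ((∑ x, ρ x * f x) - f i + u i) := by
    have h3 : (∑ a ∈ range (G.n i), u (G.nx i a)) / G.n i = (∑ x, ρ x * f x) - f i + u i := by linarith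
    rw [div_eq_iff hn.ne'] at h3
    linarith
  rw [sum_sub_distrib, sum_add_distrib, h2, sum_const, sum_const, card_range, nsmul_eq_mul, nsmul_eq_mul]
  ring

/-- the martingale -/
theorem Ex_martingale {f u : ι → ℝ} {μ : ℝ}
    (hu : ∀ i, (∑ a ∈ range (G.n i), (f i - μ + u (G.nx i a) - u i)) = 0) (k : ℕ) (i : ι) :
    G.Ex k i (fun w => SS f (G.ct i w) - k * μ + u (G.en i w)) = u i := by
  induction k generalizing i with
  | zero => rw [Ex_zero, ct, en, SS_zero]; simp
  | succ k ih =>
    rw [Ex_succ]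
    have hn := G.n_posR i
    have h1 : ∀ a, G.Ex k (G.nx i a) (fun w => SS f (G.ct i (a :: w)) - ((k + 1 : ℕ) : ℝ) * μ + u (G.en i (a :: w))) =
        (f i - μ) + u (G.nx i a) := by
      intro a
      rw [← ih (G.nx i a), ← G.Ex_const k (G.nx i a) (f i - μ), ← Ex_add']
      refine G.Ex_congr fun w _ => ?_
      rw [ct, SS_add, SS_single, en]
      push_cast
      ring
    rw [sum_congr rfl fun a _ => h1 a]
    have h2 := hu i
    have h3 : (∑ a ∈ range (G.n i), (f i - μ + u (G.nx i a) - u i)) =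
        (∑ a ∈ range (G.n i), (f i - μ + u (G.nx i a))) - G.n i * u i := by
      rw [sum_sub_distrib, sum_const, card_range, nsmul_eq_mul]
    rw [h3, sub_eq_zero] at h2
    rw [h2, mul_div_cancel_left₀ _ hn.ne']

/-- **exponential moments** -/
theorem exp_moment (h : G.Irr ρ) (f : ι → ℝ) : ∃ K θ₀ : ℝ, 0 < K ∧ 0 < θ₀ ∧ ∀ θ : ℝ, |θ| ≤ θ₀ → ∀ (k : ℕ) (i : ι),
    G.Ex k i (fun w => Real.exp (θ * (SS f (G.ct i w) - k * ∑ x, ρ x * f x))) ≤ Real.exp (K + K * θ ^ 2 * k) := by
  obtain ⟨u, hu⟩ := G.exists_poisson h f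
  set μ := ∑ x, ρ x * f x with hμ
  obtain ⟨U, hU⟩ : ∃ U : ℝ, 1 ≤ U ∧ ∀ i, |u i| ≤ U ∧ |f i - μ| ≤ U := by
    refine ⟨1 + ∑ i, (|u i| + |f i - μ|), ?_, fun i => ?_⟩
    · have : 0 ≤ ∑ i, (|u i| + |f i - μ|) := sum_nonneg fun i _ => by positivity
      linarith
    · have h1 := single_le_sum (f := fun i => |u i| + |f i - μ|) (fun i _ => by positivity) (mem_univ i)
      have h2 := abs_nonneg (u i)
      have h3 := abs_nonneg (f i - μ)
      constructor <;> linarith
  obtain ⟨hU1, hU⟩ := hU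
  have key : ∀ θ : ℝ, |θ| ≤ 1 / (3 * U) → ∀ (k : ℕ) (i : ι),
      G.Ex k i (fun w => Real.exp (θ * (SS f (G.ct i w) - k * μ + u (G.en i w) - u i))) ≤
        Real.exp (9 * U ^ 2 * θ ^ 2 * k) := by
    intro θ hθ k
    induction k with
    | zero =>
      intro i
      rw [Ex_zero, ct, en, SS_zero]
      simp
    | succ k ih =>
      intro i
      rw [Ex_succ]
      have hn := G.n_posR i
      rw [div_le_iff₀ hn]
      set X : ℕ → ℝ := fun a => f i - μ + u (G.nx i a) - u i with hX
      have hXb : ∀ a, |X a| ≤ 3 * U := by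
        intro a
        have h1 := abs_sub (f i - μ + u (G.nx i a)) (u i)
        have h2 := abs_add_le (f i - μ) (u (G.nx i a))
        have h3 := (hU i).1
        have h4 := (hU i).2
        have h5 := (hU (G.nx i a)).1
        show |f i - μ + u (G.nx i a) - u i| ≤ 3 * U
        linarith
      have h1 : ∀ a ∈ range (G.n i), (G.Ex k (G.nx i a) fun w =>
          Real.exp (θ * (SS f (G.ct i (a :: w)) - ((k + 1 : ℕ) : ℝ) * μ + u (G.en i (a :: w)) - u i))) ≤
          (1 + θ * X a + 9 * U ^ 2 * θ ^ 2) * Real.exp (9 * U ^ 2 * θ ^ 2 * k) := by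
        intro a _
        have h2 : G.Ex k (G.nx i a) (fun w =>
            Real.exp (θ * (SS f (G.ct i (a :: w)) - ((k + 1 : ℕ) : ℝ) * μ + u (G.en i (a :: w)) - u i))) =
            Real.exp (θ * X a) * G.Ex k (G.nx i a) (fun w => Real.exp (θ * (SS f (G.ct (G.nx i a) w) - k * μ +
              u (G.en (G.nx i a) w) - u (G.nx i a)))) := by
          rw [← Ex_mul]
          refine G.Ex_congr fun w _ => ?_
          rw [← Real.exp_add, ct, SS_add, SS_single, en]
          congr 1
          simp only [hX]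
          push_cast
          ring
        rw [h2]
        refine mul_le_mul ?_ (ih _) (G.Ex_nonneg fun w _ => (Real.exp_pos _).le) ?_
        · have h3 : |θ * X a| ≤ 1 := by
            rw [abs_mul]
            calc |θ| * |X a| ≤ (1 / (3 * U)) * (3 * U) := mul_le_mul hθ (hXb a) (abs_nonneg _) (by positivity)
              _ = 1 := by field_simp
          have h4 := Real.abs_exp_sub_one_sub_id_le h3
          have h5 := le_of_abs_le h4
          have h6 : (θ * X a) ^ 2 ≤ 9 * U ^ 2 * θ ^ 2 := by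
            rw [mul_pow]
            have h7 : (X a) ^ 2 ≤ (3 * U) ^ 2 := by
              rw [← sq_abs]
              exact pow_le_pow_left₀ (abs_nonneg _) (hXb a) 2
            nlinarith [sq_nonneg θ]
          linarith
        · have h3 : -1 ≤ θ * X a := by
            have h4 : |θ * X a| ≤ 1 := by
              rw [abs_mul]
              calc |θ| * |X a| ≤ (1 / (3 * U)) * (3 * U) := mul_le_mul hθ (hXb a) (abs_nonneg _) (by positivity)
                _ = 1 := by field_simp
            exact (abs_le.1 h4).1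
          have h5 : 0 ≤ 9 * U ^ 2 * θ ^ 2 := by positivity
          linarith
      refine (sum_le_sum h1).trans ?_
      rw [← sum_mul]
      have h2 : ∑ a ∈ range (G.n i), (1 + θ * X a + 9 * U ^ 2 * θ ^ 2) = G.n i * (1 + 9 * U ^ 2 * θ ^ 2) := by
        have h3 : ∑ a ∈ range (G.n i), X a = 0 := hu i
        have h4 : ∀ a, 1 + θ * X a + 9 * U ^ 2 * θ ^ 2 = (1 + 9 * U ^ 2 * θ ^ 2) + θ * X a := fun a => by ring
        rw [sum_congr rfl fun a _ => h4 a, sum_add_distrib, ← mul_sum, h3, mul_zero, add_zero, sum_const, card_range,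
          nsmul_eq_mul]
      rw [h2]
      have h3 : 1 + 9 * U ^ 2 * θ ^ 2 ≤ Real.exp (9 * U ^ 2 * θ ^ 2) := by
        have := Real.add_one_le_exp (9 * U ^ 2 * θ ^ 2)
        linarith
      calc G.n i * (1 + 9 * U ^ 2 * θ ^ 2) * Real.exp (9 * U ^ 2 * θ ^ 2 * k)
          ≤ G.n i * Real.exp (9 * U ^ 2 * θ ^ 2) * Real.exp (9 * U ^ 2 * θ ^ 2 * k) := by gcongr
        _ = Real.exp (9 * U ^ 2 * θ ^ 2 * ((k + 1 : ℕ) : ℝ)) * G.n i := by
          rw [mul_assoc, ← Real.exp_add]
          push_cast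
          ring_nf
  refine ⟨9 * U ^ 2, 1 / (3 * U), by positivity, by positivity, fun θ hθ k i => ?_⟩
  have hθ1 : |θ| ≤ 1 := hθ.trans (by rw [div_le_one (by positivity)]; linarith)
  calc G.Ex k i (fun w => Real.exp (θ * (SS f (G.ct i w) - k * μ)))
      ≤ G.Ex k i (fun w => Real.exp (2 * U) * Real.exp (θ * (SS f (G.ct i w) - k * μ + u (G.en i w) - u i))) := by
        refine G.Ex_mono fun w _ => ?_
        rw [← Real.exp_add]
        apply Real.exp_le_exp.2
        have h1 : |θ * (u (G.en i w) - u i)| ≤ 2 * U := by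
          rw [abs_mul]
          have h2 := abs_sub (u (G.en i w)) (u i)
          have h3 := (hU i).1
          have h4 := (hU (G.en i w)).1
          have h5 := abs_nonneg (u (G.en i w) - u i)
          nlinarith [abs_nonneg θ]
        have h2 := (abs_le.1 h1).1
        linarith [mul_add θ (SS f (G.ct i w) - k * μ) (u (G.en i w) - u i),
          show θ * (SS f (G.ct i w) - k * μ + u (G.en i w) - u i) =
            θ * (SS f (G.ct i w) - k * μ) + θ * (u (G.en i w) - u i) by ring]
    _ = Real.exp (2 * U) * G.Ex k i (fun w => Real.exp (θ * (SS f (G.ct i w) - k * μ + u (G.en i w) - u i))) := by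
        rw [Ex_mul]
    _ ≤ Real.exp (2 * U) * Real.exp (9 * U ^ 2 * θ ^ 2 * k) :=
        mul_le_mul_of_nonneg_left (key θ hθ k i) (Real.exp_pos _).le
    _ ≤ _ := by
        rw [← Real.exp_add]
        apply Real.exp_le_exp.2
        nlinarith

end GS

end Pool.Agent.Zk39.GD
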