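import Mathlib
import Pool.Agent.Zk39.GD.Markov

/-!
# Tail bounds
-/

set_option autoImplicit false
set_option linter.unusedSectionVars false

namespace Pool.Agent.Zk39.GD

open Finset Pool.Agent.H319R3.GC

namespace GS

variable {ι : Type} [Fintype ι] [DecidableEq ι] (G : GS ι) {ρ : ι → ℝ}

/-- exponential Chebyshev inequality -/
theorem tail (h : G.Irr ρ) (f : ι → ℝ) : ∃ K θ₀ : ℝ, 0 < K ∧ 0 < θ₀ ∧ ∀ θ : ℝ, 0 < θ → θ ≤ θ₀ →
    ∀ (k : ℕ) (i : ι) (s : ℝ),
    G.Ex k i (fun w => if s < |SS f (G.ct i w) - k * ∑ x, ρ x * f x| then 1 else 0) ≤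
      2 * Real.exp (K + K * θ ^ 2 * k - θ * s) := by
  obtain ⟨K, θ₀, hK, hθ₀, hm⟩ := G.exp_moment h f
  refine ⟨K, θ₀, hK, hθ₀, fun θ hθ hθ1 k i s => ?_⟩
  set μ := ∑ x, ρ x * f x with hμ
  have h1 := hm θ (by rwa [abs_of_pos hθ]) k i
  have h2 := hm (-θ) (by rwa [abs_neg, abs_of_pos hθ]) k i
  calc G.Ex k i (fun w => if s < |SS f (G.ct i w) - k * μ| then 1 else 0)
      ≤ G.Ex k i (fun w => Real.exp (-(θ * s)) * Real.exp (θ * (SS f (G.ct i w) - k * μ)) +
          Real.exp (-(θ * s)) * Real.exp (-θ * (SS f (G.ct i w) - k * μ))) := by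
        refine G.Ex_mono fun w _ => ?_
        split_ifs with hs
        · rw [← Real.exp_add, ← Real.exp_add]
          rcases le_total 0 (SS f (G.ct i w) - k * μ) with h3 | h3
          · rw [abs_of_nonneg h3] at hs
            have h4 : 1 ≤ Real.exp (-(θ * s) + θ * (SS f (G.ct i w) - k * μ)) := by
              apply Real.one_le_exp
              nlinarith
            have h5 := Real.exp_pos (-(θ * s) + -θ * (SS f (G.ct i w) - k * μ))
            linarith
          · rw [abs_of_nonpos h3] at hs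
            have h4 : 1 ≤ Real.exp (-(θ * s) + -θ * (SS f (G.ct i w) - k * μ)) := by
              apply Real.one_le_exp
              nlinarith
            have h5 := Real.exp_pos (-(θ * s) + θ * (SS f (G.ct i w) - k * μ))
            linarith
        · positivity
    _ = Real.exp (-(θ * s)) * G.Ex k i (fun w => Real.exp (θ * (SS f (G.ct i w) - k * μ))) +
          Real.exp (-(θ * s)) * G.Ex k i (fun w => Real.exp (-θ * (SS f (G.ct i w) - k * μ))) := by
        rw [Ex_add', Ex_mul, Ex_mul]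
    _ ≤ Real.exp (-(θ * s)) * Real.exp (K + K * θ ^ 2 * k) + Real.exp (-(θ * s)) * Real.exp (K + K * (-θ) ^ 2 * k) :=
        add_le_add (mul_le_mul_of_nonneg_left h1 (Real.exp_pos _).le)
          (mul_le_mul_of_nonneg_left h2 (Real.exp_pos _).le)
    _ = _ := by
        rw [neg_sq, ← two_mul, ← Real.exp_add]
        ring_nf

/-- linear deviations -/
theorem dev (h : G.Irr ρ) (f : ι → ℝ) {η : ℝ} (hη : 0 < η) : ∃ C c : ℝ, 0 < C ∧ 0 < c ∧ ∀ (k : ℕ) (i : ι),
    G.Ex k i (fun w => if η * k < |SS f (G.ct i w) - k * ∑ x, ρ x * f x| then 1 else 0) ≤ C * Real.exp (-(c * k)) := by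
  obtain ⟨K, θ₀, hK, hθ₀, ht⟩ := G.tail h f
  set θ := min θ₀ (η / (2 * K)) with hθ
  have hθ0 : 0 < θ := lt_min hθ₀ (by positivity)
  have hθ1 : θ ≤ η / (2 * K) := min_le_right _ _
  refine ⟨2 * Real.exp K, θ * η / 2, by positivity, by positivity, fun k i => ?_⟩
  refine (ht θ hθ0 (min_le_left _ _) k i (η * k)).trans ?_
  rw [mul_assoc 2, ← Real.exp_add]
  refine mul_le_mul_of_nonneg_left (Real.exp_le_exp.2 ?_) (by norm_num)
  have h1 : K * θ ≤ η / 2 := by
    rw [le_div_iff₀ (by positivity)] at hθ1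
    linarith
  have hk : (0 : ℝ) ≤ k := Nat.cast_nonneg _
  have h2 : K * θ * (θ * k) ≤ η / 2 * (θ * k) := mul_le_mul_of_nonneg_right h1 (by positivity)
  nlinarith

/-- deviations of size `k ^ (2 / 3)` -/
theorem dev_two_thirds (h : G.Irr ρ) (f : ι → ℝ) : ∃ C c : ℝ, 0 < C ∧ 0 < c ∧ ∀ (k : ℕ) (i : ι),
    G.Ex k i (fun w => if ((k : ℝ) ^ (1 / 3 : ℝ)) ^ 2 < |SS f (G.ct i w) - k * ∑ x, ρ x * f x| then 1 else 0) ≤
      C * Real.exp (-(c * (k : ℝ) ^ (1 / 3 : ℝ))) := by
  obtain ⟨K, θ₀, hK, hθ₀, ht⟩ := G.tail h f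
  set κ := min θ₀ (1 / (2 * K)) with hκ
  have hκ0 : 0 < κ := lt_min hθ₀ (by positivity)
  have hκ1 : κ ≤ 1 / (2 * K) := min_le_right _ _
  refine ⟨2 * Real.exp K, κ / 2, by positivity, by positivity, fun k i => ?_⟩
  rcases Nat.eq_zero_or_pos k with h0 | h0
  · subst h0
    have h1 := ht κ hκ0 (min_le_left _ _) 0 i (((0 : ℕ) : ℝ) ^ (1 / 3 : ℝ) ^ 2)
    have e : ((0 : ℕ) : ℝ) ^ (1 / 3 : ℝ) = 0 := by
      rw [Nat.cast_zero]
      exact Real.zero_rpow (by norm_num)
    rw [e]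
    have h2 := ht κ hκ0 (min_le_left _ _) 0 i (0 ^ 2)
    refine h2.trans ?_
    simp
  set x : ℝ := (k : ℝ) ^ (1 / 3 : ℝ) with hx
  have hkR : (1 : ℝ) ≤ k := by exact_mod_cast h0
  have hx1 : 1 ≤ x := Real.one_le_rpow hkR (by norm_num)
  have hx3 : x ^ 3 = k := by
    rw [hx, ← Real.rpow_natCast, ← Real.rpow_mul (by positivity)]
    norm_num
  have hθ : 0 < κ / x := by positivity
  have hθ1 : κ / x ≤ θ₀ := by
    rw [div_le_iff₀ (by positivity)]
    have : κ ≤ θ₀ := min_le_left _ _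
    nlinarith
  refine (ht (κ / x) hθ hθ1 k i (x ^ 2)).trans ?_
  rw [mul_assoc 2, ← Real.exp_add]
  refine mul_le_mul_of_nonneg_left (Real.exp_le_exp.2 ?_) (by norm_num)
  rw [← hx3]
  have e1 : K * (κ / x) ^ 2 * x ^ 3 = K * κ * κ * x := by field_simp
  have e2 : κ / x * x ^ 2 = κ * x := by field_simp
  rw [e1, e2]
  have h1 : K * κ ≤ 1 / 2 := by
    rw [le_div_iff₀ (by positivity)] at hκ1
    linarith
  have h2 : K * κ * (κ * x) ≤ 1 / 2 * (κ * x) := mul_le_mul_of_nonneg_right h1 (by positivity)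
  nlinarith

/-- typical numbers of visits -/
theorem typical (h : G.Irr ρ) {η : ℝ} (hη : 0 < η) : ∃ C c : ℝ, 0 < C ∧ 0 < c ∧ ∀ (k : ℕ) (i : ι),
    G.Ex k i (fun w => if ∀ j, |(G.ct i w j : ℝ) - ρ j * k| ≤ η * k then 0 else 1) ≤ C * Real.exp (-(c * k)) := by
  classical
  have h1 : ∀ j : ι, ∃ C c : ℝ, 0 < C ∧ 0 < c ∧ ∀ (k : ℕ) (i : ι),
      G.Ex k i (fun w => if η * k < |(G.ct i w j : ℝ) - ρ j * k| then 1 else 0) ≤ C * Real.exp (-(c * k)) := by
    intro j
    obtain ⟨C, c, hC, hc, hd⟩ := G.dev h (Pi.single j 1) hη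
    refine ⟨C, c, hC, hc, fun k i => ?_⟩
    refine le_trans (le_of_eq ?_) (hd k i)
    refine G.Ex_congr fun w _ => ?_
    have e1 : SS (Pi.single j (1 : ℝ)) (G.ct i w) = G.ct i w j := by
      unfold SS
      rw [sum_eq_single j]
      · rw [Pi.single_eq_same, mul_one]
      · intro l _ hl
        rw [Pi.single_eq_of_ne hl, mul_zero]
      · intro h; exact absurd (mem_univ j) h
    have e2 : ∑ x, ρ x * (Pi.single j (1 : ℝ) : ι → ℝ) x = ρ j := by
      rw [sum_eq_single j]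
      · rw [Pi.single_eq_same, mul_one]
      · intro l _ hl
        rw [Pi.single_eq_of_ne hl, mul_zero]
      · intro h; exact absurd (mem_univ j) h
    rw [e1, e2, mul_comm (k : ℝ) (ρ j)]
  choose C c hC hc hd using h1
  by_cases hne : Nonempty ι
  · obtain ⟨j0, -, hj0⟩ := exists_min_image (univ : Finset ι) c univ_nonempty
    refine ⟨∑ j, C j, c j0, sum_pos (fun j _ => hC j) univ_nonempty, hc j0, fun k i => ?_⟩
    calc G.Ex k i (fun w => if ∀ j, |(G.ct i w j : ℝ) - ρ j * k| ≤ η * k then 0 else 1)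
        ≤ G.Ex k i (fun w => ∑ j, if η * k < |(G.ct i w j : ℝ) - ρ j * k| then 1 else 0) := by
          refine G.Ex_mono fun w _ => ?_
          split_ifs with hall
          · exact sum_nonneg fun j _ => by split_ifs <;> norm_num
          · push Not at hall
            obtain ⟨j, hj⟩ := hall
            have h2 := single_le_sum (f := fun j => if η * k < |(G.ct i w j : ℝ) - ρ j * k| then (1 : ℝ) else 0)
              (fun j _ => by split_ifs <;> norm_num) (mem_univ j)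
            simp only [if_pos hj] at h2
            exact h2
      _ = ∑ j, G.Ex k i (fun w => if η * k < |(G.ct i w j : ℝ) - ρ j * k| then 1 else 0) := by rw [Ex_sum]
      _ ≤ ∑ j, C j * Real.exp (-(c j0 * k)) := by
          refine sum_le_sum fun j _ => (hd j k i).trans (mul_le_mul_of_nonneg_left ?_ (hC j).le)
          apply Real.exp_le_exp.2
          have := hj0 j (mem_univ j)
          have hk : (0 : ℝ) ≤ k := Nat.cast_nonneg _
          nlinarith
      _ = _ := by rw [sum_mul]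
  · exact ⟨1, 1, one_pos, one_pos, fun k i => absurd ⟨i⟩ hne⟩

/-! ### Sizes -/

theorem b_abs_pos (j : ι) : (0 : ℝ) < |(G.b j : ℝ)| := by
  have : (G.b j : ℝ) ≠ 0 := by exact_mod_cast G.b_ne j
  exact abs_pos.2 this

theorem b_abs_ge (j : ι) : (1 : ℝ) ≤ |(G.b j : ℝ)| := by
  have := Int.one_le_abs (G.b_ne j)
  exact_mod_cast this

theorem n_ge (j : ι) : (1 : ℝ) ≤ G.n j := by exact_mod_cast G.n_pos j

theorem abs_Mv (v : ι → ℕ) : |(G.Mv v : ℝ)| = ∏ j, |(G.b j : ℝ)| ^ v j := by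
  unfold Mv
  push_cast
  rw [Finset.abs_prod]
  exact prod_congr rfl fun j _ => abs_pow _ _

theorem log_Mv (v : ι → ℕ) : Real.log |(G.Mv v : ℝ)| = SS (fun j => Real.log |(G.b j : ℝ)|) v := by
  rw [abs_Mv, Real.log_prod fun j _ => (pow_pos (G.b_abs_pos j) _).ne']
  unfold SS
  exact sum_congr rfl fun j _ => Real.log_pow _ _

theorem log_Nv (v : ι → ℕ) : Real.log (G.Nv v) = SS (fun j => Real.log (G.n j)) v := by
  unfold Nv
  push_cast
  rw [Real.log_prod fun j _ => (pow_pos (G.n_posR j) _).ne']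
  unfold SS
  exact sum_congr rfl fun j _ => Real.log_pow _ _

theorem abs_Mv_pos (v : ι → ℕ) : (0 : ℝ) < |(G.Mv v : ℝ)| := by
  rw [abs_Mv]; exact prod_pos fun j _ => pow_pos (G.b_abs_pos j) _

theorem abs_Mv_ge (v : ι → ℕ) : (1 : ℝ) ≤ |(G.Mv v : ℝ)| := by
  have := Int.one_le_abs (G.Mv_ne v)
  exact_mod_cast this

variable (ρ)

/-- mean of `log n` -/
noncomputable def hh : ℝ := ∑ x, ρ x * Real.log (G.n x)

/-- mean of `log |b|` -/
noncomputable def mm : ℝ := ∑ x, ρ x * Real.log |(G.b x : ℝ)|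

variable {ρ}

theorem hh_nonneg (h : G.Irr ρ) : 0 ≤ G.hh ρ :=
  sum_nonneg fun x _ => mul_nonneg (h.pos x).le (Real.log_nonneg (G.n_ge x))

theorem mm_nonneg (h : G.Irr ρ) : 0 ≤ G.mm ρ :=
  sum_nonneg fun x _ => mul_nonneg (h.pos x).le (Real.log_nonneg (G.b_abs_ge x))

/-- the multipliers decay in mean -/
theorem rate (h : G.Irr ρ) (hd : G.mm ρ < G.hh ρ) : ∃ lam C c : ℝ, 0 < lam ∧ lam ≤ 1 ∧ 0 < C ∧ 0 < c ∧
    ∀ (k : ℕ) (i : ι), G.Ex k i (fun w => (|(G.Mv (G.ct i w) : ℝ)| / G.Nv (G.ct i w)) ^ lam) ≤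
      C * Real.exp (-(c * k)) := by
  set f : ι → ℝ := fun j => Real.log |(G.b j : ℝ)| - Real.log (G.n j) with hf
  obtain ⟨K, θ₀, hK, hθ₀, hm⟩ := G.exp_moment h f
  have hmean : ∑ x, ρ x * f x = G.mm ρ - G.hh ρ := by
    unfold mm hh
    rw [← sum_sub_distrib]
    exact sum_congr rfl fun x _ => mul_sub _ _ _
  set μ := G.hh ρ - G.mm ρ with hμ
  have hμ0 : 0 < μ := by linarith
  set lam := min 1 (min θ₀ (μ / (2 * K))) with hlam
  have hl0 : 0 < lam := lt_min one_pos (lt_min hθ₀ (by positivity))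
  have hl1 : lam ≤ 1 := min_le_left _ _
  have hl2 : lam ≤ θ₀ := (min_le_right _ _).trans (min_le_left _ _)
  have hl3 : lam ≤ μ / (2 * K) := (min_le_right _ _).trans (min_le_right _ _)
  refine ⟨lam, Real.exp K, lam * μ / 2, hl0, hl1, Real.exp_pos _, by positivity, fun k i => ?_⟩
  have h1 : ∀ w ∈ G.Pth k i, (|(G.Mv (G.ct i w) : ℝ)| / G.Nv (G.ct i w)) ^ lam =
      Real.exp (-(lam * μ * k)) * Real.exp (lam * (SS f (G.ct i w) - k * ∑ x, ρ x * f x)) := by
    intro w _
    have hq : 0 < |(G.Mv (G.ct i w) : ℝ)| / G.Nv (G.ct i w) := div_pos (G.abs_Mv_pos _) (G.Nv_posR _)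
    rw [Real.rpow_def_of_pos hq, ← Real.exp_add, Real.log_div (G.abs_Mv_pos _).ne' (G.Nv_posR _).ne', log_Mv, log_Nv,
      hmean]
    congr 1
    have e : SS f (G.ct i w) = SS (fun j => Real.log |(G.b j : ℝ)|) (G.ct i w) -
        SS (fun j => Real.log (G.n j)) (G.ct i w) := by
      unfold SS
      rw [← sum_sub_distrib]
      exact sum_congr rfl fun x _ => mul_sub _ _ _
    rw [e, hμ]
    ring
  rw [G.Ex_congr h1, Ex_mul]
  refine (mul_le_mul_of_nonneg_left (hm lam (by rwa [abs_of_pos hl0]) k i) (Real.exp_pos _).le).trans ?_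
  rw [← Real.exp_add, ← Real.exp_add]
  apply Real.exp_le_exp.2
  have h2 : K * lam ≤ μ / 2 := by
    rw [le_div_iff₀ (by positivity)] at hl3
    linarith
  have hk : (0 : ℝ) ≤ k := Nat.cast_nonneg _
  have h3 : K * lam * (lam * k) ≤ μ / 2 * (lam * k) := mul_le_mul_of_nonneg_right h2 (by positivity)
  nlinarith

/-- moments of the offsets -/
theorem offset (h : G.Irr ρ) (hd : G.mm ρ < G.hh ρ) : ∃ lam C : ℝ, 0 < lam ∧ 0 < C ∧
    ∀ (k : ℕ) (i : ι), G.Ex k i (fun w => (|(G.Ww i w : ℝ)| / G.Nv (G.ct i w)) ^ lam) ≤ C := by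
  obtain ⟨lam, C, c, hl0, hl1, hC, hc, hr⟩ := G.rate h hd
  obtain ⟨c₀, hc₀, hc₀'⟩ : ∃ c₀ : ℝ, 0 < c₀ ∧ ∀ i, ∀ a < G.n i, |(G.c i a : ℝ)| ≤ c₀ := by
    refine ⟨1 + ∑ i, ∑ a ∈ range (G.n i), |(G.c i a : ℝ)|, ?_, fun i a ha => ?_⟩
    · have : 0 ≤ ∑ i, ∑ a ∈ range (G.n i), |(G.c i a : ℝ)| :=
        sum_nonneg fun _ _ => sum_nonneg fun _ _ => abs_nonneg _
      linarith
    · have h1 := single_le_sum (f := fun a => |(G.c i a : ℝ)|) (fun _ _ => abs_nonneg _) (mem_range.2 ha)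
      have h2 := single_le_sum (f := fun i => ∑ a ∈ range (G.n i), |(G.c i a : ℝ)|)
        (fun _ _ => sum_nonneg fun _ _ => abs_nonneg _) (mem_univ i)
      linarith
  set A : ℝ := c₀ ^ lam * C with hA
  have hA0 : 0 < A := by positivity
  have hq : Real.exp (-c) < 1 := by rw [Real.exp_lt_one_iff]; linarith
  have hq0 : 0 < Real.exp (-c) := Real.exp_pos _
  have key : ∀ (k : ℕ) (i : ι), G.Ex k i (fun w => (|(G.Ww i w : ℝ)| / G.Nv (G.ct i w)) ^ lam) ≤
      A * ∑ t ∈ range k, Real.exp (-c) ^ t := by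
    intro k
    induction k with
    | zero =>
      intro i
      rw [Ex_zero, Ww]
      simp only [Int.cast_zero, abs_zero, zero_div, range_zero, sum_empty, mul_zero]
      rw [Real.zero_rpow hl0.ne']
    | succ k ih =>
      intro i
      rw [Ex_succ]
      have hn := G.n_posR i
      rw [div_le_iff₀ hn]
      have h1 : ∀ a ∈ range (G.n i), (G.Ex k (G.nx i a) fun w =>
          (|(G.Ww i (a :: w) : ℝ)| / G.Nv (G.ct i (a :: w))) ^ lam) ≤
          A * Real.exp (-c) ^ k + A * ∑ t ∈ range k, Real.exp (-c) ^ t := by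
        intro a ha
        calc (G.Ex k (G.nx i a) fun w => (|(G.Ww i (a :: w) : ℝ)| / G.Nv (G.ct i (a :: w))) ^ lam)
            ≤ G.Ex k (G.nx i a) (fun w =>
                c₀ ^ lam * (|(G.Mv (G.ct (G.nx i a) w) : ℝ)| / G.Nv (G.ct (G.nx i a) w)) ^ lam +
                (|(G.Ww (G.nx i a) w : ℝ)| / G.Nv (G.ct (G.nx i a) w)) ^ lam) := by
              refine G.Ex_mono fun w _ => ?_
              set v := G.ct (G.nx i a) w with hv
              have hN := G.Nv_posR v
              rw [← Real.mul_rpow hc₀.le (by positivity)]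
              refine le_trans ?_ (Real.rpow_add_le_add_rpow (by positivity) (by positivity) hl0.le hl1)
              refine Real.rpow_le_rpow (by positivity) ?_ hl0.le
              rw [Ww, ct, ← hv, Nv_add, Nv_single]
              push_cast
              rw [div_le_iff₀ (by positivity)]
              have h2 : |(G.c i a : ℝ) * (G.Mv v : ℝ) + (G.n i : ℝ) * (G.Ww (G.nx i a) w : ℝ)| ≤
                  c₀ * |(G.Mv v : ℝ)| + G.n i * |(G.Ww (G.nx i a) w : ℝ)| := by
                refine (abs_add_le _ _).trans (add_le_add ?_ ?_)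
                · rw [abs_mul]
                  exact mul_le_mul_of_nonneg_right (hc₀' i a (mem_range.1 ha)) (abs_nonneg _)
                · rw [abs_mul, Nat.abs_cast]
              refine h2.trans ?_
              have h3 : (c₀ * (|(G.Mv v : ℝ)| / G.Nv v) + |(G.Ww (G.nx i a) w : ℝ)| / G.Nv v) * (G.n i * G.Nv v) =
                  c₀ * |(G.Mv v : ℝ)| * G.n i + G.n i * |(G.Ww (G.nx i a) w : ℝ)| := by
                field_simp
              rw [h3]
              have h4 := G.n_ge i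
              have h5 : 0 ≤ c₀ * |(G.Mv v : ℝ)| := by positivity
              nlinarith
          _ = c₀ ^ lam * G.Ex k (G.nx i a) (fun w => (|(G.Mv (G.ct (G.nx i a) w) : ℝ)| / G.Nv (G.ct (G.nx i a) w)) ^ lam) +
                G.Ex k (G.nx i a) (fun w => (|(G.Ww (G.nx i a) w : ℝ)| / G.Nv (G.ct (G.nx i a) w)) ^ lam) := by
              rw [Ex_add', Ex_mul]
          _ ≤ c₀ ^ lam * (C * Real.exp (-(c * k))) + A * ∑ t ∈ range k, Real.exp (-c) ^ t :=
              add_le_add (mul_le_mul_of_nonneg_left (hr k _) (by positivity)) (ih _)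
          _ = _ := by
              rw [hA, ← Real.exp_nat_mul]
              ring_nf
      refine (sum_le_sum h1).trans ?_
      rw [sum_const, card_range, nsmul_eq_mul, sum_range_succ]
      apply le_of_eq
      ring
  refine ⟨lam, A * (1 - Real.exp (-c))⁻¹, hl0, by
    have : 0 < 1 - Real.exp (-c) := by linarith
    positivity, fun k i => (key k i).trans ?_⟩
  refine mul_le_mul_of_nonneg_left ?_ hA0.le
  exact sum_le_hasSum (range k) (fun t _ => pow_nonneg hq0.le t) (hasSum_geometric_of_lt_one hq0.le hq)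

end GS

end Pool.Agent.Zk39.GD
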