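import Mathlib
import Pool.Agent.Zk39.GD.Tail

/-!
# Entropy bound for the offsets of random paths (after `Pool.Agent.H319R3.GC.E2`)
-/

set_option autoImplicit false
set_option linter.unusedSectionVars false

namespace Pool.Agent.Zk39.GD

open Finset Pool.Agent.H319R3.GC

theorem cnt_one {κ : Type*} (s : Finset κ) (v : κ → ℤ) : cnt s v 1 0 = s.card := by
  unfold cnt
  congr 2
  apply Finset.filter_true_of_mem
  intro i _
  simp

theorem EE_one {κ : Type*} (s : Finset κ) (v : κ → ℤ) : EE s v 1 = s.card * Real.log s.card := by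
  unfold EE
  simp [cnt_one]

/-- entropy of a partition of `1` into `K` parts -/
theorem entropy_le {κ : Type*} (s : Finset κ) (q : κ → ℝ) (hq : ∀ i ∈ s, 0 ≤ q i) (hs : ∑ i ∈ s, q i = 1) :
    - ∑ i ∈ s, q i * Real.log (q i) ≤ Real.log s.card := by
  have hne : s.Nonempty := by
    rcases s.eq_empty_or_nonempty with h | h
    · rw [h] at hs; simp at hs
    · exact h
  have hK : (0 : ℝ) < s.card := by exact_mod_cast hne.card_pos
  have h1 : ∀ i ∈ s, - (q i * Real.log (q i)) - q i * Real.log s.card ≤ 1 / s.card - q i := by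
    intro i hi
    rcases (hq i hi).lt_or_eq with h0 | h0
    · have h2 : Real.log (1 / (q i * s.card)) ≤ 1 / (q i * s.card) - 1 :=
        Real.log_le_sub_one_of_pos (by positivity)
      rw [Real.log_div one_ne_zero (by positivity), Real.log_mul h0.ne' hK.ne', Real.log_one] at h2
      have h3 := mul_le_mul_of_nonneg_left h2 h0.le
      have h4 : q i * (1 / (q i * s.card) - 1) = 1 / s.card - q i := by
        field_simp
      rw [h4] at h3
      linarith
    · rw [← h0]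
      simp
  have h2 := sum_le_sum h1
  rw [sum_sub_distrib, sum_sub_distrib, ← sum_mul, sum_neg_distrib, hs] at h2
  have h3 : ∑ i ∈ s, 1 / (s.card : ℝ) = 1 := by
    rw [sum_const, nsmul_eq_mul]
    field_simp
  rw [h3] at h2
  linarith

namespace GS

variable {ι : Type} [Fintype ι] [DecidableEq ι] (G : GS ι) {ρ : ι → ℝ}

/-- at most one good path in each class -/
theorem cnt_le_bad {b : ℕ} {i j : ι} {v : ι → ℕ} {X : ℝ} {N : ℕ} (hN : 2 * X < N) (c : ℤ) :
    cnt (G.gr b i j v) (G.Ww i) N c ≤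
      1 + cnt ((G.gr b i j v).filter fun w => X < |(G.Ww i w : ℝ)|) (G.Ww i) N c := by
  classical
  unfold cnt
  have h1 : ((G.gr b i j v).filter fun w => (N : ℤ) ∣ G.Ww i w - c) ⊆
      ((G.gr b i j v).filter fun w => (N : ℤ) ∣ G.Ww i w - c ∧ |(G.Ww i w : ℝ)| ≤ X) ∪
      (((G.gr b i j v).filter fun w => X < |(G.Ww i w : ℝ)|).filter
        fun w => (N : ℤ) ∣ G.Ww i w - c) := by
    intro w hw
    rw [mem_filter] at hw
    rw [mem_union, mem_filter, mem_filter, mem_filter]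
    by_cases hX : |(G.Ww i w : ℝ)| ≤ X
    · exact Or.inl ⟨hw.1, hw.2, hX⟩
    · exact Or.inr ⟨⟨hw.1, not_le.1 hX⟩, hw.2⟩
  have h2 : ((G.gr b i j v).filter fun w => (N : ℤ) ∣ G.Ww i w - c ∧ |(G.Ww i w : ℝ)| ≤ X).card ≤ 1 := by
    rw [Finset.card_le_one]
    intro u hu w hw
    rw [mem_filter, mem_gr] at hu hw
    obtain ⟨⟨⟨hul, hud⟩, -, huM⟩, huN, huX⟩ := hu
    obtain ⟨⟨⟨hvl, hvd⟩, -, hvM⟩, hvN, hvX⟩ := hw
    apply G.Ww_inj (G.mem_Pth.2 ⟨hul, hud⟩) (G.mem_Pth.2 ⟨hvl, hvd⟩) (huM.trans hvM.symm)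
    have h3 : (N : ℤ) ∣ G.Ww i u - G.Ww i w := by
      have := dvd_sub huN hvN
      rwa [show G.Ww i u - c - (G.Ww i w - c) = G.Ww i u - G.Ww i w by ring] at this
    have h4 : |(G.Ww i u - G.Ww i w : ℤ)| < (N : ℤ) := by
      have h5 : |((G.Ww i u : ℝ) - (G.Ww i w : ℝ))| < (N : ℝ) := by
        have := abs_sub (G.Ww i u : ℝ) (G.Ww i w : ℝ)
        linarith
      exact_mod_cast h5
    have h6 := Int.eq_zero_of_abs_lt_dvd h3 h4
    rw [h6]
    exact dvd_zero _
  have h3 := (card_le_card h1).trans (card_union_le _ _)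
  have h4 : ((G.gr b i j v).filter fun w => (N : ℤ) ∣ G.Ww i w - c).card ≤
      1 + (((G.gr b i j v).filter fun w => X < |(G.Ww i w : ℝ)|).filter
        fun w => (N : ℤ) ∣ G.Ww i w - c).card := by omega
  exact_mod_cast h4

/-- the sum of the `log n` -/
noncomputable def Lg : ℝ := ∑ j, Real.log (G.n j)

theorem Lg_nonneg : 0 ≤ G.Lg := sum_nonneg fun j _ => Real.log_nonneg (G.n_ge j)

theorem log_Nv_le {b : ℕ} {v : ι → ℕ} (hv : v ∈ Vs ι b) : Real.log (G.Nv v) ≤ b * G.Lg := by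
  rw [log_Nv]
  unfold SS Lg
  rw [mul_sum]
  refine sum_le_sum fun j _ => mul_le_mul_of_nonneg_right ?_ (Real.log_nonneg (G.n_ge j))
  have := mem_range.1 (Fintype.mem_piFinset.1 hv j)
  exact_mod_cast Nat.lt_succ_iff.1 this

theorem cnt_log_le {b : ℕ} {i j : ι} {v : ι → ℕ} (hv : v ∈ Vs ι b) {X : ℝ} {N : ℕ} (hN : 2 * X < N) (c : ℤ) :
    cnt (G.gr b i j v) (G.Ww i) N c * Real.log (cnt (G.gr b i j v) (G.Ww i) N c) ≤
      cnt ((G.gr b i j v).filter fun w => X < |(G.Ww i w : ℝ)|) (G.Ww i) N c * (2 * (b * G.Lg)) := by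
  have h1 := G.cnt_le_bad (b := b) (i := i) (j := j) (v := v) hN c
  have hL := G.Lg_nonneg
  have hb0 : (0 : ℝ) ≤ 2 * (b * G.Lg) := by positivity
  set bad := cnt ((G.gr b i j v).filter fun w => X < |(G.Ww i w : ℝ)|) (G.Ww i) N c with hbad
  have hbad0 : 0 ≤ bad := cnt_nonneg _ _ _ _
  obtain ⟨n, hn⟩ : ∃ n : ℕ, cnt (G.gr b i j v) (G.Ww i) N c = n := ⟨_, rfl⟩
  obtain ⟨n', hn'⟩ : ∃ n : ℕ, bad = n := ⟨_, rfl⟩
  rcases Nat.lt_or_ge n 2 with h2 | h2
  · have : cnt (G.gr b i j v) (G.Ww i) N c * Real.log (cnt (G.gr b i j v) (G.Ww i) N c) = 0 := by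
      rw [hn]
      interval_cases n <;> simp
    rw [this]
    positivity
  · have h3 : Real.log (cnt (G.gr b i j v) (G.Ww i) N c) ≤ b * G.Lg := by
      refine (Real.log_le_log ?_ ((cnt_le _ _ _ _).trans (G.card_gr_le b i j v))).trans (G.log_Nv_le hv)
      rw [hn]; exact_mod_cast (by omega : 0 < n)
    have h4 : cnt (G.gr b i j v) (G.Ww i) N c ≤ 2 * bad := by
      rw [hn, hn'] at h1 ⊢
      have h5 : n ≤ 1 + n' := by exact_mod_cast h1
      have h6 : n ≤ 2 * n' := by omega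
      exact_mod_cast h6
    have h0 : 0 ≤ cnt (G.gr b i j v) (G.Ww i) N c := cnt_nonneg _ _ _ _
    have hb1 : (0 : ℝ) ≤ b * G.Lg := by positivity
    calc cnt (G.gr b i j v) (G.Ww i) N c * Real.log (cnt (G.gr b i j v) (G.Ww i) N c)
        ≤ cnt (G.gr b i j v) (G.Ww i) N c * (b * G.Lg) := mul_le_mul_of_nonneg_left h3 h0
      _ ≤ (2 * bad) * (b * G.Lg) := mul_le_mul_of_nonneg_right h4 hb1
      _ = bad * (2 * (b * G.Lg)) := by ring

theorem EE_le {b : ℕ} {i j : ι} {v : ι → ℕ} (hv : v ∈ Vs ι b) {X : ℝ} {N : ℕ} (hN0 : 0 < N) (hN : 2 * X < N) :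
    EE (G.gr b i j v) (G.Ww i) N - EE (G.gr b i j v) (G.Ww i) 1 ≤
      (((G.gr b i j v).filter fun w => X < |(G.Ww i w : ℝ)|).card : ℝ) * (2 * (b * G.Lg))
      + (G.gr b i j v).card * Real.log N - (G.gr b i j v).card * Real.log (G.gr b i j v).card := by
  rw [EE_one]
  unfold EE
  have h1 : ∑ c ∈ range N, cnt (G.gr b i j v) (G.Ww i) N (c : ℤ) *
      Real.log (cnt (G.gr b i j v) (G.Ww i) N (c : ℤ)) ≤
      (((G.gr b i j v).filter fun w => X < |(G.Ww i w : ℝ)|).card : ℝ) * (2 * (b * G.Lg)) := by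
    rw [← sum_cnt ((G.gr b i j v).filter fun w => X < |(G.Ww i w : ℝ)|) (G.Ww i) hN0, sum_mul]
    exact sum_le_sum fun c _ => G.cnt_log_le hv hN c
  linarith

theorem ED_mono (b : ℕ) (i j : ι) {D N : ℕ} (hN : 0 < N) (h : D ∣ N) : G.ED b i j D ≤ G.ED b i j N :=
  sum_le_sum fun _ _ => div_le_div_of_nonneg_right (EE_mono _ _ hN h) (G.Nv_posR _).le

theorem gg_le_ED (b : ℕ) (i j : ι) {D R : ℕ} (hD : 0 < D) (hR : 1 ≤ R) :
    G.gg b i j D R ≤ 4 * R * (G.ED b i j (D * R) - G.ED b i j D) := by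
  unfold gg ED
  rw [← sum_sub_distrib, mul_sum]
  refine sum_le_sum fun v _ => ?_
  rw [← sub_div, ← mul_div_assoc]
  exact div_le_div_of_nonneg_right (EE_step _ _ hD hR) (G.Nv_posR _).le

/-- the mean of `log N` -/
theorem mean_log (h : G.Irr ρ) : ∃ C : ℝ, 0 < C ∧ ∀ (b : ℕ) (i : ι),
    b * G.hh ρ - C ≤ G.Ex b i (fun w => Real.log (G.Nv (G.ct i w))) := by
  obtain ⟨u, hu⟩ := G.exists_poisson h (fun j => Real.log (G.n j))
  have hmean : ∑ x, ρ x * Real.log (G.n x) = G.hh ρ := rfl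
  rw [hmean] at hu
  obtain ⟨U, hU⟩ : ∃ U : ℝ, 0 < U ∧ ∀ i, |u i| ≤ U := by
    refine ⟨1 + ∑ i, |u i|, ?_, fun i => ?_⟩
    · have : 0 ≤ ∑ i, |u i| := sum_nonneg fun i _ => abs_nonneg _
      linarith
    · have h1 := single_le_sum (f := fun i => |u i|) (fun i _ => abs_nonneg _) (mem_univ i)
      linarith
  refine ⟨2 * U, by linarith, fun b i => ?_⟩
  have h1 := G.Ex_martingale hu b i
  have h2 : G.Ex b i (fun w => SS (fun j => Real.log (G.n j)) (G.ct i w) - b * G.hh ρ + u (G.en i w)) ≤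
      G.Ex b i (fun w => Real.log (G.Nv (G.ct i w)) + (U - b * G.hh ρ)) := by
    refine G.Ex_mono fun w _ => ?_
    rw [← log_Nv]
    have := (abs_le.1 (hU.2 (G.en i w))).2
    linarith
  rw [h1, Ex_add', Ex_const] at h2
  have h3 := (abs_le.1 (hU.2 i)).1
  linarith

/-- large offsets are rare -/
theorem bad_offset (h : G.Irr ρ) (hd : G.mm ρ < G.hh ρ) : ∃ C c : ℝ, 0 < C ∧ 0 < c ∧ ∀ (b : ℕ) (i : ι), 1 ≤ b →
    G.Ex b i (fun w => if Real.exp (b * G.hh ρ + 2 * ((b : ℝ) ^ (1 / 3 : ℝ)) ^ 2) < |(G.Ww i w : ℝ)| then 1 else 0) ≤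
      C * Real.exp (-(c * (b : ℝ) ^ (1 / 3 : ℝ))) := by
  obtain ⟨lam, C1, hlam, hC1, hoff⟩ := G.offset h hd
  obtain ⟨C2, c2, hC2, hc2, hdev⟩ := G.dev_two_thirds h (fun j => Real.log (G.n j))
  have hmean : ∑ x, ρ x * Real.log (G.n x) = G.hh ρ := rfl
  rw [hmean] at hdev
  refine ⟨C1 + C2, min lam c2, by positivity, lt_min hlam hc2, fun b i hb => ?_⟩
  set x : ℝ := (b : ℝ) ^ (1 / 3 : ℝ) with hx
  have hbR : (1 : ℝ) ≤ b := by exact_mod_cast hb
  have hx1 : 1 ≤ x := Real.one_le_rpow hbR (by norm_num)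
  calc G.Ex b i (fun w => if Real.exp (b * G.hh ρ + 2 * x ^ 2) < |(G.Ww i w : ℝ)| then 1 else 0)
      ≤ G.Ex b i (fun w => (if x ^ 2 < |SS (fun j => Real.log (G.n j)) (G.ct i w) - b * G.hh ρ| then 1 else 0) +
          Real.exp (-(lam * x ^ 2)) * (|(G.Ww i w : ℝ)| / G.Nv (G.ct i w)) ^ lam) := by
        refine G.Ex_mono fun w _ => ?_
        have hN := G.Nv_posR (G.ct i w)
        have hnn : 0 ≤ Real.exp (-(lam * x ^ 2)) * (|(G.Ww i w : ℝ)| / G.Nv (G.ct i w)) ^ lam := by positivity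
        by_cases h1 : x ^ 2 < |SS (fun j => Real.log (G.n j)) (G.ct i w) - b * G.hh ρ|
        · rw [if_pos h1]
          split_ifs
          · linarith
          · linarith
        · rw [if_neg h1]
          split_ifs with h2
          · push Not at h1
            rw [← log_Nv] at h1
            have h3 := (abs_le.1 h1).2
            have h4 : (G.Nv (G.ct i w) : ℝ) ≤ Real.exp (b * G.hh ρ + x ^ 2) := by
              rw [← Real.log_le_iff_le_exp hN]
              linarith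
            have h5 : Real.exp (x ^ 2) ≤ |(G.Ww i w : ℝ)| / G.Nv (G.ct i w) := by
              rw [le_div_iff₀ hN]
              calc Real.exp (x ^ 2) * G.Nv (G.ct i w) ≤ Real.exp (x ^ 2) * Real.exp (b * G.hh ρ + x ^ 2) :=
                    mul_le_mul_of_nonneg_left h4 (Real.exp_pos _).le
                _ = Real.exp (b * G.hh ρ + 2 * x ^ 2) := by rw [← Real.exp_add]; ring_nf
                _ ≤ _ := h2.le
            have h6 : Real.exp (lam * x ^ 2) ≤ (|(G.Ww i w : ℝ)| / G.Nv (G.ct i w)) ^ lam := by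
              rw [mul_comm, Real.exp_mul]
              exact Real.rpow_le_rpow (Real.exp_pos _).le h5 hlam.le
            have h7 : 1 = Real.exp (-(lam * x ^ 2)) * Real.exp (lam * x ^ 2) := by
              rw [← Real.exp_add]; simp
            rw [zero_add, h7]
            exact mul_le_mul_of_nonneg_left h6 (Real.exp_pos _).le
          · linarith
    _ ≤ C2 * Real.exp (-(c2 * x)) + Real.exp (-(lam * x ^ 2)) * C1 := by
        rw [Ex_add', Ex_mul]
        exact add_le_add (hdev b i) (mul_le_mul_of_nonneg_left (hoff b i) (Real.exp_pos _).le)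
    _ ≤ C2 * Real.exp (-(min lam c2 * x)) + Real.exp (-(min lam c2 * x)) * C1 := by
        have h1 : Real.exp (-(c2 * x)) ≤ Real.exp (-(min lam c2 * x)) := by
          apply Real.exp_le_exp.2
          have := min_le_right lam c2
          nlinarith
        have h2 : Real.exp (-(lam * x ^ 2)) ≤ Real.exp (-(min lam c2 * x)) := by
          apply Real.exp_le_exp.2
          have h3 := min_le_left lam c2
          have h5 : min lam c2 * x ≤ lam * x := mul_le_mul_of_nonneg_right h3 (by linarith)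
          have h6 : lam * x ≤ lam * x ^ 2 := mul_le_mul_of_nonneg_left (by nlinarith) hlam.le
          linarith
        exact add_le_add (mul_le_mul_of_nonneg_left h1 hC2.le) (mul_le_mul_of_nonneg_right h2 hC1.le)
    _ = _ := by ring

/-- **Entropy bound** -/
theorem ED_bound (h : G.Irr ρ) (hd : G.mm ρ < G.hh ρ) : ∃ C : ℝ, 0 < C ∧ ∀ b N : ℕ, 1 ≤ b → 1 ≤ N →
    (N : ℝ) ≤ Real.exp (b * G.hh ρ) →
    ∑ i, ∑ j, (G.ED b i j N - G.ED b i j 1) ≤ C * ((b : ℝ) ^ (1 / 3 : ℝ)) ^ 2 := by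
  classical
  obtain ⟨Cb, cb, hCb, hcb, hbad⟩ := G.bad_offset h hd
  obtain ⟨Cm, hCm, hmean⟩ := G.mean_log h
  have hL := G.Lg_nonneg
  set κ : ℝ := (Fintype.card ι : ℝ) with hκ
  have hκ0 : 0 ≤ κ := Nat.cast_nonneg _
  refine ⟨κ * (2 * G.Lg * (Cb * (6 / cb ^ 3)) + 2 + 2 + Cm + κ + 4 * κ) + 1, by positivity, ?_⟩
  intro b N hb hN1 hNd
  set x : ℝ := (b : ℝ) ^ (1 / 3 : ℝ) with hx
  have hbR : (1 : ℝ) ≤ b := by exact_mod_cast hb
  have hx1 : 1 ≤ x := Real.one_le_rpow hbR (by norm_num)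
  have hx3 : x ^ 3 = b := by
    rw [hx, ← Real.rpow_natCast, ← Real.rpow_mul (by positivity)]
    norm_num
  have hh0 := G.hh_nonneg h
  set X : ℝ := Real.exp (b * G.hh ρ + 2 * x ^ 2) with hX
  have hX0 : 0 < X := Real.exp_pos _
  have hNr : (0 : ℝ) < N := by exact_mod_cast hN1
  have hNX : (N : ℝ) ≤ X := hNd.trans (Real.exp_le_exp.2 (by nlinarith))
  set L : ℕ := ⌊2 * X / N⌋₊ + 1 with hLdef
  have hL1 : 2 * X / N < L := by rw [hLdef]; push_cast; exact Nat.lt_floor_add_one _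
  have hL2 : (L : ℝ) ≤ 2 * X / N + 1 := by
    rw [hLdef]; push_cast
    have := Nat.floor_le (show 0 ≤ 2 * X / N by positivity)
    linarith
  have hN2 : 2 * X < ((N * L : ℕ) : ℝ) := by
    rw [div_lt_iff₀ hNr] at hL1
    push_cast
    linarith [mul_comm (N : ℝ) L]
  have hN3 : ((N * L : ℕ) : ℝ) ≤ 3 * X := by
    push_cast
    calc (N : ℝ) * L ≤ N * (2 * X / N + 1) := mul_le_mul_of_nonneg_left hL2 hNr.le
      _ = 2 * X + N := by field_simp
      _ ≤ 3 * X := by linarith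
  have hNL : 0 < N * L := Nat.mul_pos hN1 (Nat.succ_pos _)
  have hlogN : Real.log ((N * L : ℕ) : ℝ) ≤ 2 + b * G.hh ρ + 2 * x ^ 2 := by
    calc Real.log ((N * L : ℕ) : ℝ) ≤ Real.log (3 * X) :=
          Real.log_le_log (by exact_mod_cast hNL) hN3
      _ = Real.log 3 + (b * G.hh ρ + 2 * x ^ 2) := by
          rw [Real.log_mul (by norm_num) hX0.ne', hX, Real.log_exp]
      _ ≤ _ := by
          have : Real.log 3 ≤ 3 - 1 := Real.log_le_sub_one_of_pos (by norm_num)
          linarith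
  -- one start
  have key : ∀ i, ∑ j, (G.ED b i j N - G.ED b i j 1) ≤
      (2 * G.Lg * (Cb * (6 / cb ^ 3)) + 2 + 2 + Cm + κ + 4 * κ) * x ^ 2 := by
    intro i
    set T : Finset (ι × (ι → ℕ)) := univ ×ˢ Vs ι b with hT
    set q : ι × (ι → ℕ) → ℝ := fun p => ((G.gr b i p.1 p.2).card : ℝ) / G.Nv p.2 with hq
    have hq0 : ∀ p ∈ T, 0 ≤ q p := fun p _ => div_nonneg (Nat.cast_nonneg _) (G.Nv_posR _).le
    have hqsum : ∑ p ∈ T, q p = 1 := by
      rw [hT, sum_product]
      have h1 : ∀ j, ∑ v ∈ Vs ι b, q (j, v) = G.Ex b i (fun w => if G.en i w = j then 1 else 0) :=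
        fun j => G.sum_card_gr b i j
      simp only [h1]
      rw [← Ex_sum]
      refine (G.Ex_congr (g := fun _ => (1 : ℝ)) fun w _ => ?_).trans (G.Ex_const b i 1)
      rw [Finset.sum_ite_eq univ (G.en i w) (fun _ => (1 : ℝ)), if_pos (mem_univ _)]
    have hmono : ∀ j, G.ED b i j N ≤ G.ED b i j (N * L) := fun j => G.ED_mono b i j hNL ⟨L, rfl⟩
    have h1 : ∑ j, (G.ED b i j N - G.ED b i j 1) ≤ ∑ p ∈ T,
        ((((G.gr b i p.1 p.2).filter fun w => X < |(G.Ww i w : ℝ)|).card : ℝ) / G.Nv p.2 * (2 * (b * G.Lg))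
          + (q p * Real.log ((N * L : ℕ) : ℝ) - q p * Real.log (q p) - q p * Real.log (G.Nv p.2))) := by
      rw [hT, sum_product]
      refine sum_le_sum fun j _ => ?_
      calc G.ED b i j N - G.ED b i j 1 ≤ G.ED b i j (N * L) - G.ED b i j 1 := by
            have := hmono j
            linarith
        _ = ∑ v ∈ Vs ι b, (EE (G.gr b i j v) (G.Ww i) (N * L) - EE (G.gr b i j v) (G.Ww i) 1) / G.Nv v := by
            unfold ED
            rw [← sum_sub_distrib]
            exact sum_congr rfl fun v _ => (sub_div _ _ _).symm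
        _ ≤ _ := by
            refine sum_le_sum fun v hv => ?_
            have hN := G.Nv_posR v
            refine (div_le_div_of_nonneg_right (G.EE_le hv hNL hN2) hN.le).trans (le_of_eq ?_)
            simp only [hq]
            rcases Nat.eq_zero_or_pos (G.gr b i j v).card with h0 | h0
            · have h00 : G.gr b i j v = ∅ := card_eq_zero.1 h0
              rw [h00]
              simp
            · have h0R : (0 : ℝ) < (G.gr b i j v).card := by exact_mod_cast h0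
              rw [Real.log_div h0R.ne' hN.ne']
              field_simp
              ring
    have hbadsum : ∑ p ∈ T, (((G.gr b i p.1 p.2).filter fun w => X < |(G.Ww i w : ℝ)|).card : ℝ) / G.Nv p.2 =
        G.Ex b i (fun w => if X < |(G.Ww i w : ℝ)| then 1 else 0) := by
      rw [hT, sum_product]
      unfold Ex
      rw [← G.sum_gr b i]
      refine sum_congr rfl fun j _ => sum_congr rfl fun v _ => ?_
      have h2 : ∀ w ∈ G.gr b i j v, (if X < |(G.Ww i w : ℝ)| then (1 : ℝ) else 0) / G.Nv (G.ct i w) =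
          (if X < |(G.Ww i w : ℝ)| then (1 : ℝ) else 0) / G.Nv v := by
        intro w hw
        rw [(G.mem_gr.1 hw).2.2]
      rw [sum_congr rfl h2, ← sum_div, ← sum_filter, sum_const, nsmul_eq_mul, mul_one]
    have hlogsum : ∑ p ∈ T, q p * Real.log (G.Nv p.2) = G.Ex b i (fun w => Real.log (G.Nv (G.ct i w))) := by
      rw [hT, sum_product]
      unfold Ex
      rw [← G.sum_gr b i]
      refine sum_congr rfl fun j _ => sum_congr rfl fun v _ => ?_
      have h2 : ∀ w ∈ G.gr b i j v, Real.log (G.Nv (G.ct i w)) / (G.Nv (G.ct i w) : ℝ) =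
          Real.log (G.Nv v) / G.Nv v := by
        intro w hw
        rw [(G.mem_gr.1 hw).2.2]
      rw [sum_congr rfl h2, sum_const, nsmul_eq_mul]
      simp only [hq]
      ring
    have hent := entropy_le T q hq0 hqsum
    have hcardT : Real.log (T.card : ℝ) ≤ (κ + 3 * κ) * x ^ 2 + κ * x ^ 2 := by
      have h2 : (T.card : ℝ) = κ * ((b : ℝ) + 1) ^ (Fintype.card ι) := by
        rw [hT, card_product, card_Vs, card_univ]
        push_cast
        rfl
      have hκ1 : 1 ≤ κ := by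
        have : 0 < Fintype.card ι := Fintype.card_pos_iff.2 ⟨i⟩
        rw [hκ]
        exact_mod_cast this
      rw [h2, Real.log_mul (by positivity) (by positivity), Real.log_pow, ← hκ]
      have h3 : Real.log κ ≤ κ := (Real.log_le_sub_one_of_pos (by linarith)).trans (by linarith)
      have h4 : Real.log ((b : ℝ) + 1) ≤ 4 * x := by
        have h5 : (b : ℝ) + 1 ≤ (1 + x) ^ 3 := by nlinarith
        calc Real.log ((b : ℝ) + 1) ≤ Real.log ((1 + x) ^ 3) := Real.log_le_log (by linarith) h5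
          _ = 3 * Real.log (1 + x) := by rw [Real.log_pow]; norm_num
          _ ≤ 3 * x := by
              have := Real.log_le_sub_one_of_pos (show 0 < 1 + x by linarith)
              linarith
          _ ≤ 4 * x := by linarith
      have h6 : κ * Real.log ((b : ℝ) + 1) ≤ κ * (4 * x) := mul_le_mul_of_nonneg_left h4 hκ0
      have h7 : κ ≤ κ * x ^ 2 := le_mul_of_one_le_right hκ0 (by nlinarith)
      have h8 : κ * (4 * x) ≤ 4 * κ * x ^ 2 := by
        have h9 : x ≤ x ^ 2 := by nlinarith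
        have h10 := mul_le_mul_of_nonneg_left h9 (show (0 : ℝ) ≤ 4 * κ by linarith)
        linarith
      linarith
    have hPbad := hbad b i hb
    rw [← hx, ← hX] at hPbad
    have hxe : x ^ 3 * Real.exp (-(cb * x)) ≤ 6 / cb ^ 3 := by
      have h7 : (cb * x) ^ 3 / 6 ≤ Real.exp (cb * x) := by
        have := Real.pow_div_factorial_le_exp (cb * x) (by positivity) 3
        norm_num [Nat.factorial] at this
        exact this
      rw [Real.exp_neg, ← div_eq_mul_inv, div_le_div_iff₀ (Real.exp_pos _) (by positivity)]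
      nlinarith
    have hterm1 : G.Ex b i (fun w => if X < |(G.Ww i w : ℝ)| then 1 else 0) * (2 * (b * G.Lg)) ≤
        2 * G.Lg * (Cb * (6 / cb ^ 3)) := by
      calc G.Ex b i (fun w => if X < |(G.Ww i w : ℝ)| then 1 else 0) * (2 * (b * G.Lg))
          ≤ (Cb * Real.exp (-(cb * x))) * (2 * (b * G.Lg)) := mul_le_mul_of_nonneg_right hPbad (by positivity)
        _ = 2 * G.Lg * (Cb * (x ^ 3 * Real.exp (-(cb * x)))) := by rw [hx3]; ring
        _ ≤ _ := by gcongr
    refine h1.trans ?_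
    rw [sum_add_distrib, ← sum_mul, hbadsum, sum_sub_distrib, sum_sub_distrib, ← sum_mul, hqsum, one_mul, hlogsum]
    have h8 := hmean b i
    have hx2 : 1 ≤ x ^ 2 := by nlinarith
    have h9 : 0 ≤ 2 * G.Lg * (Cb * (6 / cb ^ 3)) := by positivity
    have h10 : 2 * G.Lg * (Cb * (6 / cb ^ 3)) ≤ 2 * G.Lg * (Cb * (6 / cb ^ 3)) * x ^ 2 :=
      le_mul_of_one_le_right h9 hx2
    have h11 : Cm ≤ Cm * x ^ 2 := le_mul_of_one_le_right hCm.le hx2
    nlinarith
  calc ∑ i, ∑ j, (G.ED b i j N - G.ED b i j 1)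
      ≤ ∑ _i : ι, (2 * G.Lg * (Cb * (6 / cb ^ 3)) + 2 + 2 + Cm + κ + 4 * κ) * x ^ 2 :=
        sum_le_sum fun i _ => key i
    _ = κ * ((2 * G.Lg * (Cb * (6 / cb ^ 3)) + 2 + 2 + Cm + κ + 4 * κ) * x ^ 2) := by
        rw [sum_const, card_univ, nsmul_eq_mul]
    _ ≤ _ := by nlinarith [sq_nonneg x]

end GS

end Pool.Agent.Zk39.GD
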