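import Mathlib
import Pool.Agent.Zk39.GD.Ent

/-!
# Averaging over the length of the suffix (after `Pool.Agent.H319R3.GC.A1`)
-/

set_option autoImplicit false
set_option linter.unusedSectionVars false

namespace Pool.Agent.Zk39.GD

open Finset Pool.Agent.H319R3.GC

namespace GS

variable {ι : Type} [Fintype ι] [DecidableEq ι] (G : GS ι) {ρ : ι → ℝ}

/-- product of the multipliers -/
def PB : ℕ := ∏ j, (G.b j).natAbs

theorem PB_pos : 0 < G.PB := prod_pos fun j _ => Int.natAbs_pos.2 (G.b_ne j)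

theorem natAbs_Mv (v : ι → ℕ) : (G.Mv v).natAbs = ∏ j, (G.b j).natAbs ^ v j := by
  unfold Mv
  rw [← Int.natAbsHom_apply, map_prod]
  refine prod_congr rfl fun j _ => ?_
  rw [Int.natAbsHom_apply, Int.natAbs_pow]

theorem natAbs_Mv_pos (v : ι → ℕ) : 0 < (G.Mv v).natAbs := Int.natAbs_pos.2 (G.Mv_ne v)

theorem natAbs_Mv_dvd {v w : ι → ℕ} (h : ∀ j, v j ≤ w j) : (G.Mv v).natAbs ∣ (G.Mv w).natAbs := by
  rw [natAbs_Mv, natAbs_Mv]
  exact prod_dvd_prod_of_dvd _ _ fun j _ => pow_dvd_pow _ (h j)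

theorem natAbs_Mv_dvd_pow {k : ℕ} {v : ι → ℕ} (h : ∀ j, v j ≤ k) : (G.Mv v).natAbs ∣ G.PB ^ k := by
  rw [natAbs_Mv, PB, ← prod_pow]
  exact prod_dvd_prod_of_dvd _ _ fun j _ => pow_dvd_pow _ (h j)

theorem Mv_dvd_pow {k : ℕ} {i : ι} {w : List ℕ} (hw : w ∈ G.Pth k i) : (G.Mv (G.ct i w)).natAbs ∣ G.PB ^ k :=
  G.natAbs_Mv_dvd_pow fun j => (G.ct_le i w j).trans (G.mem_Pth.1 hw).1.le

/-! ### Paths which visit all states -/

theorem exists_path (h : G.Irr ρ) (i x : ι) : ∃ w, G.Vd i w ∧ G.en i w = x := by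
  have h1 := h.irr i x
  induction h1 with
  | refl => exact ⟨[], trivial, rfl⟩
  | tail _ hbc ih =>
    rename_i y z _
    obtain ⟨w, hw1, hw2⟩ := ih
    have h2 : ((range (G.n y)).filter fun a => G.nx y a = z).Nonempty := by
      rw [nonempty_iff_ne_empty]
      intro h0
      unfold pr at hbc
      rw [h0, card_empty, Nat.cast_zero, zero_div] at hbc
      exact lt_irrefl _ hbc
    obtain ⟨a, ha⟩ := h2
    rw [mem_filter, mem_range] at ha
    refine ⟨w ++ [a], ?_, ?_⟩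
    · rw [Vd_append, hw2]
      exact ⟨hw1, ha.1, trivial⟩
    · rw [en_append, hw2]
      exact ha.2

theorem exists_visit (h : G.Irr ρ) (s : Finset ι) (i : ι) : ∃ w, G.Vd i w ∧ ∀ x ∈ s, 1 ≤ G.ct i w x := by
  classical
  induction s using Finset.induction_on with
  | empty => exact ⟨[], trivial, fun x hx => absurd hx (notMem_empty x)⟩
  | insert x s _ ih =>
    obtain ⟨w, hw1, hw2⟩ := ih
    obtain ⟨w', hw1', hw2'⟩ := G.exists_path h (G.en i w) x
    refine ⟨w ++ (w' ++ [0]), ?_, fun y hy => ?_⟩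
    · rw [Vd_append, Vd_append, hw2']
      exact ⟨hw1, hw1', G.n_pos x, trivial⟩
    · rw [ct_append, ct_append, hw2', Pi.add_apply, Pi.add_apply]
      rcases mem_insert.1 hy with rfl | hy
      · have h3 : G.ct y [0] y = 1 := by simp [ct]
        omega
      · have := hw2 y hy
        omega

theorem Pth_nonempty (k : ℕ) (i : ι) : (G.Pth k i).Nonempty := ⟨G.wd k (i, 0), G.wd_mem k i 0⟩

theorem exists_full_prob (h : G.Irr ρ) : ∃ L : ℕ, 1 ≤ L ∧ ∃ p : ℝ, 0 < p ∧ p ≤ 1 ∧ ∀ i,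
    p ≤ G.Ex L i (fun w => if ∀ x, 1 ≤ G.ct i w x then 1 else 0) := by
  classical
  by_cases hne : Nonempty ι
  · choose w hw1 hw2 using fun i => G.exists_visit h univ i
    set L : ℕ := (univ.sup fun i => (w i).length) + 1 with hL
    have hlen : ∀ i, (w i).length ≤ L := fun i =>
      (le_sup (f := fun i => (w i).length) (mem_univ i)).trans (Nat.le_succ _)
    have hpos : ∀ i, 0 < G.Ex L i (fun w => if ∀ x, 1 ≤ G.ct i w x then 1 else 0) := by
      intro i
      obtain ⟨w', hw'⟩ := G.Pth_nonempty (L - (w i).length) (G.en i (w i))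
      obtain ⟨h1, h2⟩ := G.mem_Pth.1 hw'
      have hmem : w i ++ w' ∈ G.Pth L i := by
        rw [mem_Pth, List.length_append, Vd_append]
        have := hlen i
        exact ⟨by omega, hw1 i, h2⟩
      unfold Ex
      refine lt_of_lt_of_le ?_ (single_le_sum (f := fun w => (if ∀ x, 1 ≤ G.ct i w x then (1 : ℝ) else 0) /
        (G.Nv (G.ct i w) : ℝ)) (fun w _ => div_nonneg (by split_ifs <;> norm_num) (G.Nv_posR _).le) hmem)
      have h3 : ∀ x, 1 ≤ G.ct i (w i ++ w') x := by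
        intro x
        rw [ct_append, Pi.add_apply]
        have := hw2 i x (mem_univ x)
        omega
      simp only [if_pos h3]
      exact div_pos one_pos (G.Nv_posR _)
    obtain ⟨i0, -, hi0⟩ := exists_min_image (univ : Finset ι)
      (fun i => G.Ex L i (fun w => if ∀ x, 1 ≤ G.ct i w x then 1 else 0)) univ_nonempty
    refine ⟨L, by omega, _, hpos i0, ?_, fun i => hi0 i (mem_univ i)⟩
    refine (G.Ex_mono (g := fun _ => (1 : ℝ)) fun w _ => ?_).trans_eq (G.Ex_const L i0 1)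
    split_ifs <;> norm_num
  · exact ⟨1, le_rfl, 1, one_pos, le_rfl, fun i => absurd ⟨i⟩ hne⟩

/-- averaging -/
theorem avg (h : G.Irr ρ) : ∃ L : ℕ, 1 ≤ L ∧ ∃ p : ℝ, 0 < p ∧ p ≤ 1 ∧ ∀ (b D R W : ℕ), 1 ≤ W → 1 ≤ R → R ∣ G.PB →
    0 < D → G.PB ^ (W * L) ∣ D →
    ∃ j, 1 ≤ j ∧ j ≤ W ∧
      ∑ i1, ∑ i2, G.Ex (j * L) i2 (fun w => G.gg b i1 i2 (D / (G.Mv (G.ct i2 w)).natAbs) R)
        ≤ 4 * R * (∑ i1, ∑ i2, (G.ED b i1 i2 (D * R) - G.ED b i1 i2 1)) / (p * W) := by
  classical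
  obtain ⟨L, hL, p, hp, hp1, hfull⟩ := G.exists_full_prob h
  refine ⟨L, hL, p, hp, hp1, fun b D R W hW hR hRP hD0 hD => ?_⟩
  have hdvd : ∀ j ≤ W, ∀ i, ∀ w ∈ G.Pth (j * L) i, (G.Mv (G.ct i w)).natAbs ∣ D := by
    intro j hj i w hw
    exact (G.Mv_dvd_pow hw).trans ((pow_dvd_pow _ (Nat.mul_le_mul_right L hj)).trans hD)
  have hquot : ∀ j ≤ W, ∀ i, ∀ w ∈ G.Pth (j * L) i, 0 < D / (G.Mv (G.ct i w)).natAbs := by
    intro j hj i w hw
    exact Nat.div_pos (Nat.le_of_dvd hD0 (hdvd j hj i w hw)) (G.natAbs_Mv_pos _)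
  set A : ℕ → ℝ := fun j => ∑ i1, ∑ i2, G.Ex (j * L) i2 (fun w =>
    G.ED b i1 i2 (D / (G.Mv (G.ct i2 w)).natAbs)) with hAdef
  set B : ℕ → ℝ := fun j => ∑ i1, ∑ i2, G.Ex (j * L) i2 (fun w =>
    G.ED b i1 i2 (D / (G.Mv (G.ct i2 w)).natAbs * R)) with hBdef
  obtain ⟨j, hj1, hjW, hj⟩ := avg_seq hW A B (p := p)
    (U := ∑ i1, ∑ i2, G.ED b i1 i2 (D * R)) (L := ∑ i1, ∑ i2, G.ED b i1 i2 1) hp hp1
    (by
      intro j hj
      refine sum_le_sum fun i1 _ => sum_le_sum fun i2 _ => G.Ex_mono fun w hw => ?_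
      exact G.ED_mono b i1 i2 (Nat.mul_pos (hquot j hj i2 w hw) hR) (dvd_mul_right _ _))
    (by
      intro j hj
      simp only [hAdef, hBdef]
      rw [mul_sum, mul_sum, ← sum_add_distrib]
      refine sum_le_sum fun i1 _ => ?_
      rw [mul_sum, mul_sum, ← sum_add_distrib]
      refine sum_le_sum fun i2 _ => ?_
      rw [show (j + 1) * L = j * L + L by ring, Ex_add, ← Ex_mul, ← Ex_mul, ← Ex_add']
      refine G.Ex_mono fun u hu => ?_
      have hu0 := hquot j hj.le i2 u hu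
      set e := G.en i2 u with he
      set Du := D / (G.Mv (G.ct i2 u)).natAbs with hDu
      have hMuv : ∀ v ∈ G.Pth L e, (G.Mv (G.ct i2 u)).natAbs * (G.Mv (G.ct e v)).natAbs ∣ D := by
        intro v hv
        refine (mul_dvd_mul (G.Mv_dvd_pow hu) (G.Mv_dvd_pow hv)).trans ?_
        rw [← pow_add]
        refine (pow_dvd_pow _ ?_).trans hD
        have : (j + 1) * L ≤ W * L := Nat.mul_le_mul_right L hj
        have h4 : (j + 1) * L = j * L + L := by ring
        omega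
      have hMv : ∀ v ∈ G.Pth L e, (G.Mv (G.ct e v)).natAbs ∣ Du := by
        intro v hv
        obtain ⟨c, hc⟩ := hMuv v hv
        rw [hDu, hc, mul_assoc, Nat.mul_div_cancel_left _ (G.natAbs_Mv_pos _)]
        exact dvd_mul_right _ _
      have hle : G.ED b i1 i2 Du ≤ G.ED b i1 i2 (Du * R) := G.ED_mono b i1 i2 (Nat.mul_pos hu0 hR) (dvd_mul_right _ _)
      have h1 : G.Ex L e (fun v => G.ED b i1 i2 (D / (G.Mv (G.ct i2 (u ++ v))).natAbs * R)) ≤
          G.Ex L e (fun v => G.ED b i1 i2 (Du * R) +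
            (if ∀ x, 1 ≤ G.ct e v x then 1 else 0) * (G.ED b i1 i2 Du - G.ED b i1 i2 (Du * R))) := by
        refine G.Ex_mono fun v hv => ?_
        rw [ct_append, ← he, Mv_add, Int.natAbs_mul, ← Nat.div_div_eq_div_mul, ← hDu]
        have hMv0 := G.natAbs_Mv_pos (G.ct e v)
        split_ifs with hall
        · rw [one_mul, add_sub_cancel]
          refine G.ED_mono b i1 i2 hu0 ?_
          have h2 : R ∣ (G.Mv (G.ct e v)).natAbs := by
            refine hRP.trans ?_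
            rw [natAbs_Mv]
            exact prod_dvd_prod_of_dvd _ _ fun x _ => dvd_pow_self _ (by have := hall x; omega)
          calc Du / (G.Mv (G.ct e v)).natAbs * R ∣ Du / (G.Mv (G.ct e v)).natAbs * (G.Mv (G.ct e v)).natAbs :=
                mul_dvd_mul_left _ h2
            _ = Du := Nat.div_mul_cancel (hMv v hv)
        · rw [zero_mul, add_zero]
          exact G.ED_mono b i1 i2 (Nat.mul_pos hu0 hR) (mul_dvd_mul_right (Nat.div_dvd_of_dvd (hMv v hv)) _)
      refine h1.trans ?_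
      have h2 : G.Ex L e (fun v => G.ED b i1 i2 (Du * R) +
            (if ∀ x, 1 ≤ G.ct e v x then 1 else 0) * (G.ED b i1 i2 Du - G.ED b i1 i2 (Du * R))) =
          G.ED b i1 i2 (Du * R) + (G.ED b i1 i2 Du - G.ED b i1 i2 (Du * R)) *
            G.Ex L e (fun v => if ∀ x, 1 ≤ G.ct e v x then 1 else 0) := by
        rw [Ex_add', Ex_const, ← Ex_mul]
        congr 1
        exact G.Ex_congr fun v _ => mul_comm _ _
      rw [h2]
      have h3 := hfull e
      nlinarith)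
    (by
      simp only [hBdef]
      refine sum_le_sum fun i1 _ => sum_le_sum fun i2 _ => ?_
      rw [zero_mul, Ex_zero, ct, Mv_zero]
      simp)
    (by
      simp only [hAdef]
      refine sum_le_sum fun i1 _ => sum_le_sum fun i2 _ => ?_
      rw [← G.Ex_const (W * L) i2 (G.ED b i1 i2 1)]
      exact G.Ex_mono fun w hw => G.ED_mono b i1 i2 (hquot W le_rfl i2 w hw) (one_dvd _))
  refine ⟨j, hj1, hjW, ?_⟩
  have hR0 : (0 : ℝ) < R := by exact_mod_cast hR
  calc ∑ i1, ∑ i2, G.Ex (j * L) i2 (fun w => G.gg b i1 i2 (D / (G.Mv (G.ct i2 w)).natAbs) R)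
      ≤ ∑ i1, ∑ i2, G.Ex (j * L) i2 (fun w => 4 * R * (G.ED b i1 i2 (D / (G.Mv (G.ct i2 w)).natAbs * R) -
          G.ED b i1 i2 (D / (G.Mv (G.ct i2 w)).natAbs))) :=
        sum_le_sum fun i1 _ => sum_le_sum fun i2 _ => G.Ex_mono fun w hw =>
          G.gg_le_ED b i1 i2 (hquot j hjW i2 w hw) hR
    _ = 4 * R * (B j - A j) := by
        simp only [hAdef, hBdef]
        rw [← sum_sub_distrib, mul_sum]
        refine sum_congr rfl fun i1 _ => ?_
        rw [← sum_sub_distrib, mul_sum]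
        refine sum_congr rfl fun i2 _ => ?_
        rw [Ex_mul, Ex_sub']
    _ ≤ 4 * R * ((∑ i1, ∑ i2, G.ED b i1 i2 (D * R) - ∑ i1, ∑ i2, G.ED b i1 i2 1) / (p * W)) :=
        mul_le_mul_of_nonneg_left hj (by positivity)
    _ = _ := by
        rw [← sum_sub_distrib]
        simp only [← sum_sub_distrib]
        ring

end GS

end Pool.Agent.Zk39.GD
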