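import Mathlib
import Pool.Agent.Zk39.GD.Avg

/-!
# Levels
-/

set_option autoImplicit false
set_option linter.unusedSectionVars false

namespace Pool.Agent.Zk39.GD

open Finset Pool.Agent.H319R3.GC

namespace GS

variable {ι : Type} [Fintype ι] [DecidableEq ι] (G : GS ι) {ρ : ι → ℝ}

/-- lower level vector -/
noncomputable def fl (ρ : ι → ℝ) (x : ℝ) : ι → ℕ := fun j => ⌊ρ j * x⌋₊

/-- upper level vector -/
noncomputable def cl (ρ : ι → ℝ) (x : ℝ) : ι → ℕ := fun j => ⌈ρ j * x⌉₊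

/-- the modulus of a vector of exponents -/
def md (v : ι → ℕ) : ℕ := (G.Mv v).natAbs

theorem md_pos (v : ι → ℕ) : 0 < G.md v := G.natAbs_Mv_pos v

theorem md_add (v w : ι → ℕ) : G.md (v + w) = G.md v * G.md w := by
  unfold md
  rw [Mv_add, Int.natAbs_mul]

theorem md_dvd {v w : ι → ℕ} (h : ∀ j, v j ≤ w j) : G.md v ∣ G.md w := G.natAbs_Mv_dvd h

theorem md_const (k : ℕ) : G.md (fun _ => k) = G.PB ^ k := by
  unfold md PB
  rw [natAbs_Mv, prod_pow]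

theorem md_cast (v : ι → ℕ) : (G.md v : ℝ) = |(G.Mv v : ℝ)| := by
  unfold md
  rw [Nat.cast_natAbs]
  push_cast
  rfl

theorem log_md (v : ι → ℕ) : Real.log (G.md v) = SS (fun j => Real.log |(G.b j : ℝ)|) v := by
  rw [md_cast, log_Mv]

/-- the sum of the `log |b|` -/
noncomputable def Lb : ℝ := ∑ j, Real.log |(G.b j : ℝ)|

theorem Lb_nonneg : 0 ≤ G.Lb := sum_nonneg fun j _ => Real.log_nonneg (G.b_abs_ge j)

theorem log_PB : Real.log G.PB = G.Lb := by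
  have h := G.md_const 1
  rw [pow_one] at h
  rw [← h, log_md]
  unfold SS Lb
  simp

theorem log_md_cl (h : G.Irr ρ) {x : ℝ} (hx : 0 ≤ x) : Real.log (G.md (cl ρ x)) ≤ G.mm ρ * x + G.Lb := by
  rw [log_md]
  unfold SS mm Lb cl
  rw [sum_mul, ← sum_add_distrib]
  refine sum_le_sum fun j _ => ?_
  have h1 := Real.log_nonneg (G.b_abs_ge j)
  have h2 := (Nat.ceil_lt_add_one (mul_nonneg (h.pos j).le hx)).le
  nlinarith

theorem log_md_fl (h : G.Irr ρ) {x : ℝ} (hx : 0 ≤ x) : G.mm ρ * x - G.Lb ≤ Real.log (G.md (fl ρ x)) := by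
  rw [log_md]
  unfold SS mm Lb fl
  rw [sum_mul, ← sum_sub_distrib]
  refine sum_le_sum fun j _ => ?_
  have h1 := Real.log_nonneg (G.b_abs_ge j)
  have h2 := (Nat.lt_floor_add_one (ρ j * x)).le
  nlinarith

/-- arithmetic of the levels -/
theorem div_facts {u v w : ι → ℕ} {D : ℕ} (h1 : G.md u ∣ D) (h2 : D ∣ G.md v) (hw : ∀ j, w j ≤ u j)
    (hv : ∀ j, w j ≤ v j) :
    G.md w ∣ D ∧ G.md (u - w) ∣ D / G.md w ∧ D / G.md w ∣ G.md (v - w) := by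
  have e1 : G.md u = G.md w * G.md (u - w) := by
    rw [← md_add]
    congr 1
    funext j
    rw [Pi.add_apply, Pi.sub_apply]
    have := hw j
    omega
  have e2 : G.md v = G.md w * G.md (v - w) := by
    rw [← md_add]
    congr 1
    funext j
    rw [Pi.add_apply, Pi.sub_apply]
    have := hv j
    omega
  have h3 : G.md w ∣ D := (Dvd.intro _ e1.symm).trans h1
  refine ⟨h3, ?_, ?_⟩
  · obtain ⟨c, hc⟩ := h1
    rw [hc, e1, mul_assoc, Nat.mul_div_cancel_left _ (G.md_pos w)]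
    exact dvd_mul_right _ _
  · obtain ⟨c, hc⟩ := h3
    rw [hc, Nat.mul_div_cancel_left _ (G.md_pos w)]
    rw [hc, e2] at h2
    exact Nat.dvd_of_mul_dvd_mul_left (G.md_pos w) h2

theorem cop_of_dvd {v : ι → ℕ} {D R : ℕ} (h1 : D ∣ G.md v) (h2 : R ∣ G.PB) (w : ι → ℕ) :
    IsCoprime (G.Nv w : ℤ) ((D * R : ℕ) : ℤ) := by
  have h3 : D * R ∣ G.md (v + fun _ => 1) := by
    rw [md_add, md_const, pow_one]
    exact mul_dvd_mul h1 h2
  have h4 : ((D * R : ℕ) : ℤ) ∣ G.Mv (v + fun _ => 1) := by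
    have h5 : ((D * R : ℕ) : ℤ) ∣ ((G.md (v + fun _ => 1) : ℕ) : ℤ) := by exact_mod_cast h3
    unfold md at h5
    rwa [Int.dvd_natAbs] at h5
  exact (IsCoprime.of_isCoprime_of_dvd_left (G.Mv_cop_Nv _ w) h4).symm

/-- the decay property -/
def Dec (ρ : ι → ℝ) (q : ℕ) (δ C : ℝ) : Prop :=
  ∀ x : ℝ, 1 ≤ x → ∀ D k R : ℕ, G.md (fl ρ x) ∣ D → D ∣ G.md (cl ρ ((1 + δ) * x)) → (1 - δ) * x ≤ k →
    1 ≤ R → R ∣ G.PB → ∀ i j, G.gg k i j D R ≤ C / (x ^ (1 / 3 : ℝ)) ^ q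

/-- the parameters of the induction step -/
theorem arith {κ δ' r0 x b η e e₂ δ t k c1 : ℝ} (hκ : 0 < κ) (hκ1 : κ ≤ 1) (hδ : 0 < δ') (hδ1 : δ' ≤ 1)
    (hr0 : 0 < r0) (hr1 : r0 ≤ 1) (he₂ : e₂ = δ' * κ / 16) (hδe : δ = δ' * κ / 16) (hη : η = r0 * δ' * κ / 64)
    (he : e = r0 * δ' * κ / 32) (hc1 : 0 ≤ c1) (hx : 8 * (c1 + 1) / (r0 * δ' * κ) ≤ x)
    (hb0 : 0 ≤ b) (hb : b ≤ (1 - κ) * (1 + δ) * x + c1) (ht0 : 0 ≤ t) (ht : t ≤ e * x) (hk : (1 - δ) * x ≤ k) :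
    b ≤ x ∧ κ / 2 * x ≤ x - b - e₂ * x ∧ (1 - δ') * (x - b - e₂ * x) ≤ k - b - t ∧
    (∀ r v c : ℝ, r0 ≤ r → r ≤ 1 → c ≤ t → v ≤ r * b + η * b → r * (x - b - e₂ * x) + (c + v) ≤ r * x) ∧
    (∀ r v c : ℝ, r0 ≤ r → r ≤ 1 → 0 ≤ c → r * b - η * b ≤ v →
      r * ((1 + δ) * x) + 1 - (c + v) ≤ r * ((1 + δ') * (x - b - e₂ * x))) := by
  have hdk : 0 < r0 * δ' * κ := by positivity
  have hdk' : 0 < δ' * κ := by positivity
  have hdk1 : δ' * κ ≤ κ := by nlinarith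
  have hdk2 : r0 * δ' * κ ≤ δ' * κ := by nlinarith
  have hx' : 8 * (c1 + 1) ≤ x * (r0 * δ' * κ) := by rwa [div_le_iff₀ hdk] at hx
  have hx0 : 0 < x := by
    by_contra hneg
    push Not at hneg
    nlinarith
  have hxk : 8 * (c1 + 1) ≤ x * κ := by nlinarith
  have hxk' : 8 * (c1 + 1) ≤ x * (δ' * κ) := by nlinarith
  -- `b`
  have hbx : b ≤ (1 - 3 * κ / 4) * x := by
    have h1 : (1 - κ) * (1 + δ) ≤ 1 - κ + δ := by rw [hδe]; nlinarith
    have h2 : (1 - κ) * (1 + δ) * x ≤ (1 - κ + δ) * x := mul_le_mul_of_nonneg_right h1 hx0.le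
    have h3 : δ * x ≤ κ / 16 * x := by rw [hδe]; nlinarith
    nlinarith
  have hbx' : b ≤ x := by nlinarith
  have he₂x : e₂ * x ≤ κ / 16 * x := by rw [he₂]; nlinarith
  have hx'lo : κ / 2 * x ≤ x - b - e₂ * x := by nlinarith
  refine ⟨hbx', hx'lo, ?_, ?_, ?_⟩
  · have h1 : δ' * (κ / 2 * x) ≤ δ' * (x - b - e₂ * x) := mul_le_mul_of_nonneg_left hx'lo hδ.le
    have h2 : e * x ≤ δ' * κ / 32 * x := by rw [he]; nlinarith
    have h3 : δ * x = δ' * κ / 16 * x := by rw [hδe]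
    nlinarith
  · intro r v c hr hr' hc hv
    have h1 : η * b ≤ η * x := mul_le_mul_of_nonneg_left hbx' (by rw [hη]; positivity)
    have h2 : r0 * (e₂ * x) ≤ r * (e₂ * x) := mul_le_mul_of_nonneg_right hr (by rw [he₂]; positivity)
    have h3 : e * x + η * x ≤ r0 * (e₂ * x) := by
      rw [he, hη, he₂]
      have : 0 < r0 * δ' * κ * x := by positivity
      nlinarith
    nlinarith
  · intro r v c hr hr' hc hv
    have h1 : η * b ≤ η * x := mul_le_mul_of_nonneg_left hbx' (by rw [hη]; positivity)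
    have hr0' : 0 < r := by linarith
    have h2 : r * (δ' * (κ / 2 * x)) ≤ r * (δ' * (x - b - e₂ * x)) :=
      mul_le_mul_of_nonneg_left (mul_le_mul_of_nonneg_left hx'lo hδ.le) hr0'.le
    have h3 : r0 * (δ' * κ * x) ≤ r * (δ' * κ * x) := mul_le_mul_of_nonneg_right hr (by positivity)
    have h4 : η * x = r0 * (δ' * κ * x) / 64 := by rw [hη]; ring
    have h5 : r * (δ * x) = r * (δ' * κ * x) / 16 := by rw [hδe]; ring
    have h6 : r * (e₂ * x) = r * (δ' * κ * x) / 16 := by rw [he₂]; ring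
    have h7 : 8 ≤ r0 * (δ' * κ * x) := by nlinarith
    nlinarith

end GS

end Pool.Agent.Zk39.GD
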