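import Mathlib
import Pool.Agent.Zk39.GD.Level

/-!
# Superpolynomial decay of the nonuniformity (after `Pool.Agent.H319R3.GC.D1`)
-/

set_option autoImplicit false
set_option linter.unusedSectionVars false

namespace Pool.Agent.Zk39.GD

open Finset Pool.Agent.H319R3.GC

theorem exp_neg_le_pow (q : ℕ) {c s : ℝ} (hc : 0 < c) (hs : 0 < s) :
    Real.exp (-(c * s)) ≤ (q.factorial : ℝ) / c ^ q / s ^ q := by
  have h1 := Real.pow_div_factorial_le_exp (c * s) (by positivity) q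
  rw [Real.exp_neg, inv_eq_one_div, div_div, div_le_div_iff₀ (Real.exp_pos _) (by positivity), one_mul]
  rw [div_le_iff₀ (by positivity), mul_pow] at h1
  linarith

namespace GS

variable {ι : Type} [Fintype ι] [DecidableEq ι] (G : GS ι) {ρ : ι → ℝ}

theorem rho_le_one (h : G.Irr ρ) (j : ι) : ρ j ≤ 1 := by
  rw [← h.sum_one]
  exact single_le_sum (f := ρ) (fun j _ => (h.pos j).le) (mem_univ j)

theorem dec_aux1 {u v : ℝ} (hu : 0 < u) (hu1 : u ≤ 1) (hv : 0 < v) (hv1 : v ≤ 1) : u * v ≤ 1 :=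
  mul_le_one₀ hu1 hv.le hv1

theorem dec_aux2 {r0 δ' κ : ℝ} (hr0 : 0 < r0) (hδ0 : 0 < δ') (hδ1 : δ' ≤ 1) (hκ0 : 0 < κ) (hκ1 : κ ≤ 1) :
    r0 * δ' * κ / 32 ≤ r0 := by
  have h1 := dec_aux1 hδ0 hδ1 hκ0 hκ1
  have h2 : r0 * (δ' * κ) ≤ r0 * 1 := mul_le_mul_of_nonneg_left h1 hr0.le
  have h3 : 0 < r0 * (δ' * κ) := by positivity
  rw [mul_assoc]
  linarith

theorem dec_aux3 {r0 δ' κ c1 x : ℝ} (hr0 : 0 < r0) (hr1 : r0 ≤ 1) (hδ0 : 0 < δ') (hδ1 : δ' ≤ 1) (hκ0 : 0 < κ)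
    (hc10 : 0 ≤ c1) (hx : 0 < x) (hxA : 8 * (c1 + 1) / (r0 * δ' * κ) ≤ x) : 1 ≤ κ / 2 * x := by
  have h1 : 8 * (c1 + 1) ≤ x * (r0 * δ' * κ) := by rwa [div_le_iff₀ (by positivity)] at hxA
  have h2 : r0 * δ' * κ ≤ 1 * κ := mul_le_mul_of_nonneg_right (dec_aux1 hr0 hr1 hδ0 hδ1) hκ0.le
  have h3 : x * (r0 * δ' * κ) ≤ x * (1 * κ) := mul_le_mul_of_nonneg_left h2 hx.le
  linarith

theorem dec_aux4 {δ x : ℝ} (hδ : 0 < δ) (hx : 0 < x) : x ≤ (1 + δ) * x := by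
  have := mul_pos hδ hx
  linarith

theorem exists_r0 (h : G.Irr ρ) : ∃ r0 : ℝ, 0 < r0 ∧ r0 ≤ 1 ∧ ∀ j, r0 ≤ ρ j := by
  by_cases hne : Nonempty ι
  · obtain ⟨j0, -, hj0⟩ := exists_min_image (univ : Finset ι) ρ univ_nonempty
    exact ⟨ρ j0, h.pos j0, G.rho_le_one h j0, fun j => hj0 j (mem_univ j)⟩
  · exact ⟨1, one_pos, le_rfl, fun j => absurd ⟨j⟩ hne⟩

theorem decay_step (h : G.Irr ρ) (hd : G.mm ρ < G.hh ρ) (hm : 0 < G.mm ρ) (q : ℕ) {δ' C' : ℝ} (hδ0 : 0 < δ')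
    (hδ1 : δ' ≤ 1) (hC' : 0 < C') (IH : G.Dec ρ q δ' C') :
    ∃ δ C : ℝ, 0 < δ ∧ δ ≤ 1 ∧ 0 < C ∧ G.Dec ρ (q + 1) δ C := by
  classical
  obtain ⟨L, hL, p, hp, hp1, havg⟩ := G.avg h
  obtain ⟨CE, hCE, hED⟩ := G.ED_bound h hd
  obtain ⟨r0, hr0, hr1, hr⟩ := G.exists_r0 h
  have hh0 : 0 < G.hh ρ := hm.trans hd
  set β : ℝ := G.mm ρ / G.hh ρ with hβ
  have hβ0 : 0 < β := div_pos hm hh0
  have hβ1 : β < 1 := (div_lt_one hh0).2 hd
  set κ : ℝ := 1 - β with hκ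
  have hκ0 : 0 < κ := by linarith
  have hκ1 : κ ≤ 1 := by linarith
  set e₂ : ℝ := δ' * κ / 16 with he₂
  set δ : ℝ := δ' * κ / 16 with hδ
  set η : ℝ := r0 * δ' * κ / 64 with hη
  set e : ℝ := r0 * δ' * κ / 32 with he
  have hδpos : 0 < δ := by positivity
  have hη0 : 0 < η := by positivity
  have he0 : 0 < e := by positivity
  obtain ⟨CT, cT, hCT, hcT, htyp⟩ := G.typical h hη0
  have hLb := G.Lb_nonneg
  set c1 : ℝ := 2 * G.Lb / G.hh ρ + 1 with hc1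
  have hc10 : 0 ≤ c1 := by positivity
  have hLR : (1 : ℝ) ≤ L := by exact_mod_cast hL
  have hPB : (1 : ℝ) ≤ G.PB := by exact_mod_cast G.PB_pos
  set x₀ : ℝ := 8 * (c1 + 1) / (r0 * δ' * κ) + 2 * L / e + 2 * G.Lb / G.mm ρ + 1 with hx₀
  have hx₀1 : 1 ≤ x₀ := by
    have h1 : 0 ≤ 8 * (c1 + 1) / (r0 * δ' * κ) := by positivity
    have h2 : 0 ≤ 2 * L / e := by positivity
    have h3 : 0 ≤ 2 * G.Lb / G.mm ρ := by positivity
    linarith
  set card : ℝ := (Fintype.card ι : ℝ) with hcard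
  have hcard0 : 0 ≤ card := Nat.cast_nonneg _
  set A1 : ℝ := G.PB * (C' * 8 * G.PB * L * CE / ((κ / 2) ^ q * p * e)) with hA1
  set A2 : ℝ := G.PB * (G.PB * (card * (card * (CT * (((q + 1).factorial : ℝ) / (cT * (β / 2)) ^ (q + 1)))))) with hA2
  set A3 : ℝ := G.PB * (x₀ ^ (1 / 3 : ℝ)) ^ (q + 1) with hA3
  have hA10 : 0 < A1 := by positivity
  have hA20 : 0 ≤ A2 := by positivity
  have hA30 : 0 < A3 := by positivity
  refine ⟨δ, A1 + A2 + A3, hδpos, ?_, by positivity, ?_⟩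
  · have : δ' * κ ≤ 1 := dec_aux1 hδ0 hδ1 hκ0 hκ1
    linarith
  intro x hx1 D k R hDlo hDhi hk hR hRP i j
  have hx0 : 0 < x := by linarith
  set s : ℝ := x ^ (1 / 3 : ℝ) with hs
  have hs1 : 1 ≤ s := Real.one_le_rpow hx1 (by norm_num)
  have hs0 : 0 < s := by linarith
  have hs3 : s ^ 3 = x := by
    rw [hs, ← Real.rpow_natCast, ← Real.rpow_mul hx0.le]
    norm_num
  have hD0 : 0 < D := Nat.pos_of_ne_zero fun h0 => by
    rw [h0, zero_dvd_iff] at hDhi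
    exact (G.md_pos _).ne' hDhi
  have hRPB : (R : ℝ) ≤ G.PB := by exact_mod_cast Nat.le_of_dvd G.PB_pos hRP
  have hRR : (1 : ℝ) ≤ R := by exact_mod_cast hR
  have hR1 : (0 : ℝ) ≤ R - 1 := by linarith
  have hR1' : (R : ℝ) - 1 ≤ G.PB := by linarith
  by_cases hxx : x < x₀
  · refine (G.gg_le hD0 hR).trans ?_
    rw [le_div_iff₀ (by positivity)]
    have h1 : s ^ (q + 1) ≤ (x₀ ^ (1 / 3 : ℝ)) ^ (q + 1) :=
      pow_le_pow_left₀ hs0.le (Real.rpow_le_rpow hx0.le hxx.le (by norm_num)) _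
    calc ((R : ℝ) - 1) * s ^ (q + 1) ≤ G.PB * (x₀ ^ (1 / 3 : ℝ)) ^ (q + 1) :=
          mul_le_mul hR1' h1 (by positivity) (by linarith)
      _ ≤ _ := by linarith
  push Not at hxx
  have hxA : 8 * (c1 + 1) / (r0 * δ' * κ) ≤ x := by
    have h2 : 0 ≤ 2 * L / e := by positivity
    have h3 : 0 ≤ 2 * G.Lb / G.mm ρ := by positivity
    linarith
  have hxB : 2 * L / e ≤ x := by
    have h2 : 0 ≤ 8 * (c1 + 1) / (r0 * δ' * κ) := by positivity
    have h3 : 0 ≤ 2 * G.Lb / G.mm ρ := by positivity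
    linarith
  have hxC : 2 * G.Lb / G.mm ρ ≤ x := by
    have h2 : 0 ≤ 8 * (c1 + 1) / (r0 * δ' * κ) := by positivity
    have h3 : 0 ≤ 2 * L / e := by positivity
    linarith
  -- the length of the middle part
  have hDR0 : (0 : ℝ) < ((D * R : ℕ) : ℝ) := by
    have : 0 < D * R := Nat.mul_pos hD0 hR
    exact_mod_cast this
  set b : ℕ := ⌈Real.log ((D * R : ℕ) : ℝ) / G.hh ρ⌉₊ with hb
  have hb1 : Real.log ((D * R : ℕ) : ℝ) / G.hh ρ ≤ b := Nat.le_ceil _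
  have hDRexp : ((D * R : ℕ) : ℝ) ≤ Real.exp (b * G.hh ρ) := by
    rw [div_le_iff₀ hh0] at hb1
    rwa [← Real.log_le_iff_le_exp hDR0]
  have hlogD : Real.log ((D * R : ℕ) : ℝ) ≤ G.mm ρ * ((1 + δ) * x) + G.Lb + G.Lb := by
    have h1 : D * R ∣ G.md (cl ρ ((1 + δ) * x)) * G.PB := mul_dvd_mul hDhi hRP
    have h2 : ((D * R : ℕ) : ℝ) ≤ (G.md (cl ρ ((1 + δ) * x)) : ℝ) * G.PB := by
      exact_mod_cast Nat.le_of_dvd (Nat.mul_pos (G.md_pos _) G.PB_pos) h1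
    have h3 : (0 : ℝ) < G.md (cl ρ ((1 + δ) * x)) := by exact_mod_cast G.md_pos _
    calc Real.log ((D * R : ℕ) : ℝ) ≤ Real.log ((G.md (cl ρ ((1 + δ) * x)) : ℝ) * G.PB) := Real.log_le_log hDR0 h2
      _ = Real.log (G.md (cl ρ ((1 + δ) * x))) + Real.log G.PB := Real.log_mul h3.ne' (by linarith)
      _ ≤ _ := by
          rw [G.log_PB]
          have := G.log_md_cl h (x := (1 + δ) * x) (by positivity)
          linarith
  have hb2 : (b : ℝ) ≤ (1 - κ) * (1 + δ) * x + c1 := by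
    have h1 : (b : ℝ) < Real.log ((D * R : ℕ) : ℝ) / G.hh ρ + 1 :=
      Nat.ceil_lt_add_one (div_nonneg (Real.log_nonneg (by
        have : 0 < D * R := Nat.mul_pos hD0 hR
        exact_mod_cast this)) hh0.le)
    have h2 : Real.log ((D * R : ℕ) : ℝ) / G.hh ρ ≤ (G.mm ρ * ((1 + δ) * x) + G.Lb + G.Lb) / G.hh ρ :=
      div_le_div_of_nonneg_right hlogD hh0.le
    have h3 : (G.mm ρ * ((1 + δ) * x) + G.Lb + G.Lb) / G.hh ρ = (1 - κ) * (1 + δ) * x + 2 * G.Lb / G.hh ρ := by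
      rw [hκ, hβ]
      field_simp
      ring
    rw [hc1]
    linarith
  have hb3 : β / 2 * x ≤ b := by
    have h1 : Real.log (G.md (fl ρ x)) ≤ Real.log ((D * R : ℕ) : ℝ) := by
      apply Real.log_le_log (by exact_mod_cast G.md_pos _)
      exact_mod_cast Nat.le_of_dvd (Nat.mul_pos hD0 hR) (hDlo.trans (dvd_mul_right _ _))
    have h2 := G.log_md_fl h hx0.le
    have h3 : 2 * G.Lb ≤ x * G.mm ρ := by rwa [div_le_iff₀ hm] at hxC
    have h4 : G.mm ρ * x / 2 / G.hh ρ ≤ Real.log ((D * R : ℕ) : ℝ) / G.hh ρ :=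
      div_le_div_of_nonneg_right (by linarith) hh0.le
    have h5 : G.mm ρ * x / 2 / G.hh ρ = β / 2 * x := by rw [hβ]; field_simp
    linarith
  have hbpos : 1 ≤ b := by
    have : (0 : ℝ) < b := lt_of_lt_of_le (by positivity) hb3
    exact_mod_cast this
  -- the suffix
  set W : ℕ := ⌊e * x / L⌋₊ with hW
  have hexL : 2 ≤ e * x / L := by
    rw [le_div_iff₀ (by linarith)]
    rw [div_le_iff₀ he0] at hxB
    linarith
  have hW1 : 1 ≤ W := Nat.le_floor (by push_cast; linarith)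
  have hW2 : (W : ℝ) ≤ e * x / L := Nat.floor_le (by linarith)
  have hW3 : e * x / (2 * L) ≤ W := by
    have h1 := Nat.lt_floor_add_one (e * x / L)
    have h2 : e * x / (2 * L) = e * x / L / 2 := by field_simp
    rw [h2]
    have h3 : ((⌊e * x / L⌋₊ : ℕ) : ℝ) = W := by rw [hW]
    linarith
  have hWL : ((W * L : ℕ) : ℝ) ≤ e * x := by
    push_cast
    rwa [le_div_iff₀ (by linarith)] at hW2
  have hsmall : ∀ j, ((W * L : ℕ) : ℝ) ≤ ρ j * x := by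
    intro j
    have h1 : e ≤ r0 := dec_aux2 hr0 hδ0 hδ1 hκ0 hκ1
    have h2 := hr j
    have h3 : e * x ≤ ρ j * x := mul_le_mul_of_nonneg_right (h1.trans h2) hx0.le
    linarith
  have hPBD : G.PB ^ (W * L) ∣ D := by
    rw [← md_const]
    refine (G.md_dvd fun j => ?_).trans hDlo
    exact Nat.le_floor (hsmall j)
  obtain ⟨jj, hj1, hjW, hj⟩ := havg b D R W hW1 hR hRP hD0 hPBD
  set t : ℕ := jj * L with ht
  have htWL : t ≤ W * L := Nat.mul_le_mul_right L hjW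
  have htx : (t : ℝ) ≤ e * x := by
    have : (t : ℝ) ≤ ((W * L : ℕ) : ℝ) := by exact_mod_cast htWL
    linarith
  obtain ⟨har1, har2, har3, har4, har5⟩ := arith hκ0 hκ1 hδ0 hδ1 hr0 hr1 he₂ hδ hη he hc10 hxA
    (Nat.cast_nonneg b) hb2 (Nat.cast_nonneg t) htx hk
  set x' : ℝ := x - b - e₂ * x with hx'
  have hx'0 : 0 < x' := lt_of_lt_of_le (by positivity) har2
  have hx'1 : 1 ≤ x' := by
    exact le_trans (dec_aux3 hr0 hr1 hδ0 hδ1 hκ0 hc10 hx0 hxA) har2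
  have hkbt : b + t ≤ k := by
    have h1 : (0 : ℝ) ≤ (1 - δ') * x' := mul_nonneg (by linarith) hx'0.le
    have h2 : ((b + t : ℕ) : ℝ) ≤ k := by push_cast; linarith
    exact_mod_cast h2
  obtain ⟨k', hk'⟩ : ∃ k', k = (k' + b) + t := ⟨k - (b + t), by omega⟩
  have hk'R : (k' : ℝ) = k - b - t := by rw [hk']; push_cast; ring
  -- coprimality
  have hcopD : ∀ D' : ℕ, D' ∣ D → ∀ v, IsCoprime (G.Nv v : ℤ) ((D' * R : ℕ) : ℤ) := fun D' hD' v =>
    G.cop_of_dvd (hD'.trans hDhi) hRP v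
  -- typical vectors
  set 𝒯 : Set (ι → ℕ) := {v | ∀ j, |(v j : ℝ) - ρ j * b| ≤ η * b} with h𝒯
  have hlev : ∀ (i1 : ι), ∀ w ∈ G.Pth t i1, ∀ j, G.ct i1 w j ≤ fl ρ x j := by
    intro i1 w hw j
    refine Nat.le_floor ?_
    have h1 : G.ct i1 w j ≤ W * L := ((G.ct_le i1 w j).trans (G.mem_Pth.1 hw).1.le).trans htWL
    have h2 : ((G.ct i1 w j : ℕ) : ℝ) ≤ ((W * L : ℕ) : ℝ) := by exact_mod_cast h1
    exact h2.trans (hsmall j)
  have hflcl : ∀ j, fl ρ x j ≤ cl ρ ((1 + δ) * x) j := by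
    intro j
    have h1 : (fl ρ x j : ℝ) ≤ (cl ρ ((1 + δ) * x) j : ℝ) := by
      refine (Nat.floor_le (mul_nonneg (h.pos j).le hx0.le)).trans (le_trans ?_ (Nat.le_ceil _))
      have := h.pos j
      have h2 : x ≤ (1 + δ) * x := dec_aux4 hδpos hx0
      exact mul_le_mul_of_nonneg_left h2 this.le
    exact_mod_cast h1
  set ε : ℝ := C' / (x' ^ (1 / 3 : ℝ)) ^ q with hε
  have hε0 : 0 ≤ ε := by positivity
  set τ : ℝ := ∑ i2, G.Ex b i2 (fun w => if G.ct i2 w ∈ 𝒯 then 0 else 1) with hτ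
  have hτ0 : 0 ≤ τ := sum_nonneg fun i2 _ => G.Ex_nonneg fun w _ => by split_ifs <;> norm_num
  have hin : ∀ i1, ∀ w ∈ G.Pth t i1, G.gg (k' + b) i i1 (D / (G.Mv (G.ct i1 w)).natAbs) R ≤
      ε * ∑ i2, G.gg b i2 i1 (D / (G.Mv (G.ct i1 w)).natAbs) R + (R - 1) * τ := by
    intro i1 w hw
    obtain ⟨hf1, hf2, hf3⟩ := G.div_facts hDlo hDhi (hlev i1 w hw) (fun j => (hlev i1 w hw j).trans (hflcl j))
    have hf1' : (G.Mv (G.ct i1 w)).natAbs ∣ D := hf1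
    have hDw0 : 0 < D / (G.Mv (G.ct i1 w)).natAbs := Nat.div_pos (Nat.le_of_dvd hD0 hf1') (G.natAbs_Mv_pos _)
    have hboth : ∀ v ∈ 𝒯, ∀ j, G.ct i1 w j + v j ≤ fl ρ x j ∧ fl ρ x' j + (G.ct i1 w j + v j) ≤ fl ρ x j ∧
        cl ρ ((1 + δ) * x) j - (G.ct i1 w j + v j) ≤ cl ρ ((1 + δ') * x') j := by
      intro v hv j
      have hvj := abs_le.1 (hv j)
      have hct : ((G.ct i1 w j : ℕ) : ℝ) ≤ t := by
        exact_mod_cast (G.ct_le i1 w j).trans (G.mem_Pth.1 hw).1.le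
      have h1 := har4 (ρ j) (v j) (G.ct i1 w j) (hr j) (G.rho_le_one h j) hct (by linarith)
      have h2 := har5 (ρ j) (v j) (G.ct i1 w j) (hr j) (G.rho_le_one h j) (Nat.cast_nonneg _) (by linarith)
      have h3 : fl ρ x' j + (G.ct i1 w j + v j) ≤ fl ρ x j := by
        refine Nat.le_floor ?_
        push_cast
        have := Nat.floor_le (mul_nonneg (h.pos j).le hx'0.le)
        have h4 : ((fl ρ x' j : ℕ) : ℝ) ≤ ρ j * x' := this
        linarith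
      refine ⟨by omega, h3, ?_⟩
      have h4 : cl ρ ((1 + δ) * x) j ≤ cl ρ ((1 + δ') * x') j + (G.ct i1 w j + v j) := by
        have h5 : ((cl ρ ((1 + δ) * x) j : ℕ) : ℝ) < ρ j * ((1 + δ) * x) + 1 :=
          Nat.ceil_lt_add_one (mul_nonneg (h.pos j).le (by positivity))
        have h6 : ρ j * ((1 + δ') * x') ≤ ((cl ρ ((1 + δ') * x') j : ℕ) : ℝ) := Nat.le_ceil _
        have h7 : ((cl ρ ((1 + δ) * x) j : ℕ) : ℝ) < ((cl ρ ((1 + δ') * x') j + (G.ct i1 w j + v j) : ℕ) : ℝ) := by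
          push_cast
          linarith
        exact (by exact_mod_cast h7 : _ < _).le
      omega
    refine G.split_prefix 𝒯 hε0 hDw0 hR (hcopD _ (Nat.div_dvd_of_dvd hf1')) ?_ ?_
    · intro v hv
      have h1 : G.md (G.ct i1 w + v) ∣ D := (G.md_dvd fun j => (hboth v hv j).1).trans hDlo
      rw [md_add] at h1
      obtain ⟨c, hc⟩ := h1
      show G.md v ∣ D / G.md (G.ct i1 w)
      rw [hc, mul_assoc, Nat.mul_div_cancel_left _ (G.md_pos _)]
      exact dvd_mul_right _ _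
    · intro v hv i2
      have e1 : D / (G.Mv (G.ct i1 w)).natAbs / (G.Mv v).natAbs = D / G.md (G.ct i1 w + v) := by
        rw [Nat.div_div_eq_div_mul, md_add]
        rfl
      rw [e1]
      obtain ⟨hg1, hg2, hg3⟩ := G.div_facts (w := G.ct i1 w + v) hDlo hDhi (fun j => (hboth v hv j).1)
        (fun j => ((hboth v hv j).1).trans (hflcl j))
      refine IH x' hx'1 _ k' R ((G.md_dvd fun j => ?_).trans hg2) (hg3.trans (G.md_dvd fun j => ?_)) ?_ hR hRP i i2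
      · have := (hboth v hv j).2.1
        rw [Pi.sub_apply, Pi.add_apply]
        omega
      · have := (hboth v hv j).2.2
        rw [Pi.sub_apply, Pi.add_apply]
        exact this
      · rw [hk'R]
        exact har3
  -- assemble
  have hmain : G.gg k i j D R ≤ (R - 1) * (ε * (4 * R * (CE * ((b : ℝ) ^ (1 / 3 : ℝ)) ^ 2) / (p * W)) +
      (R - 1) * (card * τ)) := by
    rw [hk']
    refine (G.split_suffix hD0 hR (hcopD D dvd_rfl) (fun i1 w hw => ?_)).trans ?_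
    · exact (G.div_facts hDlo hDhi (hlev i1 w hw) (fun j => (hlev i1 w hw j).trans (hflcl j))).1
    · refine mul_le_mul_of_nonneg_left ?_ hR1
      calc ∑ i1, G.Ex t i1 (fun w => G.gg (k' + b) i i1 (D / (G.Mv (G.ct i1 w)).natAbs) R)
          ≤ ∑ i1, G.Ex t i1 (fun w => ε * ∑ i2, G.gg b i2 i1 (D / (G.Mv (G.ct i1 w)).natAbs) R + (R - 1) * τ) :=
            sum_le_sum fun i1 _ => G.Ex_mono fun w hw => hin i1 w hw
        _ = ε * (∑ i2, ∑ i1, G.Ex t i1 (fun w => G.gg b i2 i1 (D / (G.Mv (G.ct i1 w)).natAbs) R)) +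
              (R - 1) * (card * τ) := by
            have h1 : ∀ i1, G.Ex t i1 (fun w => ε * ∑ i2, G.gg b i2 i1 (D / (G.Mv (G.ct i1 w)).natAbs) R + (R - 1) * τ) =
                ε * (∑ i2, G.Ex t i1 (fun w => G.gg b i2 i1 (D / (G.Mv (G.ct i1 w)).natAbs) R)) + (R - 1) * τ := by
              intro i1
              rw [Ex_add', Ex_const, Ex_mul, Ex_sum]
            rw [sum_congr rfl fun i1 _ => h1 i1, sum_add_distrib, ← mul_sum, sum_comm, sum_const, card_univ,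
              nsmul_eq_mul, ← hcard]
            ring
        _ ≤ ε * (4 * R * (∑ i1, ∑ i2, (G.ED b i1 i2 (D * R) - G.ED b i1 i2 1)) / (p * W)) + (R - 1) * (card * τ) :=
            add_le_add (mul_le_mul_of_nonneg_left hj hε0) le_rfl
        _ ≤ _ := by
            have h1 := hED b (D * R) hbpos (Nat.mul_pos hD0 hR) hDRexp
            have hWR : (0 : ℝ) < W := by exact_mod_cast hW1
            gcongr
  refine hmain.trans ?_
  -- estimates
  have hWR : (0 : ℝ) < W := by exact_mod_cast hW1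
  have hε1 : ε ≤ C' / ((κ / 2) ^ q * s ^ q) := by
    rw [hε, ← mul_pow]
    apply div_le_div_of_nonneg_left hC'.le (by positivity)
    apply pow_le_pow_left₀ (by positivity)
    have h1 : (κ / 2 * x) ^ (1 / 3 : ℝ) ≤ x' ^ (1 / 3 : ℝ) := Real.rpow_le_rpow (by positivity) har2 (by norm_num)
    rw [Real.mul_rpow (by positivity) hx0.le, ← hs] at h1
    refine le_trans ?_ h1
    apply mul_le_mul_of_nonneg_right _ hs0.le
    calc κ / 2 = (κ / 2) ^ (1 : ℝ) := (Real.rpow_one _).symm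
      _ ≤ (κ / 2) ^ (1 / 3 : ℝ) := Real.rpow_le_rpow_of_exponent_ge (by positivity) (by linarith) (by norm_num)
  have hb13 : ((b : ℝ) ^ (1 / 3 : ℝ)) ^ 2 ≤ s ^ 2 := by
    apply pow_le_pow_left₀ (by positivity)
    exact Real.rpow_le_rpow (Nat.cast_nonneg _) har1 (by norm_num)
  have hT1 : ε * (4 * R * (CE * ((b : ℝ) ^ (1 / 3 : ℝ)) ^ 2) / (p * W)) ≤
      C' * 8 * G.PB * L * CE / ((κ / 2) ^ q * p * e) / s ^ (q + 1) := by
    have h1 : 4 * R * (CE * ((b : ℝ) ^ (1 / 3 : ℝ)) ^ 2) / (p * W) ≤ 4 * G.PB * (CE * s ^ 2) / (p * (e * x / (2 * L))) := by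
      gcongr
    calc ε * (4 * R * (CE * ((b : ℝ) ^ (1 / 3 : ℝ)) ^ 2) / (p * W))
        ≤ C' / ((κ / 2) ^ q * s ^ q) * (4 * G.PB * (CE * s ^ 2) / (p * (e * x / (2 * L)))) :=
          mul_le_mul hε1 h1 (by positivity) (by positivity)
      _ = _ := by
          rw [← hs3]
          field_simp
          ring
  have hτ1 : τ ≤ card * (CT * (((q + 1).factorial : ℝ) / (cT * (β / 2)) ^ (q + 1))) / s ^ (q + 1) := by
    have h1 : τ ≤ ∑ _i2 : ι, CT * Real.exp (-(cT * b)) := by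
      refine sum_le_sum fun i2 _ => le_trans (le_of_eq ?_) (htyp b i2)
      refine G.Ex_congr fun w _ => ?_
      simp only [h𝒯, Set.mem_ofPred_eq]
    refine h1.trans ?_
    rw [sum_const, card_univ, nsmul_eq_mul, ← hcard, mul_div_assoc, mul_div_assoc]
    refine mul_le_mul_of_nonneg_left (mul_le_mul_of_nonneg_left ?_ hCT.le) hcard0
    have h2 : Real.exp (-(cT * b)) ≤ Real.exp (-(cT * (β / 2) * s)) := by
      apply Real.exp_le_exp.2
      have h3 : s ≤ x := by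
        rw [← hs3]
        exact le_self_pow₀ hs1 (by norm_num)
      have h4 : β / 2 * s ≤ b := le_trans (mul_le_mul_of_nonneg_left h3 (by positivity)) hb3
      have h5 := mul_le_mul_of_nonneg_left h4 hcT.le
      rw [neg_le_neg_iff, mul_assoc]
      exact h5
    exact h2.trans (exp_neg_le_pow (q + 1) (by positivity) hs0)
  have hfin : (R - 1) * (ε * (4 * R * (CE * ((b : ℝ) ^ (1 / 3 : ℝ)) ^ 2) / (p * W)) + (R - 1) * (card * τ)) ≤
      G.PB * (C' * 8 * G.PB * L * CE / ((κ / 2) ^ q * p * e) / s ^ (q + 1) + G.PB * (card * (card * (CT *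
        (((q + 1).factorial : ℝ) / (cT * (β / 2)) ^ (q + 1))) / s ^ (q + 1)))) := by
    have h0 : 0 ≤ ε * (4 * R * (CE * ((b : ℝ) ^ (1 / 3 : ℝ)) ^ 2) / (p * W)) := by positivity
    gcongr
  refine hfin.trans ?_
  have hsq : (0 : ℝ) < s ^ (q + 1) := by positivity
  rw [le_div_iff₀ hsq]
  have e1 : G.PB * (C' * 8 * G.PB * L * CE / ((κ / 2) ^ q * p * e) / s ^ (q + 1) + G.PB * (card * (card * (CT *
        (((q + 1).factorial : ℝ) / (cT * (β / 2)) ^ (q + 1))) / s ^ (q + 1)))) * s ^ (q + 1) = A1 + A2 := by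
    rw [hA1, hA2]
    field_simp
  rw [e1]
  linarith

/-- superpolynomial decay -/
theorem decay (h : G.Irr ρ) (hd : G.mm ρ < G.hh ρ) (hm : 0 < G.mm ρ) (q : ℕ) :
    ∃ δ C : ℝ, 0 < δ ∧ δ ≤ 1 ∧ 0 < C ∧ G.Dec ρ q δ C := by
  induction q with
  | zero =>
    refine ⟨1, G.PB, one_pos, le_rfl, by exact_mod_cast G.PB_pos, ?_⟩
    intro x hx D k R hDlo hDhi _ hR hRP i j
    have hD0 : 0 < D := Nat.pos_of_ne_zero fun h0 => by
      rw [h0, zero_dvd_iff] at hDhi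
      exact (G.md_pos _).ne' hDhi
    rw [pow_zero, div_one]
    have h1 := G.gg_le (k := k) (i := i) (j := j) hD0 hR
    have hRPB : (R : ℝ) ≤ G.PB := by exact_mod_cast Nat.le_of_dvd G.PB_pos hRP
    linarith
  | succ q ih =>
    obtain ⟨δ', C', hδ0, hδ1, hC', IH⟩ := ih
    exact G.decay_step h hd hm q hδ0 hδ1 hC' IH

end GS

end Pool.Agent.Zk39.GD
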