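import Mathlib
import Pool.Agent.Zk39.GD.Decay

/-!
# Total variation summed over the groups (after `Pool.Agent.H319R3.GC.TG`)
-/

set_option autoImplicit false
set_option linter.unusedSectionVars false

namespace Pool.Agent.Zk39.GD

open Finset Pool.Agent.H319R3.GC

namespace GS

variable {ι : Type} [Fintype ι] [DecidableEq ι] (G : GS ι) {ρ : ι → ℝ}

theorem log_b_zero (h : G.Irr ρ) (hm : G.mm ρ = 0) (j : ι) : Real.log |(G.b j : ℝ)| = 0 := by
  unfold mm at hm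
  have h1 := (sum_eq_zero_iff_of_nonneg fun x _ =>
    mul_nonneg (h.pos x).le (Real.log_nonneg (G.b_abs_ge x))).1 hm j (mem_univ j)
  rcases mul_eq_zero.1 h1 with h2 | h2
  · exact absurd h2 (h.pos j).ne'
  · exact h2

theorem PB_one (h : G.Irr ρ) (hm : G.mm ρ = 0) : G.PB = 1 := by
  have h2 : Real.log G.PB = 0 := by
    rw [G.log_PB]
    unfold Lb
    exact sum_eq_zero fun j _ => G.log_b_zero h hm j
  have h3 := G.PB_pos
  rcases Real.log_eq_zero.1 h2 with h4 | h4 | h4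
  · have : G.PB = 0 := by exact_mod_cast h4
    omega
  · exact_mod_cast h4
  · have : (0 : ℝ) ≤ G.PB := Nat.cast_nonneg _
    linarith

/-- superpolynomial decay in all cases -/
theorem decay_all (h : G.Irr ρ) (hd : G.mm ρ < G.hh ρ) (q : ℕ) :
    ∃ δ C : ℝ, 0 < δ ∧ δ ≤ 1 ∧ 0 < C ∧ G.Dec ρ q δ C := by
  rcases (G.mm_nonneg h).lt_or_eq with hm | hm
  · exact G.decay h hd hm q
  · refine ⟨1, 1, one_pos, le_rfl, one_pos, ?_⟩
    intro x hx D k R hDlo hDhi _ hR hRP i j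
    have hD0 : 0 < D := Nat.pos_of_ne_zero fun h0 => by
      rw [h0, zero_dvd_iff] at hDhi
      exact (G.md_pos _).ne' hDhi
    rw [G.PB_one h hm.symm, Nat.dvd_one] at hRP
    have h1 := G.gg_le (k := k) (i := i) (j := j) hD0 hR
    rw [hRP, Nat.cast_one, sub_self] at h1
    rw [hRP]
    have : 0 ≤ 1 / (x ^ (1 / 3 : ℝ)) ^ q := by
      have : 0 < x := by linarith
      positivity
    linarith

theorem tv_self {κ : Type*} (s : Finset κ) (v : κ → ℤ) {D : ℕ} (hD : 0 < D) : tv s v D D = 0 := by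
  unfold tv
  refine Finset.sum_eq_zero fun c _ => ?_
  have : (D : ℝ) ≠ 0 := by positivity
  rw [mul_div_cancel_right₀ _ this, sub_self, abs_zero]

theorem fl_mono (h : G.Irr ρ) {x y : ℝ} (hxy : x ≤ y) (j : ι) : fl ρ x j ≤ fl ρ y j := by
  unfold fl
  exact Nat.floor_le_floor (mul_le_mul_of_nonneg_left hxy (h.pos j).le)

theorem fl_succ (h : G.Irr ρ) {x : ℝ} (hx : 0 ≤ x) (j : ι) : fl ρ (x + 1) j ≤ fl ρ x j + 1 := by
  unfold fl
  have h1 := G.rho_le_one h j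
  have h2 := (h.pos j).le
  calc ⌊ρ j * (x + 1)⌋₊ ≤ ⌊ρ j * x + 1⌋₊ := Nat.floor_le_floor (by linarith)
    _ = ⌊ρ j * x⌋₊ + 1 := by rw [Nat.floor_add_one (mul_nonneg h2 hx)]

/-- chain of unit steps of the level -/
theorem up (h : G.Irr ρ) {κ : Type*} (s : Finset κ) (u : κ → ℤ) {x₀ : ℝ} (hx₀ : 0 ≤ x₀) {g : ℝ} (n : ℕ)
    (hg : ∀ m : ℕ, m < n → ∀ R : ℕ, 1 ≤ R → R ∣ G.PB → Gam s u (G.md (fl ρ (x₀ + m))) R ≤ g) :
    tv s u (G.md (fl ρ x₀)) (G.md (fl ρ (x₀ + n))) ≤ n * √(g * s.card) := by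
  induction n with
  | zero =>
    rw [Nat.cast_zero, add_zero, tv_self s u (G.md_pos _)]
    simp
  | succ n ih =>
    have h1 := ih fun m hm => hg m (by omega)
    have e0 : x₀ + ((n + 1 : ℕ) : ℝ) = x₀ + n + 1 := by push_cast; ring
    rw [e0]
    have hn : 0 ≤ x₀ + n := by positivity
    have hle : ∀ j, fl ρ x₀ j ≤ fl ρ (x₀ + n) j := fun j => G.fl_mono h (by
      have : (0 : ℝ) ≤ n := Nat.cast_nonneg _
      linarith) j
    have hle2 : ∀ j, fl ρ (x₀ + n) j ≤ fl ρ (x₀ + n + 1) j := fun j => G.fl_mono h (by linarith) j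
    have h2 := tv_trans s u (D := G.md (fl ρ x₀)) (E := G.md (fl ρ (x₀ + n)))
      (N := G.md (fl ρ (x₀ + n + 1))) (G.md_pos _) (G.md_dvd hle) (G.md_dvd hle2)
    have h3 : tv s u (G.md (fl ρ (x₀ + n))) (G.md (fl ρ (x₀ + n + 1))) ≤ √(g * s.card) := by
      have e : G.md (fl ρ (x₀ + n + 1)) = G.md (fl ρ (x₀ + n)) * G.md (fl ρ (x₀ + n + 1) - fl ρ (x₀ + n)) := by
        rw [← md_add]
        congr 1
        funext j
        rw [Pi.add_apply, Pi.sub_apply]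
        have := hle2 j
        omega
      have hd : G.md (fl ρ (x₀ + n + 1) - fl ρ (x₀ + n)) ∣ G.PB := by
        have h4 := G.md_const 1
        rw [pow_one] at h4
        rw [← h4]
        refine G.md_dvd fun j => ?_
        rw [Pi.sub_apply]
        have := G.fl_succ h hn j
        omega
      rw [e]
      refine (tv_step s u (G.md_pos _) (G.md_pos _)).trans (Real.sqrt_le_sqrt ?_)
      exact mul_le_mul_of_nonneg_right (hg n (by omega) _ (G.md_pos _) hd) (Nat.cast_nonneg _)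
    push_cast
    linarith

/-- the levels of a group -/
theorem levels (h : G.Irr ρ) {r0 δ η η' k xq : ℝ} (hr0 : 0 < r0) (hr1 : r0 ≤ 1) (hr : ∀ j, r0 ≤ ρ j)
    (hδ : 0 < δ) (hδ1 : δ ≤ 1) (hη : η = r0 * δ / 16) (hη' : η' = δ / 8) (hk1 : 1 / η ≤ k) (hk2 : 4 / δ ≤ k)
    (hxq : 0 ≤ xq) (hxq' : xq ≤ δ * k) (v : ι → ℕ) (hv : ∀ l, |(v l : ℝ) - ρ l * k| ≤ η * k)
    {x₁ : ℝ} (h1 : (1 - η') * (k + xq) - 1 ≤ x₁) (h2 : x₁ ≤ (1 - η') * (k + xq)) :
    (∀ l, fl ρ x₁ l ≤ (v + fl ρ xq) l) ∧ ∀ l, (v + fl ρ xq) l ≤ cl ρ ((1 + δ) * x₁) l := by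
  have hη0 : 0 < η := by rw [hη]; positivity
  have hk0 : 0 < k := lt_of_lt_of_le (by positivity) hk1
  have hk1' : 1 ≤ k * η := by rwa [div_le_iff₀ hη0] at hk1
  have hk2' : 4 ≤ k * δ := by rwa [div_le_iff₀ hδ] at hk2
  have hη'0 : 0 < η' := by rw [hη']; positivity
  constructor
  · intro l
    have hvl := abs_le.1 (hv l)
    have hρ := hr l
    have hρ0 : 0 < ρ l := h.pos l
    rw [Pi.add_apply]
    have h3 : ρ l * x₁ ≤ v l + (ρ l * xq - 1) := by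
      have h4 : ρ l * x₁ ≤ ρ l * ((1 - η') * (k + xq)) := mul_le_mul_of_nonneg_left h2 hρ0.le
      have h5 : r0 * (η' * k) ≤ ρ l * (η' * k) := mul_le_mul_of_nonneg_right hρ (by positivity)
      have h6 : 0 ≤ ρ l * (η' * xq) := by positivity
      have h7 : r0 * (η' * k) = 2 * (k * η) := by rw [hη', hη]; ring
      nlinarith
    have h4 : ρ l * xq - 1 < (fl ρ xq l : ℝ) := by
      have := Nat.lt_floor_add_one (ρ l * xq)
      have e : ((fl ρ xq l : ℕ) : ℝ) = (⌊ρ l * xq⌋₊ : ℝ) := rfl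
      rw [e]
      linarith
    have h5 : (fl ρ x₁ l : ℝ) < ((v l + fl ρ xq l + 1 : ℕ) : ℝ) := by
      push_cast
      rcases le_total 0 (ρ l * x₁) with h6 | h6
      · have h7 : (fl ρ x₁ l : ℝ) ≤ ρ l * x₁ := Nat.floor_le h6
        linarith
      · have h7 : fl ρ x₁ l = 0 := Nat.floor_of_nonpos h6
        rw [h7, Nat.cast_zero]
        positivity
    have h6 : fl ρ x₁ l < v l + fl ρ xq l + 1 := by exact_mod_cast h5
    omega
  · intro l
    have hvl := abs_le.1 (hv l)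
    have hρ := hr l
    have hρ0 : 0 < ρ l := h.pos l
    rw [Pi.add_apply]
    have h3 : (fl ρ xq l : ℝ) ≤ ρ l * xq := Nat.floor_le (by positivity)
    have h4 : (1 + δ) * ((1 - η') * (k + xq) - 1) ≤ (1 + δ) * x₁ := mul_le_mul_of_nonneg_left h1 (by linarith)
    have h5 : k + xq + δ / 16 * k ≤ (1 + δ) * ((1 - η') * (k + xq) - 1) := by
      have h6 : δ * δ ≤ δ := by nlinarith
      have h7 : 1 + 3 * δ / 4 ≤ (1 + δ) * (1 - η') := by rw [hη']; nlinarith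
      have h8 : (1 + 3 * δ / 4) * (k + xq) ≤ (1 + δ) * (1 - η') * (k + xq) :=
        mul_le_mul_of_nonneg_right h7 (by linarith)
      have h9 : 0 ≤ δ * xq := by positivity
      nlinarith
    have h6 : ρ l * (k + xq + δ / 16 * k) ≤ ρ l * ((1 + δ) * x₁) := mul_le_mul_of_nonneg_left (h5.trans h4) hρ0.le
    have h7 : r0 * (δ / 16 * k) ≤ ρ l * (δ / 16 * k) := mul_le_mul_of_nonneg_right hρ (by positivity)
    have h8 : r0 * (δ / 16 * k) = η * k := by rw [hη]; ring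
    have h9 : ((v l + fl ρ xq l : ℕ) : ℝ) ≤ (cl ρ ((1 + δ) * x₁) l : ℝ) := by
      refine le_trans ?_ (Nat.le_ceil _)
      push_cast
      nlinarith
    exact_mod_cast h9

theorem one_group (h : G.Irr ρ) {r0 δ η k : ℝ} {q kk : ℕ} {C' : ℝ} (hC' : 0 < C') (hdec : G.Dec ρ q δ C')
    (hkk : (kk : ℝ) = k) (hr0 : 0 < r0) (hr1 : r0 ≤ 1) (hr : ∀ j, r0 ≤ ρ j)
    (hδ : 0 < δ) (hδ1 : δ ≤ 1) (hη : η = r0 * δ / 16) (hk1 : 1 / η ≤ k) (hk2 : 4 / δ ≤ k)
    {x₀ xq : ℝ} (hx₀ : 1 ≤ x₀) (hx₀q : x₀ ≤ xq) (hxq : xq ≤ δ * k) (i j : ι) (v : ι → ℕ) (hvs : v ∈ Vs ι kk)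
    (hv : ∀ l, |(v l : ℝ) - ρ l * k| ≤ η * k) :
    tv (G.gr kk i j v) (G.Ww i) (G.md (fl ρ x₀)) (G.md v * G.md (fl ρ xq)) / G.Nv v ≤
      2 * (Nat.log 2 G.PB + 2) * k * √(C' / (x₀ ^ (1 / 3 : ℝ)) ^ q) := by
  have hη0 : 0 < η := by rw [hη]; positivity
  have hk0 : 0 < k := lt_of_lt_of_le (by positivity) hk1
  have hk2' : 4 ≤ k * δ := by rwa [div_le_iff₀ hδ] at hk2
  set η' : ℝ := δ / 8 with hη'
  have hxq0 : 0 ≤ xq := by linarith
  set n : ℕ := ⌊(1 - η') * (k + xq) - x₀⌋₊ with hn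
  have hn0 : 0 ≤ (1 - η') * (k + xq) - x₀ := by
    have h1 : η' * xq ≤ η' * (δ * k) := mul_le_mul_of_nonneg_left hxq (by positivity)
    have h2 : η' ≤ 1 / 8 := by rw [hη']; linarith
    have h3 : η' * (δ * k) ≤ 1 / 8 * k := by
      have : η' * δ ≤ 1 / 8 := by nlinarith
      nlinarith
    nlinarith
  set x₁ : ℝ := x₀ + n with hx₁
  have hx1a : (1 - η') * (k + xq) - 1 ≤ x₁ := by
    have := Nat.lt_floor_add_one ((1 - η') * (k + xq) - x₀)
    rw [← hn] at this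
    linarith
  have hx1b : x₁ ≤ (1 - η') * (k + xq) := by
    have := Nat.floor_le hn0
    rw [← hn] at this
    linarith
  obtain ⟨hlo, hhi⟩ := G.levels h hr0 hr1 hr hδ hδ1 hη hη' hk1 hk2 hxq0 hxq v hv hx1a hx1b
  have hx1c : (1 - δ) * x₁ ≤ k := by
    have h1 : x₁ ≤ (1 + δ) * k := by
      refine hx1b.trans ?_
      have h2 : 0 < η' * (k + xq) := by positivity
      linarith
    have h2 : (1 - δ) * x₁ ≤ (1 - δ) * ((1 + δ) * k) := mul_le_mul_of_nonneg_left h1 (by linarith)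
    nlinarith [mul_pos hδ hδ]
  set N : ℕ := G.md v * G.md (fl ρ xq) with hN
  have hNmd : N = G.md (v + fl ρ xq) := by rw [hN, md_add]
  have hNpos : 0 < N := by rw [hNmd]; exact G.md_pos _
  set ε : ℝ := C' / (x₀ ^ (1 / 3 : ℝ)) ^ q with hε
  have hε0 : 0 ≤ ε := by positivity
  have hNv := G.Nv_posR v
  set g : ℝ := G.Nv v * ε with hg
  have hg0 : 0 ≤ g := by positivity
  -- the nonuniformity at all the levels
  have hGam : ∀ (x : ℝ) (D R : ℕ), x₀ ≤ x → x ≤ x₁ → G.md (fl ρ x) ∣ D → D ∣ G.md (cl ρ ((1 + δ) * x)) → 1 ≤ R →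
      R ∣ G.PB → Gam (G.gr kk i j v) (G.Ww i) D R ≤ g := by
    intro x D R hxa hxb hD1 hD2 hR1 hR2
    refine (G.Gam_gr_le kk i j v D R).trans ?_
    refine mul_le_mul_of_nonneg_left ?_ hNv.le
    have hcond : (1 - δ) * x ≤ kk := by
      rw [hkk]
      exact (mul_le_mul_of_nonneg_left hxb (by linarith)).trans hx1c
    refine (hdec x (by linarith) D kk R hD1 hD2 hcond hR1 hR2 i j).trans ?_
    refine div_le_div_of_nonneg_left hC'.le (by positivity) ?_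
    refine pow_le_pow_left₀ (by positivity) (Real.rpow_le_rpow (by linarith) hxa (by norm_num)) _
  have hflcl : ∀ x : ℝ, 0 ≤ x → G.md (fl ρ x) ∣ G.md (cl ρ ((1 + δ) * x)) := by
    intro x hx
    refine G.md_dvd fun l => ?_
    have h1 : (fl ρ x l : ℝ) ≤ (cl ρ ((1 + δ) * x) l : ℝ) := by
      refine (Nat.floor_le (mul_nonneg (h.pos l).le hx)).trans (le_trans ?_ (Nat.le_ceil _))
      have := h.pos l
      have h2 : x ≤ (1 + δ) * x := by nlinarith
      exact mul_le_mul_of_nonneg_left h2 this.le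
    exact_mod_cast h1
  have hsq : √(g * (G.gr kk i j v).card) ≤ G.Nv v * √ε := by
    have e : (G.Nv v : ℝ) * √ε = √(g * G.Nv v) := by
      rw [hg, show (G.Nv v : ℝ) * ε * G.Nv v = (G.Nv v : ℝ) ^ 2 * ε by ring, Real.sqrt_mul (by positivity),
        Real.sqrt_sq hNv.le]
    rw [e]
    exact Real.sqrt_le_sqrt (mul_le_mul_of_nonneg_left (G.card_gr_le kk i j v) hg0)
  set sq := √(g * (G.gr kk i j v).card) with hsqd
  have hsq0 : 0 ≤ sq := Real.sqrt_nonneg _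
  have hnR : (n : ℝ) ≤ 2 * k := by
    have h1 := Nat.floor_le hn0
    rw [← hn] at h1
    have h2 : 0 < η' * (k + xq) := by positivity
    have h3 : δ * k ≤ 1 * k := mul_le_mul_of_nonneg_right hδ1 hk0.le
    linarith
  -- first part
  have p1 : tv (G.gr kk i j v) (G.Ww i) (G.md (fl ρ x₀)) (G.md (fl ρ x₁)) ≤ 2 * k * sq := by
    refine (G.up h (G.gr kk i j v) (G.Ww i) (by linarith) n (g := g) ?_).trans
      (mul_le_mul_of_nonneg_right hnR hsq0)
    intro m hm R hR1 hR2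
    have hm' : (m : ℝ) ≤ n := by exact_mod_cast hm.le
    have hm0 : (0 : ℝ) ≤ m := Nat.cast_nonneg _
    exact hGam (x₀ + m) _ R (by linarith) (by rw [hx₁]; linarith) dvd_rfl (hflcl _ (by linarith)) hR1 hR2
  -- second part
  have hx1pos : 0 ≤ x₁ := by positivity
  have hv2k : ∀ l, (v + fl ρ xq) l ≤ 2 * kk := by
    intro l
    rw [Pi.add_apply]
    have h1 : v l ≤ kk := by
      unfold Vs at hvs
      rw [Fintype.mem_piFinset] at hvs
      have := mem_range.1 (hvs l)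
      omega
    have h2 : (fl ρ xq l : ℝ) ≤ kk := by
      have h3 : (fl ρ xq l : ℝ) ≤ ρ l * xq := Nat.floor_le (mul_nonneg (h.pos l).le hxq0)
      have h4 : ρ l * xq ≤ 1 * xq := mul_le_mul_of_nonneg_right (G.rho_le_one h l) hxq0
      have h5 : δ * k ≤ 1 * k := mul_le_mul_of_nonneg_right hδ1 hk0.le
      rw [hkk]
      linarith
    have h3 : fl ρ xq l ≤ kk := by exact_mod_cast h2
    omega
  have hNPB : N ∣ G.PB ^ (2 * kk) := by
    rw [hNmd, ← md_const]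
    exact G.md_dvd hv2k
  have p2 : tv (G.gr kk i j v) (G.Ww i) (G.md (fl ρ x₁)) N ≤ 2 * k * (Nat.log 2 G.PB + 1) * sq := by
    have hDN : G.md (fl ρ x₁) ∣ N := by rw [hNmd]; exact G.md_dvd hlo
    have h3 : N ∣ G.md (fl ρ x₁) * G.PB ^ (2 * kk) := hNPB.trans (dvd_mul_left _ _)
    refine (tv_chain (G.gr kk i j v) (G.Ww i) (P := G.PB) (n := 2 * kk) (G.md_pos _) hNpos hDN h3 (G := g) hg0
      ?_).trans ?_
    · intro E' R hE1 hE2 hR1 hR2
      refine hGam x₁ E' R (by rw [hx₁]; linarith [Nat.cast_nonneg (α := ℝ) n]) le_rfl hE1 (hE2.trans ?_) hR1 hR2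
      rw [hNmd]
      exact G.md_dvd hhi
    · refine mul_le_mul_of_nonneg_right ?_ hsq0
      have h4 : Nat.log 2 (N / G.md (fl ρ x₁)) ≤ 2 * kk * (Nat.log 2 G.PB + 1) := by
        refine le_trans (Nat.log_mono_right ?_) (TG_log G.PB (2 * kk) G.PB_pos)
        exact (Nat.div_le_self _ _).trans (Nat.le_of_dvd (Nat.pow_pos G.PB_pos) hNPB)
      have h5 : ((Nat.log 2 (N / G.md (fl ρ x₁)) : ℕ) : ℝ) ≤ ((2 * kk * (Nat.log 2 G.PB + 1) : ℕ) : ℝ) := by
        exact_mod_cast h4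
      push_cast at h5
      rw [hkk] at h5
      exact h5
  have h3 := tv_trans (G.gr kk i j v) (G.Ww i) (D := G.md (fl ρ x₀)) (E := G.md (fl ρ x₁)) (N := N) hNpos
    (G.md_dvd fun l => G.fl_mono h (by rw [hx₁]; linarith [Nat.cast_nonneg (α := ℝ) n]) l)
    (by rw [hNmd]; exact G.md_dvd hlo)
  rw [div_le_iff₀ hNv]
  have hL : (0 : ℝ) ≤ Nat.log 2 G.PB := Nat.cast_nonneg _
  calc tv (G.gr kk i j v) (G.Ww i) (G.md (fl ρ x₀)) N
      ≤ 2 * k * sq + 2 * k * (Nat.log 2 G.PB + 1) * sq := by linarith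
    _ = 2 * (Nat.log 2 G.PB + 2) * k * sq := by ring
    _ ≤ 2 * (Nat.log 2 G.PB + 2) * k * (G.Nv v * √ε) := mul_le_mul_of_nonneg_left hsq (by positivity)
    _ = _ := by ring

open scoped Classical in
/-- total variation summed over the groups -/
theorem tv_groups (h : G.Irr ρ) (hd : G.mm ρ < G.hh ρ) (B : ℕ) :
    ∃ δ η : ℝ, 0 < δ ∧ δ ≤ 1 ∧ 0 < η ∧ ∀ ν η₁ : ℝ, 0 < ν → η₁ ≤ η → ∃ C K0 : ℝ, 0 < C ∧ 0 < K0 ∧
      ∀ (k : ℕ) (x₀ xq : ℝ), K0 ≤ k → ν * k ≤ x₀ → x₀ ≤ xq → xq ≤ δ * k → ∀ i,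
        ∑ j, ∑ v ∈ (Vs ι k).filter (fun v => ∀ l, |(v l : ℝ) - ρ l * k| ≤ η₁ * k),
          tv (G.gr k i j v) (G.Ww i) (G.md (fl ρ x₀)) (G.md v * G.md (fl ρ xq)) / G.Nv v ≤ C / (k : ℝ) ^ B := by
  set card : ℕ := Fintype.card ι with hcard
  set E : ℕ := B + card + 1 with hE
  obtain ⟨δ, C', hδ, hδ1, hC', hdec⟩ := G.decay_all h hd (6 * E)
  obtain ⟨r0, hr0, hr1, hr⟩ := G.exists_r0 h
  refine ⟨δ, r0 * δ / 16, hδ, hδ1, by positivity, fun ν η₁ hν hη₁ => ?_⟩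
  set η : ℝ := r0 * δ / 16 with hη
  have hη0 : 0 < η := by positivity
  set L : ℝ := (Nat.log 2 G.PB : ℝ) with hL
  have hL0 : 0 ≤ L := Nat.cast_nonneg _
  refine ⟨card * (2 ^ card * (2 * (L + 2) * √C' / ν ^ E)) + 1, 1 / η + 4 / δ + 1 / ν + 1, by positivity, by positivity,
    fun k x₀ xq hk hx₀ hx₀q hxq i => ?_⟩
  have p1 : 0 < 1 / η := by positivity
  have p2 : 0 < 4 / δ := by positivity
  have p3 : 0 < 1 / ν := by positivity
  have hkR : (1 : ℝ) ≤ k := by linarith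
  have hνk : 1 ≤ ν * k := by
    have : 1 / ν ≤ k := by linarith
    rw [div_le_iff₀ hν] at this
    linarith
  have hx₀1 : 1 ≤ x₀ := hνk.trans hx₀
  have hsqrt : √(C' / (x₀ ^ (1 / 3 : ℝ)) ^ (6 * E)) ≤ √C' / (ν * k) ^ E := by
    have hx0 : 0 < x₀ := by linarith
    have e1 : (x₀ ^ (1 / 3 : ℝ)) ^ (6 * E) = (x₀ ^ E) ^ 2 := by
      rw [show 6 * E = 3 * (2 * E) by ring, pow_mul, ← Real.rpow_natCast (x₀ ^ (1 / 3 : ℝ)) 3, ← Real.rpow_mul hx0.le]
      norm_num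
      rw [← pow_mul]
      ring_nf
    rw [e1, Real.sqrt_div hC'.le, Real.sqrt_sq (by positivity)]
    exact div_le_div_of_nonneg_left (Real.sqrt_nonneg _) (by positivity) (pow_le_pow_left₀ (by positivity) hx₀ _)
  have hone : ∀ j, ∀ v ∈ (Vs ι k).filter (fun v => ∀ l, |(v l : ℝ) - ρ l * k| ≤ η₁ * k),
      tv (G.gr k i j v) (G.Ww i) (G.md (fl ρ x₀)) (G.md v * G.md (fl ρ xq)) / G.Nv v ≤
        2 * (L + 2) * k * (√C' / (ν * k) ^ E) := by
    intro j v hv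
    rw [mem_filter] at hv
    refine (G.one_group h hC' hdec rfl hr0 hr1 hr hδ hδ1 hη (by linarith) (by linarith) hx₀1 hx₀q hxq i j v hv.1
      (fun l => (hv.2 l).trans (mul_le_mul_of_nonneg_right hη₁ (by positivity)))).trans ?_
    exact mul_le_mul_of_nonneg_left hsqrt (by positivity)
  have hcardv : (((Vs ι k).filter (fun v => ∀ l, |(v l : ℝ) - ρ l * k| ≤ η₁ * k)).card : ℝ) ≤ (2 * k) ^ card := by
    have h1 : ((Vs ι k).filter (fun v => ∀ l, |(v l : ℝ) - ρ l * k| ≤ η₁ * k)).card ≤ (k + 1) ^ card := by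
      rw [hcard, ← card_Vs]
      exact card_le_card (filter_subset _ _)
    have h2 : (((Vs ι k).filter (fun v => ∀ l, |(v l : ℝ) - ρ l * k| ≤ η₁ * k)).card : ℝ) ≤ ((k : ℝ) + 1) ^ card := by
      exact_mod_cast h1
    exact h2.trans (pow_le_pow_left₀ (by positivity) (by linarith) _)
  calc ∑ j, ∑ v ∈ (Vs ι k).filter (fun v => ∀ l, |(v l : ℝ) - ρ l * k| ≤ η₁ * k),
          tv (G.gr k i j v) (G.Ww i) (G.md (fl ρ x₀)) (G.md v * G.md (fl ρ xq)) / G.Nv v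
      ≤ ∑ _j : ι, (2 * k) ^ card * (2 * (L + 2) * k * (√C' / (ν * k) ^ E)) := by
        refine sum_le_sum fun j _ => ?_
        have h1 := sum_le_sum (hone j)
        rw [sum_const, nsmul_eq_mul] at h1
        exact h1.trans (mul_le_mul_of_nonneg_right hcardv (by positivity))
    _ = card * ((2 * k) ^ card * (2 * (L + 2) * k * (√C' / (ν * k) ^ E))) := by
        rw [sum_const, card_univ, nsmul_eq_mul, ← hcard]
    _ = card * (2 ^ card * (2 * (L + 2) * √C' / ν ^ E)) / (k : ℝ) ^ B := by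
        have hk0 : (k : ℝ) ≠ 0 := by positivity
        have hν0 : ν ≠ 0 := hν.ne'
        have hEk : (k : ℝ) ^ E = (k : ℝ) ^ B * (k : ℝ) ^ card * k := by
          rw [hE, pow_succ, pow_add]
        rw [mul_pow, mul_pow, hEk]
        field_simp
    _ ≤ _ := by
        apply div_le_div_of_nonneg_right _ (by positivity)
        linarith

end GS

end Pool.Agent.Zk39.GD
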