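import Mathlib
import Pool.Agent.Zk39.GD.TG

/-!
# Counting in windows and classes (after `Pool.Agent.H319R3.GC.S1`, `S2`, `S3`)
-/

set_option autoImplicit false
set_option linter.unusedSectionVars false

namespace Pool.Agent.Zk39.GD

open Finset Pool.Agent.H319R3.GC

theorem ncard_cover {κ : Type*} (s : Finset κ) (A : Set ℤ) (B : κ → Set ℤ)
    (hB : ∀ i ∈ s, (B i).Finite) (h : ∀ x ∈ A, ∃ i ∈ s, x ∈ B i) :
    (A.ncard : ℝ) ≤ ∑ i ∈ s, ((B i).ncard : ℝ) := by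
  classical
  have h1 : A ⊆ ⋃ i ∈ s, B i := by
    intro x hx
    obtain ⟨i, hi, hxi⟩ := h x hx
    exact Set.mem_biUnion hi hxi
  have hfin : (⋃ i ∈ s, B i).Finite := Set.Finite.biUnion s.finite_toSet hB
  have h2 := Set.ncard_le_ncard h1 hfin
  have h3 := Finset.set_ncard_biUnion_le s B
  exact_mod_cast h2.trans h3

namespace GS

variable {ι : Type} [Fintype ι] [DecidableEq ι] (G : GS ι) {ρ : ι → ℝ}

open scoped Classical in
/-- few integers of a window in a class have their itinerary in a given set of paths -/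
theorem bad_words (i : ι) {a : ℝ} (ha : 0 < a) {k Q : ℕ} {NN : ℝ} (hQ : 0 < Q)
    (hQN : ∀ v, IsCoprime (G.Nv v : ℤ) (Q : ℤ)) (hN : ∀ v ∈ Vs ι k, (G.Nv v : ℝ) ≤ NN) (hk : NN * Q ≤ a) (c : ℤ)
    (Bad : Finset (List ℕ)) (hBad : Bad ⊆ G.Pth k i) :
    ({x : ℤ | a ≤ |(x : ℝ)| ∧ |(x : ℝ)| < 2 * a ∧ (Q : ℤ) ∣ x - c ∧ G.wd k (i, x) ∈ Bad}.ncard : ℝ)
      ≤ ∑ w ∈ Bad, 4 * a / (G.Nv (G.ct i w) * Q) := by
  have hQr : (0 : ℝ) < Q := by exact_mod_cast hQ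
  have hfin : ∀ c' : ℤ, {x : ℤ | a ≤ |(x : ℝ)| ∧ |(x : ℝ)| < 2 * a ∧ (Q : ℤ) ∣ x - c'}.Finite :=
    fun c' => (win_le ha.le (by linarith : a ≤ 2 * a) hQ c').1
  have key := ncard_cover Bad
    {x : ℤ | a ≤ |(x : ℝ)| ∧ |(x : ℝ)| < 2 * a ∧ (Q : ℤ) ∣ x - c ∧ G.wd k (i, x) ∈ Bad}
    (fun w => {x : ℤ | a ≤ |(x : ℝ)| ∧ |(x : ℝ)| < 2 * a ∧ (Q : ℤ) ∣ x - c ∧ G.wd k (i, x) = w})
    (fun w _ => (hfin c).subset (by rintro x ⟨h1, h2, h3, -⟩; exact ⟨h1, h2, h3⟩))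
    (by rintro x ⟨h1, h2, h3, h4⟩; exact ⟨_, h4, h1, h2, h3, rfl⟩)
  refine key.trans (sum_le_sum fun w hw => ?_)
  have hNv := G.Nv_posR (G.ct i w)
  by_cases hne : {x : ℤ | a ≤ |(x : ℝ)| ∧ |(x : ℝ)| < 2 * a ∧ (Q : ℤ) ∣ x - c ∧
      G.wd k (i, x) = w}.Nonempty
  · obtain ⟨x₀, -, -, hx3, hx4⟩ := hne
    have hR0 : 0 < G.Nv (G.ct i w) * Q := Nat.mul_pos (G.Nv_pos _) hQ
    obtain ⟨hf, hc⟩ := win_le ha.le (by linarith : a ≤ 2 * a) hR0 x₀
    have hsub : {x : ℤ | a ≤ |(x : ℝ)| ∧ |(x : ℝ)| < 2 * a ∧ (Q : ℤ) ∣ x - c ∧ G.wd k (i, x) = w}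
        ⊆ {x : ℤ | a ≤ |(x : ℝ)| ∧ |(x : ℝ)| < 2 * a ∧ ((G.Nv (G.ct i w) * Q : ℕ) : ℤ) ∣ x - x₀} := by
      rintro x ⟨h1, h2, h3, h4⟩
      refine ⟨h1, h2, ?_⟩
      have e1 : (G.Nv (G.ct i w) : ℤ) ∣ x - x₀ := by
        have := G.wd_cong (h4.trans hx4.symm)
        rwa [h4] at this
      have e2 : (Q : ℤ) ∣ x - x₀ := by
        have := dvd_sub h3 hx3
        have e : x - c - (x₀ - c) = x - x₀ := by ring
        rwa [e] at this
      push_cast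
      exact (hQN _).mul_dvd e1 e2
    have h5 : (({x : ℤ | a ≤ |(x : ℝ)| ∧ |(x : ℝ)| < 2 * a ∧ (Q : ℤ) ∣ x - c ∧
        G.wd k (i, x) = w}.ncard : ℕ) : ℝ) ≤
        ({x : ℤ | a ≤ |(x : ℝ)| ∧ |(x : ℝ)| < 2 * a ∧ ((G.Nv (G.ct i w) * Q : ℕ) : ℤ) ∣ x - x₀}.ncard : ℝ) := by
      exact_mod_cast Set.ncard_le_ncard hsub hf
    refine h5.trans (hc.trans ?_)
    have hle : (G.Nv (G.ct i w) : ℝ) * Q ≤ a :=
      (mul_le_mul_of_nonneg_right (hN _ (G.ct_mem (hBad hw))) hQr.le).trans hk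
    have h6 : (1 : ℝ) ≤ a / ((G.Nv (G.ct i w) : ℝ) * Q) := (one_le_div (by positivity)).2 hle
    have h7 : (((G.Nv (G.ct i w) * Q : ℕ)) : ℝ) = (G.Nv (G.ct i w) : ℝ) * Q := by push_cast; ring
    rw [h7]
    have h8 : (2 * a - a) / ((G.Nv (G.ct i w) : ℝ) * Q) = a / ((G.Nv (G.ct i w) : ℝ) * Q) := by ring
    have h9 : 4 * a / ((G.Nv (G.ct i w) : ℝ) * Q) = 4 * (a / ((G.Nv (G.ct i w) : ℝ) * Q)) := by ring
    rw [h8, h9]
    linarith
  · rw [Set.not_nonempty_iff_eq_empty] at hne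
    rw [hne, Set.ncard_empty]
    simp only [Nat.cast_zero]
    positivity

theorem part_eq (ρ a' Q N G : ℝ) (hQ : Q ≠ 0) :
    (ρ * (2 * a') / Q * G) * (Q / N) = ρ * G * (2 * (a' / N)) := by
  field_simp

/-- forward invariance of a family of sets -/
def FI (S : ι → Set ℤ) : Prop := ∀ i, ∀ x ∈ S i, (G.step (i, x)).2 ∈ S (G.step (i, x)).1

theorem FI.iter {G : GS ι} {S : ι → Set ℤ} (hS : G.FI S) (n : ℕ) : ∀ i, ∀ x ∈ S i, (G.step^[n] (i, x)).2 ∈ S (G.step^[n] (i, x)).1 := by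
  induction n with
  | zero => intro i x hx; simpa using hx
  | succ n ih =>
    intro i x hx
    rw [Function.iterate_succ_apply]
    exact ih _ _ (hS i x hx)

open scoped Classical in
/-- elements of `S i` in a class whose path is in a given group and whose `k`-th iterate lies in a window -/
theorem group_count {S : ι → Set ℤ} (hS : G.FI S) {a : ℝ} (ha : 0 < a)
    {k Q Q₀ : ℕ} (hQ : 0 < Q) (hQ₀ : 0 < Q₀) (hQQ : Q₀ ∣ Q) (hQN : ∀ v, IsCoprime (G.Nv v : ℤ) (Q : ℤ))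
    (c : ℤ) (i j : ι) (v : ι → ℕ) (hk : (G.Nv v : ℝ) * Q ≤ a) {r : ℝ}
    (hPB : Pool.Agent.H319R3.GC.PB (S j) (|(G.Mv v : ℝ)| * a / G.Nv v) Q₀ r) :
    ({x : ℤ | x ∈ S i ∧ (Q : ℤ) ∣ x - c ∧ G.wd k (i, x) ∈ G.gr k i j v ∧
        |(G.Mv v : ℝ)| * a / G.Nv v ≤ |(((G.step^[k] (i, x)).2 : ℤ) : ℝ)| ∧
        |(((G.step^[k] (i, x)).2 : ℤ) : ℝ)| < 2 * (|(G.Mv v : ℝ)| * a / G.Nv v)}.ncard : ℝ)
      ≤ r * (G.gr k i j v).card * (2 * a) / (G.Nv v * Q)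
        + 4 * a / (G.Nv v * Q) * tv (G.gr k i j v) (G.Ww i) Q₀ ((G.Mv v).natAbs * Q) := by
  have hdk : (0 : ℝ) < G.Nv v := G.Nv_posR v
  have hQR : (0 : ℝ) < Q := by exact_mod_cast hQ
  have hQ0R : (0 : ℝ) < Q₀ := by exact_mod_cast hQ₀
  set M : ℤ := G.Mv v with hMdef
  set K : ℤ := (G.Nv v : ℤ) with hK
  have hM0 : M ≠ 0 := G.Mv_ne v
  have hMR : (0 : ℝ) < |(M : ℝ)| := abs_pos.2 (by exact_mod_cast hM0)
  have hMnat : ((M.natAbs : ℕ) : ℝ) = |(M : ℝ)| := by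
    rw [Nat.cast_natAbs, Int.cast_abs]
  set N : ℕ := M.natAbs * Q with hN
  have hNpos : 0 < N := Nat.mul_pos (Int.natAbs_pos.2 hM0) hQ
  have hNR : (N : ℝ) = |(M : ℝ)| * Q := by rw [hN, Nat.cast_mul, hMnat]
  have hNR0 : (0 : ℝ) < N := by exact_mod_cast hNpos
  set a' : ℝ := |(M : ℝ)| * a / (G.Nv v : ℝ) with ha'
  have ha'0 : 0 < a' := by positivity
  have ha'N : a' / N = a / ((G.Nv v : ℝ) * Q) := by
    rw [ha', hNR]; field_simp
  have hone : 1 ≤ a' / N := by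
    rw [ha'N, le_div_iff₀ (by positivity), one_mul]; exact hk
  set g := G.gr k i j v with hg
  -- coprimality
  have hdkQ : IsCoprime K (Q : ℤ) := hQN v
  have hdkQ₀ : IsCoprime (-K) (Q₀ : ℤ) := by
    have : IsCoprime K (Q₀ : ℤ) := IsCoprime.of_isCoprime_of_dvd_right hdkQ (by exact_mod_cast hQQ)
    exact this.neg_left
  have hdkN : IsCoprime (-K) (N : ℤ) := by
    have h1 : IsCoprime K M := (G.Mv_cop_Nv v v).symm
    have h3 : IsCoprime K (M * Q) := h1.mul_right hdkQ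
    have h4 : IsCoprime K (N : ℤ) := by
      refine IsCoprime.of_isCoprime_of_dvd_right h3 ?_
      rw [hN, Nat.cast_mul]
      exact mul_dvd_mul (Int.natAbs_dvd.2 dvd_rfl) dvd_rfl
    exact h4.neg_left
  have hQ0N : Q₀ ∣ N := dvd_mul_of_dvd_right hQQ _
  -- the finite set of endpoints
  have hfinW : {x : ℤ | a' ≤ |(x : ℝ)| ∧ |(x : ℝ)| < 2 * a' ∧ ((1 : ℕ) : ℤ) ∣ x - 0}.Finite :=
    (win_le ha'0.le (by linarith) (Q := 1) (by norm_num) 0).1
  have hfinZ : {z : ℤ | z ∈ S j ∧ a' ≤ |(z : ℝ)| ∧ |(z : ℝ)| < 2 * a'}.Finite := by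
    apply hfinW.subset
    rintro z ⟨_, h1, h2⟩
    exact ⟨h1, h2, by simp⟩
  set Z : Finset ℤ := hfinZ.toFinset with hZ
  have hZmem : ∀ z, z ∈ Z ↔ z ∈ S j ∧ a' ≤ |(z : ℝ)| ∧ |(z : ℝ)| < 2 * a' := by
    intro z; rw [hZ, Set.Finite.mem_toFinset]; rfl
  -- step 1: the count is at most the sum of the counts of offsets
  have step1 : ({x : ℤ | x ∈ S i ∧ (Q : ℤ) ∣ x - c ∧ G.wd k (i, x) ∈ g ∧
        a' ≤ |(((G.step^[k] (i, x)).2 : ℤ) : ℝ)| ∧
        |(((G.step^[k] (i, x)).2 : ℤ) : ℝ)| < 2 * a'}.ncard : ℝ)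
      ≤ ∑ z ∈ Z, cnt g (G.Ww i) N (M * c - K * z) := by
    set U : Finset (ℤ × List ℕ) := (Z ×ˢ g).filter fun p =>
      (N : ℤ) ∣ G.Ww i p.2 - (M * c - K * p.1) with hU
    have hcard : (U.card : ℝ) = ∑ z ∈ Z, cnt g (G.Ww i) N (M * c - K * z) := by
      have : U.card = ∑ z ∈ Z, (g.filter fun w =>
          (N : ℤ) ∣ G.Ww i w - (M * c - K * z)).card := by
        rw [hU, Finset.card_filter, Finset.sum_product]
        apply Finset.sum_congr rfl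
        intro z _
        rw [Finset.card_filter]
      rw [this, Nat.cast_sum]
      rfl
    rw [← hcard]
    have hle : {x : ℤ | x ∈ S i ∧ (Q : ℤ) ∣ x - c ∧ G.wd k (i, x) ∈ g ∧
        a' ≤ |(((G.step^[k] (i, x)).2 : ℤ) : ℝ)| ∧
        |(((G.step^[k] (i, x)).2 : ℤ) : ℝ)| < 2 * a'}.ncard ≤ (U : Set (ℤ × List ℕ)).ncard := by
      apply Set.ncard_le_ncard_of_injOn (fun x => ((G.step^[k] (i, x)).2, G.wd k (i, x)))
      · rintro x ⟨hxS, hxQ, hxg, hx1, hx2⟩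
        obtain ⟨-, hen, hct⟩ := G.mem_gr.1 hxg
        rw [Finset.mem_coe, hU, Finset.mem_filter, Finset.mem_product]
        have hxj : (G.step^[k] (i, x)).2 ∈ S j := by
          have h1 := hS.iter k i x hxS
          rwa [G.en_wd k i x, hen] at h1
        refine ⟨⟨(hZmem _).2 ⟨hxj, hx1, hx2⟩, hxg⟩, ?_⟩
        have hit := G.iter_eq k i x
        rw [hct] at hit
        have : G.Ww i (G.wd k (i, x)) - (M * c - K * (G.step^[k] (i, x)).2) = M * (x - c) := by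
          rw [hK, hMdef]; linarith
        show (N : ℤ) ∣ G.Ww i (G.wd k (i, x)) - (M * c - K * (G.step^[k] (i, x)).2)
        rw [this, hN, Nat.cast_mul]
        exact mul_dvd_mul (Int.natAbs_dvd.2 dvd_rfl) hxQ
      · rintro x ⟨_, _, hxg, _, _⟩ y ⟨_, _, hyg, _, _⟩ hxy
        have h1 : (G.step^[k] (i, x)).2 = (G.step^[k] (i, y)).2 := congrArg Prod.fst hxy
        have h2 : G.wd k (i, x) = G.wd k (i, y) := congrArg Prod.snd hxy
        have hx := G.iter_eq k i x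
        have hy := G.iter_eq k i y
        obtain ⟨-, -, hct⟩ := G.mem_gr.1 hyg
        rw [h2, hct] at hx
        rw [hct] at hy
        rw [h1] at hx
        have : M * x = M * y := by rw [hMdef]; linarith
        exact mul_left_cancel₀ hM0 this
    rw [Set.ncard_coe_finset] at hle
    exact_mod_cast hle
  -- the deviations
  set dev : ℤ → ℝ := fun e => |cnt g (G.Ww i) N e - cnt g (G.Ww i) Q₀ e * Q₀ / N| with hdev
  have step2 : ∀ z : ℤ, cnt g (G.Ww i) N (M * c - K * z)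
      ≤ cnt g (G.Ww i) Q₀ (M * c - K * z) * (Q₀ / N) + dev (M * c - K * z) := by
    intro z
    have := le_abs_self (cnt g (G.Ww i) N (M * c - K * z)
      - cnt g (G.Ww i) Q₀ (M * c - K * z) * Q₀ / N)
    simp only [hdev]
    rw [mul_div_assoc] at this
    rw [mul_div_assoc]
    linarith
  -- part 1
  have hper0 : ∀ x : ℤ, cnt g (G.Ww i) Q₀ (x + Q₀) = cnt g (G.Ww i) Q₀ x := by
    intro x; exact cnt_congr g _ (by simp)
  have part1 : ∑ z ∈ Z, cnt g (G.Ww i) Q₀ (M * c - K * z)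
      ≤ r * (2 * a') / Q₀ * g.card := by
    have hs := s2_sum_classes Z hQ₀ (F := fun z => cnt g (G.Ww i) Q₀ (M * c - K * z))
      (K := r * (2 * a') / Q₀) ?_ ?_ ?_
    · refine hs.trans (le_of_eq ?_)
      congr 1
      have := sum_affine hQ₀ hper0 hdkQ₀ (M * c)
      rw [← sum_cnt g (G.Ww i) hQ₀, ← this]
      apply Finset.sum_congr rfl
      intro e _
      congr 1
      ring
    · intro x
      show cnt g (G.Ww i) Q₀ (M * c - K * (x + Q₀)) = _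
      exact cnt_congr g _ ⟨-K, by ring⟩
    · intro x; exact cnt_nonneg _ _ _ _
    · intro e
      have hb := hPB e
      unfold wc at hb
      refine le_trans (le_of_eq ?_) hb
      have : ((Z.filter fun z => (Q₀ : ℤ) ∣ z - e : Finset ℤ) : Set ℤ)
          = {x : ℤ | x ∈ S j ∧ a' ≤ |(x : ℝ)| ∧ |(x : ℝ)| < 2 * a' ∧ (Q₀ : ℤ) ∣ x - e} := by
        ext z
        rw [Finset.mem_coe, Finset.mem_filter, hZmem]
        simp only [Set.mem_ofPred_eq]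
        tauto
      rw [← this, Set.ncard_coe_finset]
  -- part 2
  have hperN : ∀ x : ℤ, dev (x + N) = dev x := by
    intro x
    simp only [hdev]
    rw [cnt_congr g (G.Ww i) (D := N) (c := x + N) (c' := x) (by simp),
      cnt_congr g (G.Ww i) (D := Q₀) (c := x + N) (c' := x)
        (by simpa using (Int.natCast_dvd_natCast.2 hQ0N))]
  have part2 : ∑ z ∈ Z, dev (M * c - K * z)
      ≤ 4 * a / ((G.Nv v : ℝ) * Q) * tv g (G.Ww i) Q₀ N := by
    have hs := s2_sum_classes Z hNpos (F := fun z => dev (M * c - K * z))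
      (K := 4 * a / ((G.Nv v : ℝ) * Q)) ?_ ?_ ?_
    · refine hs.trans (le_of_eq ?_)
      congr 1
      have := sum_affine hNpos hperN hdkN (M * c)
      rw [tv]
      rw [show (∑ c ∈ range N, |cnt g (G.Ww i) N (c : ℤ) - cnt g (G.Ww i) Q₀ (c : ℤ) * Q₀ / N|)
        = ∑ c ∈ range N, dev (c : ℤ) from rfl, ← this]
      apply Finset.sum_congr rfl
      intro e _
      congr 1
      ring
    · intro x
      show dev (M * c - K * (x + N)) = _
      exact s2_per_congr hperN ⟨-K, by ring⟩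
    · intro x; exact abs_nonneg _
    · intro e
      have hb := (win_le ha'0.le (by linarith : a' ≤ 2 * a') hNpos e)
      have h1 : (((Z.filter fun z => (N : ℤ) ∣ z - e : Finset ℤ).card : ℕ) : ℝ)
          ≤ ({x : ℤ | a' ≤ |(x : ℝ)| ∧ |(x : ℝ)| < 2 * a' ∧ (N : ℤ) ∣ x - e}.ncard : ℝ) := by
        have : ((Z.filter fun z => (N : ℤ) ∣ z - e : Finset ℤ) : Set ℤ)
            ⊆ {x : ℤ | a' ≤ |(x : ℝ)| ∧ |(x : ℝ)| < 2 * a' ∧ (N : ℤ) ∣ x - e} := by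
          intro z hz
          rw [Finset.mem_coe, Finset.mem_filter, hZmem] at hz
          exact ⟨hz.1.2.1, hz.1.2.2, hz.2⟩
        have h2 := Set.ncard_le_ncard this hb.1
        rw [Set.ncard_coe_finset] at h2
        exact_mod_cast h2
      refine h1.trans (hb.2.trans ?_)
      have : (2 * a' - a') / N = a' / N := by ring
      rw [this]
      have h3 : 4 * a / ((G.Nv v : ℝ) * Q) = 4 * (a' / N) := by rw [ha'N]; ring
      rw [h3]
      linarith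
  -- conclusion
  calc _ ≤ ∑ z ∈ Z, cnt g (G.Ww i) N (M * c - K * z) := step1
    _ ≤ ∑ z ∈ Z, (cnt g (G.Ww i) Q₀ (M * c - K * z) * (Q₀ / N)
        + dev (M * c - K * z)) := Finset.sum_le_sum fun z _ => step2 z
    _ = (∑ z ∈ Z, cnt g (G.Ww i) Q₀ (M * c - K * z)) * (Q₀ / N)
        + ∑ z ∈ Z, dev (M * c - K * z) := by
        rw [Finset.sum_add_distrib, Finset.sum_mul]
    _ ≤ (r * (2 * a') / Q₀ * g.card) * (Q₀ / N)
        + 4 * a / ((G.Nv v : ℝ) * Q) * tv g (G.Ww i) Q₀ N := by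
        apply add_le_add _ part2
        exact mul_le_mul_of_nonneg_right part1 (by positivity)
    _ = r * g.card * (2 * a) / ((G.Nv v : ℝ) * Q)
        + 4 * a / ((G.Nv v : ℝ) * Q) * tv g (G.Ww i) Q₀ N := by
        congr 1
        rw [part_eq r a' (Q₀ : ℝ) (N : ℝ) (g.card : ℝ) hQ0R.ne', ha'N]
        ring

/-- the multiplier of a path has absolute value at least one -/
theorem iterR (k : ℕ) (i : ι) (x : ℤ) : (G.Nv (G.ct i (G.wd k (i, x))) : ℝ) * (((G.step^[k] (i, x)).2 : ℤ) : ℝ) =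
    (G.Mv (G.ct i (G.wd k (i, x))) : ℝ) * x - (G.Ww i (G.wd k (i, x)) : ℝ) := by
  exact_mod_cast G.iter_eq k i x

/-- finiteness of the preimage of a bounded set -/
theorem fin (k : ℕ) (i : ι) (b : ℝ) : {x : ℤ | |(((G.step^[k] (i, x)).2 : ℤ) : ℝ)| < b}.Finite := by
  set K : ℝ := ∑ w ∈ G.Pth k i, ((G.Nv (G.ct i w) : ℝ) * |b| + |(G.Ww i w : ℝ)|) with hK
  have hsub : {x : ℤ | |(((G.step^[k] (i, x)).2 : ℤ) : ℝ)| < b} ⊆ (Set.Icc (-⌈K⌉) ⌈K⌉) := by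
    intro x hx
    have hx' : |(((G.step^[k] (i, x)).2 : ℤ) : ℝ)| < b := hx
    have hit := G.iterR k i x
    set w := G.wd k (i, x) with hw
    have hmem : w ∈ G.Pth k i := G.wd_mem k i x
    have hM1 := G.abs_Mv_ge (G.ct i w)
    have hMx : (G.Mv (G.ct i w) : ℝ) * x
        = (G.Nv (G.ct i w) : ℝ) * (((G.step^[k] (i, x)).2 : ℤ) : ℝ) + (G.Ww i w : ℝ) := by
      rw [hit]; ring
    have hNv := G.Nv_posR (G.ct i w)
    have h1 : |(G.Mv (G.ct i w) : ℝ) * x| ≤ K := by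
      rw [hMx, hK]
      refine le_trans ?_ (Finset.single_le_sum (f := fun w => (G.Nv (G.ct i w) : ℝ) * |b| + |(G.Ww i w : ℝ)|)
          (fun w _ => add_nonneg (mul_nonneg (G.Nv_posR _).le (abs_nonneg _)) (abs_nonneg _)) hmem)
      refine (abs_add_le _ _).trans (add_le_add ?_ le_rfl)
      rw [abs_mul, abs_of_pos hNv]
      exact mul_le_mul_of_nonneg_left (hx'.le.trans (le_abs_self b)) hNv.le
    rw [abs_mul] at h1
    have h2 : |(x : ℝ)| ≤ K := by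
      have := mul_le_mul_of_nonneg_right hM1 (abs_nonneg (x : ℝ))
      linarith
    have h3 : |(x : ℝ)| ≤ (⌈K⌉ : ℝ) := h2.trans (Int.le_ceil K)
    have h4 : |x| ≤ ⌈K⌉ := by
      have : ((|x| : ℤ) : ℝ) ≤ (⌈K⌉ : ℝ) := by rw [Int.cast_abs]; exact h3
      exact_mod_cast this
    exact ⟨by linarith [(abs_le.1 h4).1], (abs_le.1 h4).2⟩
  exact (Set.finite_Icc _ _).subset hsub

open scoped Classical in
/-- the counting part of the one stage inequality -/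
theorem count {S : ι → Set ℤ} (hS : G.FI S) {a : ℝ} (ha : 0 < a)
    {k Q Q₀ : ℕ} (hQ : 0 < Q) (hQ₀ : 0 < Q₀) (hQQ : Q₀ ∣ Q) (hQN : ∀ v, IsCoprime (G.Nv v : ℤ) (Q : ℤ))
    {NN : ℝ} (hN : ∀ v ∈ Vs ι k, (G.Nv v : ℝ) ≤ NN) (hk : NN * Q ≤ a) (c : ℤ) (i : ι) {r : ℝ} (hr : 0 ≤ r)
    (Bad : Finset (List ℕ)) (hBad : Bad ⊆ G.Pth k i) {V : ℝ} (hV0 : 0 ≤ V) (hVa : NN * V ≤ a)
    (hV : ∀ w ∈ G.Pth k i, w ∉ Bad → |(G.Ww i w : ℝ)| ≤ G.Nv (G.ct i w) * V)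
    (T : (ι → ℕ) → Prop) [DecidablePred T] (hT : ∀ w ∈ G.Pth k i, w ∉ Bad → T (G.ct i w))
    (hPB : ∀ j, ∀ v ∈ (Vs ι k).filter T, Pool.Agent.H319R3.GC.PB (S j) (|(G.Mv v : ℝ)| * a / G.Nv v) Q₀ r) :
    wc (S i) a Q c ≤ ∑ w ∈ Bad, 4 * a / (G.Nv (G.ct i w) * Q) + 4 * (NN * V / Q + 1)
      + r * (2 * a) / Q
      + 4 * a / Q * ∑ j, ∑ v ∈ (Vs ι k).filter T,
          tv (G.gr k i j v) (G.Ww i) Q₀ ((G.Mv v).natAbs * Q) / G.Nv v := by
  have hQR : (0 : ℝ) < Q := by exact_mod_cast hQ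
  set F : Finset (ι × (ι → ℕ)) := univ ×ˢ ((Vs ι k).filter T) with hF
  have hNN0 : 0 ≤ NN := by
    have h1 := hN (G.ct i (G.wd k (i, 0))) (G.ct_mem (G.wd_mem k i 0))
    exact (G.Nv_posR _).le.trans h1
  set E : ℝ := NN * V with hE
  have hE0 : 0 ≤ E := by positivity
  set A1 : Set ℤ := {x : ℤ | a ≤ |(x : ℝ)| ∧ |(x : ℝ)| < 2 * a ∧ (Q : ℤ) ∣ x - c ∧
    G.wd k (i, x) ∈ Bad} with hA1
  set A2 : Set ℤ := {x : ℤ | a ≤ |(x : ℝ)| ∧ |(x : ℝ)| < a + E ∧ (Q : ℤ) ∣ x - c} with hA2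
  set A3 : Set ℤ := {x : ℤ | 2 * a - E ≤ |(x : ℝ)| ∧ |(x : ℝ)| < 2 * a ∧ (Q : ℤ) ∣ x - c} with hA3
  set H : ι × (ι → ℕ) → Set ℤ := fun p => {x : ℤ | x ∈ S i ∧ (Q : ℤ) ∣ x - c ∧ G.wd k (i, x) ∈ G.gr k i p.1 p.2 ∧
        |(G.Mv p.2 : ℝ)| * a / G.Nv p.2 ≤ |(((G.step^[k] (i, x)).2 : ℤ) : ℝ)| ∧
        |(((G.step^[k] (i, x)).2 : ℤ) : ℝ)| < 2 * (|(G.Mv p.2 : ℝ)| * a / G.Nv p.2)} with hH
  have hsub : {x : ℤ | x ∈ S i ∧ a ≤ |(x : ℝ)| ∧ |(x : ℝ)| < 2 * a ∧ (Q : ℤ) ∣ x - c}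
      ⊆ ((A1 ∪ A2) ∪ A3) ∪ ⋃ p ∈ F, H p := by
    rintro x ⟨hxS, hx1, hx2, hxQ⟩
    by_cases hbad : G.wd k (i, x) ∈ Bad
    · exact Or.inl (Or.inl (Or.inl ⟨hx1, hx2, hxQ, hbad⟩))
    have hmem := G.wd_mem k i x
    have hitR := G.iterR k i x
    have hW := hV _ hmem hbad
    have hTx := hT _ hmem hbad
    have hvs := G.ct_mem hmem
    have hNx := hN _ hvs
    have hM1 := G.abs_Mv_ge (G.ct i (G.wd k (i, x)))
    have hdk := G.Nv_posR (G.ct i (G.wd k (i, x)))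
    have hgr : G.wd k (i, x) ∈ G.gr k i (G.en i (G.wd k (i, x))) (G.ct i (G.wd k (i, x))) :=
      G.mem_gr.2 ⟨G.mem_Pth.1 hmem, rfl, rfl⟩
    set v := G.ct i (G.wd k (i, x)) with hv
    set Mx : ℝ := (G.Mv v : ℝ) with hMx
    set Nx : ℝ := (G.Nv v : ℝ) with hNxd
    set z : ℝ := (((G.step^[k] (i, x)).2 : ℤ) : ℝ) with hz
    set Wx : ℝ := (G.Ww i (G.wd k (i, x)) : ℝ) with hWx
    have hWE : |Wx| ≤ E := by
      refine hW.trans ?_
      rw [hE]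
      exact mul_le_mul_of_nonneg_right hNx hV0
    have habs1 : |Mx| * |(x : ℝ)| ≤ Nx * |z| + E := by
      have : Mx * x = Nx * z + Wx := by rw [hitR]; ring
      calc |Mx| * |(x : ℝ)| = |Mx * x| := (abs_mul _ _).symm
        _ = |Nx * z + Wx| := by rw [this]
        _ ≤ |Nx * z| + |Wx| := abs_add_le _ _
        _ ≤ Nx * |z| + E := by
          rw [abs_mul, abs_of_pos hdk]
          linarith
    have habs2 : Nx * |z| ≤ |Mx| * |(x : ℝ)| + E := by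
      calc Nx * |z| = |Nx * z| := by rw [abs_mul, abs_of_pos hdk]
        _ = |Mx * x - Wx| := by rw [hitR]
        _ ≤ |Mx * x| + |Wx| := abs_sub _ _
        _ ≤ |Mx| * |(x : ℝ)| + E := by
          rw [abs_mul]
          linarith
    by_cases hz1 : |Mx| * a / Nx ≤ |z|
    · by_cases hz2 : |z| < 2 * (|Mx| * a / Nx)
      · refine Or.inr ?_
        rw [Set.mem_iUnion₂]
        refine ⟨(G.en i (G.wd k (i, x)), v), ?_, hxS, hxQ, hgr, hz1, hz2⟩
        rw [hF, Finset.mem_product, Finset.mem_filter]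
        exact ⟨mem_univ _, hvs, hTx⟩
      · -- `|z| ≥ 2 a'`
        refine Or.inl (Or.inr ⟨?_, hx2, hxQ⟩)
        rw [not_lt] at hz2
        have h1 : 2 * (|Mx| * a) ≤ Nx * |z| := by
          have := mul_le_mul_of_nonneg_left hz2 hdk.le
          have e : Nx * (2 * (|Mx| * a / Nx)) = 2 * (|Mx| * a) := by
            field_simp
          rwa [e] at this
        have h2 : |Mx| * (2 * a - |(x : ℝ)|) ≤ E := by nlinarith
        have h3 : 1 * (2 * a - |(x : ℝ)|) ≤ |Mx| * (2 * a - |(x : ℝ)|) :=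
          mul_le_mul_of_nonneg_right hM1 (by linarith)
        linarith
    · -- `|z| < a'`
      refine Or.inl (Or.inl (Or.inr ⟨hx1, ?_, hxQ⟩))
      rw [not_le] at hz1
      have h1 : Nx * |z| < |Mx| * a := by
        have := mul_lt_mul_of_pos_left hz1 hdk
        have e : Nx * (|Mx| * a / Nx) = |Mx| * a := by
          field_simp
        rwa [e] at this
      have h2 : |Mx| * (|(x : ℝ)| - a) < E := by nlinarith
      have h3 : 1 * (|(x : ℝ)| - a) ≤ |Mx| * (|(x : ℝ)| - a) :=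
        mul_le_mul_of_nonneg_right hM1 (by linarith)
      linarith
  -- finiteness
  have hw1 := win_le ha.le (by linarith : a ≤ 2 * a) hQ c
  have hw2 := win_le ha.le (by linarith : a ≤ a + E) hQ c
  have hw3 := win_le (a := 2 * a - E) (b := 2 * a) (by linarith) (by linarith) hQ c
  have hfin1 : A1.Finite := hw1.1.subset (by
    rintro x ⟨h1, h2, h3, _⟩; exact ⟨h1, h2, h3⟩)
  have hfinG : ∀ p, (H p).Finite := by
    intro p
    apply (G.fin k i (2 * (|(G.Mv p.2 : ℝ)| * a / G.Nv p.2))).subset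
    rintro x ⟨_, _, _, _, h2⟩
    exact h2
  have hfinU : (((A1 ∪ A2) ∪ A3) ∪ ⋃ p ∈ F, H p).Finite := by
    refine ((hfin1.union hw2.1).union hw3.1).union ?_
    exact Set.Finite.biUnion F.finite_toSet fun M _ => hfinG M
  have hcard : ({x : ℤ | x ∈ S i ∧ a ≤ |(x : ℝ)| ∧ |(x : ℝ)| < 2 * a ∧ (Q : ℤ) ∣ x - c}.ncard : ℕ)
      ≤ A1.ncard + A2.ncard + A3.ncard + ∑ p ∈ F, (H p).ncard := by
    refine (Set.ncard_le_ncard hsub hfinU).trans ?_
    refine (Set.ncard_union_le _ _).trans ?_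
    refine add_le_add ?_ (Finset.set_ncard_biUnion_le F H)
    refine (Set.ncard_union_le _ _).trans ?_
    exact add_le_add (Set.ncard_union_le _ _) le_rfl
  have hcardR : wc (S i) a Q c ≤ (A1.ncard : ℝ) + A2.ncard + A3.ncard + ∑ p ∈ F, ((H p).ncard : ℝ) := by
    unfold wc
    exact_mod_cast hcard
  have b1 : (A1.ncard : ℝ) ≤ ∑ w ∈ Bad, 4 * a / (G.Nv (G.ct i w) * Q) :=
    G.bad_words i ha hQ hQN hN hk c Bad hBad
  have b2 : (A2.ncard : ℝ) ≤ 2 * (E / Q + 1) := by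
    have := hw2.2
    have e : a + E - a = E := by ring
    rwa [e] at this
  have b3 : (A3.ncard : ℝ) ≤ 2 * (E / Q + 1) := by
    have := hw3.2
    have e : 2 * a - (2 * a - E) = E := by ring
    rwa [e] at this
  have b4 : ∑ p ∈ F, ((H p).ncard : ℝ) ≤ r * (2 * a) / Q + 4 * a / Q * ∑ j, ∑ v ∈ (Vs ι k).filter T,
          tv (G.gr k i j v) (G.Ww i) Q₀ ((G.Mv v).natAbs * Q) / G.Nv v := by
    have hterm : ∀ j, ∀ v ∈ (Vs ι k).filter T, ((H (j, v)).ncard : ℝ) ≤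
        r * (2 * a) / Q * (((G.gr k i j v).card : ℝ) / G.Nv v) +
        4 * a / Q * (tv (G.gr k i j v) (G.Ww i) Q₀ ((G.Mv v).natAbs * Q) / G.Nv v) := by
      intro j v hv
      have hNv := G.Nv_posR v
      have h1 := G.group_count hS ha hQ hQ₀ hQQ hQN c i j v (k := k)
        ((mul_le_mul_of_nonneg_right (hN v (mem_filter.1 hv).1) hQR.le).trans hk) (hPB j v hv)
      refine h1.trans (le_of_eq ?_)
      field_simp
    rw [hF, sum_product]
    calc ∑ j, ∑ v ∈ (Vs ι k).filter T, ((H (j, v)).ncard : ℝ)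
        ≤ ∑ j, ∑ v ∈ (Vs ι k).filter T, (r * (2 * a) / Q * (((G.gr k i j v).card : ℝ) / G.Nv v) +
            4 * a / Q * (tv (G.gr k i j v) (G.Ww i) Q₀ ((G.Mv v).natAbs * Q) / G.Nv v)) :=
          sum_le_sum fun j _ => sum_le_sum fun v hv => hterm j v hv
      _ = r * (2 * a) / Q * (∑ j, ∑ v ∈ (Vs ι k).filter T, ((G.gr k i j v).card : ℝ) / G.Nv v) +
            4 * a / Q * ∑ j, ∑ v ∈ (Vs ι k).filter T,
          tv (G.gr k i j v) (G.Ww i) Q₀ ((G.Mv v).natAbs * Q) / G.Nv v := by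
          rw [mul_sum, mul_sum, ← sum_add_distrib]
          refine sum_congr rfl fun j _ => ?_
          rw [mul_sum, mul_sum, ← sum_add_distrib]
      _ ≤ r * (2 * a) / Q * 1 + 4 * a / Q * ∑ j, ∑ v ∈ (Vs ι k).filter T,
          tv (G.gr k i j v) (G.Ww i) Q₀ ((G.Mv v).natAbs * Q) / G.Nv v := by
          apply add_le_add _ le_rfl
          apply mul_le_mul_of_nonneg_left _ (by positivity)
          calc ∑ j, ∑ v ∈ (Vs ι k).filter T, ((G.gr k i j v).card : ℝ) / G.Nv v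
              ≤ ∑ j, ∑ v ∈ Vs ι k, ((G.gr k i j v).card : ℝ) / G.Nv v :=
                sum_le_sum fun j _ => sum_le_sum_of_subset_of_nonneg (filter_subset _ _)
                  fun v _ _ => div_nonneg (Nat.cast_nonneg _) (G.Nv_posR v).le
            _ = ∑ j, ∑ v ∈ Vs ι k, ∑ w ∈ G.gr k i j v, (1 : ℝ) / G.Nv (G.ct i w) := by
                refine sum_congr rfl fun j _ => sum_congr rfl fun v _ => ?_
                rw [sum_congr rfl fun w hw => by rw [(G.mem_gr.1 hw).2.2]]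
                rw [sum_const, nsmul_eq_mul]
                ring
            _ = G.Ex k i (fun _ => 1) := by rw [G.sum_gr k i (fun w => (1 : ℝ) / G.Nv (G.ct i w))]; rfl
            _ = 1 := G.Ex_const k i 1
      _ = _ := by rw [mul_one]
  linarith

end GS

end Pool.Agent.Zk39.GD
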