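import Mathlib
import Pool.Agent.Zk39.GD.Count

/-!
# The one stage inequality (after `Pool.Agent.H319R3.GC.S3`)
-/

set_option autoImplicit false
set_option linter.unusedSectionVars false

namespace Pool.Agent.Zk39.GD

open Finset Pool.Agent.H319R3.GC

theorem params {Lg δ mm K0 t ν : ℝ} (hLg : 0 < Lg) (hδ : 0 < δ) (hK0 : 0 < K0) (hmm : 0 ≤ mm)
    (ht : 4 * Lg * (K0 + 1) + 32 / Lg + 64 ≤ t) (hν0 : 0 < ν) (hν : ν ≤ δ / (4 * Lg)) (hν' : ν ≤ 1 / (4 * (mm + 1)))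
    {k : ℕ} (hk : k = ⌊t / (2 * Lg)⌋₊) :
    K0 ≤ k ∧ 1 ≤ k ∧ ν * Lg * k ≤ ν * (t / 2) ∧ ν * t ≤ δ * k ∧ mm * (ν * t) ≤ t / 4 ∧ k * Lg ≤ t / 2 ∧
      t / (4 * Lg) ≤ k ∧ √(k : ℝ) ≤ t / 8 ∧ √t ≤ t / 8 := by
  have p1 : 0 < 4 * Lg * (K0 + 1) := by positivity
  have p2 : 0 < 32 / Lg := by positivity
  have ht64 : 64 ≤ t := by linarith
  have ht0 : 0 < t := by linarith
  have ht1 : 4 * Lg * (K0 + 1) ≤ t := by linarith
  have ht2 : 32 / Lg ≤ t := by linarith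
  have hkle : (k : ℝ) ≤ t / (2 * Lg) := by rw [hk]; exact Nat.floor_le (by positivity)
  have hkge : t / (2 * Lg) < (k : ℝ) + 1 := by rw [hk]; exact Nat.lt_floor_add_one _
  have hK : K0 + 1 ≤ t / (4 * Lg) := by
    rw [le_div_iff₀ (by positivity)]
    linarith
  have hhalf : t / (2 * Lg) = t / (4 * Lg) + t / (4 * Lg) := by field_simp; ring
  have hk4 : t / (4 * Lg) ≤ k := by linarith
  have hk1 : (1 : ℝ) ≤ k := by linarith
  have hkL : (k : ℝ) * Lg ≤ t / 2 := by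
    have h1 := mul_le_mul_of_nonneg_right hkle hLg.le
    have e : t / (2 * Lg) * Lg = t / 2 := by field_simp
    rwa [e] at h1
  refine ⟨by linarith, by exact_mod_cast hk1, ?_, ?_, ?_, hkL, hk4, ?_, ?_⟩
  · rw [mul_assoc]
    apply mul_le_mul_of_nonneg_left _ hν0.le
    linarith
  · have h1 : ν * t ≤ δ / (4 * Lg) * t := mul_le_mul_of_nonneg_right hν ht0.le
    have h2 : δ / (4 * Lg) * t = δ * (t / (4 * Lg)) := by ring
    rw [h2] at h1
    exact h1.trans (mul_le_mul_of_nonneg_left hk4 hδ.le)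
  · have h1 : mm * ν ≤ 1 / 4 := by
      rw [le_div_iff₀ (by positivity)] at hν'
      nlinarith
    nlinarith
  · rw [Real.sqrt_le_iff]
    refine ⟨by positivity, hkle.trans ?_⟩
    rw [div_le_iff₀ (by positivity)]
    rw [div_le_iff₀ hLg] at ht2
    nlinarith
  · rw [Real.sqrt_le_iff]
    refine ⟨by positivity, ?_⟩
    nlinarith

namespace GS

variable {ι : Type} [Fintype ι] [DecidableEq ι] (G : GS ι) {ρ : ι → ℝ}

theorem log_md_fl_le (h : G.Irr ρ) {x : ℝ} (hx : 0 ≤ x) : Real.log (G.md (fl ρ x)) ≤ G.mm ρ * x := by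
  rw [log_md]
  unfold SS mm fl
  rw [sum_mul]
  refine sum_le_sum fun j _ => ?_
  have h1 := Real.log_nonneg (G.b_abs_ge j)
  have h2 := Nat.floor_le (mul_nonneg (h.pos j).le hx)
  nlinarith

theorem hh_le (h : G.Irr ρ) : G.hh ρ ≤ G.Lg := by
  unfold hh Lg
  refine sum_le_sum fun j _ => ?_
  have h1 := Real.log_nonneg (G.n_ge j)
  have h2 := G.rho_le_one h j
  nlinarith

theorem typical_log {η k : ℝ} (v : ι → ℕ) (hv : ∀ l, |(v l : ℝ) - ρ l * k| ≤ η * k) :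
    Real.log |(G.Mv v : ℝ)| - Real.log (G.Nv v) ≤ -(G.hh ρ - G.mm ρ) * k + η * k * (G.Lb + G.Lg) := by
  rw [log_Mv, log_Nv]
  have h1 : SS (fun j => Real.log |(G.b j : ℝ)|) v ≤ G.mm ρ * k + η * k * G.Lb := by
    unfold SS mm Lb
    rw [sum_mul, mul_sum, ← sum_add_distrib]
    refine sum_le_sum fun j _ => ?_
    have h2 := Real.log_nonneg (G.b_abs_ge j)
    have h3 := (abs_le.1 (hv j)).2
    nlinarith
  have h2 : G.hh ρ * k - η * k * G.Lg ≤ SS (fun j => Real.log (G.n j)) v := by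
    unfold SS hh Lg
    rw [sum_mul, mul_sum, ← sum_sub_distrib]
    refine sum_le_sum fun j _ => ?_
    have h2 := Real.log_nonneg (G.n_ge j)
    have h3 := (abs_le.1 (hv j)).1
    nlinarith
  linarith

open scoped Classical in
/-- the one stage inequality -/
theorem stage (h : G.Irr ρ) (hd : G.mm ρ < G.hh ρ) (B : ℕ) : ∃ lo hi ν₀ : ℝ, 0 < lo ∧ lo ≤ hi ∧ hi < 1 ∧ 0 < ν₀ ∧
    ∀ ν : ℝ, 0 < ν → ν ≤ ν₀ → ∃ L₀ C : ℝ, 1 ≤ L₀ ∧ 0 < C ∧
    ∀ S : ι → Set ℤ, G.FI S → ∀ a r : ℝ, 0 < a → L₀ ≤ Real.log a → 0 ≤ r →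
      (∀ a' : ℝ, 0 < a' → lo * Real.log a ≤ Real.log a' → Real.log a' ≤ hi * Real.log a →
        ∀ i, Pool.Agent.H319R3.GC.PB (S i) a' (G.md (fl ρ (ν * Real.log a'))) r) →
      ∀ i, Pool.Agent.H319R3.GC.PB (S i) a (G.md (fl ρ (ν * Real.log a))) (r + C / (Real.log a) ^ B) := by
  have hmm := G.mm_nonneg h
  have hhh := G.hh_le h
  have hLg : 0 < G.Lg := by linarith
  have hLb := G.Lb_nonneg
  set μ : ℝ := G.hh ρ - G.mm ρ with hμ
  have hμ0 : 0 < μ := by linarith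
  obtain ⟨δ, η, hδ0, hδ1, hη0, htv⟩ := G.tv_groups h hd B
  set η₁ : ℝ := min η (μ / (2 * (G.Lb + G.Lg))) with hη₁
  have hη₁0 : 0 < η₁ := lt_min hη0 (by positivity)
  have hη₁1 : η₁ * (G.Lb + G.Lg) ≤ μ / 2 := by
    have h1 : η₁ ≤ μ / (2 * (G.Lb + G.Lg)) := min_le_right _ _
    have h2 := mul_le_mul_of_nonneg_right h1 (show 0 ≤ G.Lb + G.Lg by positivity)
    have e : μ / (2 * (G.Lb + G.Lg)) * (G.Lb + G.Lg) = μ / 2 := by field_simp
    rwa [e] at h2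
  set hi : ℝ := 1 - μ / (8 * G.Lg) with hhi
  have hhi2 : 1 / 2 ≤ hi := by
    have : μ / (8 * G.Lg) ≤ 1 / 8 := by
      rw [div_le_iff₀ (by positivity)]
      linarith
    linarith
  have hhi1 : hi < 1 := by
    have : 0 < μ / (8 * G.Lg) := by positivity
    linarith
  refine ⟨1 / 2, hi, min (δ / (4 * G.Lg)) (1 / (4 * (G.mm ρ + 1))), by norm_num, hhi2, hhi1,
    lt_min (by positivity) (by positivity), fun ν hν0 hν => ?_⟩
  obtain ⟨Ct, K0, hCt, hK0, htvC⟩ := htv (ν * G.Lg) η₁ (by positivity) (min_le_left _ _)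
  obtain ⟨CT, cT, hCT, hcT, htyp⟩ := G.typical h hη₁0
  obtain ⟨lam, Cm, hlam, hCm, hmom⟩ := G.offset h hd
  obtain ⟨K1, hK1, hexp1⟩ := s3_exp (cT / √(4 * G.Lg)) (by positivity) B
  obtain ⟨K2, hK2, hexp2⟩ := s3_exp (lam / √(4 * G.Lg)) (by positivity) B
  obtain ⟨K3, hK3, hexp3⟩ := s3_exp 1 one_pos B
  set C : ℝ := 4 * (CT * K1 + Cm * K2) + 8 * K3 + 4 * (Ct * (4 * G.Lg) ^ B) with hC
  have hC0 : 0 < C := by positivity
  set L₀ : ℝ := 4 * G.Lg * (K0 + 1) + 32 / G.Lg + 64 with hL₀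
  have hL₀1 : 1 ≤ L₀ := by
    have p1 : 0 < 4 * G.Lg * (K0 + 1) := by positivity
    have p2 : 0 < 32 / G.Lg := by positivity
    linarith
  refine ⟨L₀, C, hL₀1, hC0, ?_⟩
  intro S hS a r ha hLa hr hyp i c
  set t : ℝ := Real.log a with ht
  have ht0 : 0 < t := by linarith
  have haexp : a = Real.exp t := (Real.exp_log ha).symm
  obtain ⟨hkK, hk1, hνk, hqk, hqm, hkL, hk4, hsk8, hst8⟩ :=
    params (δ := δ) (mm := G.mm ρ) (K0 := K0) (t := t) (ν := ν) hLg hδ0 hK0 hmm hLa hν0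
      (hν.trans (min_le_left _ _)) (hν.trans (min_le_right _ _)) rfl
  set k : ℕ := ⌊t / (2 * G.Lg)⌋₊ with hk
  have hkR1 : (1 : ℝ) ≤ k := by exact_mod_cast hk1
  have hkR0 : (0 : ℝ) < k := by linarith
  set Q : ℕ := G.md (fl ρ (ν * t)) with hQ
  set Q₀ : ℕ := G.md (fl ρ (ν * (t / 2))) with hQ₀
  have hQ0 : 0 < Q := G.md_pos _
  have hQ₀0 : 0 < Q₀ := G.md_pos _
  have hQR : (0 : ℝ) < Q := by exact_mod_cast hQ0
  have hQQ : Q₀ ∣ Q := G.md_dvd fun l => G.fl_mono h (mul_le_mul_of_nonneg_left (by linarith) hν0.le) l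
  have hQN : ∀ v, IsCoprime (G.Nv v : ℤ) (Q : ℤ) := by
    intro v
    have := G.cop_of_dvd (D := Q) (R := 1) (dvd_rfl) (one_dvd _) v
    rwa [mul_one] at this
  have hQle : (Q : ℝ) ≤ Real.exp (t / 4) := by
    rw [← Real.log_le_iff_le_exp hQR]
    exact (G.log_md_fl_le h (by positivity)).trans hqm
  set NN : ℝ := Real.exp (k * G.Lg) with hNN
  have hN : ∀ v ∈ Vs ι k, (G.Nv v : ℝ) ≤ NN := by
    intro v hv
    rw [hNN, ← Real.log_le_iff_le_exp (G.Nv_posR v)]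
    exact G.log_Nv_le hv
  have hNNle : NN ≤ Real.exp (t / 2) := Real.exp_le_exp.2 hkL
  have hkQ : NN * Q ≤ a := by
    rw [haexp, show t = t / 2 + (t / 4 + t / 4) by ring, Real.exp_add]
    refine mul_le_mul hNNle (hQle.trans (Real.exp_le_exp.2 (by linarith))) hQR.le (Real.exp_pos _).le
  have hE : NN * Real.exp (√(k : ℝ)) ≤ a * Real.exp (-(1 * √t)) := by
    rw [haexp, hNN, ← Real.exp_add, ← Real.exp_add]
    apply Real.exp_le_exp.2
    linarith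
  have hQa : (Q : ℝ) ≤ a * Real.exp (-(1 * √t)) := by
    rw [haexp, ← Real.exp_add]
    refine hQle.trans (Real.exp_le_exp.2 ?_)
    linarith
  have hexple : Real.exp (-(1 * √t)) ≤ 1 := by
    rw [Real.exp_le_one_iff]
    linarith [Real.sqrt_nonneg t]
  have hskge : √t / √(4 * G.Lg) ≤ √(k : ℝ) := by
    rw [← Real.sqrt_div ht0.le]
    exact Real.sqrt_le_sqrt hk4
  -- small terms
  have hs1 : Real.exp (-(cT * k)) ≤ K1 / t ^ B := by
    refine le_trans (Real.exp_le_exp.2 ?_) (hexp1 t ht0)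
    have h1 : √(k : ℝ) ≤ k := by
      have h2 : √(k : ℝ) * √(k : ℝ) = k := Real.mul_self_sqrt hkR0.le
      have h3 : 1 ≤ √(k : ℝ) := Real.one_le_sqrt.2 hkR1
      nlinarith
    have h4 : cT / √(4 * G.Lg) * √t = cT * (√t / √(4 * G.Lg)) := by ring
    rw [h4]
    have h5 : cT * (√t / √(4 * G.Lg)) ≤ cT * k :=
      mul_le_mul_of_nonneg_left (hskge.trans h1) hcT.le
    linarith
  have hs2 : Real.exp (-(lam * √(k : ℝ))) ≤ K2 / t ^ B := by
    refine le_trans (Real.exp_le_exp.2 ?_) (hexp2 t ht0)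
    have h4 : lam / √(4 * G.Lg) * √t = lam * (√t / √(4 * G.Lg)) := by ring
    rw [h4]
    have h5 := mul_le_mul_of_nonneg_left hskge hlam.le
    linarith
  have hs3 : Real.exp (-(1 * √t)) ≤ K3 / t ^ B := hexp3 t ht0
  have hs4 : 1 / (k : ℝ) ^ B ≤ (4 * G.Lg) ^ B / t ^ B := by
    rw [div_le_div_iff₀ (by positivity) (by positivity), one_mul, ← mul_pow]
    apply pow_le_pow_left₀ ht0.le
    rw [div_le_iff₀ (by positivity)] at hk4
    linarith
  -- the bad words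
  set T : (ι → ℕ) → Prop := fun v => ∀ l, |(v l : ℝ) - ρ l * k| ≤ η₁ * k with hT
  set Bad : Finset (List ℕ) :=
    (G.Pth k i).filter fun w => ¬ T (G.ct i w) ∨ (G.Nv (G.ct i w) : ℝ) * Real.exp (√(k : ℝ)) < |(G.Ww i w : ℝ)|
    with hBad
  have hBadEx : ∑ w ∈ Bad, (1 : ℝ) / G.Nv (G.ct i w) ≤
      CT * Real.exp (-(cT * k)) + Cm * Real.exp (-(lam * √(k : ℝ))) := by
    have h1 : ∑ w ∈ Bad, (1 : ℝ) / G.Nv (G.ct i w) ≤ G.Ex k i (fun w =>
        (if ∀ l, |(G.ct i w l : ℝ) - ρ l * k| ≤ η₁ * k then 0 else 1) +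
        Real.exp (-(lam * √(k : ℝ))) * (|(G.Ww i w : ℝ)| / G.Nv (G.ct i w)) ^ lam) := by
      unfold Ex
      refine le_trans (sum_le_sum fun w hw => ?_) (sum_le_sum_of_subset_of_nonneg (filter_subset _ _) fun w _ _ => ?_)
      · apply div_le_div_of_nonneg_right _ (G.Nv_posR _).le
        rw [mem_filter] at hw
        have hpos : 0 ≤ Real.exp (-(lam * √(k : ℝ))) * (|(G.Ww i w : ℝ)| / G.Nv (G.ct i w)) ^ lam := by positivity
        show (1 : ℝ) ≤ (if ∀ l, |(G.ct i w l : ℝ) - ρ l * k| ≤ η₁ * k then 0 else 1) +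
          Real.exp (-(lam * √(k : ℝ))) * (|(G.Ww i w : ℝ)| / G.Nv (G.ct i w)) ^ lam
        rcases hw.2 with h2 | h2
        · have h2' : ¬ ∀ l, |(G.ct i w l : ℝ) - ρ l * k| ≤ η₁ * k := h2
          rw [if_neg h2']
          linarith
        · have h3 : Real.exp (√(k : ℝ)) ≤ |(G.Ww i w : ℝ)| / G.Nv (G.ct i w) := by
            rw [le_div_iff₀ (G.Nv_posR _)]
            linarith
          have h4 : 1 ≤ Real.exp (-(lam * √(k : ℝ))) * (|(G.Ww i w : ℝ)| / G.Nv (G.ct i w)) ^ lam := by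
            have h5 := Real.rpow_le_rpow (Real.exp_pos _).le h3 hlam.le
            rw [← Real.exp_mul] at h5
            calc (1 : ℝ) = Real.exp (-(lam * √(k : ℝ))) * Real.exp (√(k : ℝ) * lam) := by
                  rw [← Real.exp_add]
                  simp [mul_comm]
              _ ≤ _ := mul_le_mul_of_nonneg_left h5 (Real.exp_pos _).le
          have h5 : (0 : ℝ) ≤ if ∀ l, |(G.ct i w l : ℝ) - ρ l * k| ≤ η₁ * k then 0 else 1 := by
            split_ifs <;> norm_num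
          linarith
      · apply div_nonneg _ (G.Nv_posR _).le
        have h5 : (0 : ℝ) ≤ if ∀ l, |(G.ct i w l : ℝ) - ρ l * k| ≤ η₁ * k then 0 else 1 := by
          split_ifs <;> norm_num
        have hpos : 0 ≤ Real.exp (-(lam * √(k : ℝ))) * (|(G.Ww i w : ℝ)| / G.Nv (G.ct i w)) ^ lam := by positivity
        linarith
    refine h1.trans ?_
    rw [Ex_add', Ex_mul]
    refine add_le_add (htyp k i) ?_
    rw [mul_comm Cm]
    exact mul_le_mul_of_nonneg_left (hmom k i) (Real.exp_pos _).le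
  have hV : ∀ w ∈ G.Pth k i, w ∉ Bad → |(G.Ww i w : ℝ)| ≤ G.Nv (G.ct i w) * Real.exp (√(k : ℝ)) := by
    intro w hw hwB
    by_contra hcon
    rw [not_le] at hcon
    exact hwB (mem_filter.2 ⟨hw, Or.inr hcon⟩)
  have hTw : ∀ w ∈ G.Pth k i, w ∉ Bad → T (G.ct i w) := by
    intro w hw hwB
    by_contra hcon
    exact hwB (mem_filter.2 ⟨hw, Or.inl hcon⟩)
  have hPB : ∀ j, ∀ v ∈ (Vs ι k).filter T,
      Pool.Agent.H319R3.GC.PB (S j) (|(G.Mv v : ℝ)| * a / G.Nv v) Q₀ r := by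
    intro j v hv
    rw [mem_filter] at hv
    have hM1 := G.abs_Mv_ge v
    have hM0 : (0 : ℝ) < |(G.Mv v : ℝ)| := by linarith
    have hNv := G.Nv_posR v
    set a' : ℝ := |(G.Mv v : ℝ)| * a / (G.Nv v : ℝ) with ha'
    have ha'0 : 0 < a' := by positivity
    have hlog : Real.log a' = Real.log |(G.Mv v : ℝ)| + t - Real.log (G.Nv v) := by
      rw [ha', Real.log_div (by positivity) (by positivity), Real.log_mul hM0.ne' ha.ne']
    have hl0 : 0 ≤ Real.log |(G.Mv v : ℝ)| := Real.log_nonneg hM1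
    have hl1 := G.log_Nv_le hv.1
    have hl2 := G.typical_log v hv.2
    have hge : 1 / 2 * t ≤ Real.log a' := by rw [hlog]; linarith
    have hle : Real.log a' ≤ hi * t := by
      rw [hlog, hhi]
      have h1 : η₁ * k * (G.Lb + G.Lg) ≤ μ / 2 * k := by
        have := mul_le_mul_of_nonneg_right hη₁1 hkR0.le
        linarith
      have h2 : μ / (8 * G.Lg) * t ≤ μ / 2 * k := by
        have h3 := mul_le_mul_of_nonneg_left hk4 (show 0 ≤ μ / 2 by positivity)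
        have e : μ / 2 * (t / (4 * G.Lg)) = μ / (8 * G.Lg) * t := by field_simp; ring
        rwa [e] at h3
      rw [← hμ] at hl2
      linarith
    refine PB.coarse ha'0 (G.md_pos _) (G.md_dvd fun l => G.fl_mono h ?_ l) (hyp a' ha'0 hge hle j)
    have := mul_le_mul_of_nonneg_left hge hν0.le
    linarith
  have hcount := G.count hS ha (k := k) (Q := Q) (Q₀ := Q₀) hQ0 hQ₀0 hQQ hQN hN hkQ c i hr Bad
    (filter_subset _ _) (V := Real.exp (√(k : ℝ))) (Real.exp_pos _).le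
    (hE.trans (by nlinarith [mul_le_mul_of_nonneg_left hexple ha.le])) hV T hTw hPB
  have htvk : ∑ j, ∑ v ∈ (Vs ι k).filter T, tv (G.gr k i j v) (G.Ww i) Q₀ ((G.Mv v).natAbs * Q) / G.Nv v ≤
      Ct / (k : ℝ) ^ B :=
    htvC k (ν * (t / 2)) (ν * t) hkK hνk (mul_le_mul_of_nonneg_left (by linarith) hν0.le) hqk i
  set TT : ℝ := ∑ j, ∑ v ∈ (Vs ι k).filter T, tv (G.gr k i j v) (G.Ww i) Q₀ ((G.Mv v).natAbs * Q) / G.Nv v with hTT
  set u : ℝ := a / Q with hu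
  have hu0 : 0 < u := by positivity
  have t1 : ∑ w ∈ Bad, 4 * a / (G.Nv (G.ct i w) * Q) ≤ (CT * (K1 / t ^ B) + Cm * (K2 / t ^ B)) * (4 * u) := by
    have e : ∑ w ∈ Bad, 4 * a / (G.Nv (G.ct i w) * Q) = (∑ w ∈ Bad, (1 : ℝ) / G.Nv (G.ct i w)) * (4 * u) := by
      rw [sum_mul]
      refine sum_congr rfl fun w _ => ?_
      have := (G.Nv_posR (G.ct i w)).ne'
      rw [hu]
      field_simp
    rw [e]
    refine mul_le_mul_of_nonneg_right (hBadEx.trans ?_) (by positivity)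
    exact add_le_add (mul_le_mul_of_nonneg_left hs1 hCT.le) (mul_le_mul_of_nonneg_left hs2 hCm.le)
  have t2 : 4 * (NN * Real.exp (√(k : ℝ)) / Q + 1) ≤ 8 * (K3 / t ^ B) * u := by
    have h1 : NN * Real.exp (√(k : ℝ)) / Q ≤ u * Real.exp (-(1 * √t)) := by
      rw [hu, div_mul_eq_mul_div]
      exact div_le_div_of_nonneg_right hE hQR.le
    have h2 : 1 ≤ u * Real.exp (-(1 * √t)) := by
      rw [hu, div_mul_eq_mul_div, le_div_iff₀ hQR, one_mul]
      exact hQa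
    have h3 : u * Real.exp (-(1 * √t)) ≤ u * (K3 / t ^ B) :=
      mul_le_mul_of_nonneg_left hs3 hu0.le
    linarith
  have t3 : r * (2 * a) / Q = 2 * r * u := by rw [hu]; ring
  have t4 : 4 * a / Q * TT ≤ 4 * (Ct * ((4 * G.Lg) ^ B / t ^ B)) * u := by
    have h1 : TT ≤ Ct * (1 / (k : ℝ) ^ B) := by
      refine htvk.trans (le_of_eq ?_); ring
    have h2 : TT ≤ Ct * ((4 * G.Lg) ^ B / t ^ B) := h1.trans (mul_le_mul_of_nonneg_left hs4 hCt.le)
    have e1 : 4 * a / Q = 4 * u := by rw [hu]; ring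
    rw [e1]
    have h3 := mul_le_mul_of_nonneg_left h2 (show (0 : ℝ) ≤ 4 * u by positivity)
    linarith
  have goal : (r + C / t ^ B) * (2 * a) / Q = 2 * r * u + 2 * (C / t ^ B) * u := by
    rw [hu]; ring
  rw [goal]
  have hCexp : C / t ^ B = 4 * (CT * (K1 / t ^ B) + Cm * (K2 / t ^ B)) + 8 * (K3 / t ^ B)
      + 4 * (Ct * ((4 * G.Lg) ^ B / t ^ B)) := by
    rw [hC]; ring
  have hCpos : 0 ≤ C / t ^ B * u := by positivity
  have hfin : (CT * (K1 / t ^ B) + Cm * (K2 / t ^ B)) * (4 * u) + 8 * (K3 / t ^ B) * u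
      + 4 * (Ct * ((4 * G.Lg) ^ B / t ^ B)) * u = C / t ^ B * u := by
    rw [hCexp]; ring
  linarith

end GS

end Pool.Agent.Zk39.GD
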