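import Mathlib
import Pool.Agent.Zk39.GD.Stage

/-!
# The main theorem for graph directed systems (after `Pool.Agent.H319R3.GC.I1`)
-/

set_option autoImplicit false
set_option linter.unusedSectionVars false

namespace Pool.Agent.Zk39.GD

open Finset Pool.Agent.H319R3.GC

/-- the iteration for families -/
theorem iter {ι : Type} {S : ι → Set ℤ} {y : ℝ} {B : ℕ} {Qf : ℝ → ℕ} {lo hi L₀ C : ℝ} (hB : 1 ≤ B)
    (hlo : 0 < lo) (hlh : lo ≤ hi) (hhi : hi < 1) (hC : 0 < C)
    (hst : ∀ a ρ : ℝ, 0 < a → L₀ ≤ Real.log a → 0 ≤ ρ →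
      (∀ a' : ℝ, 0 < a' → lo * Real.log a ≤ Real.log a' → Real.log a' ≤ hi * Real.log a →
        ∀ i, PB (S i) a' (Qf a') ρ) →
      ∀ i, PB (S i) a (Qf a) (ρ + C / (Real.log a) ^ B))
    (hy : 2 ≤ y) (hS : ∀ i, ∀ x ∈ S i, y < |(x : ℝ)|) (hL1 : L₀ ≤ Real.log (y / 2))
    (hl0 : 0 < Real.log (y / 2)) (a : ℝ) (ha : 0 < a) (hla : lo * Real.log (y / 2) ≤ Real.log a) (i : ι) :
    PB (S i) a (Qf a) (C / ((1 / hi) ^ B - 1) * (1 / (lo * Real.log (y / 2))) ^ B) := by
  set l : ℝ := Real.log (y / 2) with hl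
  have hhi0 : 0 < hi := hlo.trans_le hlh
  have hq1 : 1 < (1 / hi) ^ B := by
    apply one_lt_pow₀ _ (by omega)
    rw [one_lt_div hhi0]; exact hhi
  set K : ℝ := C / ((1 / hi) ^ B - 1) with hK
  have hK0 : 0 < K := div_pos hC (by linarith)
  have hKe : K * ((1 / hi) ^ B - 1) = C := by
    rw [hK]; exact div_mul_cancel₀ _ (by linarith)
  set g : ℝ → ℝ := fun s => K * ((1 / (lo * l)) ^ B - (1 / s) ^ B) with hg
  have hll : 0 < lo * l := mul_pos hlo hl0
  have hgmono : ∀ s s' : ℝ, 0 < s → s ≤ s' → g s ≤ g s' := by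
    intro s s' hs hss
    simp only [hg]
    have hs' : 0 < s' := by linarith
    have h1 : (1 / s') ^ B ≤ (1 / s) ^ B := by gcongr
    exact mul_le_mul_of_nonneg_left (by linarith) hK0.le
  have hg0 : ∀ s : ℝ, lo * l ≤ s → 0 ≤ g s := by
    intro s hs
    have h1 := hgmono (lo * l) s hll hs
    have h2 : g (lo * l) = 0 := by simp only [hg]; rw [sub_self, mul_zero]
    linarith
  have key : ∀ n : ℕ, ∀ a : ℝ, 0 < a → lo * l ≤ Real.log a → hi ^ n * Real.log a ≤ l →
      ∀ i, PB (S i) a (Qf a) (g (Real.log a)) := by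
    intro n
    induction n with
    | zero =>
      intro a ha h1 h2 i
      rw [pow_zero, one_mul] at h2
      apply I1_empty (hS i) ha _ _ (hg0 _ h1)
      have h3 : a ≤ y / 2 := (Real.log_le_log_iff ha (by linarith)).1 h2
      linarith
    | succ n ih =>
      intro a ha h1 h2 i
      by_cases hal : Real.log a ≤ l
      · apply I1_empty (hS i) ha _ _ (hg0 _ h1)
        have h3 : a ≤ y / 2 := (Real.log_le_log_iff ha (by linarith)).1 hal
        linarith
      · push Not at hal
        have hla0 : 0 < Real.log a := by linarith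
        have h3 : lo * l ≤ hi * Real.log a := by
          calc lo * l ≤ hi * l := by gcongr
            _ ≤ hi * Real.log a := by gcongr
        have h4 := hst a (g (hi * Real.log a)) ha (by linarith) (hg0 _ h3) (by
          intro a' ha' h5 h6 i'
          have h7 : lo * l ≤ Real.log a' := by
            refine le_trans ?_ h5
            gcongr
          have h8 : hi ^ n * Real.log a' ≤ l := by
            calc hi ^ n * Real.log a' ≤ hi ^ n * (hi * Real.log a) := by gcongr
              _ = hi ^ (n + 1) * Real.log a := by ring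
              _ ≤ l := h2
          exact I1_PB_mono ha' (ih a' ha' h7 h8 i') (hgmono _ _ (by linarith) h6)) i
        apply I1_PB_mono ha h4
        simp only [hg]
        have h9 : (1 / (hi * Real.log a)) ^ B = (1 / hi) ^ B * (1 / Real.log a) ^ B := by
          rw [← mul_pow]
          congr 1
          field_simp
        have h10 : C / Real.log a ^ B = C * (1 / Real.log a) ^ B := by
          rw [one_div, inv_pow]; ring
        rw [h9, h10, ← hKe]
        apply le_of_eq
        ring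
  obtain ⟨n, hn⟩ : ∃ n : ℕ, hi ^ n * Real.log a ≤ l := by
    have h1 : 0 < l / (|Real.log a| + 1) := by positivity
    obtain ⟨n, hn⟩ := exists_pow_lt_of_lt_one h1 hhi
    refine ⟨n, ?_⟩
    rw [lt_div_iff₀ (by positivity)] at hn
    have h2 : hi ^ n * Real.log a ≤ hi ^ n * (|Real.log a| + 1) := by
      gcongr
      have := le_abs_self (Real.log a)
      linarith
    linarith
  refine I1_PB_mono ha (key n a ha hla hn i) ?_
  simp only [hg]
  gcongr
  have : 0 ≤ (1 / Real.log a) ^ B := by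
    have : 0 < Real.log a := by linarith
    positivity
  linarith

namespace GS

variable {ι : Type} [Fintype ι] [DecidableEq ι] (G : GS ι) {ρ : ι → ℝ}

/-- almost all orbits of a contracting graph directed system visit every slowly growing neighbourhood of `0` -/
theorem main (h : G.Irr ρ) (hd : G.mm ρ < G.hh ρ) (B : ℕ) : ∃ C : ℝ, 0 < C ∧ ∀ X y : ℝ, 1 ≤ X → 2 ≤ y → ∀ i,
    ({x : ℤ | |(x : ℝ)| ≤ X ∧ ∀ k : ℕ, y < |(((G.step^[k] (i, x)).2 : ℤ) : ℝ)|}.ncard : ℝ)
      ≤ C * X / (Real.log y) ^ B := by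
  obtain ⟨lo, hi, ν, hlo, hlh, hhi, hν, hst'⟩ := G.stage h hd (B + 1)
  obtain ⟨L₀, C, hL₀, hC, hst⟩ := hst' ν hν le_rfl
  have hhi0 : 0 < hi := hlo.trans_le hlh
  have hq1 : 1 < (1 / hi) ^ (B + 1) := by
    apply one_lt_pow₀ _ (by omega)
    rw [one_lt_div hhi0]; exact hhi
  set K : ℝ := C / ((1 / hi) ^ (B + 1) - 1) with hK
  have hK0 : 0 < K := div_pos hC (by linarith)
  set Y₀ : ℝ := max (2 * Real.exp L₀) 4 with hY₀
  have hY4 : 4 ≤ Y₀ := le_max_right _ _
  have hlY : 0 < Real.log Y₀ := Real.log_pos (by linarith)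
  refine ⟨3 * (Real.log Y₀) ^ B + 4 * (K * (2 / lo) ^ (B + 1)), by positivity, ?_⟩
  intro X y hX hy i
  have hly : 0 < Real.log y := Real.log_pos (by linarith)
  set S : ι → Set ℤ := fun j => {x : ℤ | ∀ k : ℕ, y < |(((G.step^[k] (j, x)).2 : ℤ) : ℝ)|} with hSdef
  have hS : ∀ j, ∀ x ∈ S j, y < |(x : ℝ)| := fun j x hx => by simpa using hx 0
  have hST : G.FI S := by
    intro j x hx k
    have := hx (k + 1)
    rwa [Function.iterate_succ_apply] at this
  have hfin1 : {x : ℤ | |(x : ℝ)| ≤ X ∧ ∀ k : ℕ, y < |(((G.step^[k] (i, x)).2 : ℤ) : ℝ)|} ⊆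
      {x : ℤ | x ∈ S i ∧ |(x : ℝ)| < 2 * X} := by
    rintro x ⟨h1, h2⟩
    exact ⟨h2, by linarith⟩
  by_cases hyY : y < Y₀
  · -- small `y`
    have h4 := ncard_trivial X hX
      {x : ℤ | |(x : ℝ)| ≤ X ∧ ∀ k : ℕ, y < |(((G.step^[k] (i, x)).2 : ℤ) : ℝ)|} (fun x hx => hx.1)
    refine h4.trans ?_
    rw [le_div_iff₀ (by positivity)]
    have h5 : (Real.log y) ^ B ≤ (Real.log Y₀) ^ B := by
      have : Real.log y ≤ Real.log Y₀ := Real.log_le_log (by linarith) hyY.le
      gcongr
    have h6 : 0 ≤ 4 * (K * (2 / lo) ^ (B + 1)) * X := by positivity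
    have h7 : 3 * X * (Real.log y) ^ B ≤ 3 * X * (Real.log Y₀) ^ B := by gcongr
    nlinarith
  · -- large `y`
    push Not at hyY
    have hy4 : 4 ≤ y := hY4.trans hyY
    have hyL : 2 * Real.exp L₀ ≤ y := (le_max_left _ _).trans hyY
    have hL1 : L₀ ≤ Real.log (y / 2) := by
      rw [Real.le_log_iff_exp_le (by linarith)]
      linarith
    have hl0 : 0 < Real.log (y / 2) := by linarith
    have hlog : Real.log y / 2 ≤ Real.log (y / 2) := by
      rw [Real.log_div (by linarith) (by norm_num)]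
      have h2 : Real.log 4 ≤ Real.log y := Real.log_le_log (by norm_num) hy4
      have h3 : Real.log 4 = 2 * Real.log 2 := by
        rw [show (4 : ℝ) = 2 ^ 2 by norm_num, Real.log_pow]; norm_num
      linarith
    have hit := iter (S := S) (y := y) (B := B + 1) (Qf := fun a => G.md (fl ρ (ν * Real.log a))) (lo := lo)
      (hi := hi) (L₀ := L₀) (C := C) (by omega) hlo hlh hhi hC (hst S hST) hy hS hL1 hl0
    set r : ℝ := K * (1 / (lo * Real.log (y / 2))) ^ (B + 1) with hρ
    have hρ0 : 0 ≤ r := by positivity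
    have hPB1 : ∀ a : ℝ, y / 2 ≤ a → 0 < a → Pool.Agent.H319R3.GC.PB (S i) a 1 r := by
      intro a ha1 ha
      refine PB.coarse ha (G.md_pos _) (one_dvd _) (hit a ha ?_ i)
      have h1 : Real.log (y / 2) ≤ Real.log a := Real.log_le_log (by linarith) ha1
      nlinarith
    obtain ⟨n, hn⟩ := pow_unbounded_of_one_lt (2 * X) (show (1 : ℝ) < 2 by norm_num)
    have h1 := I1_sum (hS i) hρ0 hPB1 n (2 * X) (by linarith) (by
      have : (2 : ℝ) ^ n ≤ y * 2 ^ n := le_mul_of_one_le_left (by positivity) (by linarith)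
      linarith)
    have h2 := Set.ncard_le_ncard hfin1 (I1_window_finite (S i) _)
    have h3 : ({x : ℤ | |(x : ℝ)| ≤ X ∧ ∀ k : ℕ, y < |(((G.step^[k] (i, x)).2 : ℤ) : ℝ)|}.ncard : ℝ) ≤
        ({x : ℤ | x ∈ S i ∧ |(x : ℝ)| < 2 * X}.ncard : ℝ) := by exact_mod_cast h2
    refine (h3.trans h1).trans ?_
    have hρ2 : r ≤ K * (2 / lo) ^ (B + 1) * (1 / Real.log y) ^ B := by
      have h4 : 1 / (lo * Real.log (y / 2)) ≤ 2 / lo * (1 / Real.log y) := by
        rw [div_mul_div_comm, mul_one, div_le_div_iff₀ (by positivity) (by positivity)]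
        nlinarith
      have h5 : (1 / (lo * Real.log (y / 2))) ^ (B + 1) ≤ (2 / lo * (1 / Real.log y)) ^ (B + 1) := by
        gcongr
      have hly1 : 1 / Real.log y ≤ 1 := by
        rw [div_le_one hly]
        have h6 : Real.exp 1 ≤ y := by
          have := Real.exp_one_lt_d9
          linarith
        rwa [Real.le_log_iff_exp_le (by linarith)]
      have h6 : (1 / Real.log y) ^ (B + 1) ≤ (1 / Real.log y) ^ B :=
        pow_le_pow_of_le_one (by positivity) hly1 (by omega)
      rw [mul_pow] at h5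
      calc r = K * (1 / (lo * Real.log (y / 2))) ^ (B + 1) := hρ
        _ ≤ K * ((2 / lo) ^ (B + 1) * (1 / Real.log y) ^ (B + 1)) := by gcongr
        _ ≤ K * ((2 / lo) ^ (B + 1) * (1 / Real.log y) ^ B) := by gcongr
        _ = _ := by ring
    have h5 : (1 / Real.log y) ^ B = 1 / (Real.log y) ^ B := by rw [one_div_pow]
    rw [h5] at hρ2
    calc 2 * r * (2 * X) = 4 * r * X := by ring
      _ ≤ 4 * (K * (2 / lo) ^ (B + 1) * (1 / (Real.log y) ^ B)) * X := by gcongr
      _ = 4 * (K * (2 / lo) ^ (B + 1)) * X / (Real.log y) ^ B := by ring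
      _ ≤ _ := by
        gcongr
        have : 0 ≤ 3 * (Real.log Y₀) ^ B := by positivity
        linarith

end GS

end Pool.Agent.Zk39.GD
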