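import Mathlib
import Pool.Agent.Zk39.GD.Main
import Pool.Agent.Zk39.PM.Acc
import Pool.Agent.W44.LM.Main

/-!
# The classes of Leigh's chain as graph directed systems
-/

set_option autoImplicit false
set_option linter.unusedSectionVars false

namespace Pool.Agent.Zk39.GD

open Finset Pool.Agent.H319R2.Leigh Pool.Agent.W44.LM

variable {d : ℕ} {m r b : ℤ → ℤ} {e : ℤ → ℕ} {C : Finset (ℤ × ℕ)} {ρ : ℤ × ℕ → ℝ}

/-- the number `k d_i` -/
def KK (d : ℕ) (e : ℤ → ℕ) (B : ℤ × ℕ) : ℕ := B.2 * e (B.1 % d)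

/-- the size of the next state -/
def K' (d : ℕ) (e : ℤ → ℕ) (B : ℤ × ℕ) : ℕ := KK d e B / Nat.gcd (KK d e B) d

/-- the next state -/
def tg (d : ℕ) (m r b : ℤ → ℤ) (e : ℤ → ℕ) (B : ℤ × ℕ) (a : ℤ) : ℤ × ℕ :=
  ((T d m r B.1 + b (B.1 % d) * (KK d e B : ℤ) * a) % ((d : ℤ) * (K' d e B : ℤ)), K' d e B)

theorem KK_pos (D : Data d m r b e) (hC : Class d m r e C ρ) {B : ℤ × ℕ} (hB : B ∈ C) : 0 < KK d e B :=
  Nat.mul_pos (state_pos D hC hB) (Pool.Agent.Zk39.PM.e_pos D B.1)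

theorem K'_mul (B : ℤ × ℕ) : K' d e B * Nat.gcd (KK d e B) d = KK d e B :=
  Nat.div_mul_cancel (Nat.gcd_dvd_left _ _)

/-- `d k' = n (k d_i)` -/
theorem d_K' (D : Data d m r b e) (B : ℤ × ℕ) : d * K' d e B = succ d e B * KK d e B := by
  have h1 := succ_mul D B
  have h2 := K'_mul (d := d) (e := e) B
  have h1' : succ d e B * Nat.gcd (KK d e B) d = d := h1
  calc d * K' d e B = (succ d e B * Nat.gcd (KK d e B) d) * K' d e B := by rw [h1']
    _ = succ d e B * (K' d e B * Nat.gcd (KK d e B) d) := by ring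
    _ = succ d e B * KK d e B := by rw [h2]

theorem K'_pos (D : Data d m r b e) (hC : Class d m r e C ρ) {B : ℤ × ℕ} (hB : B ∈ C) : 0 < K' d e B := by
  have h1 := K'_mul (d := d) (e := e) B
  have h2 := KK_pos D hC hB
  rcases Nat.eq_zero_or_pos (K' d e B) with h | h
  · rw [h, zero_mul] at h1; omega
  · exact h

theorem tg_P (D : Data d m r b e) (hC : Class d m r e C ρ) {B : ℤ × ℕ} (hB : B ∈ C) (a : ℤ) :
    0 < P d m r e B (tg d m r b e B a) := by
  have hpos : (0 : ℤ) < (d : ℤ) * (K' d e B : ℤ) := by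
    have h1 : 0 < d := Pool.Agent.W44.LM.d_pos D
    exact_mod_cast Nat.mul_pos h1 (K'_pos D hC hB)
  rw [P_pos_iff D]
  refine ⟨rfl, Int.emod_nonneg _ hpos.ne', Int.emod_lt_of_pos _ hpos, ?_⟩
  have h1 : ((B.2 * e (B.1 % d) : ℕ) : ℤ) ∣ (d : ℤ) * (K' d e B : ℤ) := by
    have h2 := d_K' D B
    refine ⟨(succ d e B : ℤ), ?_⟩
    have h3 : ((d * K' d e B : ℕ) : ℤ) = ((succ d e B * KK d e B : ℕ) : ℤ) := by rw [h2]
    push_cast at h3
    unfold KK at h3
    push_cast at h3 ⊢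
    linarith
  have h2 : (tg d m r b e B a).1 ≡ T d m r B.1 + b (B.1 % d) * (KK d e B : ℤ) * a
      [ZMOD ((B.2 * e (B.1 % d) : ℕ) : ℤ)] := (Int.mod_modEq _ _).of_dvd h1
  have h3 : T d m r B.1 + b (B.1 % d) * (KK d e B : ℤ) * a ≡ T d m r B.1 [ZMOD ((B.2 * e (B.1 % d) : ℕ) : ℤ)] := by
    rw [Int.modEq_iff_dvd]
    refine ⟨-(b (B.1 % d) * a), ?_⟩
    unfold KK
    ring
  exact (h2.trans h3).symm

/-- the target in terms of the quotient -/
theorem tg_eq (D : Data d m r b e) (B : ℤ × ℕ) (a : ℤ) : ∃ q : ℤ,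
    (tg d m r b e B a).1 = T d m r B.1 + (KK d e B : ℤ) * (b (B.1 % d) * a - (succ d e B : ℤ) * q) := by
  refine ⟨(T d m r B.1 + b (B.1 % d) * (KK d e B : ℤ) * a) / ((d : ℤ) * (K' d e B : ℤ)), ?_⟩
  have h1 := Int.emod_add_mul_ediv (T d m r B.1 + b (B.1 % d) * (KK d e B : ℤ) * a) ((d : ℤ) * (K' d e B : ℤ))
  have h2 : ((d : ℤ) * (K' d e B : ℤ)) = (succ d e B : ℤ) * (KK d e B : ℤ) := by exact_mod_cast d_K' D B
  have h3 : (tg d m r b e B a).1 = (T d m r B.1 + b (B.1 % d) * (KK d e B : ℤ) * a) % ((d : ℤ) * (K' d e B : ℤ)) := rfl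
  rw [h3]
  set q := (T d m r B.1 + b (B.1 % d) * (KK d e B : ℤ) * a) / ((d : ℤ) * (K' d e B : ℤ)) with hq
  linear_combination h1 - q * h2

/-- the offset -/
def cc (d : ℕ) (m r b : ℤ → ℤ) (e : ℤ → ℕ) (B : ℤ × ℕ) (a : ℤ) : ℤ :=
  ((tg d m r b e B a).1 - T d m r B.1) / (KK d e B : ℤ)

theorem cc_eq (D : Data d m r b e) (hC : Class d m r e C ρ) {B : ℤ × ℕ} (hB : B ∈ C) (a : ℤ) :
    (tg d m r b e B a).1 = T d m r B.1 + (KK d e B : ℤ) * cc d m r b e B a ∧
      (succ d e B : ℤ) ∣ b (B.1 % d) * a - cc d m r b e B a := by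
  obtain ⟨q, hq⟩ := tg_eq D B a
  have hK : (0 : ℤ) < (KK d e B : ℤ) := by exact_mod_cast KK_pos D hC hB
  have h1 : cc d m r b e B a = b (B.1 % d) * a - (succ d e B : ℤ) * q := by
    unfold cc
    rw [hq, add_sub_cancel_left, Int.mul_ediv_cancel_left _ hK.ne']
  rw [h1]
  exact ⟨hq, ⟨q, by ring⟩⟩

/-- the graph directed system of a class -/
def LG (D : Data d m r b e) (hC : Class d m r e C ρ) : GS {B // B ∈ C} where
  n B := succ d e B.1
  b B := b (B.1.1 % d)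
  c B a := cc d m r b e B.1 a
  nx B a := ⟨tg d m r b e B.1 a, hC.closed B.1 B.2 _ (tg_P D hC B.2 a)⟩
  n_pos B := succ_pos D B.1
  b_ne B := b_ne D B.1.1
  cop B B' := (D.cop _ (res0 D B.1.1) (res1 D B.1.1)).of_isCoprime_of_dvd_right (by exact_mod_cast succ_dvd D B'.1)
  adm B a _ := (cc_eq D hC B.2 a).2

/-- the integer belonging to a state and a quotient -/
def val (d : ℕ) (C : Finset (ℤ × ℕ)) (z : {B // B ∈ C} × ℤ) : ℤ := z.1.1.1 + d * z.1.1.2 * z.2

theorem tg_congr (D : Data d m r b e) (B : ℤ × ℕ) {a a' : ℤ} (h : (succ d e B : ℤ) ∣ a - a') :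
    tg d m r b e B a = tg d m r b e B a' := by
  unfold tg
  congr 1
  apply Int.ModEq.eq
  rw [Int.modEq_iff_dvd]
  obtain ⟨q, hq⟩ := h
  have h2 : ((d : ℤ) * (K' d e B : ℤ)) = (succ d e B : ℤ) * (KK d e B : ℤ) := by exact_mod_cast d_K' D B
  rw [h2]
  refine ⟨-(b (B.1 % d) * q), ?_⟩
  linear_combination (-(b (B.1 % d) * (KK d e B : ℤ))) * hq

theorem val_step (D : Data d m r b e) (hC : Class d m r e C ρ) (z : {B // B ∈ C} × ℤ) :
    val d C ((LG D hC).step z) = T d m r (val d C z) := by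
  obtain ⟨B, y⟩ := z
  have hT := Pool.Agent.Zk39.PM.T_affine D B.1.1 B.1.2 y
  have h1 : T d m r (val d C (B, y)) = T d m r B.1.1 + b (B.1.1 % d) * (KK d e B.1 : ℤ) * y := hT
  rw [h1]
  set G := LG D hC with hG
  set a : ℕ := (y % G.n B).toNat with ha
  obtain ⟨h2, h3⟩ := G.toNat_mod B y
  have h4 := G.step_eq B y
  obtain ⟨h5, -⟩ := cc_eq D hC B.2 (a : ℤ)
  -- the value of the step
  show (tg d m r b e B.1 (a : ℤ)).1 + (d : ℤ) * ((K' d e B.1 : ℕ) : ℤ) * (G.step (B, y)).2 = _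
  have h6 : ((d : ℤ) * (K' d e B.1 : ℤ)) = (succ d e B.1 : ℤ) * (KK d e B.1 : ℤ) := by exact_mod_cast d_K' D B.1
  have h7 : ((succ d e B.1 : ℕ) : ℤ) * (G.step (B, y)).2 = b (B.1.1 % d) * y - cc d m r b e B.1 (a : ℤ) := h4
  rw [h6, h5]
  linear_combination (KK d e B.1 : ℤ) * h7

theorem val_iter (D : Data d m r b e) (hC : Class d m r e C ρ) (n : ℕ) (z : {B // B ∈ C} × ℤ) :
    val d C ((LG D hC).step^[n] z) = (T d m r)^[n] (val d C z) := by
  induction n generalizing z with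
  | zero => rfl
  | succ n ih => rw [Function.iterate_succ_apply, Function.iterate_succ_apply, ih, val_step]

/-! ### The Markov chain -/

theorem exists_digit (D : Data d m r b e) (hC : Class d m r e C ρ) (B B' : {B // B ∈ C})
    (h : 0 < P d m r e B.1 B'.1) : ∃ a < succ d e B.1, (LG D hC).nx B a = B' := by
  obtain ⟨h1, h2, h3, h4⟩ := (P_pos_iff D B.1 B'.1).1 h
  have hK : (0 : ℤ) < (KK d e B.1 : ℤ) := by exact_mod_cast KK_pos D hC B.2
  have hn : (0 : ℤ) < (succ d e B.1 : ℤ) := by exact_mod_cast succ_pos D B.1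
  obtain ⟨u, hu⟩ := (Int.modEq_iff_dvd.1 h4)
  have hu' : B'.1.1 = T d m r B.1.1 + (KK d e B.1 : ℤ) * u := by
    unfold KK
    linarith
  -- solve `b a ≡ u`
  have hcop : IsCoprime (b (B.1.1 % d)) (succ d e B.1 : ℤ) :=
    (D.cop _ (res0 D B.1.1) (res1 D B.1.1)).of_isCoprime_of_dvd_right (by exact_mod_cast succ_dvd D B.1)
  obtain ⟨s, t, hst⟩ := hcop
  set a : ℤ := (s * u) % (succ d e B.1 : ℤ) with ha
  have ha0 : 0 ≤ a := Int.emod_nonneg _ hn.ne'
  have ha1 : a < (succ d e B.1 : ℤ) := Int.emod_lt_of_pos _ hn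
  refine ⟨a.toNat, by omega, ?_⟩
  apply Subtype.ext
  show tg d m r b e B.1 ((a.toNat : ℕ) : ℤ) = B'.1
  rw [Int.toNat_of_nonneg ha0]
  have h5 : tg d m r b e B.1 a = tg d m r b e B.1 (s * u) := by
    apply tg_congr D
    have := Int.mod_modEq (s * u) (succ d e B.1 : ℤ)
    exact (Int.modEq_iff_dvd.1 this.symm)
  rw [h5]
  have hd0 : (0 : ℤ) < d := by exact_mod_cast Pool.Agent.W44.LM.d_pos D
  have h6 : ((d : ℤ) * (K' d e B.1 : ℤ)) = (succ d e B.1 : ℤ) * (KK d e B.1 : ℤ) := by exact_mod_cast d_K' D B.1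
  have hK'eq : K' d e B.1 = B'.1.2 := h1.symm
  apply Prod.ext
  · show (T d m r B.1.1 + b (B.1.1 % d) * (KK d e B.1 : ℤ) * (s * u)) % ((d : ℤ) * (K' d e B.1 : ℤ)) = B'.1.1
    have h7 : T d m r B.1.1 + b (B.1.1 % d) * (KK d e B.1 : ℤ) * (s * u) ≡ B'.1.1
        [ZMOD ((d : ℤ) * (K' d e B.1 : ℤ))] := by
      rw [Int.modEq_iff_dvd, h6]
      refine ⟨t * u, ?_⟩
      rw [hu']
      linear_combination (-((KK d e B.1 : ℤ) * u)) * hst
    rw [h7, Int.emod_eq_of_lt h2 (by rw [hK'eq]; exact h3)]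
  · exact h1.symm

theorem pr_eq (D : Data d m r b e) (hC : Class d m r e C ρ) (B B' : {B // B ∈ C}) :
    (LG D hC).pr B B' = P d m r e B.1 B'.1 := by
  set G := LG D hC with hG
  have hle : ∀ X : {B // B ∈ C}, P d m r e B.1 X.1 ≤ G.pr B X := by
    intro X
    rcases P_zero_or (d := d) (m := m) (r := r) (e := e) B.1 X.1 with h | h
    · rw [h]; exact G.pr_nonneg _ _
    · rw [P_val D _ _ h]
      unfold GS.pr
      apply div_le_div_of_nonneg_right _ (G.n_posR B).le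
      obtain ⟨a, ha, hax⟩ := exists_digit D hC B X h
      have h1 : 0 < ((range (G.n B)).filter fun a => G.nx B a = X).card :=
        card_pos.2 ⟨a, mem_filter.2 ⟨mem_range.2 ha, hax⟩⟩
      exact_mod_cast h1
  have hs1 : ∑ X : {B // B ∈ C}, P d m r e B.1 X.1 = 1 := by
    rw [← Pool.Agent.W44.LM.sum_one D hC B.2]
    exact Finset.sum_coe_sort C (fun X => P d m r e B.1 X)
  have hs2 := G.sum_pr B
  have h := (sum_eq_sum_iff_of_le (fun X _ => hle X)).1 (by rw [hs1, hs2])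
  exact (h B' (mem_univ _)).symm

theorem rho_pos (D : Data d m r b e) (hC : Class d m r e C ρ) : ∀ B ∈ C, 0 < ρ B := by
  obtain ⟨B0, hB0, h0⟩ : ∃ B ∈ C, 0 < ρ B := by
    by_contra hcon
    push Not at hcon
    have h1 : ∑ B ∈ C, ρ B ≤ 0 := sum_nonpos hcon
    rw [hC.sum_one] at h1
    linarith
  have key : ∀ B', Relation.ReflTransGen (fun X Y => 0 < P d m r e X Y) B0 B' → B' ∈ C ∧ 0 < ρ B' := by
    intro B' h
    induction h with
    | refl => exact ⟨hB0, h0⟩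
    | tail _ hs ih =>
      rename_i X Y _
      have hY : Y ∈ C := hC.closed _ ih.1 _ hs
      refine ⟨hY, ?_⟩
      rw [← hC.stat Y hY]
      have h1 : ρ X * P d m r e X Y ≤ ∑ B ∈ C, ρ B * P d m r e B Y := by
        refine single_le_sum (f := fun B => ρ B * P d m r e B Y) (fun B hB => ?_) ih.1
        refine mul_nonneg (hC.nonneg B hB) ?_
        rcases P_zero_or (d := d) (m := m) (r := r) (e := e) B Y with h | h
        · rw [h]
        · exact h.le
      exact (mul_pos ih.2 hs).trans_le h1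
  intro B hB
  exact (key B (hC.comm B0 hB0 B hB)).2

theorem irr (D : Data d m r b e) (hC : Class d m r e C ρ) : (LG D hC).Irr (fun B => ρ B.1) where
  irr := by
    have key : ∀ (X : {B // B ∈ C}) (Y : ℤ × ℕ), Relation.ReflTransGen (fun X Y => 0 < P d m r e X Y) X.1 Y →
        ∃ hY : Y ∈ C, Relation.ReflTransGen (fun a b => 0 < (LG D hC).pr a b) X ⟨Y, hY⟩ := by
      intro X Y h
      induction h with
      | refl => exact ⟨X.2, Relation.ReflTransGen.refl⟩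
      | tail _ hs ih =>
        rename_i Z W _
        obtain ⟨hZ, h2⟩ := ih
        have hW : W ∈ C := hC.closed _ hZ _ hs
        refine ⟨hW, h2.tail ?_⟩
        rw [pr_eq D hC]
        exact hs
    intro X Y
    obtain ⟨_, h⟩ := key X Y.1 (hC.comm X.1 X.2 Y.1 Y.2)
    exact h
  pos B := rho_pos D hC B.1 B.2
  sum_one := by
    rw [← hC.sum_one]
    exact Finset.sum_coe_sort C (fun X => ρ X)
  stat B' := by
    rw [← hC.stat B'.1 B'.2, ← Finset.sum_coe_sort C (fun X => ρ X * P d m r e X B'.1)]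
    exact sum_congr rfl fun B _ => by rw [pr_eq D hC]

theorem drift (D : Data d m r b e) (hC : Class d m r e C ρ) (hL : Lam d m C ρ < 1) :
    (LG D hC).mm (fun B => ρ B.1) < (LG D hC).hh (fun B => ρ B.1) := by
  have h1 := Real.log_neg (Lam_pos D) hL
  rw [log_Lam_β D hC, ← Finset.sum_coe_sort C (fun B => ρ B * Real.log (β d b e B))] at h1
  have h2 : (LG D hC).mm (fun B => ρ B.1) - (LG D hC).hh (fun B => ρ B.1) =
      ∑ B : {B // B ∈ C}, ρ B.1 * Real.log (β d b e B.1) := by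
    unfold GS.mm GS.hh
    rw [← sum_sub_distrib]
    refine sum_congr rfl fun B _ => ?_
    rw [log_β D]
    show ρ B.1 * Real.log |((b (B.1.1 % d) : ℤ) : ℝ)| - ρ B.1 * Real.log (succ d e B.1) = _
    push_cast
    ring
  linarith

end Pool.Agent.Zk39.GD
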