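import Mathlib
import Pool.Agent.Zk39.GD.Leigh

/-!
# Leigh's classes with `Λ_C < 1`: almost all trajectories are almost bounded
-/

set_option autoImplicit false
set_option linter.unusedSectionVars false

namespace Pool.Agent.Zk39.GD

open Finset Pool.Agent.H319R2.Leigh Pool.Agent.W44.LM Filter Topology
open Pool.Agent.H319R3.GC (ncard_trivial)

variable {d : ℕ} {m r b : ℤ → ℤ} {e : ℤ → ℕ} {C : Finset (ℤ × ℕ)} {ρ : ℤ × ℕ → ℝ}

theorem fin_le (X : ℝ) (s : Set ℤ) (hs : s ⊆ {x : ℤ | |(x : ℝ)| ≤ X}) : s.Finite := by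
  refine (Set.finite_Icc (-⌊X⌋) ⌊X⌋).subset ?_
  intro x hx
  have h0 : |(x : ℝ)| ≤ X := hs hx
  have h1 := abs_le.1 h0
  constructor
  · have : ((-x : ℤ) : ℝ) ≤ X := by push_cast; linarith [h1.1]
    have := Int.le_floor.2 this
    omega
  · exact Int.le_floor.2 h1.2

/-- transfer from the graph directed system to the class -/
theorem transfer (D : Data d m r b e) (hC : Class d m r e C ρ) : ∃ K : ℝ, 1 ≤ K ∧ ∀ X y : ℝ, 1 ≤ X →
    (Set.ncard {x : ℤ | x ∈ S d C ∧ |(x : ℝ)| ≤ X ∧ ∀ n : ℕ, y < |(((T d m r)^[n] x : ℤ) : ℝ)|} : ℝ) ≤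
      ∑ B : {B // B ∈ C}, (Set.ncard {u : ℤ | |(u : ℝ)| ≤ 2 * X ∧
        ∀ n : ℕ, y / K - 1 < |((((LG D hC).step^[n] (B, u)).2 : ℤ) : ℝ)|} : ℝ) := by
  classical
  obtain ⟨K₀, hK₀, hK₀'⟩ := exists_size D hC
  have hd : (1 : ℝ) ≤ d := by
    have := Pool.Agent.W44.LM.d_pos D
    exact_mod_cast this
  set K : ℝ := d * K₀ with hK
  have hK1 : 1 ≤ K := by nlinarith
  refine ⟨K, hK1, fun X y hX => ?_⟩
  set G := LG D hC with hG
  -- the value of a point
  have hval : ∀ z : {B // B ∈ C} × ℤ, |((val d C z : ℤ) : ℝ)| ≤ K * (|(z.2 : ℝ)| + 1) := by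
    rintro ⟨⟨⟨j, k⟩, hB⟩, u⟩
    obtain ⟨h0, h1, -⟩ := hC.state _ hB
    have h2 : (k : ℝ) ≤ K₀ := hK₀' _ hB
    have h3 : (((j : ℤ) : ℝ)) < d * k := by exact_mod_cast h1
    have h4 : (0 : ℝ) ≤ j := by exact_mod_cast h0
    have h5 : (d : ℝ) * k ≤ K := mul_le_mul_of_nonneg_left h2 (by linarith)
    have h6 : (0 : ℝ) ≤ (d : ℝ) * k := by positivity
    unfold val
    push_cast
    calc |(j : ℝ) + d * k * u| ≤ |(j : ℝ)| + |(d : ℝ) * k * u| := abs_add_le _ _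
      _ = j + (d * k) * |(u : ℝ)| := by rw [abs_of_nonneg h4, abs_mul, abs_of_nonneg h6]
      _ ≤ K + K * |(u : ℝ)| := add_le_add (h3.le.trans h5) (mul_le_mul_of_nonneg_right h5 (abs_nonneg _))
      _ = _ := by ring
  set H : {B // B ∈ C} → Set ℤ := fun B => {u : ℤ | |(u : ℝ)| ≤ 2 * X ∧
        ∀ n : ℕ, y / K - 1 < |(((G.step^[n] (B, u)).2 : ℤ) : ℝ)|} with hH
  have hHfin : ∀ B, (H B).Finite := fun B => fin_le (2 * X) _ fun u hu => hu.1
  have hsub : {x : ℤ | x ∈ S d C ∧ |(x : ℝ)| ≤ X ∧ ∀ n : ℕ, y < |(((T d m r)^[n] x : ℤ) : ℝ)|} ⊆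
      ⋃ B ∈ (univ : Finset {B // B ∈ C}), (fun u => val d C (B, u)) '' H B := by
    rintro x ⟨⟨B, hB, hxB⟩, hxX, hx⟩
    rw [Set.mem_iUnion₂]
    refine ⟨⟨B, hB⟩, mem_univ _, ?_⟩
    obtain ⟨u, hu⟩ := Int.modEq_iff_dvd.1 hxB.symm
    have hxu : x = val d C (⟨B, hB⟩, u) := by
      unfold val
      push_cast at hu ⊢
      linarith
    obtain ⟨h0, h1, -⟩ := hC.state _ hB
    have hk1 : 1 ≤ B.2 := Pool.Agent.W44.LM.state_pos D hC hB
    refine ⟨u, ⟨?_, fun n => ?_⟩, hxu.symm⟩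
    · have h3 : (((B.1 : ℤ) : ℝ)) < d * B.2 := by exact_mod_cast h1
      have h4 : (0 : ℝ) ≤ B.1 := by exact_mod_cast h0
      have hk : (1 : ℝ) ≤ B.2 := by exact_mod_cast hk1
      have h5 : (1 : ℝ) ≤ (d : ℝ) * B.2 := by nlinarith
      have h6 : ((d : ℝ) * B.2) * u = x - B.1 := by
        rw [hxu]
        unfold val
        push_cast
        ring
      have h7 : ((d : ℝ) * B.2) * |(u : ℝ)| ≤ X + d * B.2 := by
        have hdB : (0 : ℝ) ≤ (d : ℝ) * B.2 := by linarith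
        calc ((d : ℝ) * B.2) * |(u : ℝ)| = |((d : ℝ) * B.2) * u| := by
              rw [abs_mul ((d : ℝ) * B.2) (u : ℝ), abs_of_nonneg hdB]
          _ = |(x : ℝ) - B.1| := by rw [h6]
          _ ≤ |(x : ℝ)| + |(B.1 : ℝ)| := abs_sub _ _
          _ ≤ X + d * B.2 := add_le_add hxX (by rw [abs_of_nonneg h4]; exact h3.le)
      by_contra hcon
      push Not at hcon
      have h8 : ((d : ℝ) * B.2) * (2 * X) < X + d * B.2 := by
        refine lt_of_lt_of_le ?_ h7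
        exact mul_lt_mul_of_pos_left hcon (by linarith)
      nlinarith
    · have h2 := hx n
      rw [hxu, ← val_iter D hC] at h2
      have h3 := hval (G.step^[n] (⟨B, hB⟩, u))
      rw [div_sub_one (by linarith), div_lt_iff₀ (by linarith)]
      nlinarith
  have hfinU : (⋃ B ∈ (univ : Finset {B // B ∈ C}), (fun u => val d C (B, u)) '' H B).Finite :=
    Set.Finite.biUnion (Finset.finite_toSet _) fun B _ => (hHfin B).image _
  have h1 := (Set.ncard_le_ncard hsub hfinU).trans (Finset.set_ncard_biUnion_le _ _)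
  have h2 : ∑ B ∈ (univ : Finset {B // B ∈ C}), ((fun u => val d C (B, u)) '' H B).ncard ≤
      ∑ B : {B // B ∈ C}, (H B).ncard := sum_le_sum fun B _ => Set.ncard_image_le (hHfin B)
  have h3 := h1.trans h2
  simp only [hH] at h3
  exact_mod_cast h3

/-- the main theorem for Leigh's classes -/
theorem leigh_main (D : Data d m r b e) (hC : Class d m r e C ρ) (hL : Lam d m C ρ < 1) (B₀ : ℕ) :
    ∃ A : ℝ, 0 < A ∧ ∀ X y : ℝ, 1 ≤ X → 2 ≤ y →
      (Set.ncard {x : ℤ | x ∈ S d C ∧ |(x : ℝ)| ≤ X ∧ ∀ n : ℕ, y < |(((T d m r)^[n] x : ℤ) : ℝ)|} : ℝ) ≤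
        A * X / Real.log y ^ B₀ := by
  classical
  obtain ⟨K, hK, htr⟩ := transfer D hC
  obtain ⟨A, hA, hmain⟩ := (LG D hC).main (irr D hC) (drift D hC hL) B₀
  set Y₀ : ℝ := 4 * K ^ 2 with hY₀
  have hY₀4 : 4 ≤ Y₀ := by rw [hY₀]; nlinarith
  have hlY : 0 < Real.log Y₀ := Real.log_pos (by linarith)
  set c : ℝ := (Fintype.card {B // B ∈ C} : ℝ) with hc
  have hc0 : 0 ≤ c := Nat.cast_nonneg _
  refine ⟨3 * Real.log Y₀ ^ B₀ + c * (A * 2 * 2 ^ B₀), by positivity, fun X y hX hy => ?_⟩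
  have hly : 0 < Real.log y := Real.log_pos (by linarith)
  rcases lt_or_ge y Y₀ with hyY | hyY
  · refine (ncard_trivial X hX _ fun x hx => hx.2.1).trans ?_
    rw [le_div_iff₀ (by positivity)]
    have h5 : (Real.log y) ^ B₀ ≤ (Real.log Y₀) ^ B₀ := by
      have : Real.log y ≤ Real.log Y₀ := Real.log_le_log (by linarith) hyY.le
      gcongr
    have h6 : 0 ≤ c * (A * 2 * 2 ^ B₀) * X := by positivity
    have h7 : 3 * X * (Real.log y) ^ B₀ ≤ 3 * X * (Real.log Y₀) ^ B₀ := by gcongr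
    nlinarith
  · have hsq : √y * √y = y := Real.mul_self_sqrt (by linarith)
    have hsK : 2 * K ≤ √y := by
      apply Real.le_sqrt_of_sq_le
      calc (2 * K) ^ 2 = Y₀ := by rw [hY₀]; ring
        _ ≤ y := hyY
    have hs2 : 2 ≤ √y := by linarith
    have hle : √y ≤ y / K - 1 := by
      rw [div_sub_one (by linarith), le_div_iff₀ (by linarith)]
      nlinarith
    have hls : Real.log (√y) = Real.log y / 2 := Real.log_sqrt (by linarith)
    refine (htr X y hX).trans ?_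
    have h1 : ∀ B : {B // B ∈ C}, (Set.ncard {u : ℤ | |(u : ℝ)| ≤ 2 * X ∧
        ∀ n : ℕ, y / K - 1 < |((((LG D hC).step^[n] (B, u)).2 : ℤ) : ℝ)|} : ℝ) ≤
        A * (2 * X) / (Real.log y / 2) ^ B₀ := by
      intro B
      rw [← hls]
      refine le_trans ?_ (hmain (2 * X) (√y) (by linarith) hs2 B)
      have hsub : {u : ℤ | |(u : ℝ)| ≤ 2 * X ∧
        ∀ n : ℕ, y / K - 1 < |((((LG D hC).step^[n] (B, u)).2 : ℤ) : ℝ)|} ⊆ {u : ℤ | |(u : ℝ)| ≤ 2 * X ∧
        ∀ n : ℕ, √y < |((((LG D hC).step^[n] (B, u)).2 : ℤ) : ℝ)|} :=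
        fun u hu => ⟨hu.1, fun n => hle.trans_lt (hu.2 n)⟩
      exact_mod_cast Set.ncard_le_ncard hsub (fin_le (2 * X) _ fun u hu => hu.1)
    refine (sum_le_sum fun B _ => h1 B).trans ?_
    rw [sum_const, card_univ, nsmul_eq_mul, ← hc, div_pow]
    have e : c * (A * (2 * X) / (Real.log y ^ B₀ / 2 ^ B₀)) = c * (A * 2 * 2 ^ B₀) * X / Real.log y ^ B₀ := by
      field_simp
    rw [e]
    apply div_le_div_of_nonneg_right _ (by positivity)
    apply mul_le_mul_of_nonneg_right _ (by linarith)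
    have : 0 ≤ 3 * Real.log Y₀ ^ B₀ := by positivity
    linarith

end Pool.Agent.Zk39.GD
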