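import Mathlib
import Pool.Agent.Zk39.GD.Main

/-!
# First passages: orbits which stay large are rigid
-/

set_option autoImplicit false
set_option linter.unusedSectionVars false

namespace Pool.Agent.Zk39.GD

open Finset Pool.Agent.H319R3.GC

/-- a set of integers of a residue class which is contained in a short interval -/
theorem close {s : Set ℤ} {L : ℝ} (hL : 0 ≤ L) {Q : ℕ} (hQ : 0 < Q)
    (h : ∀ x ∈ s, ∀ y ∈ s, |(x : ℝ) - y| ≤ L ∧ (Q : ℤ) ∣ x - y) : s.Finite ∧ (s.ncard : ℝ) ≤ L / Q + 1 := by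
  classical
  have hQR : (0 : ℝ) < Q := by exact_mod_cast hQ
  have hQZ : (0 : ℤ) < Q := by exact_mod_cast hQ
  rcases s.eq_empty_or_nonempty with h0 | ⟨x₀, hx₀⟩
  · rw [h0]
    refine ⟨Set.finite_empty, ?_⟩
    rw [Set.ncard_empty, Nat.cast_zero]
    positivity
  · have hfin : s.Finite := by
      refine (Set.finite_Icc (x₀ - ⌈L⌉) (x₀ + ⌈L⌉)).subset ?_
      intro x hx
      have h1 := abs_le.1 (h x hx x₀ hx₀).1
      have h2 := Int.le_ceil L
      constructor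
      · have : ((x₀ - ⌈L⌉ : ℤ) : ℝ) ≤ x := by push_cast; linarith [h1.1]
        exact_mod_cast this
      · have : (x : ℝ) ≤ ((x₀ + ⌈L⌉ : ℤ) : ℝ) := by push_cast; linarith [h1.2]
        exact_mod_cast this
    refine ⟨hfin, ?_⟩
    obtain ⟨m, hm, hmin⟩ := hfin.toFinset.exists_min_image (fun x => x) ⟨x₀, hfin.mem_toFinset.2 hx₀⟩
    rw [hfin.mem_toFinset] at hm
    have key : hfin.toFinset.card ≤ (range (⌊L / Q⌋₊ + 1)).card := by
      apply card_le_card_of_injOn (fun x => ((x - m) / (Q : ℤ)).toNat)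
      · intro x hx
        rw [mem_coe, hfin.mem_toFinset] at hx
        rw [mem_coe, mem_range]
        obtain ⟨h1, t, ht⟩ := h x hx m hm
        have hmx : m ≤ x := hmin x (hfin.mem_toFinset.2 hx)
        have ht0 : 0 ≤ t := by
          by_contra hcon
          push Not at hcon
          nlinarith
        have e : (x - m) / (Q : ℤ) = t := by rw [ht, Int.mul_ediv_cancel_left _ hQZ.ne']
        simp only [e]
        have h3 : ((t.toNat : ℕ) : ℝ) ≤ L / Q := by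
          have e2 : ((t.toNat : ℕ) : ℝ) = (t : ℝ) := by exact_mod_cast Int.toNat_of_nonneg ht0
          rw [e2, le_div_iff₀ hQR]
          have e3 : (x : ℝ) - m = Q * t := by exact_mod_cast ht
          have e4 := le_abs_self ((x : ℝ) - m)
          nlinarith
        have := Nat.le_floor h3
        omega
      · intro x hx y hy hxy
        rw [mem_coe, hfin.mem_toFinset] at hx hy
        obtain ⟨-, t, ht⟩ := h x hx m hm
        obtain ⟨-, u, hu⟩ := h y hy m hm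
        have hmx : m ≤ x := hmin x (hfin.mem_toFinset.2 hx)
        have hmy : m ≤ y := hmin y (hfin.mem_toFinset.2 hy)
        have e : (x - m) / (Q : ℤ) = t := by rw [ht, Int.mul_ediv_cancel_left _ hQZ.ne']
        have e' : (y - m) / (Q : ℤ) = u := by rw [hu, Int.mul_ediv_cancel_left _ hQZ.ne']
        simp only [e, e'] at hxy
        have ht0 : 0 ≤ t := by
          by_contra hcon
          push Not at hcon
          nlinarith
        have hu0 : 0 ≤ u := by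
          by_contra hcon
          push Not at hcon
          nlinarith
        have : t = u := by omega
        rw [this] at ht
        linarith
    rw [card_range] at key
    have h1 : (s.ncard : ℝ) ≤ ((⌊L / Q⌋₊ + 1 : ℕ) : ℝ) := by
      rw [Set.ncard_eq_toFinset_card s hfin]
      exact_mod_cast key
    refine h1.trans ?_
    push_cast
    have := Nat.floor_le (show 0 ≤ L / Q by positivity)
    linarith

namespace GS

variable {ι : Type} [Fintype ι] [DecidableEq ι] (G : GS ι) {ρ : ι → ℝ}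

/-- a bound for the offsets of one step -/
theorem exists_c0 : ∃ c₀ : ℝ, 1 ≤ c₀ ∧ ∀ i, ∀ a < G.n i, |(G.c i a : ℝ)| ≤ c₀ := by
  refine ⟨1 + ∑ i, ∑ a ∈ range (G.n i), |(G.c i a : ℝ)|, ?_, fun i a ha => ?_⟩
  · have : 0 ≤ ∑ i, ∑ a ∈ range (G.n i), |(G.c i a : ℝ)| :=
      sum_nonneg fun _ _ => sum_nonneg fun _ _ => abs_nonneg _
    linarith
  · have h1 := single_le_sum (f := fun a => |(G.c i a : ℝ)|) (fun _ _ => abs_nonneg _) (mem_range.2 ha)
    have h2 := single_le_sum (f := fun i => ∑ a ∈ range (G.n i), |(G.c i a : ℝ)|)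
      (fun _ _ => sum_nonneg fun _ _ => abs_nonneg _) (mem_univ i)
    linarith

/-- the orbit -/
noncomputable def xs (s : ℕ) (z : ι × ℤ) : ℝ := (((G.step^[s] z).2 : ℤ) : ℝ)

/-- the multiplier of a path over its denominator -/
noncomputable def qq (i : ι) (w : List ℕ) : ℝ := |(G.Mv (G.ct i w) : ℝ)| / G.Nv (G.ct i w)

theorem xs_zero (z : ι × ℤ) : G.xs 0 z = z.2 := rfl

theorem xs_succ (s : ℕ) (z : ι × ℤ) : G.xs (s + 1) z = G.xs s (G.step z) := by
  unfold xs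
  rw [Function.iterate_succ_apply]

theorem xs_add (s t : ℕ) (z : ι × ℤ) : G.xs (s + t) z = G.xs t (G.step^[s] z) := by
  unfold xs
  rw [add_comm, Function.iterate_add_apply]

theorem qq_pos (i : ι) (w : List ℕ) : 0 < G.qq i w := div_pos (G.abs_Mv_pos _) (G.Nv_posR _)

theorem qq_nil (i : ι) : G.qq i [] = 1 := by
  unfold qq
  rw [ct, Mv_zero, Nv_zero]
  simp

theorem qq_cons (i : ι) (a : ℕ) (w : List ℕ) : G.qq i (a :: w) = |(G.b i : ℝ)| / G.n i * G.qq (G.nx i a) w := by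
  unfold qq
  rw [ct, Mv_add, Nv_add, Mv_single, Nv_single]
  push_cast
  rw [abs_mul]
  have h1 := (G.n_posR i).ne'
  have h2 := (G.Nv_posR (G.ct (G.nx i a) w)).ne'
  field_simp

/-- one step -/
theorem step_bounds {c₀ : ℝ} (hc₀ : ∀ i, ∀ a < G.n i, |(G.c i a : ℝ)| ≤ c₀) {Y : ℝ} (hY : 0 < Y) (z : ι × ℤ)
    (hz : Y ≤ |(z.2 : ℝ)|) :
    |(G.b z.1 : ℝ)| / G.n z.1 * |(z.2 : ℝ)| * (1 - c₀ / Y) ≤ |G.xs 1 z| ∧
      |G.xs 1 z| ≤ |(G.b z.1 : ℝ)| / G.n z.1 * |(z.2 : ℝ)| * (1 + c₀ / Y) := by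
  obtain ⟨i, x⟩ := z
  have hn := G.n_posR i
  have hb := G.b_abs_ge i
  obtain ⟨-, h2⟩ := G.toNat_mod i x
  have hc := hc₀ i _ h2
  have hc0 : 0 ≤ c₀ := (abs_nonneg _).trans hc
  have h3 : (G.n i : ℝ) * G.xs 1 (i, x) = (G.b i : ℝ) * x - (G.c i (x % G.n i).toNat : ℝ) := by
    unfold xs
    exact_mod_cast G.step_eq i x
  simp only at hz ⊢
  set c : ℝ := (G.c i (x % G.n i).toNat : ℝ) with hcdef
  have h4 : (G.n i : ℝ) * |G.xs 1 (i, x)| = |(G.b i : ℝ) * x - c| := by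
    rw [← h3, abs_mul, abs_of_pos hn]
  have h5 : c₀ ≤ c₀ / Y * (|(G.b i : ℝ)| * |(x : ℝ)|) := by
    have h6 : Y ≤ |(G.b i : ℝ)| * |(x : ℝ)| := by nlinarith [abs_nonneg (x : ℝ)]
    calc c₀ = c₀ / Y * Y := by field_simp
      _ ≤ _ := mul_le_mul_of_nonneg_left h6 (by positivity)
  constructor
  · have h6 : |(G.b i : ℝ)| * |(x : ℝ)| - c₀ ≤ (G.n i : ℝ) * |G.xs 1 (i, x)| := by
      rw [h4]
      have := abs_sub_abs_le_abs_sub ((G.b i : ℝ) * x) c
      rw [abs_mul] at this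
      linarith
    have e : |(G.b i : ℝ)| / G.n i * |(x : ℝ)| * (1 - c₀ / Y) =
        (|(G.b i : ℝ)| * |(x : ℝ)| - c₀ / Y * (|(G.b i : ℝ)| * |(x : ℝ)|)) / G.n i := by
      field_simp
    rw [e, div_le_iff₀ hn]
    linarith
  · have h6 : (G.n i : ℝ) * |G.xs 1 (i, x)| ≤ |(G.b i : ℝ)| * |(x : ℝ)| + c₀ := by
      rw [h4]
      have := abs_sub ((G.b i : ℝ) * x) c
      rw [abs_mul] at this
      linarith
    have e : |(G.b i : ℝ)| / G.n i * |(x : ℝ)| * (1 + c₀ / Y) =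
        (|(G.b i : ℝ)| * |(x : ℝ)| + c₀ / Y * (|(G.b i : ℝ)| * |(x : ℝ)|)) / G.n i := by
      field_simp
    rw [e, le_div_iff₀ hn]
    linarith

theorem lower {c₀ : ℝ} (hc₀ : ∀ i, ∀ a < G.n i, |(G.c i a : ℝ)| ≤ c₀) {Y : ℝ} (hY : 0 < Y) (hcY : c₀ ≤ Y) (n : ℕ) :
    ∀ z : ι × ℤ, (∀ s < n, Y ≤ |G.xs s z|) →
      G.qq z.1 (G.wd n z) * |(z.2 : ℝ)| * (1 - c₀ / Y) ^ n ≤ |G.xs n z| := by
  have h1 : 0 ≤ 1 - c₀ / Y := by
    have : c₀ / Y ≤ 1 := (div_le_one hY).2 hcY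
    linarith
  induction n with
  | zero =>
    intro z _
    simp only [wd, qq_nil, xs_zero, pow_zero]
    linarith
  | succ n ih =>
    intro z hz
    have hz0 : Y ≤ |(z.2 : ℝ)| := hz 0 (by omega)
    have h2 := (G.step_bounds hc₀ hY z hz0).1
    have h3 := ih (G.step z) fun s hs => by
      have := hz (s + 1) (by omega)
      rwa [xs_succ] at this
    rw [xs_succ]
    refine le_trans ?_ h3
    have e1 : G.qq z.1 (G.wd (n + 1) z) = |(G.b z.1 : ℝ)| / G.n z.1 * G.qq (G.step z).1 (G.wd n (G.step z)) := by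
      simp only [wd]
      rw [qq_cons]
      rfl
    have e2 : G.xs 1 z = ((G.step z).2 : ℝ) := rfl
    rw [e2] at h2
    have hq := G.qq_pos (G.step z).1 (G.wd n (G.step z))
    rw [e1]
    calc |(G.b z.1 : ℝ)| / G.n z.1 * G.qq (G.step z).1 (G.wd n (G.step z)) * |(z.2 : ℝ)| * (1 - c₀ / Y) ^ (n + 1)
        = G.qq (G.step z).1 (G.wd n (G.step z)) * (|(G.b z.1 : ℝ)| / G.n z.1 * |(z.2 : ℝ)| * (1 - c₀ / Y)) *
            (1 - c₀ / Y) ^ n := by ring
      _ ≤ G.qq (G.step z).1 (G.wd n (G.step z)) * |((G.step z).2 : ℝ)| * (1 - c₀ / Y) ^ n := by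
          gcongr

theorem upper {c₀ : ℝ} (hc0 : 0 ≤ c₀) (hc₀ : ∀ i, ∀ a < G.n i, |(G.c i a : ℝ)| ≤ c₀) {Y : ℝ} (hY : 0 < Y) (n : ℕ) :
    ∀ z : ι × ℤ, (∀ s < n, Y ≤ |G.xs s z|) →
      |G.xs n z| ≤ G.qq z.1 (G.wd n z) * |(z.2 : ℝ)| * (1 + c₀ / Y) ^ n := by
  induction n with
  | zero =>
    intro z _
    simp only [wd, qq_nil, xs_zero, pow_zero]
    linarith
  | succ n ih =>
    intro z hz
    have hz0 : Y ≤ |(z.2 : ℝ)| := hz 0 (by omega)
    have h2 := (G.step_bounds hc₀ hY z hz0).2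
    have h3 := ih (G.step z) fun s hs => by
      have := hz (s + 1) (by omega)
      rwa [xs_succ] at this
    rw [xs_succ]
    refine h3.trans ?_
    have e1 : G.qq z.1 (G.wd (n + 1) z) = |(G.b z.1 : ℝ)| / G.n z.1 * G.qq (G.step z).1 (G.wd n (G.step z)) := by
      simp only [wd]
      rw [qq_cons]
      rfl
    have e2 : G.xs 1 z = ((G.step z).2 : ℝ) := rfl
    rw [e2] at h2
    have hq := G.qq_pos (G.step z).1 (G.wd n (G.step z))
    have hc : 0 ≤ c₀ / Y := by positivity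
    rw [e1]
    calc G.qq (G.step z).1 (G.wd n (G.step z)) * |((G.step z).2 : ℝ)| * (1 + c₀ / Y) ^ n
        ≤ G.qq (G.step z).1 (G.wd n (G.step z)) * (|(G.b z.1 : ℝ)| / G.n z.1 * |(z.2 : ℝ)| * (1 + c₀ / Y)) *
            (1 + c₀ / Y) ^ n := by gcongr
      _ = _ := by ring

theorem pow_lo {c₀ Y : ℝ} {n : ℕ} (hc0 : 0 ≤ c₀) (hY : 0 < Y) (hcY : c₀ ≤ Y) (hn : n * (c₀ / Y) ≤ 1 / 2) :
    1 / 2 ≤ (1 - c₀ / Y) ^ n := by
  have h1 : c₀ / Y ≤ 1 := (div_le_one hY).2 hcY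
  have h2 := one_add_mul_le_pow (show (-2 : ℝ) ≤ -(c₀ / Y) by linarith) n
  rw [← sub_eq_add_neg] at h2
  linarith

theorem pow_hi {c₀ Y : ℝ} {n : ℕ} (hc0 : 0 ≤ c₀) (hY : 0 < Y) (hn : n * (c₀ / Y) ≤ 1 / 2) :
    (1 + c₀ / Y) ^ n ≤ 2 := by
  have h0 : 0 ≤ c₀ / Y := by positivity
  have h1 : (1 + c₀ / Y) ^ n ≤ Real.exp (c₀ / Y) ^ n := by
    apply pow_le_pow_left₀ (by positivity)
    have := Real.add_one_le_exp (c₀ / Y)
    linarith
  rw [← Real.exp_nat_mul] at h1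
  refine h1.trans ((Real.exp_le_exp.2 hn).trans ?_)
  have h2 : Real.exp (1 / 2) ^ 2 ≤ 2 ^ 2 := by
    rw [← Real.exp_nat_mul]
    have := Real.exp_one_lt_d9
    norm_num
    linarith
  exact (pow_le_pow_iff_left₀ (Real.exp_pos _).le (by norm_num) (by norm_num)).1 h2

/-- the offset of a first passage -/
theorem off {c₀ : ℝ} (hc1 : 1 ≤ c₀) (hc₀ : ∀ i, ∀ a < G.n i, |(G.c i a : ℝ)| ≤ c₀) {Y : ℝ} (hY : 0 < Y)
    (hcY : c₀ ≤ Y) (n : ℕ) : ∀ z : ι × ℤ, n * (c₀ / Y) ≤ 1 / 2 → (∀ s < n, Y ≤ |G.xs s z|) →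
      (∀ s ≤ n, 1 ≤ s → |G.xs n z| ≤ |G.xs s z|) →
      |(G.Ww z.1 (G.wd n z) : ℝ)| ≤ 2 * c₀ * n * G.Nv (G.ct z.1 (G.wd n z)) := by
  induction n with
  | zero =>
    intro z _ _ _
    simp [wd, Ww]
  | succ n ih =>
    intro z hn hz hmin
    have hc0 : 0 ≤ c₀ := by linarith
    have hcY0 : 0 ≤ c₀ / Y := by positivity
    have hn' : (n : ℝ) * (c₀ / Y) ≤ 1 / 2 := by
      refine le_trans (mul_le_mul_of_nonneg_right ?_ hcY0) hn
      push_cast
      linarith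
    have hz' : ∀ s < n, Y ≤ |G.xs s (G.step z)| := fun s hs => by
      have := hz (s + 1) (by omega)
      rwa [xs_succ] at this
    have h1 := ih (G.step z) hn' hz' fun s hs h1s => by
      have := hmin (s + 1) (by omega) (by omega)
      rwa [xs_succ, xs_succ] at this
    have e0 : G.wd (n + 1) z = (z.2 % G.n z.1).toNat :: G.wd n (G.step z) := rfl
    have e1 : G.nx z.1 (z.2 % G.n z.1).toNat = (G.step z).1 := rfl
    obtain ⟨-, h2⟩ := G.toNat_mod z.1 z.2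
    have hc := hc₀ z.1 _ h2
    rw [e0]
    simp only [Ww, ct, Nv_add, Nv_single, e1]
    set w := G.wd n (G.step z) with hw
    set j := (G.step z).1 with hj
    have hNv := G.Nv_posR (G.ct j w)
    have hnn := G.n_ge z.1
    -- the multiplier is at most two
    have hq : |(G.Mv (G.ct j w) : ℝ)| ≤ 2 * G.Nv (G.ct j w) := by
      rcases Nat.eq_zero_or_pos n with h0 | h0
      · have hw0 : w = [] := by rw [hw, h0]; rfl
        rw [hw0, ct, Mv_zero, Nv_zero]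
        simp
      · have h3 := G.lower hc₀ hY hcY n (G.step z) hz'
        have h4 := pow_lo (n := n) hc0 hY hcY hn'
        have h5 : |G.xs n (G.step z)| ≤ |((G.step z).2 : ℝ)| := by
          have := hmin 1 (by omega) le_rfl
          rwa [xs_succ, xs_succ] at this
        have h6 : Y ≤ |((G.step z).2 : ℝ)| := hz' 0 h0
        have h7 : 0 < |((G.step z).2 : ℝ)| := by linarith
        have hqp := G.qq_pos j w
        have h8 : G.qq j w * |((G.step z).2 : ℝ)| * (1 / 2) ≤ |((G.step z).2 : ℝ)| := by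
          refine le_trans ?_ (h3.trans h5)
          exact mul_le_mul_of_nonneg_left h4 (by positivity)
        have h9 : G.qq j w ≤ 2 := by
          by_contra hcon
          push Not at hcon
          nlinarith
        unfold qq at h9
        rwa [div_le_iff₀ hNv] at h9
    push_cast
    calc |(G.c z.1 (z.2 % G.n z.1).toNat : ℝ) * (G.Mv (G.ct j w) : ℝ) + (G.n z.1 : ℝ) * (G.Ww j w : ℝ)|
        ≤ |(G.c z.1 (z.2 % G.n z.1).toNat : ℝ) * (G.Mv (G.ct j w) : ℝ)| + |(G.n z.1 : ℝ) * (G.Ww j w : ℝ)| :=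
          abs_add_le _ _
      _ = |(G.c z.1 (z.2 % G.n z.1).toNat : ℝ)| * |(G.Mv (G.ct j w) : ℝ)| + (G.n z.1 : ℝ) * |(G.Ww j w : ℝ)| := by
          rw [abs_mul, abs_mul, Nat.abs_cast]
      _ ≤ c₀ * (2 * G.Nv (G.ct j w)) + (G.n z.1 : ℝ) * (2 * c₀ * n * G.Nv (G.ct j w)) := by
          gcongr
      _ ≤ 2 * c₀ * (n + 1) * (G.n z.1 * G.Nv (G.ct j w)) := by
          have h3 : 0 ≤ c₀ * G.Nv (G.ct j w) := by positivity
          nlinarith

/-- the number of the integers of a class with a given first passage -/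
theorem pass_count {c₀ : ℝ} (hc1 : 1 ≤ c₀) (hc₀ : ∀ i, ∀ a < G.n i, |(G.c i a : ℝ)| ≤ c₀) {a U : ℝ} (ha : 0 < a)
    {n Q : ℕ} (hQ : 0 < Q) (c : ℤ) (i j : ι) (v : ι → ℕ) (z : ℤ) (hU : c₀ ≤ U) (hn : n * (c₀ / U) ≤ 1 / 2)
    (hz : z ≠ 0) (hzU : |(z : ℝ)| ≤ U) :
    {x : ℤ | |(x : ℝ)| < 2 * a ∧ (Q : ℤ) ∣ x - c ∧ G.wd n (i, x) ∈ G.gr n i j v ∧ (G.step^[n] (i, x)).2 = z ∧
      ∀ s < n, U ≤ |G.xs s (i, x)|}.Finite ∧
    ({x : ℤ | |(x : ℝ)| < 2 * a ∧ (Q : ℤ) ∣ x - c ∧ G.wd n (i, x) ∈ G.gr n i j v ∧ (G.step^[n] (i, x)).2 = z ∧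
      ∀ s < n, U ≤ |G.xs s (i, x)|}.ncard : ℝ) ≤ 16 * c₀ * n * a / |(z : ℝ)| / Q + 1 := by
  have hU0 : 0 < U := by linarith
  have hz0 : 0 < |(z : ℝ)| := by
    have : (z : ℝ) ≠ 0 := by exact_mod_cast hz
    exact abs_pos.2 this
  have hN := G.Nv_posR v
  have hM := G.abs_Mv_pos v
  have key : ∀ x : ℤ, |(x : ℝ)| < 2 * a ∧ (Q : ℤ) ∣ x - c ∧ G.wd n (i, x) ∈ G.gr n i j v ∧
      (G.step^[n] (i, x)).2 = z ∧ (∀ s < n, U ≤ |G.xs s (i, x)|) →
      |(G.Mv v : ℝ) * x - G.Nv v * z| ≤ 2 * c₀ * n * G.Nv v ∧ (G.Nv v : ℝ) * |(z : ℝ)| ≤ |(G.Mv v : ℝ)| * (4 * a) := by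
    rintro x ⟨hx1, -, hx3, hx4, hx5⟩
    obtain ⟨-, -, hct⟩ := G.mem_gr.1 hx3
    have h1 := G.iterR n i x
    rw [hct, hx4] at h1
    have hxn : G.xs n (i, x) = z := by unfold xs; rw [hx4]
    constructor
    · have h2 := G.off hc1 hc₀ hU0 hU n (i, x) hn hx5 fun s hs hs1 => by
        rcases hs.lt_or_eq with h3 | h3
        · rw [hxn]
          exact hzU.trans (hx5 s h3)
        · rw [h3]
      simp only [hct] at h2
      have e : (G.Mv v : ℝ) * x - G.Nv v * z = (G.Ww i (G.wd n (i, x)) : ℝ) := by linarith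
      rw [e]
      exact h2
    · have h2 := G.upper (by linarith) hc₀ hU0 n (i, x) hx5
      have h3 := pow_hi (n := n) (by linarith : 0 ≤ c₀) hU0 hn
      rw [hxn] at h2
      have hq : G.qq i (G.wd n (i, x)) = |(G.Mv v : ℝ)| / G.Nv v := by
        unfold qq
        rw [hct]
      simp only [hq] at h2
      have h4 : |(z : ℝ)| ≤ |(G.Mv v : ℝ)| / G.Nv v * (2 * a) * 2 := by
        refine h2.trans ?_
        gcongr
      have e : |(G.Mv v : ℝ)| / G.Nv v * (2 * a) * 2 = |(G.Mv v : ℝ)| * (4 * a) / G.Nv v := by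
        field_simp
        ring
      rw [e, le_div_iff₀ hN] at h4
      linarith
  have hL : 0 ≤ 16 * c₀ * n * a / |(z : ℝ)| := by
    have : 0 ≤ c₀ := by linarith
    positivity
  refine close hL hQ ?_
  intro x hx y hy
  obtain ⟨hx1, hx2⟩ := key x hx
  obtain ⟨hy1, -⟩ := key y hy
  constructor
  · rw [le_div_iff₀ hz0]
    have h1 : |(G.Mv v : ℝ)| * |(x : ℝ) - y| ≤ 4 * c₀ * n * G.Nv v := by
      calc |(G.Mv v : ℝ)| * |(x : ℝ) - y| = |((G.Mv v : ℝ) * x - G.Nv v * z) - ((G.Mv v : ℝ) * y - G.Nv v * z)| := by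
            rw [← abs_mul]
            congr 1
            ring
        _ ≤ |(G.Mv v : ℝ) * x - G.Nv v * z| + |(G.Mv v : ℝ) * y - G.Nv v * z| := abs_sub _ _
        _ ≤ 2 * c₀ * n * G.Nv v + 2 * c₀ * n * G.Nv v := add_le_add hx1 hy1
        _ = _ := by ring
    have h2 : |(G.Mv v : ℝ)| * (|(x : ℝ) - y| * |(z : ℝ)|) ≤ |(G.Mv v : ℝ)| * (16 * c₀ * n * a) := by
      have hcn : 0 ≤ 4 * c₀ * n := by
        have : 0 ≤ c₀ := by linarith
        positivity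
      calc |(G.Mv v : ℝ)| * (|(x : ℝ) - y| * |(z : ℝ)|) = |(G.Mv v : ℝ)| * |(x : ℝ) - y| * |(z : ℝ)| := by ring
        _ ≤ 4 * c₀ * n * G.Nv v * |(z : ℝ)| := mul_le_mul_of_nonneg_right h1 (abs_nonneg _)
        _ = 4 * c₀ * n * (G.Nv v * |(z : ℝ)|) := by ring
        _ ≤ 4 * c₀ * n * (|(G.Mv v : ℝ)| * (4 * a)) := mul_le_mul_of_nonneg_left hx2 hcn
        _ = _ := by ring
    exact le_of_mul_le_mul_left h2 hM
  · have := dvd_sub hx.2.1 hy.2.1
    have e : x - c - (y - c) = x - y := by ring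
    rwa [e] at this

end GS

end Pool.Agent.Zk39.GD
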