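import Mathlib
import Pool.Agent.Zk39.GD.Pass

/-!
# Few points do not descend in a short time
-/

set_option autoImplicit false
set_option linter.unusedSectionVars false

namespace Pool.Agent.Zk39.GD

open Finset Pool.Agent.H319R3.GC

namespace GS

variable {ι : Type} [Fintype ι] [DecidableEq ι] (G : GS ι) {ρ : ι → ℝ}

open scoped Classical in
/-- large multipliers are rare -/
theorem markov_q (h : G.Irr ρ) (hd : G.mm ρ < G.hh ρ) : ∃ lam C c : ℝ, 0 < lam ∧ 0 < C ∧ 0 < c ∧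
    ∀ (k : ℕ) (i : ι) (t : ℝ), 0 < t →
      ∑ w ∈ (G.Pth k i).filter (fun w => t ≤ G.qq i w), (1 : ℝ) / G.Nv (G.ct i w) ≤
        C * Real.exp (-(c * k)) / t ^ lam := by
  obtain ⟨lam, C, c, hlam, -, hC, hc, hr⟩ := G.rate h hd
  refine ⟨lam, C, c, hlam, hC, hc, fun k i t ht => ?_⟩
  have htl : 0 < t ^ lam := Real.rpow_pos_of_pos ht _
  rw [le_div_iff₀ htl]
  refine le_trans ?_ (hr k i)
  unfold Ex
  rw [sum_mul]
  refine le_trans (sum_le_sum fun w hw => ?_) (sum_le_sum_of_subset_of_nonneg (filter_subset _ _) fun w _ _ => ?_)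
  · rw [mem_filter] at hw
    have h1 := Real.rpow_le_rpow ht.le hw.2 hlam.le
    rw [div_mul_eq_mul_div, one_mul]
    exact div_le_div_of_nonneg_right h1 (G.Nv_posR _).le
  · have := G.Nv_posR (G.ct i w)
    positivity

/-- few integers of a window and a class stay above `U` for `n` steps -/
theorem high (h : G.Irr ρ) (hd : G.mm ρ < G.hh ρ) : ∃ lam C c : ℝ, 0 < lam ∧ 0 < C ∧ 0 < c ∧
    ∀ (c₀ : ℝ), 1 ≤ c₀ → (∀ i, ∀ a < G.n i, |(G.c i a : ℝ)| ≤ c₀) → ∀ (a U : ℝ) (n Q : ℕ), 0 < a → 0 < U →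
      n * (c₀ / U) ≤ 1 / 2 → 0 < Q → (∀ v, IsCoprime (G.Nv v : ℤ) (Q : ℤ)) → Real.exp (n * G.Lg) * Q ≤ a →
      ∀ (i : ι) (e : ℤ),
      {x : ℤ | a ≤ |(x : ℝ)| ∧ |(x : ℝ)| < 2 * a ∧ (Q : ℤ) ∣ x - e ∧ ∀ s ≤ n, U ≤ |G.xs s (i, x)|}.Finite ∧
      ({x : ℤ | a ≤ |(x : ℝ)| ∧ |(x : ℝ)| < 2 * a ∧ (Q : ℤ) ∣ x - e ∧ ∀ s ≤ n, U ≤ |G.xs s (i, x)|}.ncard : ℝ) ≤
        a / Q * (C * Real.exp (-(c * n)) * (a / U) ^ lam) := by
  classical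
  obtain ⟨lam, C, c, hlam, hC, hc, hm⟩ := G.markov_q h hd
  refine ⟨lam, 4 * C * 4 ^ lam, c, hlam, by positivity, hc, ?_⟩
  intro c₀ hc1 hc₀ a U n Q ha hU hn hQ hQN hk i e
  have hQR : (0 : ℝ) < Q := by exact_mod_cast hQ
  have hN : ∀ v ∈ Vs ι n, (G.Nv v : ℝ) ≤ Real.exp (n * G.Lg) := by
    intro v hv
    rw [← Real.log_le_iff_le_exp (G.Nv_posR v)]
    exact G.log_Nv_le hv
  set t : ℝ := U / (4 * a) with ht
  have ht0 : 0 < t := by positivity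
  set Bad : Finset (List ℕ) := (G.Pth n i).filter (fun w => t ≤ G.qq i w) with hBad
  have hfin : {x : ℤ | a ≤ |(x : ℝ)| ∧ |(x : ℝ)| < 2 * a ∧ (Q : ℤ) ∣ x - e}.Finite :=
    (win_le ha.le (by linarith : a ≤ 2 * a) hQ e).1
  have hsub : {x : ℤ | a ≤ |(x : ℝ)| ∧ |(x : ℝ)| < 2 * a ∧ (Q : ℤ) ∣ x - e ∧ ∀ s ≤ n, U ≤ |G.xs s (i, x)|} ⊆
      {x : ℤ | a ≤ |(x : ℝ)| ∧ |(x : ℝ)| < 2 * a ∧ (Q : ℤ) ∣ x - e ∧ G.wd n (i, x) ∈ Bad} := by
    rintro x ⟨h1, h2, h3, h4⟩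
    refine ⟨h1, h2, h3, ?_⟩
    rw [hBad, mem_filter]
    refine ⟨G.wd_mem n i x, ?_⟩
    have h5 := G.upper (by linarith) hc₀ hU n (i, x) fun s hs => h4 s hs.le
    have h6 := pow_hi (n := n) (by linarith : 0 ≤ c₀) hU hn
    have h7 := h4 n le_rfl
    have hq := G.qq_pos i (G.wd n (i, x))
    rw [ht, div_le_iff₀ (by positivity)]
    calc U ≤ |G.xs n (i, x)| := h7
      _ ≤ G.qq i (G.wd n (i, x)) * |(x : ℝ)| * (1 + c₀ / U) ^ n := h5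
      _ ≤ G.qq i (G.wd n (i, x)) * (2 * a) * 2 := by gcongr
      _ = _ := by ring
  have hfin2 : {x : ℤ | a ≤ |(x : ℝ)| ∧ |(x : ℝ)| < 2 * a ∧ (Q : ℤ) ∣ x - e ∧ G.wd n (i, x) ∈ Bad}.Finite :=
    hfin.subset (by rintro x ⟨h1, h2, h3, -⟩; exact ⟨h1, h2, h3⟩)
  refine ⟨hfin2.subset hsub, ?_⟩
  have h1 : ({x : ℤ | a ≤ |(x : ℝ)| ∧ |(x : ℝ)| < 2 * a ∧ (Q : ℤ) ∣ x - e ∧
      ∀ s ≤ n, U ≤ |G.xs s (i, x)|}.ncard : ℝ) ≤
      ({x : ℤ | a ≤ |(x : ℝ)| ∧ |(x : ℝ)| < 2 * a ∧ (Q : ℤ) ∣ x - e ∧ G.wd n (i, x) ∈ Bad}.ncard : ℝ) := by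
    exact_mod_cast Set.ncard_le_ncard hsub hfin2
  refine h1.trans ((G.bad_words i ha hQ hQN hN hk e Bad (filter_subset _ _)).trans ?_)
  have h2 := hm n i t ht0
  have e1 : ∑ w ∈ Bad, 4 * a / (G.Nv (G.ct i w) * Q) = 4 * (a / Q) * ∑ w ∈ Bad, (1 : ℝ) / G.Nv (G.ct i w) := by
    rw [mul_sum]
    refine sum_congr rfl fun w _ => ?_
    have := (G.Nv_posR (G.ct i w)).ne'
    field_simp
  rw [e1]
  refine (mul_le_mul_of_nonneg_left h2 (by positivity)).trans (le_of_eq ?_)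
  have e2 : t ^ lam = (4 ^ lam)⁻¹ * ((a / U) ^ lam)⁻¹ := by
    rw [ht, ← Real.inv_rpow (by norm_num), ← Real.inv_rpow (by positivity), ← Real.mul_rpow (by norm_num) (by positivity)]
    congr 1
    field_simp
  rw [e2]
  have h4l : (4 : ℝ) ^ lam ≠ 0 := (Real.rpow_pos_of_pos (by norm_num) _).ne'
  have haU : (a / U) ^ lam ≠ 0 := (Real.rpow_pos_of_pos (by positivity) _).ne'
  field_simp

/-- the points which do not descend below `2 ^ k` within `s` steps -/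
def Stk (k s : ℕ) (j : ι) : Set ℤ := {z | |(z : ℝ)| < 2 ^ (k + 1) ∧ ∀ t ≤ s, 2 ^ k ≤ |G.xs t (j, z)|}

/-- the number of steps allowed at the level `k` -/
noncomputable def sk (k : ℕ) : ℕ := ⌊k * Real.log 2 / G.Lg⌋₊

theorem sk_mono {k l : ℕ} (hLg : 0 < G.Lg) (hkl : k ≤ l) : G.sk k ≤ G.sk l := by
  unfold sk
  apply Nat.floor_le_floor
  have h1 : (k : ℝ) ≤ l := by exact_mod_cast hkl
  have h2 : 0 < Real.log 2 := Real.log_pos (by norm_num)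
  gcongr

theorem stuck_bound (h : G.Irr ρ) (hd : G.mm ρ < G.hh ρ) : ∃ (C c' : ℝ) (k₀ : ℕ), 0 < C ∧ 0 < c' ∧ ∀ k, k₀ ≤ k → ∀ j,
    (G.Stk k (G.sk k) j).Finite ∧ ((G.Stk k (G.sk k) j).ncard : ℝ) ≤ C * 2 ^ k * ((2 : ℝ) ^ k) ^ (-c') := by
  obtain ⟨lam, C, c, hlam, hC, hc, hm⟩ := G.high h hd
  obtain ⟨c₀, hc1, hc₀⟩ := G.exists_c0
  have hmm := G.mm_nonneg h
  have hhh := G.hh_le h
  have hLg : 0 < G.Lg := by linarith
  have hl2 : 0 < Real.log 2 := Real.log_pos (by norm_num)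
  -- `k ≤ 2 ^ k` eventually with constants
  obtain ⟨k₀, hk₀⟩ : ∃ k₀ : ℕ, ∀ k, k₀ ≤ k → (k : ℝ) * (Real.log 2 / G.Lg * c₀) ≤ 1 / 2 * 2 ^ k := by
    have h1 : Filter.Tendsto (fun k : ℕ => (k : ℝ) / 2 ^ k) Filter.atTop (nhds 0) := by
      have := tendsto_pow_const_div_const_pow_of_one_lt 1 (show (1 : ℝ) < 2 by norm_num)
      simpa using this
    have hpos : 0 < 1 / (2 * (Real.log 2 / G.Lg * c₀)) := by positivity
    obtain ⟨k₀, hk₀⟩ := (h1.eventually (gt_mem_nhds hpos)).exists_forall_of_atTop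
    refine ⟨k₀, fun k hk => ?_⟩
    have h2 := (hk₀ k hk).le
    rw [div_le_div_iff₀ (by positivity) (by positivity)] at h2
    linarith
  refine ⟨C * Real.exp c, c / G.Lg, k₀, by positivity, by positivity, fun k hk j => ?_⟩
  have h2k : (0 : ℝ) < 2 ^ k := by positivity
  have hsk : (G.sk k : ℝ) ≤ k * Real.log 2 / G.Lg := Nat.floor_le (by positivity)
  have hsk' : k * Real.log 2 / G.Lg < (G.sk k : ℝ) + 1 := Nat.lt_floor_add_one _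
  have hn : (G.sk k : ℝ) * (c₀ / 2 ^ k) ≤ 1 / 2 := by
    rw [← mul_div_assoc, div_le_iff₀ h2k]
    refine le_trans ?_ (hk₀ k hk)
    have := mul_le_mul_of_nonneg_right hsk (show 0 ≤ c₀ by linarith)
    refine this.trans (le_of_eq ?_)
    ring
  have hexp : Real.exp (G.sk k * G.Lg) * ((1 : ℕ) : ℝ) ≤ 2 ^ k := by
    rw [Nat.cast_one, mul_one]
    have h1 : (G.sk k : ℝ) * G.Lg ≤ k * Real.log 2 := by rwa [le_div_iff₀ hLg] at hsk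
    calc Real.exp (G.sk k * G.Lg) ≤ Real.exp (k * Real.log 2) := Real.exp_le_exp.2 h1
      _ = 2 ^ k := by rw [Real.exp_nat_mul, Real.exp_log (by norm_num)]
  obtain ⟨hf, hcard⟩ := hm c₀ hc1 hc₀ (2 ^ k) (2 ^ k) (G.sk k) 1 h2k h2k hn one_pos
    (fun v => by rw [Nat.cast_one]; exact isCoprime_one_right) hexp j 0
  have hsub : G.Stk k (G.sk k) j ⊆ {x : ℤ | (2 : ℝ) ^ k ≤ |(x : ℝ)| ∧ |(x : ℝ)| < 2 * 2 ^ k ∧ ((1 : ℕ) : ℤ) ∣ x - 0 ∧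
      ∀ s ≤ G.sk k, (2 : ℝ) ^ k ≤ |G.xs s (j, x)|} := by
    rintro z ⟨h1, h2⟩
    refine ⟨h2 0 (Nat.zero_le _), ?_, by simp, h2⟩
    rw [pow_succ] at h1
    linarith
  refine ⟨hf.subset hsub, ?_⟩
  have h1 : ((G.Stk k (G.sk k) j).ncard : ℝ) ≤ ({x : ℤ | (2 : ℝ) ^ k ≤ |(x : ℝ)| ∧ |(x : ℝ)| < 2 * 2 ^ k ∧
      ((1 : ℕ) : ℤ) ∣ x - 0 ∧ ∀ s ≤ G.sk k, (2 : ℝ) ^ k ≤ |G.xs s (j, x)|}.ncard : ℝ) := by
    exact_mod_cast Set.ncard_le_ncard hsub hf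
  refine h1.trans (hcard.trans ?_)
  rw [Nat.cast_one, div_one, div_self h2k.ne', Real.one_rpow, mul_one]
  have h2 : Real.exp (-(c * G.sk k)) ≤ Real.exp c * ((2 : ℝ) ^ k) ^ (-(c / G.Lg)) := by
    rw [Real.rpow_def_of_pos h2k, Real.log_pow, ← Real.exp_add]
    apply Real.exp_le_exp.2
    have h3 := mul_lt_mul_of_pos_left hsk' hc
    have e : c * (k * Real.log 2 / G.Lg) = k * Real.log 2 * (c / G.Lg) := by ring
    rw [e] at h3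
    linarith
  calc 2 ^ k * (C * Real.exp (-(c * G.sk k)))
      ≤ 2 ^ k * (C * (Real.exp c * ((2 : ℝ) ^ k) ^ (-(c / G.Lg)))) := by gcongr
    _ = _ := by ring

/-- the chain of first passages -/
theorem chain (z : ι × ℤ) {S ks ky n₀ : ℕ} (hS : ∀ k < ks, G.sk k ≤ S) (hky : ky ≤ ks)
    (h0 : |G.xs n₀ z| < 2 ^ ks) (h1 : ∀ s < n₀, 2 ^ ks ≤ |G.xs s z|) (hav : ∀ n, 2 ^ ky ≤ |G.xs n z|) :
    ∃ k, ky ≤ k ∧ k < ks ∧ ∃ n ≤ n₀ + ks * S, |G.xs n z| < 2 ^ (k + 1) ∧ (∀ s < n, 2 ^ (k + 1) ≤ |G.xs s z|) ∧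
      ∀ t ≤ G.sk k, 2 ^ k ≤ |G.xs (n + t) z| := by
  by_contra hcon
  push Not at hcon
  have key : ∀ l, ∀ k, k + l = ks → ky ≤ k → ∃ n ≤ n₀ + l * S, |G.xs n z| < 2 ^ k ∧ ∀ s < n, 2 ^ k ≤ |G.xs s z| := by
    intro l
    induction l with
    | zero =>
      intro k hk _
      rw [add_zero] at hk
      subst hk
      exact ⟨n₀, by omega, h0, h1⟩
    | succ l ih =>
      intro k hk hkk
      obtain ⟨n, hn, h2, h3⟩ := ih (k + 1) (by omega) (by omega)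
      have hnS : n ≤ n₀ + ks * S := hn.trans (by gcongr; omega)
      obtain ⟨t, ht, h4⟩ := hcon k hkk (by omega) n hnS h2 h3
      classical
      have hex : ∃ m, |G.xs m z| < 2 ^ k := ⟨n + t, h4⟩
      refine ⟨Nat.find hex, ?_, Nat.find_spec hex, fun s hs => ?_⟩
      · refine (Nat.find_min' hex h4).trans ?_
        have := hS k (by omega)
        have e : (l + 1) * S = l * S + S := by ring
        omega
      · exact not_lt.1 (Nat.find_min hex hs)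
  obtain ⟨n, -, h2, -⟩ := key (ks - ky) ky (by omega) le_rfl
  exact absurd (hav n) (not_le.2 h2)

end GS

end Pool.Agent.Zk39.GD
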