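import Mathlib
import Pool.Agent.Zk39.GD.Stuck

/-!
# The exceptional set at moderate scales, in residue classes
-/

set_option autoImplicit false
set_option linter.unusedSectionVars false

namespace Pool.Agent.Zk39.GD

open Finset Pool.Agent.H319R3.GC

namespace GS

variable {ι : Type} [Fintype ι] [DecidableEq ι] (G : GS ι) {ρ : ι → ℝ}

open scoped Classical in
theorem base_raw (h : G.Irr ρ) (hd : G.mm ρ < G.hh ρ) : ∃ (lam Ch ch Cs c' c₀ : ℝ) (k₀ : ℕ), 0 < lam ∧ 0 < Ch ∧ 0 < ch ∧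
    0 < Cs ∧ 0 < c' ∧ 1 ≤ c₀ ∧
    ∀ (y a : ℝ) (ks ky n₁ Q : ℕ), 0 < a → 0 < Q → (∀ v, IsCoprime (G.Nv v : ℤ) (Q : ℤ)) → k₀ ≤ ky → (2 : ℝ) ^ ky ≤ y →
      Real.exp (n₁ * G.Lg) * Q ≤ a → 2 ^ ks * (Q : ℝ) ≤ a → c₀ ≤ 2 ^ ky →
      ((n₁ + ks * G.sk ks : ℕ) : ℝ) * (c₀ / 2 ^ ky) ≤ 1 / 2 → ∀ (i : ι) (e : ℤ),
      ({x : ℤ | (∀ n, y < |G.xs n (i, x)|) ∧ a ≤ |(x : ℝ)| ∧ |(x : ℝ)| < 2 * a ∧ (Q : ℤ) ∣ x - e}.ncard : ℝ) ≤
        a / Q * (Ch * Real.exp (-(ch * n₁)) * (a / 2 ^ ks) ^ lam +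
          17 * c₀ * Cs * Fintype.card ι * ks * ((n₁ + ks * G.sk ks : ℕ) + 1 : ℝ) ^ (Fintype.card ι + 2) *
            ((2 : ℝ) ^ ky) ^ (-c')) := by
  obtain ⟨lam, Ch, ch, hlam, hCh, hch, hhigh⟩ := G.high h hd
  obtain ⟨Cs, c', k₀, hCs, hc', hstk⟩ := G.stuck_bound h hd
  obtain ⟨c₀, hc1, hc₀⟩ := G.exists_c0
  have hmm := G.mm_nonneg h
  have hhh := G.hh_le h
  have hLg : 0 < G.Lg := by linarith
  refine ⟨lam, Ch, ch, Cs, c', c₀, k₀, hlam, hCh, hch, hCs, hc', hc1, ?_⟩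
  intro y a ks ky n₁ Q ha hQ hQN hk₀ hky hNN hksQ hc₀y hn₂ i e
  have hQR : (0 : ℝ) < Q := by exact_mod_cast hQ
  set n₂ : ℕ := n₁ + ks * G.sk ks with hn₂def
  have h2ky : (0 : ℝ) < 2 ^ ky := by positivity
  -- the high part
  set U : ℝ := 2 ^ (max ks ky) with hU
  have hU0 : 0 < U := by positivity
  have hUy : (2 : ℝ) ^ ky ≤ U := pow_le_pow_right₀ (by norm_num) (le_max_right _ _)
  have hUs : (2 : ℝ) ^ ks ≤ U := pow_le_pow_right₀ (by norm_num) (le_max_left _ _)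
  have hn₁ : (n₁ : ℝ) * (c₀ / U) ≤ 1 / 2 := by
    refine le_trans ?_ hn₂
    have h1 : c₀ / U ≤ c₀ / 2 ^ ky := div_le_div_of_nonneg_left (by linarith) h2ky hUy
    have h2 : (n₁ : ℝ) ≤ ((n₂ : ℕ) : ℝ) := by exact_mod_cast Nat.le_add_right _ _
    have h3 : 0 ≤ c₀ / U := by positivity
    exact mul_le_mul h2 h1 h3 (Nat.cast_nonneg _)
  obtain ⟨hHfin, hHcard⟩ := hhigh c₀ hc1 hc₀ a U n₁ Q ha hU0 hn₁ hQ hQN hNN i e
  set H : Set ℤ := {x : ℤ | a ≤ |(x : ℝ)| ∧ |(x : ℝ)| < 2 * a ∧ (Q : ℤ) ∣ x - e ∧ ∀ s ≤ n₁, U ≤ |G.xs s (i, x)|} with hH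
  -- the low part
  set P : Finset (ℕ × ℕ × ι × (ι → ℕ)) := Ico ky ks ×ˢ range (n₂ + 1) ×ˢ (univ : Finset ι) ×ˢ Vs ι n₂ with hP
  set BB : ℕ × ℕ × ι × (ι → ℕ) → Set ℤ := fun p => {x : ℤ | |(x : ℝ)| < 2 * a ∧ (Q : ℤ) ∣ x - e ∧
    G.wd p.2.1 (i, x) ∈ G.gr p.2.1 i p.2.2.1 p.2.2.2 ∧ (∀ s < p.2.1, (2 : ℝ) ^ (p.1 + 1) ≤ |G.xs s (i, x)|) ∧
    (G.step^[p.2.1] (i, x)).2 ∈ G.Stk p.1 (G.sk p.1) p.2.2.1} with hBB
  have hBBfin : ∀ p, (BB p).Finite := by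
    intro p
    refine (Set.finite_Icc (-⌈2 * a⌉) ⌈2 * a⌉).subset ?_
    rintro x ⟨h1, -⟩
    have h2 := abs_lt.1 h1
    have h3 := Int.le_ceil (2 * a)
    constructor
    · have : ((-⌈2 * a⌉ : ℤ) : ℝ) ≤ x := by push_cast; linarith [h2.1]
      exact_mod_cast this
    · have : (x : ℝ) ≤ ((⌈2 * a⌉ : ℤ) : ℝ) := by linarith [h2.2]
      exact_mod_cast this
  set EE : Set ℤ := {x : ℤ | (∀ n, y < |G.xs n (i, x)|) ∧ a ≤ |(x : ℝ)| ∧ |(x : ℝ)| < 2 * a ∧ (Q : ℤ) ∣ x - e} with hEE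
  have hsub : EE ⊆ H ∪ ⋃ p ∈ P, BB p := by
    rintro x ⟨hx0, hx1, hx2, hx3⟩
    by_cases hxH : ∀ s ≤ n₁, U ≤ |G.xs s (i, x)|
    · exact Or.inl ⟨hx1, hx2, hx3, hxH⟩
    · right
      push Not at hxH
      obtain ⟨m, hm, hmU⟩ := hxH
      have hav : ∀ n, (2 : ℝ) ^ ky ≤ |G.xs n (i, x)| := fun n => hky.trans (hx0 n).le
      have hkk : ky ≤ ks := by
        by_contra hcon
        push Not at hcon
        rw [hU, max_eq_right hcon.le] at hmU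
        exact absurd (hav m) (not_le.2 hmU)
      have hUks : U = 2 ^ ks := by rw [hU, max_eq_left hkk]
      rw [hUks] at hmU
      have hex : ∃ m, |G.xs m (i, x)| < (2 : ℝ) ^ ks := ⟨m, hmU⟩
      obtain ⟨k, hk1, hk2, n, hn, hn1, hn2, hn3⟩ := G.chain (i, x) (S := G.sk ks) (ks := ks) (ky := ky)
        (n₀ := Nat.find hex) (fun k hk => G.sk_mono hLg hk.le) hkk (Nat.find_spec hex)
        (fun s hs => not_lt.1 (Nat.find_min hex hs)) hav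
      have hnn : n ≤ n₂ := by
        have h1 : Nat.find hex ≤ m := Nat.find_min' hex hmU
        omega
      rw [Set.mem_iUnion₂]
      refine ⟨(k, n, G.en i (G.wd n (i, x)), G.ct i (G.wd n (i, x))), ?_, hx2, hx3, ?_, hn2, ?_⟩
      · rw [hP, mem_product, mem_product, mem_product]
        refine ⟨mem_Ico.2 ⟨hk1, hk2⟩, mem_range.2 (Nat.lt_succ_of_le hnn), mem_univ _, ?_⟩
        have h1 := G.ct_mem (G.wd_mem n i x)
        unfold Vs at h1 ⊢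
        rw [Fintype.mem_piFinset] at h1 ⊢
        intro l
        have h2 := mem_range.1 (h1 l)
        rw [mem_range]
        show G.ct i (G.wd n (i, x)) l < n₂ + 1
        omega
      · exact G.mem_gr.2 ⟨G.mem_Pth.1 (G.wd_mem n i x), rfl, rfl⟩
      · have e1 : (G.en i (G.wd n (i, x)), (G.step^[n] (i, x)).2) = G.step^[n] (i, x) := by
          rw [← G.en_wd n i x]
        refine ⟨hn1, fun t ht => ?_⟩
        rw [e1, ← xs_add]
        exact hn3 t ht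
  -- the count of one group
  have hone : ∀ p ∈ P, ((BB p).ncard : ℝ) ≤ a / Q * (17 * c₀ * Cs * (n₂ + 1) * ((2 : ℝ) ^ ky) ^ (-c')) := by
    rintro ⟨k, n, j, v⟩ hp
    rw [hP, mem_product, mem_product, mem_product] at hp
    obtain ⟨hk, hn, -, -⟩ := hp
    simp only at hk hn
    rw [mem_Ico] at hk
    rw [mem_range] at hn
    obtain ⟨hSfin, hScard⟩ := hstk k (hk₀.trans hk.1) j
    have h2k : (0 : ℝ) < 2 ^ k := by positivity
    have hkyk : (2 : ℝ) ^ ky ≤ 2 ^ k := pow_le_pow_right₀ (by norm_num) hk.1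
    have hkks : (2 : ℝ) ^ k ≤ 2 ^ ks := pow_le_pow_right₀ (by norm_num) hk.2.le
    have hkQ : 1 ≤ a / 2 ^ k / Q := by
      rw [le_div_iff₀ hQR, le_div_iff₀ h2k]
      have : (2 : ℝ) ^ k * Q ≤ 2 ^ ks * Q := mul_le_mul_of_nonneg_right hkks hQR.le
      linarith
    have hnR : (n : ℝ) ≤ n₂ := by exact_mod_cast (by omega : n ≤ n₂)
    set W : ℤ → Set ℤ := fun z => {x : ℤ | |(x : ℝ)| < 2 * a ∧ (Q : ℤ) ∣ x - e ∧ G.wd n (i, x) ∈ G.gr n i j v ∧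
      (G.step^[n] (i, x)).2 = z ∧ ∀ s < n, (2 : ℝ) ^ (k + 1) ≤ |G.xs s (i, x)|} with hW
    have hzz : ∀ z ∈ hSfin.toFinset, (W z).Finite ∧ ((W z).ncard : ℝ) ≤ 17 * c₀ * (n₂ + 1) * (a / 2 ^ k / Q) := by
      intro z hz
      rw [hSfin.mem_toFinset] at hz
      obtain ⟨hz1, hz2⟩ := hz
      have hz3 : (2 : ℝ) ^ k ≤ |(z : ℝ)| := hz2 0 (Nat.zero_le _)
      have hzne : z ≠ 0 := by
        rintro rfl
        rw [Int.cast_zero, abs_zero] at hz3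
        linarith
      have h2k1 : (2 : ℝ) ^ ky ≤ 2 ^ (k + 1) := by
        rw [pow_succ]
        linarith
      have hn' : (n : ℝ) * (c₀ / 2 ^ (k + 1)) ≤ 1 / 2 := by
        refine le_trans ?_ hn₂
        have h1 : c₀ / 2 ^ (k + 1) ≤ c₀ / 2 ^ ky := div_le_div_of_nonneg_left (by linarith) h2ky h2k1
        have h3 : 0 ≤ c₀ / (2 : ℝ) ^ (k + 1) := by positivity
        exact mul_le_mul hnR h1 h3 (Nat.cast_nonneg _)
      obtain ⟨hf, hc⟩ := G.pass_count hc1 hc₀ ha hQ e i j v z (hc₀y.trans h2k1) hn' hzne hz1.le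
      refine ⟨hf, hc.trans ?_⟩
      have h1 : 16 * c₀ * n * a / |(z : ℝ)| / Q ≤ 16 * c₀ * n₂ * a / 2 ^ k / Q := by
        gcongr
      have h2 : 16 * c₀ * n₂ * a / 2 ^ k / Q = 16 * c₀ * n₂ * (a / 2 ^ k / Q) := by ring
      have h3 : (0 : ℝ) ≤ n₂ := Nat.cast_nonneg _
      nlinarith [mul_nonneg h3 (show (0 : ℝ) ≤ a / 2 ^ k / Q by positivity)]
    have hcov := ncard_cover hSfin.toFinset (BB (k, n, j, v)) W (fun z hz => (hzz z hz).1) (by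
      rintro x ⟨h1, h2, h3, h4, h5⟩
      exact ⟨(G.step^[n] (i, x)).2, hSfin.mem_toFinset.2 h5, h1, h2, h3, rfl, h4⟩)
    refine hcov.trans ((sum_le_sum fun z hz => (hzz z hz).2).trans ?_)
    rw [sum_const, nsmul_eq_mul, ← Set.ncard_eq_toFinset_card _ hSfin]
    have hmono : ((2 : ℝ) ^ k) ^ (-c') ≤ ((2 : ℝ) ^ ky) ^ (-c') :=
      Real.rpow_le_rpow_of_nonpos h2ky hkyk (by linarith)
    have h17 : 0 ≤ 17 * c₀ * (n₂ + 1) * (a / 2 ^ k / Q) := by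
      have : 0 ≤ c₀ := by linarith
      positivity
    calc ((G.Stk k (G.sk k) j).ncard : ℝ) * (17 * c₀ * (n₂ + 1) * (a / 2 ^ k / Q))
        ≤ (Cs * 2 ^ k * ((2 : ℝ) ^ k) ^ (-c')) * (17 * c₀ * (n₂ + 1) * (a / 2 ^ k / Q)) :=
          mul_le_mul_of_nonneg_right hScard h17
      _ ≤ (Cs * 2 ^ k * ((2 : ℝ) ^ ky) ^ (-c')) * (17 * c₀ * (n₂ + 1) * (a / 2 ^ k / Q)) := by
          gcongr
      _ = _ := by
          field_simp
  have hfinU : (H ∪ ⋃ p ∈ P, BB p).Finite := hHfin.union (Set.Finite.biUnion P.finite_toSet fun p _ => hBBfin p)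
  have h1 : (EE.ncard : ℝ) ≤ (H.ncard : ℝ) + ∑ p ∈ P, ((BB p).ncard : ℝ) := by
    have h2 := (Set.ncard_le_ncard hsub hfinU).trans (Set.ncard_union_le _ _)
    have h3 := Finset.set_ncard_biUnion_le P BB
    exact_mod_cast h2.trans (Nat.add_le_add_left h3 _)
  refine h1.trans ?_
  rw [mul_add]
  refine add_le_add (hHcard.trans ?_) ((sum_le_sum hone).trans ?_)
  · have h2 : (a / U) ^ lam ≤ (a / 2 ^ ks) ^ lam := by
      apply Real.rpow_le_rpow (by positivity) _ hlam.le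
      exact div_le_div_of_nonneg_left ha.le (by positivity) hUs
    gcongr
  · rw [sum_const, nsmul_eq_mul]
    have hcardP : (P.card : ℝ) ≤ ks * ((n₂ + 1) * (Fintype.card ι * (n₂ + 1) ^ Fintype.card ι)) := by
      rw [hP, card_product, card_product, card_product, Nat.card_Ico, card_range, card_univ, card_Vs]
      push_cast
      have h2 : ((ks - ky : ℕ) : ℝ) ≤ ks := by exact_mod_cast Nat.sub_le _ _
      exact mul_le_mul_of_nonneg_right h2 (by positivity)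
    have h0 : 0 ≤ a / Q * (17 * c₀ * Cs * (n₂ + 1) * ((2 : ℝ) ^ ky) ^ (-c')) := by
      have : 0 ≤ c₀ := by linarith
      positivity
    refine (mul_le_mul_of_nonneg_right hcardP h0).trans (le_of_eq ?_)
    ring

end GS

end Pool.Agent.Zk39.GD
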