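import Mathlib
import Pool.Agent.Zk39.GD.Base

/-!
# Uniform power saving for graph directed systems
-/

set_option autoImplicit false
set_option linter.unusedSectionVars false

namespace Pool.Agent.Zk39.GD

open Finset Pool.Agent.H319R3.GC

/-- the iteration for families, with a base -/
theorem iter' {ι : Type} {S : ι → Set ℤ} {B : ℕ} {Qf : ℝ → ℕ} {lo hi L₀ C l ρ₀ : ℝ} (hB : 1 ≤ B)
    (hlo : 0 < lo) (hlh : lo ≤ hi) (hhi : hi < 1) (hC : 0 < C)
    (hst : ∀ a ρ : ℝ, 0 < a → L₀ ≤ Real.log a → 0 ≤ ρ →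
      (∀ a' : ℝ, 0 < a' → lo * Real.log a ≤ Real.log a' → Real.log a' ≤ hi * Real.log a →
        ∀ i, PB (S i) a' (Qf a') ρ) →
      ∀ i, PB (S i) a (Qf a) (ρ + C / (Real.log a) ^ B))
    (hρ₀ : 0 ≤ ρ₀) (hl0 : 0 < l) (hL1 : L₀ ≤ l)
    (hbase : ∀ a : ℝ, 0 < a → lo * l ≤ Real.log a → Real.log a ≤ l → ∀ i, PB (S i) a (Qf a) ρ₀)
    (a : ℝ) (ha : 0 < a) (hla : lo * l ≤ Real.log a) (i : ι) :
    PB (S i) a (Qf a) (ρ₀ + C / ((1 / hi) ^ B - 1) * (1 / (lo * l)) ^ B) := by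
  have hhi0 : 0 < hi := hlo.trans_le hlh
  have hq1 : 1 < (1 / hi) ^ B := by
    apply one_lt_pow₀ _ (by omega)
    rw [one_lt_div hhi0]; exact hhi
  set K : ℝ := C / ((1 / hi) ^ B - 1) with hK
  have hK0 : 0 < K := div_pos hC (by linarith)
  have hKe : K * ((1 / hi) ^ B - 1) = C := by
    rw [hK]; exact div_mul_cancel₀ _ (by linarith)
  set g : ℝ → ℝ := fun s => ρ₀ + K * ((1 / (lo * l)) ^ B - (1 / s) ^ B) with hg
  have hll : 0 < lo * l := mul_pos hlo hl0
  have hgmono : ∀ s s' : ℝ, 0 < s → s ≤ s' → g s ≤ g s' := by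
    intro s s' hs hss
    simp only [hg]
    have hs' : 0 < s' := by linarith
    have h1 : (1 / s') ^ B ≤ (1 / s) ^ B := by gcongr
    have := mul_le_mul_of_nonneg_left (show (1 / (lo * l)) ^ B - (1 / s) ^ B ≤ (1 / (lo * l)) ^ B - (1 / s') ^ B by
      linarith) hK0.le
    linarith
  have hg0 : ∀ s : ℝ, lo * l ≤ s → ρ₀ ≤ g s := by
    intro s hs
    have h1 := hgmono (lo * l) s hll hs
    have h2 : g (lo * l) = ρ₀ := by simp only [hg]; rw [sub_self, mul_zero, add_zero]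
    linarith
  have key : ∀ n : ℕ, ∀ a : ℝ, 0 < a → lo * l ≤ Real.log a → hi ^ n * Real.log a ≤ l →
      ∀ i, PB (S i) a (Qf a) (g (Real.log a)) := by
    intro n
    induction n with
    | zero =>
      intro a ha h1 h2 i
      rw [pow_zero, one_mul] at h2
      exact I1_PB_mono ha (hbase a ha h1 h2 i) (hg0 _ h1)
    | succ n ih =>
      intro a ha h1 h2 i
      by_cases hal : Real.log a ≤ l
      · exact I1_PB_mono ha (hbase a ha h1 hal i) (hg0 _ h1)
      · push Not at hal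
        have hla0 : 0 < Real.log a := by linarith
        have h3 : lo * l ≤ hi * Real.log a := by
          calc lo * l ≤ hi * l := by gcongr
            _ ≤ hi * Real.log a := by gcongr
        have h4 := hst a (g (hi * Real.log a)) ha (by linarith) (hρ₀.trans (hg0 _ h3)) (by
          intro a' ha' h5 h6 i'
          have h7 : lo * l ≤ Real.log a' := by
            refine le_trans ?_ h5
            gcongr
          have h8 : hi ^ n * Real.log a' ≤ l := by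
            calc hi ^ n * Real.log a' ≤ hi ^ n * (hi * Real.log a) := by gcongr
              _ = hi ^ (n + 1) * Real.log a := by ring
              _ ≤ l := h2
          exact I1_PB_mono ha' (ih a' ha' h7 h8 i') (hgmono _ _ (by linarith) h6)) i
        apply I1_PB_mono ha h4
        simp only [hg]
        have h9 : (1 / (hi * Real.log a)) ^ B = (1 / hi) ^ B * (1 / Real.log a) ^ B := by
          rw [← mul_pow]
          congr 1
          field_simp
        have h10 : C / Real.log a ^ B = C * (1 / Real.log a) ^ B := by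
          rw [one_div, inv_pow]; ring
        rw [h9, h10, ← hKe]
        apply le_of_eq
        ring
  obtain ⟨n, hn⟩ : ∃ n : ℕ, hi ^ n * Real.log a ≤ l := by
    have h1 : 0 < l / (|Real.log a| + 1) := by positivity
    obtain ⟨n, hn⟩ := exists_pow_lt_of_lt_one h1 hhi
    refine ⟨n, ?_⟩
    rw [lt_div_iff₀ (by positivity)] at hn
    have h2 : hi ^ n * Real.log a ≤ hi ^ n * (|Real.log a| + 1) := by
      gcongr
      have := le_abs_self (Real.log a)
      linarith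
    linarith
  refine I1_PB_mono ha (key n a ha hla hn i) ?_
  simp only [hg]
  have : 0 ≤ (1 / Real.log a) ^ B := by
    have : 0 < Real.log a := by linarith
    positivity
  have h5 := mul_le_mul_of_nonneg_left (show (1 / (lo * l)) ^ B - (1 / Real.log a) ^ B ≤ (1 / (lo * l)) ^ B by
    linarith) hK0.le
  linarith

theorem pw_aux1 {κ t : ℝ} (hκ : κ ≤ 1 / 2) (ht : 0 ≤ t) : t / 2 + κ * t ≤ t := by
  have := mul_le_mul_of_nonneg_right hκ ht
  linarith

theorem pw_aux2 {κ t l : ℝ} (hκ : 0 ≤ κ) (ht : 0 ≤ t) (hl : 1 / 2 ≤ l) : (1 - κ) * t ≤ 2 * t * l := by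
  have h1 := mul_nonneg hκ ht
  have h2 := mul_le_mul_of_nonneg_left hl ht
  linarith

theorem pw_aux3 {κ t u : ℝ} (hκ : 0 ≤ κ) (ht : 0 ≤ t) (hu : u ≤ (1 - κ) * t) : u ≤ t := by
  have h1 := mul_nonneg hκ ht
  linarith

theorem pw_aux4 {t g : ℝ} (ht : 1 ≤ t) (hg : 0 < g) : t * g ≤ t ^ 2 * (2 * g) := by
  have h1 : t * 1 ≤ t * t := mul_le_mul_of_nonneg_left ht (by linarith)
  have h2 := mul_le_mul_of_nonneg_right h1 hg.le
  have h3 : 0 < t * g := by positivity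
  nlinarith

theorem pw_aux5 {t g n : ℝ} (ht : 1 ≤ t) (h : n ≤ 3 / g * t ^ 2) : n + 1 ≤ (3 / g + 1) * t ^ 2 := by
  have : 1 ≤ t ^ 2 := one_le_pow₀ ht
  linarith

theorem two_pow_floor {u : ℝ} (hu : 0 ≤ u) : (2 : ℝ) ^ ⌊u / Real.log 2⌋₊ ≤ Real.exp u ∧
    Real.exp u ≤ 2 * (2 : ℝ) ^ ⌊u / Real.log 2⌋₊ := by
  have hl2 : 0 < Real.log 2 := Real.log_pos (by norm_num)
  have e : ∀ k : ℕ, (2 : ℝ) ^ k = Real.exp (k * Real.log 2) := by
    intro k
    rw [Real.exp_nat_mul, Real.exp_log (by norm_num)]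
  constructor
  · rw [e]
    apply Real.exp_le_exp.2
    have := Nat.floor_le (show 0 ≤ u / Real.log 2 by positivity)
    rwa [le_div_iff₀ hl2] at this
  · rw [← pow_succ', e]
    apply Real.exp_le_exp.2
    have := (Nat.lt_floor_add_one (u / Real.log 2)).le
    rw [div_le_iff₀ hl2] at this
    push_cast
    exact this

namespace GS

variable {ι : Type} [Fintype ι] [DecidableEq ι] (G : GS ι) {ρ : ι → ℝ}

/-- the set of the points of the state `i` whose orbit avoids `[-y, y]` -/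
def Av (y : ℝ) (i : ι) : Set ℤ := {x : ℤ | ∀ n, y < |G.xs n (i, x)|}

/-- the exceptional set at moderate scales -/
theorem base (h : G.Irr ρ) (hd : G.mm ρ < G.hh ρ) : ∃ (κ c₁ C Y₀ : ℝ) (K₁ : ℕ), 0 < κ ∧ 0 < c₁ ∧ 0 < C ∧
    ∀ y a : ℝ, Y₀ ≤ y → y ≤ 2 * a → C * Real.log a ^ 2 ≤ y → ∀ Q : ℕ, 0 < Q →
      Real.log Q ≤ κ * Real.log a → (∀ v, IsCoprime (G.Nv v : ℤ) (Q : ℤ)) → ∀ i,
      Pool.Agent.H319R3.GC.PB (G.Av y i) a Q (C * Real.log a ^ K₁ * y ^ (-c₁)) := by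
  obtain ⟨lam, Ch, ch, Cs, c', c₀, k₀, hlam, hCh, hch, hCs, hc', hc1, hraw⟩ := G.base_raw h hd
  have hmm := G.mm_nonneg h
  have hhh := G.hh_le h
  have hLg : 0 < G.Lg := by linarith
  have hl2 : 0 < Real.log 2 := Real.log_pos (by norm_num)
  have hl2' : 1 / 2 ≤ Real.log 2 := by have := Real.log_two_gt_d9; linarith
  have hc0 : 0 ≤ c₀ := by linarith
  set κ : ℝ := min (1 / 2) (ch / (8 * G.Lg * lam)) with hκ
  have hκ0 : 0 < κ := lt_min (by norm_num) (by positivity)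
  have hκ1 : κ ≤ 1 / 2 := min_le_left _ _
  have hκ2 : κ * lam ≤ ch / (8 * G.Lg) := by
    have h1 : κ ≤ ch / (8 * G.Lg * lam) := min_le_right _ _
    have h2 := mul_le_mul_of_nonneg_right h1 hlam.le
    have e : ch / (8 * G.Lg * lam) * lam = ch / (8 * G.Lg) := by field_simp
    rwa [e] at h2
  set c₂ : ℝ := ch / (4 * G.Lg) with hc₂
  have hc₂0 : 0 < c₂ := by positivity
  set c₁ : ℝ := min c₂ c' with hc₁
  have hc₁0 : 0 < c₁ := lt_min hc₂0 hc'
  set card : ℕ := Fintype.card ι with hcard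
  set C₁ : ℝ := Ch * Real.exp ch * 2 ^ lam * 2 ^ c₂ with hC₁
  set C₂ : ℝ := 17 * c₀ * Cs * card * 2 * (3 / G.Lg + 1) ^ (card + 2) * 2 ^ c' with hC₂
  set C : ℝ := C₁ + C₂ + 12 * c₀ / G.Lg with hC
  have hC₁0 : 0 < C₁ := by positivity
  have hC₂0 : 0 ≤ C₂ := by positivity
  have hC0 : 0 < C := by positivity
  refine ⟨κ, c₁, C, 2 ^ k₀ + 2 * c₀ + 6, 2 * card + 5, hκ0, hc₁0, hC0, ?_⟩
  intro y a hy hya hCy Q hQ hQκ hQN i e
  have hQR : (0 : ℝ) < Q := by exact_mod_cast hQ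
  have h2k0 : (0 : ℝ) < 2 ^ k₀ := by positivity
  have hy6 : 6 ≤ y := by linarith
  have hy0 : 0 < y := by linarith
  have ha3 : 3 ≤ a := by linarith
  have ha0 : 0 < a := by linarith
  set t : ℝ := Real.log a with ht
  have ht1 : 1 ≤ t := by
    rw [ht, Real.le_log_iff_exp_le ha0]
    have := Real.exp_one_lt_d9
    linarith
  have haexp : a = Real.exp t := (Real.exp_log ha0).symm
  set n₁ : ℕ := ⌊t / (2 * G.Lg)⌋₊ with hn₁
  have hn₁a : (n₁ : ℝ) ≤ t / (2 * G.Lg) := Nat.floor_le (by positivity)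
  have hn₁b : t / (2 * G.Lg) ≤ n₁ + 1 := (Nat.lt_floor_add_one _).le
  set ks : ℕ := ⌊(1 - κ) * t / Real.log 2⌋₊ with hks
  have hκt : 0 ≤ (1 - κ) * t := mul_nonneg (by linarith) (by linarith)
  obtain ⟨hks1, hks2⟩ := two_pow_floor hκt
  rw [← hks] at hks1 hks2
  set ky : ℕ := ⌊Real.log y / Real.log 2⌋₊ with hky
  obtain ⟨hky1, hky2⟩ := two_pow_floor (Real.log_nonneg (by linarith : (1 : ℝ) ≤ y))
  rw [← hky, Real.exp_log hy0] at hky1 hky2
  have hkyk₀ : k₀ ≤ ky := by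
    apply Nat.le_floor
    rw [le_div_iff₀ hl2, ← Real.log_pow]
    exact Real.log_le_log h2k0 (by linarith)
  have hQle : (Q : ℝ) ≤ Real.exp (κ * t) := by
    rwa [← Real.log_le_iff_le_exp hQR]
  have hNN : Real.exp (n₁ * G.Lg) * Q ≤ a := by
    have h1 : (n₁ : ℝ) * G.Lg ≤ t / 2 := by
      have := mul_le_mul_of_nonneg_right hn₁a hLg.le
      have e : t / (2 * G.Lg) * G.Lg = t / 2 := by field_simp
      rwa [e] at this
    calc Real.exp (n₁ * G.Lg) * Q ≤ Real.exp (t / 2) * Real.exp (κ * t) :=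
          mul_le_mul (Real.exp_le_exp.2 h1) hQle hQR.le (Real.exp_pos _).le
      _ = Real.exp (t / 2 + κ * t) := (Real.exp_add _ _).symm
      _ ≤ Real.exp t := Real.exp_le_exp.2 (pw_aux1 hκ1 (by linarith))
      _ = a := haexp.symm
  have hksQ : 2 ^ ks * (Q : ℝ) ≤ a := by
    calc 2 ^ ks * (Q : ℝ) ≤ Real.exp ((1 - κ) * t) * Real.exp (κ * t) :=
          mul_le_mul hks1 hQle hQR.le (Real.exp_pos _).le
      _ = Real.exp t := by rw [← Real.exp_add]; ring_nf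
      _ = a := haexp.symm
  have hc₀y : c₀ ≤ 2 ^ ky := by linarith
  have hks3 : (ks : ℝ) ≤ 2 * t := by
    have h1 : (ks : ℝ) ≤ (1 - κ) * t / Real.log 2 := Nat.floor_le (by positivity)
    refine h1.trans ?_
    rw [div_le_iff₀ hl2]
    exact pw_aux2 hκ0.le (by linarith) hl2'
  have hsk : (G.sk ks : ℝ) ≤ t / G.Lg := by
    have h1 : (G.sk ks : ℝ) ≤ ks * Real.log 2 / G.Lg := Nat.floor_le (by positivity)
    refine h1.trans (div_le_div_of_nonneg_right ?_ hLg.le)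
    have h2 : (ks : ℝ) ≤ (1 - κ) * t / Real.log 2 := Nat.floor_le (by positivity)
    rw [le_div_iff₀ hl2] at h2
    exact pw_aux3 hκ0.le (by linarith) h2
  have hn₂ : ((n₁ + ks * G.sk ks : ℕ) : ℝ) ≤ 3 / G.Lg * t ^ 2 := by
    push_cast
    have h1 : (ks : ℝ) * G.sk ks ≤ 2 * t * (t / G.Lg) := mul_le_mul hks3 hsk (Nat.cast_nonneg _) (by positivity)
    have h2 : t / (2 * G.Lg) ≤ t ^ 2 / G.Lg := by
      rw [div_le_div_iff₀ (by positivity) hLg]
      exact pw_aux4 ht1 hLg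
    have e : 3 / G.Lg * t ^ 2 = t ^ 2 / G.Lg + 2 * t * (t / G.Lg) := by ring
    rw [e]
    linarith
  have hsmall : ((n₁ + ks * G.sk ks : ℕ) : ℝ) * (c₀ / 2 ^ ky) ≤ 1 / 2 := by
    have h2ky : (0 : ℝ) < 2 ^ ky := by positivity
    rw [← mul_div_assoc, div_le_iff₀ h2ky]
    have h1 : ((n₁ + ks * G.sk ks : ℕ) : ℝ) * c₀ ≤ 3 / G.Lg * t ^ 2 * c₀ := mul_le_mul_of_nonneg_right hn₂ hc0
    have h2 : 12 * c₀ / G.Lg * t ^ 2 ≤ y := by
      refine le_trans ?_ hCy
      apply mul_le_mul_of_nonneg_right _ (by positivity)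
      linarith
    have e : 12 * c₀ / G.Lg * t ^ 2 = 4 * (3 / G.Lg * t ^ 2 * c₀) := by ring
    rw [e] at h2
    linarith
  have hmain := hraw y a ks ky n₁ Q ha0 hQ hQN hkyk₀ hky1 hNN hksQ hc₀y hsmall i e
  -- estimates
  have hy2 : 0 < y / 2 := by positivity
  have hA : Ch * Real.exp (-(ch * n₁)) * (a / 2 ^ ks) ^ lam ≤ C₁ * y ^ (-c₁) := by
    have h1 : Real.exp (-(ch * n₁)) ≤ Real.exp ch * Real.exp (-(ch * t / (2 * G.Lg))) := by
      rw [← Real.exp_add]
      apply Real.exp_le_exp.2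
      have h2 := mul_le_mul_of_nonneg_left hn₁b hch.le
      have e : ch * (t / (2 * G.Lg)) = ch * t / (2 * G.Lg) := by ring
      rw [e] at h2
      linarith
    have h2 : (a / 2 ^ ks) ^ lam ≤ 2 ^ lam * Real.exp (ch * t / (8 * G.Lg)) := by
      have h3 : a / 2 ^ ks ≤ 2 * Real.exp (κ * t) := by
        rw [div_le_iff₀ (by positivity)]
        calc a = Real.exp (κ * t) * Real.exp ((1 - κ) * t) := by
              rw [haexp, ← Real.exp_add]
              ring_nf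
          _ ≤ Real.exp (κ * t) * (2 * 2 ^ ks) := mul_le_mul_of_nonneg_left hks2 (Real.exp_pos _).le
          _ = _ := by ring
      refine (Real.rpow_le_rpow (by positivity) h3 hlam.le).trans ?_
      rw [Real.mul_rpow (by norm_num) (Real.exp_pos _).le, ← Real.exp_mul]
      refine mul_le_mul_of_nonneg_left (Real.exp_le_exp.2 ?_) (by positivity)
      have h4 := mul_le_mul_of_nonneg_right hκ2 (show 0 ≤ t by linarith)
      have e : ch / (8 * G.Lg) * t = ch * t / (8 * G.Lg) := by ring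
      rw [e] at h4
      linarith
    have h3 : Real.exp (-(ch * t / (2 * G.Lg))) * Real.exp (ch * t / (8 * G.Lg)) ≤ 2 ^ c₂ * y ^ (-c₁) := by
      rw [← Real.exp_add]
      have h4 : -(ch * t / (2 * G.Lg)) + ch * t / (8 * G.Lg) ≤ -(c₂ * t) := by
        have e1 : ch * t / (2 * G.Lg) = 4 * (ch * t / (8 * G.Lg)) := by field_simp; ring
        have e2 : c₂ * t = 2 * (ch * t / (8 * G.Lg)) := by rw [hc₂]; field_simp; ring
        rw [e1, e2]
        have : 0 < ch * t / (8 * G.Lg) := by positivity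
        linarith
      refine (Real.exp_le_exp.2 h4).trans ?_
      have h5 : Real.exp (-(c₂ * t)) = a ^ (-c₂) := by
        rw [Real.rpow_def_of_pos ha0, ← ht]
        ring_nf
      rw [h5]
      have h6 : a ^ (-c₂) ≤ (y / 2) ^ (-c₂) :=
        Real.rpow_le_rpow_of_nonpos hy2 (by linarith) (by linarith)
      refine h6.trans ?_
      rw [Real.div_rpow hy0.le (by norm_num), Real.rpow_neg (by norm_num : (0 : ℝ) ≤ 2), div_inv_eq_mul, mul_comm]
      refine mul_le_mul_of_nonneg_left ?_ (by positivity)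
      exact Real.rpow_le_rpow_of_exponent_le (by linarith) (by have := min_le_left c₂ c'; linarith)
    calc Ch * Real.exp (-(ch * n₁)) * (a / 2 ^ ks) ^ lam
        ≤ Ch * (Real.exp ch * Real.exp (-(ch * t / (2 * G.Lg)))) * (2 ^ lam * Real.exp (ch * t / (8 * G.Lg))) := by
          gcongr
      _ = Ch * Real.exp ch * 2 ^ lam * (Real.exp (-(ch * t / (2 * G.Lg))) * Real.exp (ch * t / (8 * G.Lg))) := by ring
      _ ≤ Ch * Real.exp ch * 2 ^ lam * (2 ^ c₂ * y ^ (-c₁)) := by gcongr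
      _ = _ := by rw [hC₁]; ring
  have hB : 17 * c₀ * Cs * card * ks * ((n₁ + ks * G.sk ks : ℕ) + 1 : ℝ) ^ (card + 2) * ((2 : ℝ) ^ ky) ^ (-c') ≤
      C₂ * t ^ (2 * card + 5) * y ^ (-c₁) := by
    have h1 : ((n₁ + ks * G.sk ks : ℕ) + 1 : ℝ) ≤ (3 / G.Lg + 1) * t ^ 2 := by
      exact pw_aux5 ht1 hn₂
    have h2 : ((2 : ℝ) ^ ky) ^ (-c') ≤ 2 ^ c' * y ^ (-c₁) := by
      have h3 : ((2 : ℝ) ^ ky) ^ (-c') ≤ (y / 2) ^ (-c') :=
        Real.rpow_le_rpow_of_nonpos hy2 (by linarith) (by linarith)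
      refine h3.trans ?_
      rw [Real.div_rpow hy0.le (by norm_num), Real.rpow_neg (by norm_num : (0 : ℝ) ≤ 2), div_inv_eq_mul, mul_comm]
      refine mul_le_mul_of_nonneg_left ?_ (by positivity)
      exact Real.rpow_le_rpow_of_exponent_le (by linarith) (by have := min_le_right c₂ c'; linarith)
    calc 17 * c₀ * Cs * card * ks * ((n₁ + ks * G.sk ks : ℕ) + 1 : ℝ) ^ (card + 2) * ((2 : ℝ) ^ ky) ^ (-c')
        ≤ 17 * c₀ * Cs * card * (2 * t) * ((3 / G.Lg + 1) * t ^ 2) ^ (card + 2) * (2 ^ c' * y ^ (-c₁)) := by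
          gcongr
      _ = _ := by
          rw [hC₂, mul_pow, ← pow_mul]
          ring
  have hwc : wc (G.Av y i) a Q e = ({x : ℤ | (∀ n, y < |G.xs n (i, x)|) ∧ a ≤ |(x : ℝ)| ∧ |(x : ℝ)| < 2 * a ∧
      (Q : ℤ) ∣ x - e}.ncard : ℝ) := rfl
  rw [hwc]
  refine hmain.trans ?_
  have hyc : 0 < y ^ (-c₁) := Real.rpow_pos_of_pos hy0 _
  have htK : 1 ≤ t ^ (2 * card + 5) := one_le_pow₀ ht1
  have hsum : Ch * Real.exp (-(ch * n₁)) * (a / 2 ^ ks) ^ lam +
      17 * c₀ * Cs * card * ks * ((n₁ + ks * G.sk ks : ℕ) + 1 : ℝ) ^ (card + 2) * ((2 : ℝ) ^ ky) ^ (-c') ≤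
      C * t ^ (2 * card + 5) * y ^ (-c₁) := by
    have h1 : C₁ * y ^ (-c₁) ≤ C₁ * t ^ (2 * card + 5) * y ^ (-c₁) := by
      have := mul_le_mul_of_nonneg_left htK (show 0 ≤ C₁ * y ^ (-c₁) by positivity)
      linarith
    have h2 : (C₁ + C₂) * t ^ (2 * card + 5) * y ^ (-c₁) ≤ C * t ^ (2 * card + 5) * y ^ (-c₁) := by
      have : C₁ + C₂ ≤ C := by
        rw [hC]
        have : 0 ≤ 12 * c₀ / G.Lg := by positivity
        linarith
      gcongr
    linarith
  have hpos : 0 ≤ C * t ^ (2 * card + 5) * y ^ (-c₁) := by positivity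
  calc a / Q * (Ch * Real.exp (-(ch * n₁)) * (a / 2 ^ ks) ^ lam +
      17 * c₀ * Cs * card * ks * ((n₁ + ks * G.sk ks : ℕ) + 1 : ℝ) ^ (card + 2) * ((2 : ℝ) ^ ky) ^ (-c'))
      ≤ a / Q * (C * t ^ (2 * card + 5) * y ^ (-c₁)) := mul_le_mul_of_nonneg_left hsum (by positivity)
    _ ≤ 2 * (a / Q * (C * t ^ (2 * card + 5) * y ^ (-c₁))) := by
        have : 0 ≤ a / Q * (C * t ^ (2 * card + 5) * y ^ (-c₁)) := by positivity
        linarith
    _ = _ := by ring

end GS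

end Pool.Agent.Zk39.GD
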