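import Mathlib
import Pool.Agent.Zk39.GD.Power

/-!
# Uniform power saving for graph directed systems: the theorem
-/

set_option autoImplicit false
set_option linter.unusedSectionVars false

namespace Pool.Agent.Zk39.GD

open Finset Pool.Agent.H319R3.GC Filter

namespace GS

variable {ι : Type} [Fintype ι] [DecidableEq ι] (G : GS ι) {ρ : ι → ℝ}

theorem av_inv (y : ℝ) : G.FI (G.Av y) := by
  intro i x hx n
  have := hx (n + 1)
  rwa [xs_succ] at this

theorem av_gt (y : ℝ) (i : ι) : ∀ x ∈ G.Av y i, y < |(x : ℝ)| := fun x hx => hx 0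

/-- all windows -/
theorem windows (h : G.Irr ρ) (hd : G.mm ρ < G.hh ρ) : ∃ c A Y₁ : ℝ, 0 < c ∧ 0 < A ∧ 1 ≤ Y₁ ∧ ∀ y : ℝ, Y₁ ≤ y →
    ∀ a : ℝ, y / 2 ≤ a → ∀ i, Pool.Agent.H319R3.GC.PB (G.Av y i) a 1 (A * y ^ (-c)) := by
  obtain ⟨κ, c₁, C, Y₀, K₁, hκ, hc₁, hC, hbase⟩ := G.base h hd
  have hmm := G.mm_nonneg h
  set δ : ℝ := min (c₁ / (2 * (K₁ + 1))) (1 / 4) with hδ
  have hδ0 : 0 < δ := lt_min (by positivity) (by norm_num)
  have hδ1 : δ ≤ 1 / 4 := min_le_right _ _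
  have hδ2 : δ * K₁ ≤ c₁ / 2 := by
    have h1 : δ ≤ c₁ / (2 * (K₁ + 1)) := min_le_left _ _
    rw [le_div_iff₀ (by positivity)] at h1
    nlinarith
  set B : ℕ := ⌈1 / δ⌉₊ with hB
  have hBδ : 1 ≤ δ * B := by
    have h1 : 1 / δ ≤ B := Nat.le_ceil _
    rw [div_le_iff₀ hδ0] at h1
    linarith
  have hB1 : 1 ≤ B := Nat.one_le_ceil_iff.2 (by positivity)
  obtain ⟨lo, hi, ν₀, hlo, hlh, hhi, hν₀, hst'⟩ := G.stage h hd B
  set ν : ℝ := min ν₀ (κ / (G.mm ρ + 1)) with hν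
  have hν0 : 0 < ν := lt_min hν₀ (by positivity)
  have hνκ : G.mm ρ * ν ≤ κ := by
    have h1 : ν ≤ κ / (G.mm ρ + 1) := min_le_right _ _
    rw [le_div_iff₀ (by positivity)] at h1
    nlinarith
  obtain ⟨L₀, Cs, hL₀, hCs, hst⟩ := hst' ν hν0 (min_le_left _ _)
  have hlo1 : lo < 1 := hlh.trans_lt hhi
  have hhi0 : 0 < hi := hlo.trans_le hlh
  have hq1 : 1 < (1 / hi) ^ B := by
    apply one_lt_pow₀ _ (by omega)
    rw [one_lt_div hhi0]; exact hhi
  set K : ℝ := Cs / ((1 / hi) ^ B - 1) with hK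
  have hK0 : 0 < K := div_pos hCs (by linarith)
  set c : ℝ := min (c₁ / 2) 1 with hc
  have hc0 : 0 < c := lt_min (by positivity) one_pos
  -- the conditions on `y`
  have hlog : ∀ᶠ y : ℝ in atTop, Real.log y ≤ lo * y ^ δ := by
    have h1 := (isLittleO_log_rpow_atTop hδ0).bound hlo
    filter_upwards [h1, eventually_ge_atTop 1] with y hy hy1
    have h2 : 0 ≤ y ^ δ := Real.rpow_nonneg (by linarith) _
    rw [Real.norm_eq_abs, Real.norm_eq_abs, abs_of_nonneg h2, abs_of_nonneg (Real.log_nonneg hy1)] at hy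
    exact hy
  have hbig : ∀ᶠ y : ℝ in atTop, max L₀ 1 ≤ y ^ δ := (tendsto_rpow_atTop hδ0).eventually_ge_atTop _
  have hhalf : ∀ᶠ y : ℝ in atTop, C ≤ y ^ (1 / 2 : ℝ) :=
    (tendsto_rpow_atTop (by norm_num : (0 : ℝ) < 1 / 2)).eventually_ge_atTop _
  obtain ⟨Y₂, hY₂⟩ := (hlog.and (hbig.and hhalf)).exists_forall_of_atTop
  refine ⟨c, C + K * (1 / lo) ^ B, max Y₂ (max Y₀ 4), hc0, by positivity,
    le_trans (by norm_num) ((le_max_right Y₀ 4).trans (le_max_right _ _)), ?_⟩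
  intro y hy a hya i
  obtain ⟨hy1, hy2, hy3⟩ := hY₂ y ((le_max_left _ _).trans hy)
  have hyY₀ : Y₀ ≤ y := ((le_max_left _ _).trans (le_max_right _ _)).trans hy
  have hy4 : 4 ≤ y := ((le_max_right _ _).trans (le_max_right _ _)).trans hy
  have hy0 : 0 < y := by linarith
  have hy1' : 1 ≤ y := by linarith
  have ha0 : 0 < a := by linarith
  have hla0 : 0 ≤ Real.log a := Real.log_nonneg (by linarith)
  set l : ℝ := y ^ δ with hl
  have hl1 : 1 ≤ l := (le_max_right _ _).trans hy2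
  have hl0 : 0 < l := by linarith
  have hlL : L₀ ≤ l := (le_max_left _ _).trans hy2
  set r₀ : ℝ := C * l ^ K₁ * y ^ (-c₁) with hr₀
  have hr₀0 : 0 ≤ r₀ := by
    have : 0 < y ^ (-c₁) := Real.rpow_pos_of_pos hy0 _
    positivity
  -- moderate scales
  have hmod : ∀ (a : ℝ) (Q : ℕ), y ≤ 2 * a → Real.log a ≤ l → 0 < Q → Real.log Q ≤ κ * Real.log a →
      (∀ v, IsCoprime (G.Nv v : ℤ) (Q : ℤ)) → ∀ i, Pool.Agent.H319R3.GC.PB (G.Av y i) a Q r₀ := by
    intro a Q h1 h2 h3 h4 h5 i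
    have ha0 : 0 < a := by linarith
    have hla0 : 0 ≤ Real.log a := Real.log_nonneg (by linarith)
    have h6 : C * Real.log a ^ 2 ≤ y := by
      have h7 : Real.log a ^ 2 ≤ l ^ 2 := pow_le_pow_left₀ hla0 h2 2
      have h8 : l ^ 2 ≤ y ^ (1 / 2 : ℝ) := by
        rw [hl, ← Real.rpow_natCast, ← Real.rpow_mul hy0.le]
        apply Real.rpow_le_rpow_of_exponent_le hy1'
        push_cast
        linarith
      have h9 : y ^ (1 / 2 : ℝ) * y ^ (1 / 2 : ℝ) = y := by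
        rw [← Real.rpow_add hy0]
        norm_num
      calc C * Real.log a ^ 2 ≤ y ^ (1 / 2 : ℝ) * y ^ (1 / 2 : ℝ) :=
            mul_le_mul hy3 (h7.trans h8) (by positivity) (by positivity)
        _ = y := h9
    refine I1_PB_mono ha0 (hbase y a hyY₀ h1 h6 Q h3 h4 h5 i) ?_
    rw [hr₀]
    have : 0 < y ^ (-c₁) := Real.rpow_pos_of_pos hy0 _
    gcongr
  have hyc1 : r₀ ≤ C * y ^ (-c) := by
    have h1 : l ^ K₁ * y ^ (-c₁) ≤ y ^ (-c) := by
      rw [hl, ← Real.rpow_natCast, ← Real.rpow_mul hy0.le, ← Real.rpow_add hy0]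
      apply Real.rpow_le_rpow_of_exponent_le hy1'
      have : c ≤ c₁ / 2 := min_le_left _ _
      linarith
    rw [hr₀, mul_assoc]
    exact mul_le_mul_of_nonneg_left h1 hC.le
  have hyc0 : 0 < y ^ (-c) := Real.rpow_pos_of_pos hy0 _
  rcases lt_or_ge (Real.log a) (lo * l) with hcase | hcase
  · -- small windows
    have hal : Real.log a ≤ l := by nlinarith
    refine I1_PB_mono ha0 (hmod a 1 (by linarith) hal one_pos ?_ (fun v => ?_) i) ?_
    · rw [Nat.cast_one, Real.log_one]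
      positivity
    · rw [Nat.cast_one]
      exact isCoprime_one_right
    · refine hyc1.trans ?_
      have : 0 ≤ K * (1 / lo) ^ B * y ^ (-c) := by positivity
      nlinarith
  · have hit := iter' (S := G.Av y) (B := B) (Qf := fun a => G.md (fl ρ (ν * Real.log a))) (lo := lo)
      (hi := hi) (L₀ := L₀) (C := Cs) (l := l) (ρ₀ := r₀) hB1 hlo hlh hhi hCs (hst (G.Av y) (G.av_inv y)) hr₀0 hl0 hlL
      (by
        intro a' ha' h1 h2 i'
        have hla' : 0 < Real.log a' := lt_of_lt_of_le (by positivity) h1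
        refine hmod a' _ ?_ h2 (G.md_pos _) ?_ (fun v => ?_) i'
        · have h3 : Real.log y ≤ Real.log a' := hy1.trans h1
          have h4 := (Real.log_le_log_iff hy0 ha').1 h3
          linarith
        · refine (G.log_md_fl_le h (by positivity)).trans ?_
          have := mul_le_mul_of_nonneg_right hνκ hla'.le
          linarith
        · have := G.cop_of_dvd (D := G.md (fl ρ (ν * Real.log a'))) (R := 1) dvd_rfl (one_dvd _) v
          rwa [mul_one] at this)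
      a ha0 hcase i
    refine PB.coarse ha0 (G.md_pos _) (one_dvd _) (I1_PB_mono ha0 hit ?_)
    have h1 : (1 / (lo * l)) ^ B ≤ (1 / lo) ^ B * y ^ (-c) := by
      have h2 : 1 / (lo * l) = 1 / lo * (1 / l) := by rw [one_div_mul_one_div]
      rw [h2, mul_pow]
      apply mul_le_mul_of_nonneg_left _ (by positivity)
      rw [one_div_pow, hl, ← Real.rpow_natCast, ← Real.rpow_mul hy0.le, one_div, ← Real.rpow_neg hy0.le]
      apply Real.rpow_le_rpow_of_exponent_le hy1'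
      have : c ≤ 1 := min_le_right _ _
      linarith
    calc r₀ + K * (1 / (lo * l)) ^ B ≤ C * y ^ (-c) + K * ((1 / lo) ^ B * y ^ (-c)) :=
          add_le_add hyc1 (mul_le_mul_of_nonneg_left h1 hK0.le)
      _ = _ := by ring

/-- uniform power saving for graph directed systems which contract on average -/
theorem power (h : G.Irr ρ) (hd : G.mm ρ < G.hh ρ) : ∃ c A : ℝ, 0 < c ∧ 0 < A ∧ ∀ X y : ℝ, 1 ≤ X → 1 ≤ y → ∀ i,
    ({x : ℤ | |(x : ℝ)| ≤ X ∧ ∀ k : ℕ, y < |(((G.step^[k] (i, x)).2 : ℤ) : ℝ)|}.ncard : ℝ) ≤ A * X / y ^ c := by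
  obtain ⟨c, A, Y₁, hc, hA, hY₁, hw⟩ := G.windows h hd
  have hY₁0 : 0 < Y₁ := by linarith
  have hYc : 0 < Y₁ ^ c := Real.rpow_pos_of_pos hY₁0 _
  refine ⟨c, 4 * A + 3 * Y₁ ^ c, hc, by positivity, fun X y hX hy i => ?_⟩
  have hy0 : 0 < y := by linarith
  have hyc : 0 < y ^ c := Real.rpow_pos_of_pos hy0 _
  rw [le_div_iff₀ hyc]
  rcases lt_or_ge y Y₁ with hyY | hyY
  · have h4 := ncard_trivial X hX
      {x : ℤ | |(x : ℝ)| ≤ X ∧ ∀ k : ℕ, y < |(((G.step^[k] (i, x)).2 : ℤ) : ℝ)|} (fun x hx => hx.1)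
    have h5 : y ^ c ≤ Y₁ ^ c := Real.rpow_le_rpow hy0.le hyY.le hc.le
    calc ({x : ℤ | |(x : ℝ)| ≤ X ∧ ∀ k : ℕ, y < |(((G.step^[k] (i, x)).2 : ℤ) : ℝ)|}.ncard : ℝ) * y ^ c
        ≤ 3 * X * Y₁ ^ c := mul_le_mul h4 h5 hyc.le (by positivity)
      _ ≤ _ := by
          have : 0 ≤ 4 * A * X := by positivity
          linarith
  · have hr : 0 ≤ A * y ^ (-c) := by
      have := Real.rpow_pos_of_pos hy0 (-c)
      positivity
    obtain ⟨n, hn⟩ := pow_unbounded_of_one_lt (2 * X) (show (1 : ℝ) < 2 by norm_num)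
    have h1 := I1_sum (G.av_gt y i) hr (fun a ha _ => hw y hyY a ha i) n (2 * X) (by linarith) (by
      have : (2 : ℝ) ^ n ≤ y * 2 ^ n := le_mul_of_one_le_left (by positivity) (by linarith)
      linarith)
    have hsub : {x : ℤ | |(x : ℝ)| ≤ X ∧ ∀ k : ℕ, y < |(((G.step^[k] (i, x)).2 : ℤ) : ℝ)|} ⊆
        {x : ℤ | x ∈ G.Av y i ∧ |(x : ℝ)| < 2 * X} := by
      rintro x ⟨h2, h3⟩
      exact ⟨h3, by linarith⟩
    have h2 := Set.ncard_le_ncard hsub (I1_window_finite (G.Av y i) _)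
    have h3 : ({x : ℤ | |(x : ℝ)| ≤ X ∧ ∀ k : ℕ, y < |(((G.step^[k] (i, x)).2 : ℤ) : ℝ)|}.ncard : ℝ) ≤
        ({x : ℤ | x ∈ G.Av y i ∧ |(x : ℝ)| < 2 * X}.ncard : ℝ) := by exact_mod_cast h2
    have h4 := h3.trans h1
    have h5 : y ^ (-c) * y ^ c = 1 := by
      rw [← Real.rpow_add hy0]
      simp
    calc ({x : ℤ | |(x : ℝ)| ≤ X ∧ ∀ k : ℕ, y < |(((G.step^[k] (i, x)).2 : ℤ) : ℝ)|}.ncard : ℝ) * y ^ c
        ≤ 2 * (A * y ^ (-c)) * (2 * X) * y ^ c := mul_le_mul_of_nonneg_right h4 hyc.le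
      _ = 4 * A * X * (y ^ (-c) * y ^ c) := by ring
      _ = 4 * A * X := by rw [h5, mul_one]
      _ ≤ _ := by
          have : 0 ≤ 3 * Y₁ ^ c * X := by positivity
          linarith

end GS

end Pool.Agent.Zk39.GD
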