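import Mathlib
import Pool.Agent.Zk39.GD.Final
import Pool.Agent.Zk39.GD.Power2

/-!
# Leigh's classes with `Λ_C < 1`: uniform power saving
-/

set_option autoImplicit false
set_option linter.unusedSectionVars false

namespace Pool.Agent.Zk39.GD

open Finset Pool.Agent.H319R2.Leigh Pool.Agent.W44.LM Filter Topology
open Pool.Agent.H319R3.GC (ncard_trivial)

variable {d : ℕ} {m r b : ℤ → ℤ} {e : ℤ → ℕ} {C : Finset (ℤ × ℕ)} {ρ : ℤ × ℕ → ℝ}

/-- the main theorem for Leigh's classes, with power saving -/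
theorem leigh_power (D : Data d m r b e) (hC : Class d m r e C ρ) (hL : Lam d m C ρ < 1) :
    ∃ c : ℝ, 0 < c ∧ ∃ A : ℝ, ∀ X y : ℝ, 1 ≤ X → 1 ≤ y →
      (Set.ncard {x : ℤ | x ∈ S d C ∧ |(x : ℝ)| ≤ X ∧ ∀ n : ℕ, y < |(((T d m r)^[n] x : ℤ) : ℝ)|} : ℝ) ≤
        A * X / y ^ c := by
  classical
  obtain ⟨K, hK, htr⟩ := transfer D hC
  obtain ⟨c, A, hc, hA, hmain⟩ := (LG D hC).power (irr D hC) (drift D hC hL)
  set N : ℝ := (Fintype.card {B // B ∈ C} : ℝ) with hN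
  have hN0 : 0 ≤ N := Nat.cast_nonneg _
  have hKc : 0 < (2 * K) ^ c := Real.rpow_pos_of_pos (by linarith) _
  refine ⟨c, hc, 3 * (2 * K) ^ c + N * (A * 2 * (2 * K) ^ c), fun X y hX hy => ?_⟩
  have hy0 : 0 < y := by linarith
  have hyc : 0 < y ^ c := Real.rpow_pos_of_pos hy0 _
  rcases lt_or_ge y (2 * K) with hyY | hyY
  · refine (ncard_trivial X hX _ fun x hx => hx.2.1).trans ?_
    rw [le_div_iff₀ hyc]
    have h5 : y ^ c ≤ (2 * K) ^ c := Real.rpow_le_rpow hy0.le hyY.le hc.le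
    have h6 : 0 ≤ N * (A * 2 * (2 * K) ^ c) * X := by positivity
    have h7 : 3 * X * y ^ c ≤ 3 * X * (2 * K) ^ c := by gcongr
    nlinarith
  · have hle : y / (2 * K) ≤ y / K - 1 := by
      rw [div_sub_one (by linarith), div_le_div_iff₀ (by linarith) (by linarith)]
      nlinarith
    have h1y : 1 ≤ y / (2 * K) := by
      rw [le_div_iff₀ (by linarith)]
      linarith
    refine (htr X y hX).trans ?_
    have h1 : ∀ B : {B // B ∈ C}, (Set.ncard {u : ℤ | |(u : ℝ)| ≤ 2 * X ∧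
        ∀ n : ℕ, y / K - 1 < |((((LG D hC).step^[n] (B, u)).2 : ℤ) : ℝ)|} : ℝ) ≤
        A * (2 * X) / (y / (2 * K)) ^ c := by
      intro B
      refine le_trans ?_ (hmain (2 * X) (y / (2 * K)) (by linarith) h1y B)
      have hsub : {u : ℤ | |(u : ℝ)| ≤ 2 * X ∧
        ∀ n : ℕ, y / K - 1 < |((((LG D hC).step^[n] (B, u)).2 : ℤ) : ℝ)|} ⊆ {u : ℤ | |(u : ℝ)| ≤ 2 * X ∧
        ∀ n : ℕ, y / (2 * K) < |((((LG D hC).step^[n] (B, u)).2 : ℤ) : ℝ)|} :=
        fun u hu => ⟨hu.1, fun n => hle.trans_lt (hu.2 n)⟩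
      exact_mod_cast Set.ncard_le_ncard hsub (fin_le (2 * X) _ fun u hu => hu.1)
    refine (sum_le_sum fun B _ => h1 B).trans ?_
    rw [sum_const, card_univ, nsmul_eq_mul, ← hN, Real.div_rpow hy0.le (by linarith)]
    have e1 : N * (A * (2 * X) / (y ^ c / (2 * K) ^ c)) = N * (A * 2 * (2 * K) ^ c) * X / y ^ c := by
      field_simp
    rw [e1]
    apply div_le_div_of_nonneg_right _ hyc.le
    apply mul_le_mul_of_nonneg_right _ (by linarith)
    have : 0 ≤ 3 * (2 * K) ^ c := by positivity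
    linarith

end Pool.Agent.Zk39.GD
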